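import Pool.Agent.Helper12.SS.AdvDefs

/-!
# Rudimentary sets with advice: closure properties
-/

set_option autoImplicit false

namespace Pool.Agent.Helper38.DG

open Pool.Agent.Helper20.Spectra
open Pool.Agent.Helper12.SS (RudAdv StmtAdvOf StmtAdvFin StmtAdvWin StmtAdvPre)

namespace AdvT

/-- no second-order variables -/
abbrev nA : Empty → ℕ := fun x => x.elim

/-! ### pairing -/

/-- a polynomial pairing function -/
def pr (x y : ℕ) : ℕ := (x + y) ^ 2 + x

lemma pr_inj {x y x' y' : ℕ} (h : pr x y = pr x' y') : x = x' ∧ y = y' := by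
  unfold pr at h
  have h1 : x + y = x' + y' := by
    rcases lt_trichotomy (x + y) (x' + y') with h2 | h2 | h2
    · exfalso
      have : (x + y + 1) ^ 2 ≤ (x' + y') ^ 2 := Nat.pow_le_pow_left h2 2
      nlinarith
    · exact h2
    · exfalso
      have : (x' + y' + 1) ^ 2 ≤ (x + y) ^ 2 := Nat.pow_le_pow_left h2 2
      nlinarith
  rw [h1] at h
  omega

lemma le_pr_left (x y : ℕ) : x ≤ pr x y := by
  unfold pr; omega

lemma le_pr_right (x y : ℕ) : y ≤ pr x y := by
  have h := Nat.le_self_pow (n := 2) (by norm_num) (x + y)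
  unfold pr
  omega

/-- iterated pairing -/
def code : (m : ℕ) → (Fin m → ℕ) → ℕ
  | 0, _ => 0
  | m + 1, v => pr (v 0) (code m (Fin.tail v))

lemma code_inj : ∀ (m : ℕ) (v w : Fin m → ℕ), code m v = code m w → v = w
  | 0, v, w, _ => Subsingleton.elim _ _
  | m + 1, v, w, h => by
    obtain ⟨h1, h2⟩ := pr_inj h
    have h3 := code_inj m _ _ h2
    rw [← Fin.cons_self_tail v, ← Fin.cons_self_tail w, h1, h3]

lemma code_bound (c : ℕ) : ∀ m : ℕ, ∃ c', ∀ B, 2 ≤ B → ∀ v : Fin m → ℕ, (∀ i, v i ≤ B ^ c) →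
    code m v ≤ B ^ c'
  | 0 => ⟨0, fun B _ v _ => by simp [code]⟩
  | m + 1 => by
    obtain ⟨d, hd⟩ := code_bound c m
    refine ⟨2 * (c + d + 1) + 1, fun B hB v hv => ?_⟩
    have h1 := hv 0
    have h2 := hd B hB (Fin.tail v) (fun i => hv i.succ)
    have hB1 : 1 ≤ B := by omega
    change pr (v 0) (code m (Fin.tail v)) ≤ _
    unfold pr
    have h3 : B ^ c ≤ B ^ (c + d) := Nat.pow_le_pow_right hB1 (by omega)
    have h4 : B ^ d ≤ B ^ (c + d) := Nat.pow_le_pow_right hB1 (by omega)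
    have h5 : v 0 + code m (Fin.tail v) ≤ B ^ (c + d + 1) := by
      calc v 0 + code m (Fin.tail v) ≤ 2 * B ^ (c + d) := by omega
        _ ≤ B * B ^ (c + d) := Nat.mul_le_mul_right _ hB
        _ = B ^ (c + d + 1) := by rw [pow_succ]; ring
    have h7 : v 0 ≤ B ^ (2 * (c + d + 1)) :=
      h1.trans (Nat.pow_le_pow_right hB1 (by omega))
    have h8 : (v 0 + code m (Fin.tail v)) ^ 2 ≤ B ^ (2 * (c + d + 1)) := by
      calc (v 0 + code m (Fin.tail v)) ^ 2 ≤ (B ^ (c + d + 1)) ^ 2 := Nat.pow_le_pow_left h5 2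
        _ = B ^ (2 * (c + d + 1)) := by rw [← pow_mul]; ring_nf
    calc (v 0 + code m (Fin.tail v)) ^ 2 + v 0 ≤ 2 * B ^ (2 * (c + d + 1)) := by omega
      _ ≤ B * B ^ (2 * (c + d + 1)) := Nat.mul_le_mul_right _ hB
      _ = B ^ (2 * (c + d + 1) + 1) := by rw [pow_succ]; ring

/-! ### predicates of tuples of advices -/

/-- `P` is rudimentary in two families of variables -/
def RP (m k : ℕ) (P : (Fin m → ℕ) → (Fin k → ℕ) → Prop) : Prop :=
  ∀ (l : ℕ) (s : Fin m → (Fin l → ℕ) → ℕ) (t : Fin k → (Fin l → ℕ) → ℕ),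
    (∀ i, Helper20.Spectra.IsPoly l (s i)) → (∀ j, Helper20.Spectra.IsPoly l (t j)) →
      RudX nA l (fun _ z => P (fun i => s i z) (fun j => t j z))

lemma RP.decode (m : ℕ) : ∀ (k : ℕ) (P : (Fin m → ℕ) → (Fin k → ℕ) → Prop), RP m k P →
    ∀ (l : ℕ) (y : (Fin l → ℕ) → ℕ) (t : Fin k → (Fin l → ℕ) → ℕ),
      Helper20.Spectra.IsPoly l y → (∀ j, Helper20.Spectra.IsPoly l (t j)) →
    RudX nA l (fun _ z => ∃ v : Fin m → ℕ, code m v = y z ∧ P v (fun j => t j z)) := by
  induction m with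
  | zero =>
    intro k P hP l y t hy ht
    refine ((RudX.eq (Helper20.Spectra.IsPoly.const 0) hy).and'
      (hP l (fun i => i.elim0) t (fun i => i.elim0) ht)).congr (fun X z => ?_)
    constructor
    · rintro ⟨v, h1, h2⟩
      refine ⟨h1, ?_⟩
      have e : v = fun i => i.elim0 := funext fun i => i.elim0
      rw [e] at h2
      have e' : (fun i : Fin 0 => (i.elim0 : (Fin l → ℕ) → ℕ) z) = fun i => i.elim0 :=
        funext fun i => i.elim0
      rw [← e'] at h2
      exact h2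
    · rintro ⟨h1, h2⟩
      exact ⟨_, h1, h2⟩
  | succ m ihm =>
    intro k P hP l y t hy ht
    have hP' : RP m (k + 1) (fun v w => P (Fin.cons (w 0) v) (Fin.tail w)) := by
      intro l s t hs ht
      refine (hP l (Fin.cons (t 0) s) (fun j => t j.succ) ?_ (fun j => ht j.succ)).congr ?_
      · intro i
        refine Fin.cases ?_ (fun i => ?_) i
        · exact ht 0
        · exact hs i
      · intro X z
        have e : (Fin.cons (t 0 z) (fun i => s i z) : Fin (m + 1) → ℕ) =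
            fun i => (Fin.cons (t 0) s : Fin (m + 1) → (Fin l → ℕ) → ℕ) i z := by
          funext i
          refine Fin.cases ?_ (fun i => ?_) i
          · rfl
          · rfl
        change P (Fin.cons (t 0 z) (fun i => s i z)) (Fin.tail (fun j => t j z)) ↔ _
        rw [e]
        rfl
    have ih := ihm (k + 1) _ hP' (l + 1 + 1) (fun z => z 0)
      (Fin.cons (fun z => z 1) (fun j z => t j (Fin.tail (Fin.tail z))))
      (Helper20.Spectra.IsPoly.var 0) (by
        intro j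
        refine Fin.cases ?_ (fun j => ?_) j
        · exact Helper20.Spectra.IsPoly.var 1
        · exact (ht j).tail.tail)
    have h1 : RudX nA l (fun _ z => ∃ x, x ≤ y z ∧ ∃ y', y' ≤ y z ∧ (pr x y' = y z ∧
        ∃ v : Fin m → ℕ, code m v = y' ∧ P (Fin.cons x v) (fun j => t j z))) := by
      refine RudX.ex hy (RudX.ex hy.tail (RudX.and' ?_ ?_))
      · have w1 : Helper20.Spectra.IsPoly (l + 1 + 1) (fun w => Fin.tail w 0) :=
          Helper20.Spectra.IsPoly.var 1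
        exact RudX.eq (((w1.add (Helper20.Spectra.IsPoly.var 0)).pow 2).add w1) hy.tail.tail
      · refine ih.congr (fun X z => ?_)
        rfl
    refine h1.congr (fun X z => ?_)
    constructor
    · rintro ⟨v, h2, h3⟩
      refine ⟨v 0, h2 ▸ le_pr_left _ _, code m (Fin.tail v), h2 ▸ le_pr_right _ _, h2,
        Fin.tail v, rfl, ?_⟩
      rw [Fin.cons_self_tail]
      exact h3
    · rintro ⟨x, _, y', _, h2, v, h3, h4⟩
      refine ⟨Fin.cons x v, ?_, h4⟩
      rw [← h2, ← h3]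
      rfl

/-- a rudimentary set with a given section by the pairing function -/
lemma exists_pair {P : ℕ → ℕ → Prop} (hP : RudX nA 2 (fun _ z => P (z 0) (z 1))) :
    ∃ E : Set ℕ, IsRudimentary E ∧ ∀ n a : ℕ, ((n + a) ^ 2 + n ∈ E ↔ P n a) := by
  refine ⟨{x | ∃ n, n ≤ x ∧ ∃ a, a ≤ x ∧ ((n + a) ^ 2 + n = x ∧ P n a)}, ?_, ?_⟩
  · refine isRudimentary_of (RudX.ex (Helper20.Spectra.IsPoly.var 0)
      (RudX.ex (t := fun w => Fin.tail w 0) (Helper20.Spectra.IsPoly.var 1) (RudX.and' ?_ ?_)))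
    · have w1 : Helper20.Spectra.IsPoly (1 + 1 + 1) (fun w => Fin.tail w 0) :=
        Helper20.Spectra.IsPoly.var 1
      have w2 : Helper20.Spectra.IsPoly (1 + 1 + 1) (fun w => Fin.tail (Fin.tail w) 0) :=
        Helper20.Spectra.IsPoly.var 2
      exact RudX.eq (((w1.add (Helper20.Spectra.IsPoly.var 0)).pow 2).add w1) w2
    · refine (hP.subst (1 + 1 + 1) ![fun z => z 1, fun z => z 0] ?_).congr ?_
      · intro i
        fin_cases i
        · exact Helper20.Spectra.IsPoly.var 1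
        · exact Helper20.Spectra.IsPoly.var 0
      · intro X z
        rfl
  · intro n a
    constructor
    · rintro ⟨n', _, a', _, h1, h2⟩
      obtain ⟨h3, h4⟩ := pr_inj (x := n') (y := a') (x' := n) (y' := a) h1
      rw [h3, h4] at h2
      exact h2
    · intro h
      exact ⟨n, le_pr_left n a, a, le_pr_right n a, rfl, h⟩

/-! ### polynomials -/

lemma eval_mono (q : Polynomial ℕ) {x y : ℕ} (h : x ≤ y) : q.eval x ≤ q.eval y := by
  rw [Polynomial.eval_eq_sum_range, Polynomial.eval_eq_sum_range]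
  exact Finset.sum_le_sum (fun i _ => Nat.mul_le_mul_left _ (Nat.pow_le_pow_left h i))

lemma eval_two_mul (q : Polynomial ℕ) (x : ℕ) :
    q.eval (2 * x) ≤ 2 ^ q.natDegree * q.eval x := by
  rw [Polynomial.eval_eq_sum_range, Polynomial.eval_eq_sum_range, Finset.mul_sum]
  refine Finset.sum_le_sum (fun i hi => ?_)
  have h1 : i ≤ q.natDegree := Nat.lt_succ_iff.1 (Finset.mem_range.1 hi)
  calc q.coeff i * (2 * x) ^ i = 2 ^ i * (q.coeff i * x ^ i) := by rw [mul_pow]; ring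
    _ ≤ 2 ^ q.natDegree * (q.coeff i * x ^ i) :=
        Nat.mul_le_mul_right _ (Nat.pow_le_pow_right (by norm_num) h1)

lemma eval_le (q : Polynomial ℕ) {x : ℕ} (hx : 1 ≤ x) :
    q.eval x ≤ q.eval 1 * x ^ q.natDegree := by
  rw [Polynomial.eval_eq_sum_range, Polynomial.eval_eq_sum_range, Finset.sum_mul]
  refine Finset.sum_le_sum (fun i hi => ?_)
  have h1 : i ≤ q.natDegree := Nat.lt_succ_iff.1 (Finset.mem_range.1 hi)
  rw [one_pow, mul_one]
  exact Nat.mul_le_mul_left _ (Nat.pow_le_pow_right hx h1)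

lemma eval_pos {q : Polynomial ℕ} (hq : q ≠ 0) {x : ℕ} (hx : 1 ≤ x) : 1 ≤ q.eval x := by
  rw [Polynomial.eval_eq_sum_range]
  have h1 : 1 ≤ q.coeff q.natDegree * x ^ q.natDegree := by
    have h2 : q.coeff q.natDegree ≠ 0 := by
      rw [Polynomial.coeff_natDegree]
      exact Polynomial.leadingCoeff_ne_zero.2 hq
    exact Nat.mul_pos (Nat.pos_of_ne_zero h2) (Nat.pow_pos hx)
  refine h1.trans ?_
  exact Finset.single_le_sum (f := fun i => q.coeff i * x ^ i) (fun i _ => Nat.zero_le _)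
    (Finset.mem_range.2 (Nat.lt_succ_self _))

end AdvT

open AdvT

theorem advOf : StmtAdvOf := by
  intro A hA
  obtain ⟨E, hE, h⟩ := exists_pair (P := fun n _ => n ∈ A)
    (RudX.mem hA (Helper20.Spectra.IsPoly.var 0))
  exact ⟨E, 0, hE, fun N _ => ⟨0, Nat.zero_le _, fun n _ _ => (h n 0).symm⟩⟩

theorem advFin : StmtAdvFin := by
  classical
  intro A B n₀ hA h
  obtain ⟨E, c, hE, hA⟩ := hA
  obtain ⟨E', hE', h'⟩ := exists_pair (P := fun n a => (n₀ ≤ n ∧ (n + a) ^ 2 + n ∈ E) ∨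
      ∃ m ∈ (Finset.range n₀).filter (fun m => m ∈ B), n = m)
    (RudX.or (RudX.and' (RudX.le (Helper20.Spectra.IsPoly.const _)
        (Helper20.Spectra.IsPoly.var 0))
      (RudX.mem hE ((((Helper20.Spectra.IsPoly.var 0).add (Helper20.Spectra.IsPoly.var 1)).pow
        2).add (Helper20.Spectra.IsPoly.var 0))))
      (RudX.ex_finset _ (fun m _ => RudX.eq (Helper20.Spectra.IsPoly.var 0)
        (Helper20.Spectra.IsPoly.const m))))
  refine ⟨E', c, hE', fun N hN => ?_⟩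
  obtain ⟨a, ha, h2⟩ := hA N hN
  refine ⟨a, ha, fun n hn1 hn2 => ?_⟩
  rw [h']
  simp only [Finset.mem_filter, Finset.mem_range]
  constructor
  · intro hn
    by_cases h3 : n₀ ≤ n
    · exact Or.inl ⟨h3, (h2 n hn1 hn2).1 ((h n h3).2 hn)⟩
    · exact Or.inr ⟨n, ⟨by omega, hn⟩, rfl⟩
  · rintro (⟨h3, h4⟩ | ⟨m, ⟨_, h4⟩, h5⟩)
    · exact (h n h3).1 ((h2 n hn1 hn2).2 h4)
    · rw [h5]; exact h4

theorem advWin : StmtAdvWin := by
  intro A hA j
  obtain ⟨E, c, hE, hA⟩ := hA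
  have hP : RP (j + 1 + 1) 1 (fun v w => ∃ i : Fin (j + 1), 2 ^ (i : ℕ) * v 0 ≤ w 0 ∧
      w 0 < 2 ^ ((i : ℕ) + 1) * v 0 ∧ (w 0 + v i.succ) ^ 2 + w 0 ∈ E) := by
    intro l s t hs ht
    refine RudX.ex_fin (fun i => RudX.and' ?_ (RudX.and' ?_ ?_))
    · exact RudX.le ((Helper20.Spectra.IsPoly.const _).mul (hs 0)) (ht 0)
    · exact RudX.lt (ht 0) ((Helper20.Spectra.IsPoly.const _).mul (hs 0))
    · exact RudX.mem hE ((((ht 0).add (hs i.succ)).pow 2).add (ht 0))
  have h1 := RP.decode (j + 1 + 1) 1 _ hP 2 (fun z => z 1) (fun _ z => z 0)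
    (Helper20.Spectra.IsPoly.var 1) (fun _ => Helper20.Spectra.IsPoly.var 0)
  obtain ⟨E', hE', h'⟩ := exists_pair (P := fun n a => ∃ v : Fin (j + 1 + 1) → ℕ,
    code (j + 1 + 1) v = a ∧ ∃ i : Fin (j + 1), 2 ^ (i : ℕ) * v 0 ≤ n ∧
      n < 2 ^ ((i : ℕ) + 1) * v 0 ∧ (n + v i.succ) ^ 2 + n ∈ E) h1
  obtain ⟨c', hc'⟩ := code_bound (c * (j + 1) + 1) (j + 1 + 1)
  refine ⟨E', c', hE', fun N hN => ?_⟩
  choose a ha h2 using fun i : ℕ => hA (2 ^ i * N) (Nat.mul_pos (by positivity) hN)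
  refine ⟨code (j + 1 + 1) (Fin.cons N (fun i : Fin (j + 1) => a i)), ?_, fun n hn1 hn2 => ?_⟩
  · refine hc' (N + 1) (by omega) _ (fun i => ?_)
    refine Fin.cases ?_ (fun i => ?_) i
    · rw [Fin.cons_zero]
      calc N ≤ (N + 1) ^ 1 := by rw [pow_one]; omega
        _ ≤ (N + 1) ^ (c * (j + 1) + 1) := Nat.pow_le_pow_right (by omega) (by omega)
    · rw [Fin.cons_succ]
      have h3 : 2 ^ (i : ℕ) * N + 1 ≤ (N + 1) ^ (j + 1) := by
        calc 2 ^ (i : ℕ) * N + 1 ≤ 2 ^ (i : ℕ) * (N + 1) := by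
              have : 1 ≤ 2 ^ (i : ℕ) := Nat.one_le_two_pow
              rw [Nat.mul_add, Nat.mul_one]
              omega
          _ ≤ (N + 1) ^ (i : ℕ) * (N + 1) :=
              Nat.mul_le_mul_right _ (Nat.pow_le_pow_left (by omega) _)
          _ = (N + 1) ^ ((i : ℕ) + 1) := by rw [pow_succ]
          _ ≤ (N + 1) ^ (j + 1) := Nat.pow_le_pow_right (by omega) (by have := i.2; omega)
      calc a i ≤ (2 ^ (i : ℕ) * N + 1) ^ c := ha i
        _ ≤ ((N + 1) ^ (j + 1)) ^ c := Nat.pow_le_pow_left h3 c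
        _ = (N + 1) ^ (c * (j + 1)) := by rw [← pow_mul]; ring_nf
        _ ≤ (N + 1) ^ (c * (j + 1) + 1) := Nat.pow_le_pow_right (by omega) (by omega)
  · rw [h']
    constructor
    · intro hn
      have hN0 : N ≠ 0 := by omega
      have h3 : 1 ≤ n / N := (Nat.one_le_div_iff hN).2 hn1
      have h4 : n / N < 2 ^ (j + 1) := (Nat.div_lt_iff_lt_mul hN).2 hn2
      have h5 : Nat.log 2 (n / N) < j + 1 := Nat.log_lt_of_lt_pow (by omega) h4
      have h6 : 2 ^ Nat.log 2 (n / N) ≤ n / N := Nat.pow_log_le_self 2 (by omega)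
      have h7 : n / N < 2 ^ (Nat.log 2 (n / N) + 1) := Nat.lt_pow_succ_log_self (by norm_num) _
      have h8 : 2 ^ Nat.log 2 (n / N) * N ≤ n := (Nat.le_div_iff_mul_le hN).1 h6
      have h9 : n < 2 ^ (Nat.log 2 (n / N) + 1) * N := (Nat.div_lt_iff_lt_mul hN).1 h7
      refine ⟨_, rfl, ⟨Nat.log 2 (n / N), h5⟩, h8, h9, ?_⟩
      rw [Fin.cons_succ]
      refine (h2 _ n h8 ?_).1 hn
      rw [pow_succ] at h9
      calc n < 2 ^ Nat.log 2 (n / N) * 2 * N := h9
        _ = 2 * (2 ^ Nat.log 2 (n / N) * N) := by ring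
    · rintro ⟨v, h3, i, h4, h5, h6⟩
      have h7 := code_inj _ _ _ h3
      rw [h7] at h4 h5 h6
      rw [Fin.cons_zero] at h4 h5
      rw [Fin.cons_succ] at h6
      refine (h2 _ n h4 ?_).2 h6
      rw [pow_succ] at h5
      calc n < 2 ^ (i : ℕ) * 2 * N := h5
        _ = 2 * (2 ^ (i : ℕ) * N) := by ring

theorem advPre : StmtAdvPre := by
  intro A q hA
  by_cases hq : q = 0
  · refine advOf _ (isRudimentary_of ?_)
    refine ((RudX.le (Helper20.Spectra.IsPoly.const 1) (Helper20.Spectra.IsPoly.var 0)).and'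
      (RudX.const (0 ∈ A))).congr (fun X v => ?_)
    simp [hq]
  obtain ⟨E, c, hE, hW⟩ := advWin A hA q.natDegree
  obtain ⟨E', hE', h'⟩ := exists_pair
    (P := fun n a => 1 ≤ n ∧ (q.eval n + a) ^ 2 + q.eval n ∈ E)
    (RudX.and' (RudX.le (Helper20.Spectra.IsPoly.const 1) (Helper20.Spectra.IsPoly.var 0))
      (RudX.mem hE ((((Helper20.Spectra.IsPoly.polyEval q (Helper20.Spectra.IsPoly.var 0)).add
        (Helper20.Spectra.IsPoly.var 1)).pow 2).add
          (Helper20.Spectra.IsPoly.polyEval q (Helper20.Spectra.IsPoly.var 0)))))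
  refine ⟨E', (q.eval 1 + q.natDegree + 1) * c, hE', fun N hN => ?_⟩
  obtain ⟨a, ha, h2⟩ := hW (q.eval N) (eval_pos hq hN)
  refine ⟨a, ha.trans ?_, fun n hn1 hn2 => ?_⟩
  · rw [pow_mul]
    refine Nat.pow_le_pow_left ?_ c
    have h3 := eval_le q hN
    calc q.eval N + 1 ≤ q.eval 1 * N ^ q.natDegree + 1 := by omega
      _ ≤ q.eval 1 * (N + 1) ^ q.natDegree + (N + 1) ^ q.natDegree :=
          Nat.add_le_add (Nat.mul_le_mul_left _ (Nat.pow_le_pow_left (by omega) _))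
            (Nat.one_le_pow _ _ (by omega))
      _ = (q.eval 1 + 1) * (N + 1) ^ q.natDegree := by ring
      _ ≤ 2 ^ (q.eval 1 + 1) * (N + 1) ^ q.natDegree :=
          Nat.mul_le_mul_right _ Nat.lt_two_pow_self.le
      _ ≤ (N + 1) ^ (q.eval 1 + 1) * (N + 1) ^ q.natDegree :=
          Nat.mul_le_mul_right _ (Nat.pow_le_pow_left (by omega) _)
      _ = (N + 1) ^ (q.eval 1 + q.natDegree + 1) := by rw [← pow_add]; ring_nf
  · rw [h']
    change (1 ≤ n ∧ q.eval n ∈ A) ↔ _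
    refine and_congr_right (fun hn => ?_)
    refine h2 _ (eval_mono q hn1) ?_
    calc q.eval n ≤ q.eval (2 * N) := eval_mono q hn2.le
      _ ≤ 2 ^ q.natDegree * q.eval N := eval_two_mul q N
      _ < 2 ^ (q.natDegree + 1) * q.eval N := by
          have := eval_pos hq hN
          have h5 : 0 < 2 ^ q.natDegree * q.eval N := Nat.mul_pos (by positivity) this
          rw [pow_succ]
          calc 2 ^ q.natDegree * q.eval N < 2 ^ q.natDegree * q.eval N +
                2 ^ q.natDegree * q.eval N := by omega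
            _ = 2 ^ q.natDegree * 2 * q.eval N := by ring

end Pool.Agent.Helper38.DG
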