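import Pool.Agent.Helper38.DG.Defs
import Pool.Agent.Helper14.SS.Defs

/-!
# From the syntax of small set formulas to the inductive class
-/

set_option autoImplicit false

namespace Pool.Agent.Helper38.DG

open FirstOrder FirstOrder.Language Pool.Agent.Helper20.Spectra Pool.Agent.Helper14.SS

lemma asf_congr {s : ℕ → ℕ} {j k : ℕ} {P Q : ℕ → (Fin j → Set ℕ) → (Fin k → ℕ) → Prop}
    (h : ASF s j k P) (hPQ : ∀ n Z v, Q n Z v ↔ P n Z v) : ASF s j k Q := by
  have : P = Q := by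
    funext n Z v
    exact propext (hPQ n Z v).symm
  exact this ▸ h

lemma cons_val {r n : ℕ} (w : Fin r → Fin n) (x : Fin n) :
    (fun i => ((Fin.cons x w : Fin (r + 1) → Fin n) i : ℕ)) =
      Fin.cons (x : ℕ) (fun i => (w i : ℕ)) := by
  funext i
  refine Fin.cases ?_ (fun i => ?_) i <;> rfl

/-- terms are variables -/
lemma term_var {α : Type} (t : ArL.Term α) : ∃ a, t = Term.var a := by
  cases t with
  | var a => exact ⟨a, rfl⟩
  | func f _ => exact Empty.elim f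

lemma asf_eq (s : ℕ → ℕ) (j k : ℕ) (x y : Fin k) :
    ASF s j k (fun n _ v => ∃ z, z < n ∧ (z + z = z ∧ v x + z = v y)) :=
  (ASF.ex j k _ (ASF.and j (k + 1) _ _ (ASF.add j (k + 1) 0 0 0)
    (ASF.add j (k + 1) x.succ 0 y.succ)))

lemma asf_false (s : ℕ → ℕ) (j k : ℕ) : ASF s j k (fun _ _ _ => False) :=
  asf_congr (ASF.ex j k _ (ASF.and j (k + 1) _ _ (ASF.add j (k + 1) 0 0 0)
    (ASF.not j (k + 1) _ (ASF.add j (k + 1) 0 0 0)))) (fun n Z v => by
      constructor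
      · intro h; exact h.elim
      · rintro ⟨x, _, h1, h2⟩; exact h2 h1)

/-- first-order formulas -/
lemma bridge_fo (s : ℕ → ℕ) (j : ℕ) {k l : ℕ} (ψ : ArL.BoundedFormula (Fin k) l) :
    ∀ (r : ℕ) (g : Fin k → Fin r) (h : Fin l → Fin r),
      ∃ P : ℕ → (Fin j → Set ℕ) → (Fin r → ℕ) → Prop, ASF s j r P ∧
        ∀ (n : ℕ) (Z : Fin j → Set ℕ) (w : Fin r → Fin n),
          (@BoundedFormula.Realize ArL (Fin n) (mkS (arI n)) (Fin k) l ψ (w ∘ g) (w ∘ h) ↔
            P n Z (fun i => (w i : ℕ))) := by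
  induction ψ with
  | falsum =>
    intro r g h
    exact ⟨_, asf_false s j r, fun n Z w => Iff.rfl⟩
  | equal t₁ t₂ =>
    intro r g h
    obtain ⟨a, rfl⟩ := term_var t₁
    obtain ⟨b, rfl⟩ := term_var t₂
    refine ⟨_, asf_eq s j r (Sum.elim g h a) (Sum.elim g h b), fun n Z w => ?_⟩
    let _ := mkS (arI n)
    show (Term.realize _ _ = Term.realize _ _) ↔ _
    have e : ∀ c, (Sum.elim (w ∘ g) (w ∘ h) c : Fin n) = w (Sum.elim g h c) := by
      intro c
      rcases c with c | c <;> rfl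
    simp only [Term.realize_var, e]
    constructor
    · intro h1
      have := (w (Sum.elim g h a)).is_lt
      exact ⟨0, by omega, rfl, by rw [h1, add_zero]⟩
    · rintro ⟨z, _, h1, h2⟩
      apply Fin.ext
      omega
  | rel R ts =>
    intro r g h
    obtain ⟨c, rfl⟩ := R
    have hts := fun i => term_var (ts i)
    choose a ha using hts
    have e : ∀ (n : ℕ) (w : Fin r → Fin n) c, (Sum.elim (w ∘ g) (w ∘ h) c : Fin n) =
        w (Sum.elim g h c) := by
      intro n w c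
      rcases c with c | c <;> rfl
    cases c with
    | true =>
      refine ⟨_, ASF.add j r (Sum.elim g h (a 0)) (Sum.elim g h (a 1)) (Sum.elim g h (a 2)),
        fun n Z w => ?_⟩
      let _ := mkS (arI n)
      show ((Term.realize _ (ts 0) : Fin n) : ℕ) + ((Term.realize _ (ts 1) : Fin n) : ℕ) =
        ((Term.realize _ (ts 2) : Fin n) : ℕ) ↔ _
      rw [ha 0, ha 1, ha 2]
      simp only [Term.realize_var, e]
    | false =>
      refine ⟨_, ASF.mul j r (Sum.elim g h (a 0)) (Sum.elim g h (a 1)) (Sum.elim g h (a 2)),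
        fun n Z w => ?_⟩
      let _ := mkS (arI n)
      show ((Term.realize _ (ts 0) : Fin n) : ℕ) * ((Term.realize _ (ts 1) : Fin n) : ℕ) =
        ((Term.realize _ (ts 2) : Fin n) : ℕ) ↔ _
      rw [ha 0, ha 1, ha 2]
      simp only [Term.realize_var, e]
  | imp f₁ f₂ ih₁ ih₂ =>
    intro r g h
    obtain ⟨P, hP, hP'⟩ := ih₁ r g h
    obtain ⟨Q, hQ, hQ'⟩ := ih₂ r g h
    refine ⟨_, ASF.not j r _ (ASF.and j r _ _ hP (ASF.not j r _ hQ)), fun n Z w => ?_⟩
    let _ := mkS (arI n)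
    rw [BoundedFormula.realize_imp, hP' n Z w, hQ' n Z w]
    tauto
  | all f ih =>
    intro r g h
    obtain ⟨P, hP, hP'⟩ := ih (r + 1) (fun i => (g i).succ) (Fin.snoc (fun i => (h i).succ) 0)
    refine ⟨_, ASF.not j r _ (ASF.ex j r _ (ASF.not j (r + 1) _ hP)), fun n Z w => ?_⟩
    let _ := mkS (arI n)
    rw [BoundedFormula.realize_all]
    have key : ∀ x : Fin n, f.Realize (w ∘ g) (Fin.snoc (w ∘ h) x) ↔
        P n Z (Fin.cons (x : ℕ) (fun i => (w i : ℕ))) := by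
      intro x
      rw [← cons_val, ← hP' n Z (Fin.cons x w)]
      have e1 : ((Fin.cons x w : Fin (r + 1) → Fin n) ∘ fun i => (g i).succ) = w ∘ g := by
        funext i; rfl
      have e2 : ((Fin.cons x w : Fin (r + 1) → Fin n) ∘
          (Fin.snoc (fun i => (h i).succ) 0 : Fin (_ + 1) → Fin (r + 1))) =
          Fin.snoc (w ∘ h) x := by
        funext i
        refine Fin.lastCases ?_ (fun i => ?_) i
        · simp [Function.comp]
        · simp [Function.comp]
      rw [e1, e2]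
    constructor
    · rintro h1 ⟨x, hx, h2⟩
      exact h2 ((key ⟨x, hx⟩).1 (h1 ⟨x, hx⟩))
    · intro h1 x
      rw [key]
      by_contra h2
      exact h1 ⟨x, x.is_lt, h2⟩

/-- the set of numbers of a set of elements -/
def vals {n : ℕ} (X : Finset (Fin n)) : Set ℕ := {a | ∃ x ∈ X, (x : ℕ) = a}

lemma vals_eq {n : ℕ} (X : Finset (Fin n)) : vals X = ((X.map Fin.valEmbedding : Finset ℕ) : Set ℕ) := by
  ext a
  simp [vals]

lemma vals_small (s : ℕ → ℕ) {n : ℕ} (X : Finset (Fin n)) (h : X.card ≤ s n) :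
    Small s n (vals X) := by
  refine ⟨?_, ?_⟩
  · rintro a ⟨x, _, rfl⟩
    exact x.is_lt
  · rw [vals_eq, Set.ncard_coe_finset, Finset.card_map]
    exact h

lemma exists_vals (s : ℕ → ℕ) {n : ℕ} (Z : Set ℕ) (h : Small s n Z) :
    ∃ X : Finset (Fin n), X.card ≤ s n ∧ vals X = Z := by
  classical
  obtain ⟨X, hX⟩ : ∃ X : Finset (Fin n), vals X = Z := by
    refine ⟨Finset.univ.filter (fun x : Fin n => (x : ℕ) ∈ Z), ?_⟩
    ext a
    constructor
    · rintro ⟨x, hx, rfl⟩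
      exact (Finset.mem_filter.1 hx).2
    · intro ha
      exact ⟨⟨a, h.1 ha⟩, Finset.mem_filter.2 ⟨Finset.mem_univ _, ha⟩, rfl⟩
  refine ⟨X, ?_, hX⟩
  have h2 := h.2
  rw [← hX, vals_eq, Set.ncard_coe_finset, Finset.card_map] at h2
  exact h2

lemma cons_vals {m n : ℕ} (V : Fin m → Finset (Fin n)) (X : Finset (Fin n)) :
    (fun j => vals ((Fin.cons X V : Fin (m + 1) → Finset (Fin n)) j)) =
      Fin.cons (vals X) (fun j => vals (V j)) := by
  funext i
  refine Fin.cases ?_ (fun i => ?_) i <;> rfl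

/-- formulas with set quantifiers -/
lemma bridge (s : ℕ → ℕ) {k m : ℕ} (φ : SFm ArL k m) :
    ∃ P : ℕ → (Fin m → Set ℕ) → (Fin k → ℕ) → Prop, ASF s m k P ∧
      ∀ (n : ℕ) (v : Fin k → Fin n) (V : Fin m → Finset (Fin n)),
        (@SFm.Holds ArL (Fin n) (mkS (arI n)) (s n) k m φ v V ↔
          P n (fun j => vals (V j)) (fun i => (v i : ℕ))) := by
  induction φ with
  | @fo k m φ =>
    obtain ⟨P, hP, hP'⟩ := bridge_fo s m φ k id Fin.elim0
    refine ⟨P, hP, fun n v V => ?_⟩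
    rw [← hP' n _ v]
    have e : (v ∘ (Fin.elim0 : Fin 0 → Fin k)) = default := by
      funext i; exact i.elim0
    rw [e]
    exact Iff.rfl
  | @mem k m i j =>
    refine ⟨_, ASF.mem m k i j, fun n v V => ?_⟩
    show v i ∈ V j ↔ (v i : ℕ) ∈ vals (V j)
    constructor
    · intro h; exact ⟨v i, h, rfl⟩
    · rintro ⟨x, hx, h⟩
      rw [← Fin.ext h]
      exact hx
  | @not k m φ ih =>
    obtain ⟨P, hP, hP'⟩ := ih
    exact ⟨_, ASF.not m k _ hP, fun n v V => not_congr (hP' n v V)⟩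
  | @and k m φ ψ ih ih' =>
    obtain ⟨P, hP, hP'⟩ := ih
    obtain ⟨Q, hQ, hQ'⟩ := ih'
    exact ⟨_, ASF.and m k _ _ hP hQ, fun n v V => and_congr (hP' n v V) (hQ' n v V)⟩
  | @ex k m φ ih =>
    obtain ⟨P, hP, hP'⟩ := ih
    refine ⟨_, ASF.ex m k _ hP, fun n v V => ?_⟩
    show (∃ x : Fin n, _) ↔ _
    constructor
    · rintro ⟨x, hx⟩
      refine ⟨x, x.is_lt, ?_⟩
      rw [← cons_val, ← hP']
      exact hx
    · rintro ⟨x, hx, h⟩
      refine ⟨⟨x, hx⟩, (hP' n _ V).2 ?_⟩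
      rw [cons_val]
      exact h
  | @exSet k m φ ih =>
    obtain ⟨P, hP, hP'⟩ := ih
    refine ⟨_, ASF.exS m k _ hP, fun n v V => ?_⟩
    show (∃ X : Finset (Fin n), _ ∧ _) ↔ _
    constructor
    · rintro ⟨X, hc, hX⟩
      refine ⟨vals X, vals_small s X hc, ?_⟩
      rw [← cons_vals, ← hP']
      exact hX
    · rintro ⟨Z, hZ, h⟩
      obtain ⟨X, hc, rfl⟩ := exists_vals s Z hZ
      refine ⟨X, hc, (hP' n v _).2 ?_⟩
      rw [cons_vals]
      exact h

theorem setArith_rudS (s : ℕ → ℕ) (A : Set ℕ) (h : Pool.Agent.Helper14.SS.SetArith s A) :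
    RudS s A := by
  obtain ⟨φ, hA⟩ := h
  obtain ⟨P, hP, hP'⟩ := bridge s φ
  refine ⟨P, hP, ?_⟩
  rw [hA]
  ext n
  refine and_congr Iff.rfl ?_
  rw [hP' n Fin.elim0 Fin.elim0]
  have e1 : (fun j => vals ((Fin.elim0 : Fin 0 → Finset (Fin n)) j)) = Fin.elim0 := by
    funext i; exact i.elim0
  have e2 : (fun i => ((Fin.elim0 : Fin 0 → Fin n) i : ℕ)) = Fin.elim0 := by
    funext i; exact i.elim0
  rw [e1, e2]

theorem ll_mono : Monotone ll := fun _ _ h => Nat.log_mono_right (Nat.log_mono_right h)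

theorem ll_unb (b : ℕ) : ∃ n, b ≤ ll n := by
  refine ⟨2 ^ 2 ^ b, ?_⟩
  unfold ll
  rw [Nat.log_pow (by omega), Nat.log_pow (by omega)]

end Pool.Agent.Helper38.DG
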