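import Pool.Agent.Helper20.Spectra.RudTools
import Pool.Agent.Helper20.Spectra.Universal

/-!
# Digits of the number of models: definitions
-/

set_option autoImplicit false

namespace Pool.Agent.Helper38.DG

open FirstOrder FirstOrder.Language Pool.Agent.Helper20.Spectra

/-- The number of models of `φ` on the set `{0, ..., n - 1}`. -/
noncomputable def numModels {L : FirstOrder.Language.{0, 0}} (φ : L.Sentence) (n : ℕ) : ℕ :=
  Nat.card {T : L.Structure (Fin n) // @Sentence.Realize L (Fin n) T φ}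

/-- small sets: subsets of `{0, ..., n - 1}` with at most `s n` elements -/
def Small (s : ℕ → ℕ) (n : ℕ) (Z : Set ℕ) : Prop :=
  Z ⊆ {x | x < n} ∧ Z.ncard ≤ s n

/-- The properties of the structures `({0, ..., n - 1}, +, ×)` expressed with quantifiers over
elements and over sets with at most `s n` elements; `j` set variables, `k` element variables. -/
inductive ASF (s : ℕ → ℕ) : (j k : ℕ) → (ℕ → (Fin j → Set ℕ) → (Fin k → ℕ) → Prop) → Prop
  | add (j k : ℕ) (x y z : Fin k) : ASF s j k (fun _ _ v => v x + v y = v z)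
  | mul (j k : ℕ) (x y z : Fin k) : ASF s j k (fun _ _ v => v x * v y = v z)
  | mem (j k : ℕ) (x : Fin k) (i : Fin j) : ASF s j k (fun _ Z v => v x ∈ Z i)
  | not (j k : ℕ) (P : ℕ → (Fin j → Set ℕ) → (Fin k → ℕ) → Prop) : ASF s j k P →
      ASF s j k (fun n Z v => ¬ P n Z v)
  | and (j k : ℕ) (P Q : ℕ → (Fin j → Set ℕ) → (Fin k → ℕ) → Prop) : ASF s j k P → ASF s j k Q →
      ASF s j k (fun n Z v => P n Z v ∧ Q n Z v)
  | ex (j k : ℕ) (P : ℕ → (Fin j → Set ℕ) → (Fin (k + 1) → ℕ) → Prop) : ASF s j (k + 1) P →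
      ASF s j k (fun n Z v => ∃ x, x < n ∧ P n Z (Fin.cons x v))
  | exS (j k : ℕ) (P : ℕ → (Fin (j + 1) → Set ℕ) → (Fin k → ℕ) → Prop) : ASF s (j + 1) k P →
      ASF s j k (fun n Z v => ∃ Z₀, Small s n Z₀ ∧ P n (Fin.cons Z₀ Z) v)

/-- The class `RUD_s`: the sets `{n ≥ 1 : ({0, ..., n - 1}, +, ×) ⊨ θ}`, `θ` a sentence with
quantifiers over elements and over sets with at most `s n` elements. -/
def RudS (s : ℕ → ℕ) (A : Set ℕ) : Prop :=
  ∃ P : ℕ → (Fin 0 → Set ℕ) → (Fin 0 → ℕ) → Prop, ASF s 0 0 P ∧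
    A = {n | 1 ≤ n ∧ P n Fin.elim0 Fin.elim0}

/-- the function `s(n) = log log n` -/
def ll (n : ℕ) : ℕ := Nat.log 2 (Nat.log 2 n)

/-! ### counting functions -/

section Cnt

variable {ι : Type} {a : ι → ℕ}

/-- all numbers in the tuples of `X` are less than `B` -/
def Bd (B : ℕ) (X : SOA a) : Prop := ∀ i w, X i w → ∀ j, w j < B

/-- the number of `X` below `B` with `P X` -/
noncomputable def cnt (B : ℕ) (P : SOA a → Prop) : ℕ := Nat.card {X : SOA a // Bd B X ∧ P X}

/-- joint assignment -/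
def jn {β : Type} {b : β → ℕ} (Y : SOA b) (X : SOA a) : SOA (Sum.elim b a) := fun i =>
  match i with
  | .inl i => Y i
  | .inr i => X i

end Cnt

/-- Counting functions: `g Y v` is the number of assignments `X` of further second-order variables,
below the polynomial bound `p v`, with a bounded arithmetical property of `Y`, `X`, `v`. -/
def Cn {β : Type} (b : β → ℕ) (k : ℕ) (g : SOA b → (Fin k → ℕ) → ℕ) : Prop :=
  ∃ (ι : Type) (_ : Finite ι) (a : ι → ℕ) (p : (Fin k → ℕ) → ℕ)
    (P : SOA (Sum.elim b a) → (Fin k → ℕ) → Prop), IsPoly k p ∧ RudX (Sum.elim b a) k P ∧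
      ∀ Y v, g Y v = cnt (p v) (fun X : SOA a => P (jn Y X) v)

/-- no second-order variables -/
abbrev noV : Empty → ℕ := Empty.elim

/-- the empty assignment -/
def nil : SOA noV := fun i => i.elim

/-- relations of arity `e` on `{0, ..., B - 1}` -/
abbrev BRel (e B : ℕ) := {Z : (Fin e → ℕ) → Prop // ∀ w, Z w → ∀ j, w j < B}

/-- one more second-order variable, of arity `e` -/
def addV {β : Type} (e : ℕ) (b : β → ℕ) : Option β → ℕ
  | none => e
  | some i => b i

/-- assignments with one more variable -/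
def consV {β : Type} {e : ℕ} {b : β → ℕ} (Z : (Fin e → ℕ) → Prop) (Y : SOA b) : SOA (addV e b) :=
  fun i => match i with
    | none => Z
    | some i => Y i

/-! ### random bits -/

/-- the second-order variables: `none` a binary relation (random bits), `some i` unary (sets) -/
def tdAr (j : ℕ) : Option (Fin j) → ℕ
  | none => 2
  | some _ => 1

/-- the assignment given by a random relation on `{0, ..., n - 1}` and sets -/
def tdAs {j n : ℕ} (r : Fin n → Fin n → Bool) (Z : Fin j → Set ℕ) : SOA (tdAr j) := fun i =>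
  match i with
  | none => fun w => ∃ x y : Fin n, (show Fin 2 → ℕ from w) = ![(x : ℕ), (y : ℕ)] ∧ r x y = true
  | some i => fun w => (show Fin 1 → ℕ from w) 0 ∈ Z i

/-- number of small sets, bound -/
def smallN (s : ℕ → ℕ) (n : ℕ) : ℕ := (n + 1) ^ (s n)

/-- `C` represents `P` modulo 2 for most random relations: numbers `n :: v` (the size first) -/
def Rep (s : ℕ → ℕ) (j k : ℕ) (P : ℕ → (Fin j → Set ℕ) → (Fin k → ℕ) → Prop) : Prop :=
  ∃ (C : SOA (tdAr j) → (Fin (k + 1) → ℕ) → ℕ) (e : ℕ), Cn (tdAr j) (k + 1) C ∧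
    ∀ n, 2 ≤ n → ∀ Z : Fin j → Set ℕ, (∀ i, Small s n (Z i)) → ∀ v : Fin k → ℕ, (∀ i, v i < n) →
      (Nat.card {r : Fin n → Fin n → Bool //
        ¬ (C (tdAs r Z) (Fin.cons n v) % 2 = 1 ↔ P n Z v)} : ℝ) ≤
      e * ((smallN s n : ℝ) * (n + 1)) ^ e * (1 - 1 / 2 ^ (s n)) ^ n * 2 ^ (n * n)

/-! ### the positions of the random bits, the labelled factor -/

/-- inverse of an odd number `o` modulo `2 ^ L` -/
def invc (L o : ℕ) : ℕ := ∑ j ∈ Finset.range L, ((2 ^ L - 1) * (o - 1)) ^ j

/-- the odd part -/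
def oddp (i : ℕ) : ℕ := i / 2 ^ padicValNat 2 i

/-- the number of digits used -/
def Lp (n : ℕ) : ℕ := 2 * n ^ 3 + 2

/-- the positions: all triples below `n` except one for each pair `(i, u)`, `1 ≤ i ≤ n`, `u > 1` a
power of two which divides `i` -/
def Pos (n : ℕ) (w : Fin 3 → ℕ) : Prop :=
  (∀ j, w j < n) ∧ ¬ (w 0 = n - 1 ∧ (∃ t, w 2 + 1 = 2 ^ (t + 1)) ∧ (w 2 + 1) ∣ (w 1 + 1))

/-- the number of positions, `n ^ 3 - v₂(n!)` -/
noncomputable def posN (n : ℕ) : ℕ := Nat.card {w : Fin 3 → ℕ // Pos n w}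

/-- the random relation of a ternary relation -/
noncomputable def slice (n : ℕ) (Z : (Fin 3 → ℕ) → Prop) : Fin n → Fin n → Bool :=
  fun x y => @decide (Z ![0, x, y]) (Classical.propDecidable _)

end Pool.Agent.Helper38.DG
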