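import Pool.Agent.Helper20.Sparse.Pow
import Pool.Agent.Helper38.DG.Defs

/-!
# Digits of the number of models: division by a factorial
-/

set_option autoImplicit false

namespace Pool.Agent.Helper38.DG

open FirstOrder FirstOrder.Language Pool.Agent.Helper20.Spectra
open scoped Classical

/-- a bit -/
noncomputable def btD (p : Prop) : ℕ := if p then 1 else 0

lemma btD_le (p : Prop) : btD p ≤ 1 := by unfold btD; split <;> omega

lemma btD_one {p : Prop} : btD p = 1 ↔ p := by unfold btD; split <;> simp_all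

/-- the number with the binary digits `p` -/
noncomputable def valD (p : ℕ → Prop) : ℕ → ℕ
  | 0 => 0
  | Q + 1 => valD p Q + 2 ^ Q * btD (p Q)

lemma valD_lt (p : ℕ → Prop) (Q : ℕ) : valD p Q < 2 ^ Q := by
  induction Q with
  | zero => simp [valD]
  | succ Q ih =>
    have h1 := Nat.mul_le_mul_left (2 ^ Q) (btD_le (p Q))
    rw [valD, pow_succ]
    omega

lemma valD_inj {p q : ℕ → Prop} {Q : ℕ} (h : valD p Q = valD q Q) :
    ∀ i, i < Q → (p i ↔ q i) := by
  induction Q with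
  | zero => intro i hi; omega
  | succ Q ih =>
    rw [valD, valD] at h
    have h1 := valD_lt p Q
    have h2 := valD_lt q Q
    have h3 : btD (p Q) = btD (q Q) := by
      have e1 : (valD p Q + 2 ^ Q * btD (p Q)) / 2 ^ Q = btD (p Q) := by
        rw [Nat.add_mul_div_left _ _ (by positivity), Nat.div_eq_of_lt h1, zero_add]
      have e2 : (valD q Q + 2 ^ Q * btD (q Q)) / 2 ^ Q = btD (q Q) := by
        rw [Nat.add_mul_div_left _ _ (by positivity), Nat.div_eq_of_lt h2, zero_add]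
      rw [← e1, ← e2, h]
    rw [h3] at h
    intro i hi
    rcases Nat.lt_succ_iff_lt_or_eq.1 hi with h4 | h4
    · exact ih (by omega) i h4
    · rw [h4, ← btD_one (p := p Q), ← btD_one (p := q Q), h3]

lemma valD_congr {p q : ℕ → Prop} {Q : ℕ} (h : ∀ i, i < Q → (p i ↔ q i)) :
    valD p Q = valD q Q := by
  induction Q with
  | zero => rfl
  | succ Q ih =>
    rw [valD, valD, ih (fun i hi => h i (by omega))]
    have h1 : p Q = q Q := propext (h Q (by omega))
    rw [h1]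

lemma btD_testBit (x i : ℕ) : btD (x.testBit i = true) = x / 2 ^ i % 2 := by
  rw [Nat.testBit_eq_decide_div_mod_eq]
  unfold btD
  have h1 : x / 2 ^ i % 2 < 2 := Nat.mod_lt _ (by omega)
  split
  · next h => rw [decide_eq_true_iff] at h; exact h.symm
  · next h => rw [decide_eq_true_iff] at h; omega

lemma valD_testBit (x Q : ℕ) : valD (fun i => x.testBit i = true) Q = x % 2 ^ Q := by
  induction Q with
  | zero => rw [valD, pow_zero, Nat.mod_one]
  | succ Q ih => rw [valD, ih, btD_testBit, Nat.mod_pow_succ]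

/-- arities of the table: rows and carries -/
def dvA : Bool → ℕ := fun x => cond x 2 3

/-- constants -/
lemma pcD {k : ℕ} (c : ℕ) : Pool.Agent.Helper20.Spectra.IsPoly k (fun _ => c) :=
  Pool.Agent.Helper20.Spectra.IsPoly.const c

/-- rows -/
def tR (W : SOA dvA) (j i : ℕ) : Prop := W true ![j, i]

/-- carries -/
def tC (W : SOA dvA) (j i c : ℕ) : Prop := W false ![j, i, c]

/-- one step -/
def DivS (W : SOA dvA) (N j i c : ℕ) : Prop :=
  ∃ c', c' ≤ N ∧ (tC W j (i + 1) c' ∧ ∃ x, x ≤ 1 ∧ ∃ y, y ≤ 1 ∧ ((x = 1 ↔ tR W (j + 1) i) ∧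
    ((y = 1 ↔ tR W j i) ∧ x + 2 * c' = (j + 1) * y + c)))

/-- the table of the multiplications by `1, ..., N` -/
def DivCond (E : Set (Fin 2 → ℕ)) (N Q n : ℕ) (W : SOA dvA) : Prop :=
  (∀ j, j ≤ N → (j < N → (tC W j 0 0 ∧ ((∀ c, c ≤ N → (tC W j Q c → c = 0)) ∧
    ∀ i, i ≤ Q → (i < Q → ∀ c, c ≤ N → (tC W j i c → DivS W N j i c)))))) ∧
  ((∀ i, i ≤ Q → (i < Q → (tR W N i ↔ ![n, i] ∈ E))) ∧ (n ^ 3 < Q ∧ tR W 0 (n ^ 3)))

lemma divCond_step {E : Set (Fin 2 → ℕ)} {N Q n : ℕ} {W : SOA dvA} (h : DivCond E N Q n W)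
    {j : ℕ} (hj : j < N) : valD (tR W (j + 1)) Q = (j + 1) * valD (tR W j) Q := by
  obtain ⟨h1, h2, h3⟩ := h.1 j (by omega) hj
  have key : ∀ i, i ≤ Q → ∃ c, c ≤ N ∧ tC W j i c ∧
      valD (tR W (j + 1)) i + 2 ^ i * c = (j + 1) * valD (tR W j) i := by
    intro i
    induction i with
    | zero => intro _; exact ⟨0, by omega, h1, by simp [valD]⟩
    | succ i ih =>
      intro hi
      obtain ⟨c, hc, h4, h5⟩ := ih (by omega)
      obtain ⟨c', hc', h6, x, hx, y, hy, h7, h8, h9⟩ := h3 i (by omega) (by omega) c hc h4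
      have hx' : x = btD (tR W (j + 1) i) := by
        have h10 := btD_le (tR W (j + 1) i)
        have h11 : x = 1 ↔ btD (tR W (j + 1) i) = 1 := h7.trans btD_one.symm
        omega
      have hy' : y = btD (tR W j i) := by
        have h10 := btD_le (tR W j i)
        have h11 : y = 1 ↔ btD (tR W j i) = 1 := h8.trans btD_one.symm
        omega
      refine ⟨c', hc', h6, ?_⟩
      rw [valD, valD, ← hx', ← hy']
      calc valD (tR W (j + 1)) i + 2 ^ i * x + 2 ^ (i + 1) * c'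
          = valD (tR W (j + 1)) i + 2 ^ i * (x + 2 * c') := by ring
        _ = valD (tR W (j + 1)) i + 2 ^ i * c + 2 ^ i * ((j + 1) * y) := by rw [h9]; ring
        _ = (j + 1) * (valD (tR W j) i + 2 ^ i * y) := by rw [h5]; ring
  obtain ⟨c, hc, h4, h5⟩ := key Q le_rfl
  rw [h2 c hc h4] at h5
  omega

lemma divCond_row {E : Set (Fin 2 → ℕ)} {N Q n : ℕ} {W : SOA dvA} (h : DivCond E N Q n W) :
    ∀ j, j ≤ N → valD (tR W j) Q = j.factorial * valD (tR W 0) Q := by
  intro j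
  induction j with
  | zero => intro _; simp
  | succ j ih =>
    intro hj
    rw [divCond_step h (by omega), ih (by omega), Nat.factorial_succ]
    ring

lemma divCond_sound {E : Set (Fin 2 → ℕ)} {N Q n g : ℕ} {W : SOA dvA} (h : DivCond E N Q n W)
    (h1 : ∀ i, (![n, i] ∈ E ↔ (N.factorial * g).testBit i = true))
    (h2 : N.factorial * g < 2 ^ Q) : g.testBit (n ^ 3) = true := by
  have h3 := divCond_row h N le_rfl
  have h4 : valD (tR W N) Q = N.factorial * g := by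
    rw [valD_congr (q := fun i => (N.factorial * g).testBit i = true)
      (fun i hi => (h.2.1 i (by omega) hi).trans (h1 i)), valD_testBit, Nat.mod_eq_of_lt h2]
  rw [h4] at h3
  have h5 : g = valD (tR W 0) Q := Nat.eq_of_mul_eq_mul_left (Nat.factorial_pos N) h3
  have h6 : g < 2 ^ Q := lt_of_le_of_lt (Nat.le_mul_of_pos_left _ (Nat.factorial_pos N)) h2
  have h7 : valD (fun i => g.testBit i = true) Q = valD (tR W 0) Q := by
    rw [valD_testBit, Nat.mod_eq_of_lt h6, ← h5]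
  exact (valD_inj h7 _ h.2.2.1).2 h.2.2.2

lemma divCond_exists {E : Set (Fin 2 → ℕ)} {N Q n g : ℕ}
    (h1 : ∀ i, (![n, i] ∈ E ↔ (N.factorial * g).testBit i = true))
    (h2 : N.factorial * g < 2 ^ Q) (h3 : g.testBit (n ^ 3) = true) :
    ∃ W, DivCond E N Q n W := by
  let W2 : (Fin 2 → ℕ) → Prop := fun w => ((w 0).factorial * g).testBit (w 1) = true
  let W3 : (Fin 3 → ℕ) → Prop := fun w =>
    w 2 = (w 0 + 1) * (((w 0).factorial * g) % 2 ^ (w 1)) / 2 ^ (w 1)
  let W : SOA dvA := fun x => match x with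
    | true => W2
    | false => W3
  have hR : ∀ j i, tR W j i ↔ (j.factorial * g).testBit i = true := fun j i => Iff.rfl
  have hC : ∀ j i c, tC W j i c ↔ c = (j + 1) * ((j.factorial * g) % 2 ^ i) / 2 ^ i :=
    fun j i c => Iff.rfl
  have hgQ : g < 2 ^ Q := lt_of_le_of_lt (Nat.le_mul_of_pos_left _ (Nat.factorial_pos N)) h2
  have hn : n ^ 3 < Q := by
    by_contra h
    have h4 : g < 2 ^ (n ^ 3) := lt_of_lt_of_le hgQ (Nat.pow_le_pow_right (by omega) (by omega))
    rw [Nat.testBit_lt_two_pow h4] at h3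
    exact absurd h3 (by decide)
  refine ⟨W, fun j _ hj => ⟨?_, ?_, ?_⟩, fun i _ _ => ?_, hn, ?_⟩
  · rw [hC, pow_zero, Nat.mod_one, mul_zero, Nat.zero_div]
  · intro c _ hc
    rw [hC] at hc
    have h4 : (j + 1) * (j.factorial * g) < 2 ^ Q := by
      refine lt_of_le_of_lt ?_ h2
      rw [← mul_assoc, ← Nat.factorial_succ]
      exact Nat.mul_le_mul_right _ (Nat.factorial_le hj)
    have h5 : (j + 1) * (j.factorial * g % 2 ^ Q) < 2 ^ Q :=
      lt_of_le_of_lt (Nat.mul_le_mul_left _ (Nat.mod_le _ _)) h4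
    rw [hc, Nat.div_eq_of_lt h5]
  · intro i _ _ c _ hc
    rw [hC] at hc
    obtain ⟨x, hx⟩ : ∃ x, x = j.factorial * g := ⟨_, rfl⟩
    rw [← hx] at hc
    have hp : 0 < 2 ^ i := by positivity
    refine ⟨(j + 1) * (x % 2 ^ (i + 1)) / 2 ^ (i + 1), ?_, ?_, btD (tR W (j + 1) i), btD_le _,
      btD (tR W j i), btD_le _, btD_one, btD_one, ?_⟩
    · have h4 : (j + 1) * (x % 2 ^ (i + 1)) / 2 ^ (i + 1) < j + 1 := by
        rw [Nat.div_lt_iff_lt_mul (by positivity)]
        exact Nat.mul_lt_mul_of_pos_left (Nat.mod_lt _ (by positivity)) (by omega)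
      omega
    · rw [hC, hx]
    · have e1 : btD (tR W (j + 1) i) = ((j + 1) * x) / 2 ^ i % 2 := by
        rw [← btD_testBit, hx, ← mul_assoc, ← Nat.factorial_succ]
        exact congrArg btD (propext (hR (j + 1) i))
      have e2 : btD (tR W j i) = x / 2 ^ i % 2 := by
        rw [← btD_testBit, hx]
        exact congrArg btD (propext (hR j i))
      obtain ⟨b, hb⟩ : ∃ b, b = x / 2 ^ i % 2 := ⟨_, rfl⟩
      rw [e1, e2, ← hb]
      have e3 : x % 2 ^ (i + 1) = x % 2 ^ i + 2 ^ i * b := by rw [hb, Nat.mod_pow_succ]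
      have e4 : (j + 1) * (x % 2 ^ (i + 1)) / 2 ^ i = c + (j + 1) * b := by
        rw [e3, mul_add, show (j + 1) * (2 ^ i * b) = 2 ^ i * ((j + 1) * b) by ring,
          Nat.add_mul_div_left _ _ hp, hc]
      have e5 : (j + 1) * (x % 2 ^ (i + 1)) / 2 ^ (i + 1) = (c + (j + 1) * b) / 2 := by
        rw [← e4, pow_succ, ← Nat.div_div_eq_div_mul]
      have e6 : (j + 1) * x / 2 ^ i % 2 = (c + (j + 1) * b) % 2 := by
        have h4 := Nat.div_add_mod x (2 ^ (i + 1))
        have h5 : (j + 1) * x / 2 ^ i = c + (j + 1) * b + 2 * ((j + 1) * (x / 2 ^ (i + 1))) := by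
          rw [← e4]
          conv_lhs => rw [← h4]
          rw [show (j + 1) * (2 ^ (i + 1) * (x / 2 ^ (i + 1)) + x % 2 ^ (i + 1)) =
            (j + 1) * (x % 2 ^ (i + 1)) + 2 ^ i * (2 * ((j + 1) * (x / 2 ^ (i + 1)))) by ring,
            Nat.add_mul_div_left _ _ hp]
        rw [h5, Nat.add_mul_mod_self_left]
      rw [e5, e6]
      have := Nat.div_add_mod (c + (j + 1) * b) 2
      omega
  · rw [hR, h1]
  · rw [hR, Nat.factorial_zero, one_mul]
    exact h3

lemma tR_rudX {κ : Type} {a : κ → ℕ} {k : ℕ} {s t : (Fin k → ℕ) → ℕ} (hs : IsPoly k s)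
    (ht : IsPoly k t) : RudX (Sum.elim a dvA) k
      (fun Y v => tR (fun i => Y (Sum.inr i)) (s v) (t v)) := by
  refine (RudX.so' (a := Sum.elim a dvA) (Sum.inr true) (t := ![s, t]) ?_).congr ?_
  · intro j
    change Fin 2 at j
    fin_cases j
    · exact hs
    · exact ht
  · intro Y v
    refine Iff.of_eq (congrArg (Y (Sum.inr true)) ?_)
    funext j
    change Fin 2 at j
    fin_cases j <;> rfl

lemma tC_rudX {κ : Type} {a : κ → ℕ} {k : ℕ} {s t u : (Fin k → ℕ) → ℕ} (hs : IsPoly k s)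
    (ht : IsPoly k t) (hu : IsPoly k u) : RudX (Sum.elim a dvA) k
      (fun Y v => tC (fun i => Y (Sum.inr i)) (s v) (t v) (u v)) := by
  refine (RudX.so' (a := Sum.elim a dvA) (Sum.inr false) (t := ![s, t, u]) ?_).congr ?_
  · intro j
    change Fin 3 at j
    fin_cases j
    · exact hs
    · exact ht
    · exact hu
  · intro Y v
    refine Iff.of_eq (congrArg (Y (Sum.inr false)) ?_)
    funext j
    change Fin 3 at j
    fin_cases j <;> rfl

lemma divCond_rudX {E : Set (Fin 2 → ℕ)} (hE : Rud 2 E) {κ : Type} {a : κ → ℕ} {k : ℕ}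
    {s t u : (Fin k → ℕ) → ℕ} (hs : IsPoly k s) (ht : IsPoly k t) (hu : IsPoly k u) :
    RudX (Sum.elim a dvA) k
      (fun Y v => DivCond E (s v) (t v) (u v) (fun i => Y (Sum.inr i))) := by
  unfold DivCond
  refine RudX.and' (RudX.all hs (RudX.imp (RudX.lt (IsPoly.var 0) hs.tail)
    (RudX.and' (tC_rudX (IsPoly.var 0) (pcD 0) (pcD 0)) (RudX.and' ?_ ?_))))
    (RudX.and' ?_ ?_)
  · exact RudX.all hs.tail (RudX.imp (tC_rudX (IsPoly.var 1) ht.tail.tail (IsPoly.var 0))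
      (RudX.eq (IsPoly.var 0) (pcD 0)))
  · refine RudX.all ht.tail (RudX.imp (RudX.lt (IsPoly.var 0) ht.tail.tail)
      (RudX.all hs.tail.tail (RudX.imp (tC_rudX (IsPoly.var 2) (IsPoly.var 1) (IsPoly.var 0)) ?_)))
    -- `c` 0, `i` 1, `j` 2
    unfold DivS
    refine RudX.ex hs.tail.tail.tail (RudX.and' (tC_rudX (IsPoly.var 3)
      ((IsPoly.var 2).add (pcD 1)) (IsPoly.var 0)) (RudX.ex (pcD 1)
        (RudX.ex (pcD 1) (RudX.and' ?_ (RudX.and' ?_ ?_)))))
    -- `y` 0, `x` 1, `c'` 2, `c` 3, `i` 4, `j` 5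
    · exact RudX.iff (RudX.eq (IsPoly.var 1) (pcD 1))
        (tR_rudX ((IsPoly.var 5).add (pcD 1)) (IsPoly.var 4))
    · exact RudX.iff (RudX.eq (IsPoly.var 0) (pcD 1))
        (tR_rudX (IsPoly.var 5) (IsPoly.var 4))
    · exact RudX.eq ((IsPoly.var 1).add ((pcD 2).mul (IsPoly.var 2)))
        ((((IsPoly.var 5).add (pcD 1)).mul (IsPoly.var 0)).add (IsPoly.var 3))
  · refine RudX.all ht (RudX.imp (RudX.lt (IsPoly.var 0) ht.tail)
      (RudX.iff (tR_rudX hs.tail (IsPoly.var 0)) ?_))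
    have h1 : RudX (Sum.elim a dvA) 2 (fun _ v => v ∈ E) := RudX.ofRud hE
    refine (h1.subst (k + 1) ![fun v => u (Fin.tail v), fun v => v 0] ?_).congr (fun X v => ?_)
    · intro i
      fin_cases i
      · exact hu.tail
      · exact IsPoly.var 0
    · refine Iff.of_eq (congrArg (fun w => w ∈ E) ?_)
      funext i
      fin_cases i <;> rfl
  · exact RudX.and' (RudX.lt (hu.pow 3) ht) (tR_rudX (pcD 0) (hu.pow 3))

/-- E2 -/
theorem division (hQ : ∀ A : Set ℕ, IsSpectrum A → IsRudimentary A)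
    {E : Set (Fin 2 → ℕ)} (hE : Rud 2 E) (K : ℕ) {q : (Fin 1 → ℕ) → ℕ} (hq : IsPoly 1 q)
    (g : ℕ → ℕ)
    (h1 : ∀ n, 2 ≤ n → ∀ i, (![n, i] ∈ E ↔ ((n ^ K).factorial * g n).testBit i = true))
    (h2 : ∀ n, 2 ≤ n → (n ^ K).factorial * g n < 2 ^ q (fun _ => n)) :
    IsRudimentary {n : ℕ | 2 ≤ n ∧ (g n).testBit (n ^ 3) = true} := by
  have h3 : ESO none0 1 (fun _ v => 2 ≤ v 0 ∧ ∃ W : SOA dvA,
      DivCond E (v 0 ^ K) (q v) (v 0) W) := by
    refine ESO.and (ESO.of (RudX.le (pcD 2) (IsPoly.var 0))) ?_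
    have h4 : ESO (Sum.elim none0 dvA) 1 (fun Y v =>
        DivCond E (v 0 ^ K) (q v) (v 0) (fun i => Y (Sum.inr i))) :=
      ESO.of (divCond_rudX hE ((IsPoly.var 0).pow K) hq (IsPoly.var 0))
    exact h4.exSO
  have h5 : ESO none0 1 (fun _ v => (fun m => 2 ≤ m ∧ ∃ W : SOA dvA,
      DivCond E (m ^ K) (q (fun _ => m)) m W) (v 0)) := by
    refine h3.congr (fun X v => ?_)
    have hv : (fun _ => v 0) = v := by
      funext i
      rw [Subsingleton.elim i 0]
    show (2 ≤ v 0 ∧ ∃ W : SOA dvA, DivCond E (v 0 ^ K) (q (fun _ => v 0)) (v 0) W) ↔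
      2 ≤ v 0 ∧ ∃ W : SOA dvA, DivCond E (v 0 ^ K) (q v) (v 0) W
    rw [hv]
  have h6 := hQ _ (ESO.isSpectrum (R := fun m => 2 ≤ m ∧ ∃ W : SOA dvA,
      DivCond E (m ^ K) (q (fun _ => m)) m W) h5)
  convert h6 using 1
  ext n
  simp only [Set.mem_ofPred_eq]
  constructor
  · rintro ⟨hn, h7⟩
    exact ⟨by omega, hn, divCond_exists (h1 n hn) (h2 n hn) h7⟩
  · rintro ⟨_, hn, W, hW⟩
    exact ⟨hn, divCond_sound hW (h1 n hn) (h2 n hn)⟩

end Pool.Agent.Helper38.DG
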