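import Pool.Agent.Helper38.DG.Models

/-!
# Numbers of models, relational vocabularies
-/

set_option autoImplicit false

namespace Pool.Agent.Helper38.DG

open FirstOrder FirstOrder.Language Pool.Agent.Helper20.Spectra
open scoped Classical

theorem cn_modelsR {F : SOA noV → (Fin 1 → ℕ) → ℕ} (h : Cn noV 1 F) :
    ∃ (S : Type) (_ : Finite S) (ar : S → ℕ) (φ : (RelLang S ar).Sentence), ∀ n, 2 ≤ n →
        numModels φ n = n.factorial * F nil (fun _ => n) := cn_models_rel h

end Pool.Agent.Helper38.DG
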