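import Pool.Agent.Helper38.DG.Defs

/-!
# Block DG11: arithmetic of the amplification
-/

set_option autoImplicit false

namespace Pool.Agent.Helper38.DG

open FirstOrder FirstOrder.Language Pool.Agent.Helper20.Spectra
open scoped Classical

theorem amp_even {x L : ℕ} (hL : Even L) (h : Even x) :
    (x ^ L + (2 ^ L - 1)) ^ L % 2 ^ L = 1 % 2 ^ L := by
  have h1 : ((2 : ℤ) ^ L) ∣ (x : ℤ) ^ L := by
    obtain ⟨y, rfl⟩ := h
    rw [Nat.cast_add, ← two_mul, mul_pow]
    exact Dvd.intro _ rfl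
  have hc : (((2 ^ L - 1 : ℕ)) : ℤ) = 2 ^ L - 1 := by
    rw [Nat.cast_sub Nat.one_le_two_pow]
    push_cast
    ring
  have h2 : ((x : ℤ) ^ L + (((2 ^ L - 1 : ℕ)) : ℤ)) ≡ -1 [ZMOD 2 ^ L] := by
    rw [hc]
    have h3 : ((x : ℤ) ^ L + (2 ^ L - 1)) - (-1) = (x : ℤ) ^ L + 2 ^ L := by ring
    refine (Int.modEq_iff_dvd.2 ?_).symm
    rw [h3]
    exact dvd_add h1 (dvd_refl _)
  have h4 : ((x : ℤ) ^ L + (((2 ^ L - 1 : ℕ)) : ℤ)) ^ L ≡ 1 [ZMOD 2 ^ L] := by
    have := h2.pow L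
    rwa [hL.neg_one_pow] at this
  have h5 : (x ^ L + (2 ^ L - 1)) ^ L ≡ 1 [MOD 2 ^ L] := by
    rw [← Int.natCast_modEq_iff]
    push_cast at h4 ⊢
    exact h4
  exact h5

theorem amp_odd {x L : ℕ} (h : Odd x) : 2 ^ L ∣ (x ^ L + (2 ^ L - 1)) ^ L := by
  rcases Nat.eq_zero_or_pos L with rfl | hL
  · simp
  · have h1 : Odd (x ^ L) := h.pow
    have h2 : Odd (2 ^ L - 1) := by
      have h3 : Even (2 ^ L) := (Nat.even_pow.2 ⟨even_two, hL.ne'⟩)
      have h4 : 1 ≤ 2 ^ L := Nat.one_le_two_pow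
      obtain ⟨k, hk⟩ := h3
      exact ⟨k - 1, by omega⟩
    exact pow_dvd_pow_of_dvd (h1.add_odd h2).two_dvd L

theorem oddp_mul (i : ℕ) (_hi : i ≠ 0) : oddp i * 2 ^ padicValNat 2 i = i := by
  unfold oddp
  exact Nat.div_mul_cancel pow_padicValNat_dvd

theorem odd_oddp (i : ℕ) (hi : i ≠ 0) : Odd (oddp i) := by
  rw [← Nat.not_even_iff_odd]
  intro h
  have h1 : 2 ^ (padicValNat 2 i + 1) ∣ i := by
    obtain ⟨k, hk⟩ := h.two_dvd
    refine ⟨k, ?_⟩
    calc i = oddp i * 2 ^ padicValNat 2 i := (oddp_mul i hi).symm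
      _ = 2 ^ (padicValNat 2 i + 1) * k := by rw [hk]; ring
  exact pow_succ_padicValNat_not_dvd hi h1

theorem mul_invc {o : ℕ} (L : ℕ) (ho : Odd o) : o * invc L o ≡ 1 [MOD 2 ^ L] := by
  rw [← Int.natCast_modEq_iff]
  have ho1 : 1 ≤ o := ho.pos
  have hc : (((2 ^ L - 1 : ℕ)) : ℤ) = 2 ^ L - 1 := by
    rw [Nat.cast_sub Nat.one_le_two_pow]
    push_cast
    ring
  have hc' : (((o - 1 : ℕ)) : ℤ) = o - 1 := by
    rw [Nat.cast_sub ho1]
    push_cast
    ring
  obtain ⟨u, hu⟩ : ∃ u : ℤ, u = (2 ^ L - 1) * ((o : ℤ) - 1) := ⟨_, rfl⟩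
  have h1 : ((invc L o : ℕ) : ℤ) = ∑ j ∈ Finset.range L, u ^ j := by
    unfold invc
    push_cast
    apply Finset.sum_congr rfl
    intro j _
    rw [hu]
    congr 1
    rw [← hc, ← hc']
  have h2 : (o : ℤ) ≡ 1 - u [ZMOD 2 ^ L] := by
    refine Int.modEq_iff_dvd.2 ⟨-((o : ℤ) - 1), ?_⟩
    rw [hu]
    ring
  have h3 : (1 - u) * ∑ j ∈ Finset.range L, u ^ j = 1 - u ^ L := by
    have := mul_neg_geom_sum u L
    rw [← this]
  have h4 : (2 : ℤ) ^ L ∣ u ^ L := by
    apply pow_dvd_pow_of_dvd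
    obtain ⟨k, hk⟩ := ho
    refine ⟨(2 ^ L - 1) * k, ?_⟩
    rw [hu, hk]
    push_cast
    ring
  have h5 : (o : ℤ) * ∑ j ∈ Finset.range L, u ^ j ≡ 1 - u ^ L [ZMOD 2 ^ L] := by
    rw [← h3]
    exact h2.mul_right _
  have h6 : (1 : ℤ) - u ^ L ≡ 1 [ZMOD 2 ^ L] := by
    refine Int.modEq_iff_dvd.2 ?_
    have : (1 : ℤ) - (1 - u ^ L) = u ^ L := by ring
    rw [this]
    exact h4
  have h7 := h5.trans h6
  push_cast
  rw [h1]
  exact h7

theorem fact_inv (n L : ℕ) : n.factorial * (∏ i ∈ Finset.range n, invc L (oddp (i + 1))) ≡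
    2 ^ padicValNat 2 n.factorial [MOD 2 ^ (padicValNat 2 n.factorial + L)] := by
  have h1 : n.factorial = 2 ^ padicValNat 2 n.factorial *
      ∏ i ∈ Finset.range n, oddp (i + 1) := by
    induction n with
    | zero => simp
    | succ n ih =>
      rw [Finset.prod_range_succ, Nat.factorial_succ, padicValNat.mul (by omega)
        (Nat.factorial_ne_zero n), pow_add]
      have h2 := oddp_mul (n + 1) (by omega)
      calc (n + 1) * n.factorial
          = (oddp (n + 1) * 2 ^ padicValNat 2 (n + 1)) * (2 ^ padicValNat 2 n.factorial *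
            ∏ i ∈ Finset.range n, oddp (i + 1)) := by rw [h2, ← ih]
        _ = _ := by ring
  have h3 : ∏ i ∈ Finset.range n, (oddp (i + 1) * invc L (oddp (i + 1))) ≡ 1 [MOD 2 ^ L] := by
    have : ∏ i ∈ Finset.range n, (oddp (i + 1) * invc L (oddp (i + 1))) ≡
        ∏ i ∈ Finset.range n, 1 [MOD 2 ^ L] := by
      induction n with
      | zero => exact Nat.ModEq.refl _
      | succ n ih =>
        rw [Finset.prod_range_succ, Finset.prod_range_succ]
        apply Nat.ModEq.mul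
        · apply ih
          have h4 := oddp_mul (n + 1) (by omega)
          rw [Finset.prod_range_succ, Nat.factorial_succ, padicValNat.mul (by omega)
            (Nat.factorial_ne_zero n), pow_add] at h1
          have h5 : 0 < oddp (n + 1) * 2 ^ padicValNat 2 (n + 1) := by rw [h4]; omega
          apply Nat.eq_of_mul_eq_mul_left h5
          calc oddp (n + 1) * 2 ^ padicValNat 2 (n + 1) * n.factorial
              = (n + 1) * n.factorial := by rw [h4]
            _ = _ := h1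
            _ = _ := by ring
        · exact mul_invc L (odd_oddp (n + 1) (by omega))
    simpa using this
  have h6 : n.factorial * (∏ i ∈ Finset.range n, invc L (oddp (i + 1))) =
      2 ^ padicValNat 2 n.factorial *
        ∏ i ∈ Finset.range n, (oddp (i + 1) * invc L (oddp (i + 1))) := by
    rw [Finset.prod_mul_distrib, ← mul_assoc, ← h1]
  rw [h6, pow_add]
  have := Nat.ModEq.mul_left' (2 ^ padicValNat 2 n.factorial) h3
  rwa [mul_one] at this

theorem digit_shift {a p L F G B : ℕ} (h1 : F ≡ 2 ^ a * G [MOD 2 ^ (a + L)])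
    (h2 : G ≡ B [MOD 2 ^ L]) (hL : p < L) : F.testBit (a + p) = B.testBit p := by
  have h3 : (F % 2 ^ (a + L)).testBit (a + p) = ((2 ^ a * G) % 2 ^ (a + L)).testBit (a + p) := by
    rw [h1]
  rw [Nat.testBit_mod_two_pow, Nat.testBit_mod_two_pow] at h3
  have h4 : a + p < a + L := by omega
  simp only [h4, decide_true, Bool.true_and] at h3
  have h5 : (G % 2 ^ L).testBit p = (B % 2 ^ L).testBit p := by rw [h2]
  rw [Nat.testBit_mod_two_pow, Nat.testBit_mod_two_pow] at h5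
  simp only [hL, decide_true, Bool.true_and] at h5
  rw [h3, Nat.testBit_two_pow_mul]
  have h6 : a ≤ a + p := by omega
  simp [h5]

end Pool.Agent.Helper38.DG
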