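import Pool.Agent.Helper38.DG.Base

/-!
# Bounded products of counting functions
-/

set_option autoImplicit false

namespace Pool.Agent.Helper38.DG

open Pool.Agent.Helper20.Spectra
open scoped Classical

section
variable {β : Type} {b : β → ℕ} {k : ℕ}

/-- the parameters in a joint assignment -/
def fstV {ι : Type} {a : ι → ℕ} (Z : SOA (Sum.elim b a)) : SOA b := fun i => Z (Sum.inl i)

/-- the variables in a joint assignment -/
def sndV {ι : Type} {a : ι → ℕ} (Z : SOA (Sum.elim b a)) : SOA a := fun i => Z (Sum.inr i)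

/-- the slice of a family at the first coordinate -/
def sliceP {ι : Type} {a : ι → ℕ} (X : SOA (fun i => a i + 1)) (x : ℕ) : SOA a :=
  fun i w => X i (Fin.cons x w)

/-- the condition for a bounded product -/
def prodP {ι : Type} {a : ι → ℕ} (p : (Fin (k + 1) → ℕ) → ℕ) (q : (Fin k → ℕ) → ℕ)
    (P : SOA (Sum.elim b a) → (Fin (k + 1) → ℕ) → Prop)
    (Y : SOA b) (X : SOA (fun i => a i + 1)) (v : Fin k → ℕ) : Prop :=
  (∀ i, ∀ w : Fin (a i + 1) → ℕ, (∀ j, w j < p (Fin.cons (q v) v) + q v) → X i w →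
    w 0 < q v ∧ ∀ j, w (Fin.succ j) < p (Fin.cons (w 0) v)) ∧
  ∀ x, x ≤ q v → x < q v → P (jn Y (sliceP X x)) (Fin.cons x v)

/-- the families -/
noncomputable def prodEquiv {ι : Type} {a : ι → ℕ} (p : (Fin (k + 1) → ℕ) → ℕ)
    (q : (Fin k → ℕ) → ℕ)
    (P : SOA (Sum.elim b a) → (Fin (k + 1) → ℕ) → Prop)
    (hp : ∀ v : Fin k → ℕ, ∀ x, x ≤ q v → p (Fin.cons x v) ≤ p (Fin.cons (q v) v))
    (Y : SOA b) (v : Fin k → ℕ) :
    {X : SOA (fun i => a i + 1) // Bd (p (Fin.cons (q v) v) + q v) X ∧ prodP p q P Y X v} ≃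
      ∀ x : Fin (q v), {X : SOA a // Bd (p (Fin.cons (x : ℕ) v)) X ∧
        P (jn Y X) (Fin.cons (x : ℕ) v)} where
  toFun X := fun x => ⟨sliceP X.1 x, by
    obtain ⟨X, h1, h2, h3⟩ := X
    refine ⟨fun i w hw j => ?_, h3 x x.2.le x.2⟩
    have h4 := h2 i (Fin.cons (x : ℕ) w) (h1 i _ hw) hw
    have h5 := h4.2 j
    rwa [Fin.cons_succ, Fin.cons_zero] at h5⟩
  invFun f := ⟨fun i w => ∃ h : w 0 < q v, (f ⟨w 0, h⟩).1 i (Fin.tail w), by
    have key : ∀ i, ∀ w : Fin (a i + 1) → ℕ, (∃ h : w 0 < q v, (f ⟨w 0, h⟩).1 i (Fin.tail w)) →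
        w 0 < q v ∧ ∀ j, w (Fin.succ j) < p (Fin.cons (w 0) v) := by
      rintro i w ⟨h1, h2⟩
      exact ⟨h1, fun j => (f ⟨w 0, h1⟩).2.1 i _ h2 j⟩
    refine ⟨fun i w hw j => ?_, fun i w _ hw => key i w hw, fun x _ hx => ?_⟩
    · obtain ⟨h1, h2⟩ := key i w hw
      refine Fin.cases ?_ (fun j => ?_) j
      · omega
      · have h3 := h2 j
        have h4 := hp v (w 0) h1.le
        omega
    · have e1 : sliceP (a := a) (fun i w => ∃ h : w 0 < q v, (f ⟨w 0, h⟩).1 i (Fin.tail w)) x =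
          (f ⟨x, hx⟩).1 := by
        funext i w
        refine propext ⟨?_, fun h => ⟨hx, h⟩⟩
        rintro ⟨h1, h2⟩
        exact h2
      rw [e1]
      exact (f ⟨x, hx⟩).2.2⟩
  left_inv := by
    rintro ⟨X, h1, h2, h3⟩
    refine Subtype.ext ?_
    funext i w
    refine propext ⟨?_, fun h => ⟨(h2 i w (h1 i w h) h).1, ?_⟩⟩
    · rintro ⟨h4, h5⟩
      have h6 : X i (Fin.cons (w 0) (Fin.tail w)) := h5
      rwa [Fin.cons_self_tail] at h6
    · show X i (Fin.cons (w 0) (Fin.tail w))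
      rwa [Fin.cons_self_tail]
  right_inv := by
    intro f
    funext x
    refine Subtype.ext ?_
    funext i w
    refine propext ⟨?_, fun h => ⟨x.2, h⟩⟩
    rintro ⟨h1, h2⟩
    exact h2

/-- the defined relations of the slice substitution -/
def slQ {ι : Type} (b : β → ℕ) (a : ι → ℕ) : ∀ i : β ⊕ ι,
    SOA (Sum.elim b (fun i => a i + 1)) → (Fin (Sum.elim b a i + 1) → ℕ) → Prop
  | Sum.inl i => fun Z u => Z (Sum.inl i) (fun j => u (Fin.castAdd 1 j))
  | Sum.inr i => fun Z u => Z (Sum.inr i) (fun j => (Fin.cons (u (Fin.natAdd _ 0))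
      (fun j : Fin (a i) => u (Fin.castAdd 1 j)) : Fin (a i + 1) → ℕ) j)

theorem slQ_rudX {ι : Type} (a : ι → ℕ) (i : β ⊕ ι) :
    RudX (Sum.elim b (fun i => a i + 1)) (Sum.elim b a i + 1) (slQ b a i) := by
  rcases i with i | i
  · exact RudX.so' (a := Sum.elim b (fun i => a i + 1)) (k := b i + 1) (Sum.inl i)
      (t := fun j u => u (Fin.castAdd 1 j)) (fun j => IsPoly.var _)
  · refine RudX.so' (a := Sum.elim b (fun i => a i + 1)) (k := a i + 1) (Sum.inr i)
      (t := fun j u => (Fin.cons (u (Fin.natAdd _ 0))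
      (fun j : Fin (a i) => u (Fin.castAdd 1 j)) : Fin (a i + 1) → ℕ) j) (fun j => ?_)
    refine Fin.cases ?_ (fun j => ?_) j
    · exact IsPoly.var _
    · exact IsPoly.var _

theorem prodP_rudX {ι : Type} [Finite ι] {a : ι → ℕ} {p : (Fin (k + 1) → ℕ) → ℕ}
    {q : (Fin k → ℕ) → ℕ} (hp : IsPoly (k + 1) p) (hq : IsPoly k q)
    (hpq : IsPoly k (fun v => p (Fin.cons (q v) v)))
    {P : SOA (Sum.elim b a) → (Fin (k + 1) → ℕ) → Prop} (hP : RudX (Sum.elim b a) (k + 1) P) :
    RudX (Sum.elim b (fun i => a i + 1)) k (fun Z v =>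
      prodP p q P (fstV Z) (sndV Z) v) := by
  refine RudX.and' ?_ ?_
  · refine RudX.all_fin (fun i => ?_)
    have h0 : IsPoly ((a i + 1) + k) (fun u => q (fun j => u (Fin.natAdd _ j))) :=
      hq.sub (fun j => IsPoly.var _)
    have h2 : IsPoly ((a i + 1) + k) (fun u => p (Fin.cons (u (Fin.castAdd k 0))
        (fun j => u (Fin.natAdd _ j)))) := by
      have h3 : IsPoly ((a i + 1) + k) (fun u => p (fun l => (Fin.cons (fun u => u (Fin.castAdd k 0))
        (fun (j : Fin k) u => u (Fin.natAdd _ j)) :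
          Fin (k + 1) → (Fin ((a i + 1) + k) → ℕ) → ℕ) l u)) := by
        refine hp.sub (fun l => ?_)
        refine Fin.cases ?_ (fun l => ?_) l
        · exact IsPoly.var _
        · exact IsPoly.var _
      have e1 : (fun u : Fin ((a i + 1) + k) → ℕ => p (Fin.cons (u (Fin.castAdd k 0))
          (fun j => u (Fin.natAdd _ j)))) = (fun u => p (fun l => (Fin.cons
          (fun u => u (Fin.castAdd k 0)) (fun (j : Fin k) u => u (Fin.natAdd _ j)) :
            Fin (k + 1) → (Fin ((a i + 1) + k) → ℕ) → ℕ) l u)) := by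
        funext u
        congr 1
        funext l
        refine Fin.cases ?_ (fun l => ?_) l
        · rfl
        · rfl
      rw [e1]
      exact h3
    have h1 : RudX (Sum.elim b (fun i => a i + 1)) ((a i + 1) + k) (fun Z u =>
        Z (Sum.inr i) (fun j => u (Fin.castAdd k j)) →
          (u (Fin.castAdd k 0) < q (fun j => u (Fin.natAdd _ j)) ∧
            ∀ j : Fin (a i), u (Fin.castAdd k (Fin.succ j)) <
              p (Fin.cons (u (Fin.castAdd k 0)) (fun j => u (Fin.natAdd _ j))))) := by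
      refine RudX.imp ?_ (RudX.and' ?_ ?_)
      · exact RudX.so' (a := Sum.elim b (fun i => a i + 1)) (Sum.inr i)
          (t := fun j u => u (Fin.castAdd k j)) (fun j => IsPoly.var _)
      · exact RudX.lt (IsPoly.var _) h0
      · exact RudX.all_fin (fun j => RudX.lt (IsPoly.var _) h2)
    refine (rudX_allT (hpq.add hq) h1).congr (fun Z v => ?_)
    refine forall_congr' (fun w => imp_congr Iff.rfl ?_)
    have e1 : (fun j : Fin (a i + 1) => Fin.append w v (Fin.castAdd k j)) = w := by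
      funext j
      exact Fin.append_left _ _ _
    have e2 : (fun j : Fin k => Fin.append w v (Fin.natAdd (a i + 1) j)) = v := by
      funext j
      exact Fin.append_right _ _ _
    have e3 : ∀ j : Fin (a i + 1), Fin.append w v (Fin.castAdd k j) = w j :=
      fun j => Fin.append_left _ _ _
    show _ ↔ (Z (Sum.inr i) (fun j : Fin (a i + 1) => Fin.append w v (Fin.castAdd k j)) → _)
    rw [e1]
    simp only [e2, e3]
    rfl
  · refine RudX.all (P := fun Z v x => x < q v → P (jn (fstV Z)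
      (sliceP (sndV Z) x)) (Fin.cons x v)) hq ?_
    refine RudX.imp (RudX.lt (IsPoly.var 0) hq.tail) ?_
    refine (rudX_substR hP (d := 1) (Q := slQ b a) (slQ_rudX a) (m := k + 1)
      (σ := fun i w => w i) (fun i => IsPoly.var i) (τ := fun _ w => w 0)
      (fun _ => IsPoly.var 0)).congr (fun Z w => ?_)
    have e1 : (Fin.cons (w 0) (Fin.tail w) : Fin (k + 1) → ℕ) = fun i => w i :=
      Fin.cons_self_tail w
    rw [e1]
    refine Iff.of_eq (congrArg (fun X => P X (fun i => w i)) ?_)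
    funext i u
    rcases i with i | i
    · have e2 : (fun j : Fin (b i) => Fin.append u (fun _ : Fin 1 => w 0) (Fin.castAdd 1 j)) =
          u := by
        funext j
        exact Fin.append_left _ _ _
      show Z (Sum.inl i) u = Z (Sum.inl i) (fun j : Fin (b i) =>
        Fin.append u (fun _ : Fin 1 => w 0) (Fin.castAdd 1 j))
      exact congrArg (Z (Sum.inl i)) e2.symm
    · have e2 : (fun j : Fin (a i) => Fin.append u (fun _ : Fin 1 => w 0) (Fin.castAdd 1 j)) =
          u := by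
        funext j
        exact Fin.append_left _ _ _
      have e3 : Fin.append u (fun _ : Fin 1 => w 0) (Fin.natAdd (a i) 0) = w 0 :=
        Fin.append_right _ _ _
      show Z (Sum.inr i) (Fin.cons (w 0) u) = Z (Sum.inr i) (Fin.cons
        (Fin.append u (fun _ : Fin 1 => w 0) (Fin.natAdd (a i) 0))
        (fun j : Fin (a i) => Fin.append u (fun _ : Fin 1 => w 0) (Fin.castAdd 1 j)))
      rw [e2, e3]

theorem cn_prod {g : SOA b → (Fin (k + 1) → ℕ) → ℕ} (h : Cn b (k + 1) g)
    {q : (Fin k → ℕ) → ℕ} (hq : IsPoly k q) :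
    Cn b k (fun Y v => ∏ x ∈ Finset.range (q v), g Y (Fin.cons x v)) := by
  obtain ⟨ι, hι, a, p, P, hp, hP, hg⟩ := h
  have hpq : IsPoly k (fun v => p (Fin.cons (q v) v)) := by
    have h1 : IsPoly k (fun v => p (fun i => (Fin.cons q (fun i v => v i) :
        Fin (k + 1) → (Fin k → ℕ) → ℕ) i v)) := by
      refine hp.sub (fun i => ?_)
      refine Fin.cases ?_ (fun i => ?_) i
      · exact hq
      · exact IsPoly.var i
    have e1 : (fun v : Fin k → ℕ => p (Fin.cons (q v) v)) = (fun v => p (fun i => (Fin.cons q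
        (fun i v => v i) : Fin (k + 1) → (Fin k → ℕ) → ℕ) i v)) := by
      funext v
      congr 1
      funext i
      refine Fin.cases ?_ (fun i => ?_) i
      · rfl
      · rfl
    rw [e1]
    exact h1
  refine ⟨ι, hι, fun i => a i + 1, fun v => p (Fin.cons (q v) v) + q v, fun Z v =>
    prodP p q P (fstV Z) (sndV Z) v, hpq.add hq,
    prodP_rudX hp hq hpq hP, fun Y v => ?_⟩
  have h1 : ∀ v : Fin k → ℕ, ∀ x, x ≤ q v → p (Fin.cons x v) ≤ p (Fin.cons (q v) v) := by
    intro v x hx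
    refine isPoly_mono hp (fun i => ?_)
    refine Fin.cases ?_ (fun i => ?_) i
    · exact hx
    · exact le_refl _
  show ∏ x ∈ Finset.range (q v), g Y (Fin.cons x v) = _
  rw [Finset.prod_range]
  have h2 := Nat.card_congr (prodEquiv p q P h1 Y v)
  rw [Nat.card_pi] at h2
  simp only [hg]
  exact h2.symm

private theorem cn_subst64 {g : SOA b → (Fin k → ℕ) → ℕ} (h : Cn b k g)
    {m : ℕ} {σ : Fin k → (Fin m → ℕ) → ℕ} (hσ : ∀ i, IsPoly m (σ i)) :
    Cn b m (fun Y v => g Y (fun i => σ i v)) := by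
  obtain ⟨ι, hι, a, p, P, hp, hP, hg⟩ := h
  exact ⟨ι, hι, a, fun v => p (fun i => σ i v), fun Z v => P Z (fun i => σ i v), hp.sub hσ,
    hP.subst m σ hσ, fun Y v => hg Y (fun i => σ i v)⟩

theorem cn_pow {g : SOA b → (Fin k → ℕ) → ℕ} (h : Cn b k g) {q : (Fin k → ℕ) → ℕ}
    (hq : IsPoly k q) : Cn b k (fun Y v => g Y v ^ q v) := by
  have h1 : Cn b (k + 1) (fun Y w => g Y (fun i => w (Fin.succ i))) :=
    cn_subst64 h (σ := fun i w => w (Fin.succ i)) (fun i => IsPoly.var i.succ)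
  have h2 := cn_prod h1 hq
  have e1 : (fun (Y : SOA b) v => g Y v ^ q v) = (fun Y v => ∏ x ∈ Finset.range (q v),
      (fun (Y : SOA b) (w : Fin (k + 1) → ℕ) => g Y (fun i => w (Fin.succ i))) Y
        (Fin.cons x v)) := by
    funext Y v
    have e2 : ∀ x : ℕ, (fun (Y : SOA b) (w : Fin (k + 1) → ℕ) => g Y (fun i => w (Fin.succ i))) Y
        (Fin.cons x v) = g Y v := fun x => rfl
    simp only [e2, Finset.prod_const, Finset.card_range]
  rw [e1]
  exact h2

/-- nonempty subsets -/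
noncomputable def neEquiv (B : ℕ) :
    {X : SOA (fun _ : Unit => 1) // Bd B X ∧ ∃ x, x ≤ B ∧ x < B ∧ X () (fun _ => x)} ≃
      {s : Finset (Fin B) // s.Nonempty} where
  toFun X := ⟨Finset.univ.filter (fun x : Fin B => X.1 () (fun _ => (x : ℕ))), by
    obtain ⟨X, h1, x, _, h2, h3⟩ := X
    exact ⟨⟨x, h2⟩, by simpa using h3⟩⟩
  invFun s := ⟨fun _ w => ∃ x : Fin B, x ∈ s.1 ∧ w 0 = x, by
    refine ⟨?_, ?_⟩
    · rintro i w ⟨x, _, h⟩ j
      have h3 : j = 0 := Subsingleton.elim _ _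
      have h4 : w j = w 0 := by rw [h3]
      rw [h4, h]
      exact x.2
    · obtain ⟨x, hx⟩ := s.2
      exact ⟨x, x.2.le, x.2, x, hx, rfl⟩⟩
  left_inv := by
    rintro ⟨X, h1, h2⟩
    refine Subtype.ext ?_
    funext i w
    have hw : w = fun _ => w 0 := by
      funext j
      have h3 : j = 0 := Subsingleton.elim _ _
      rw [h3]
    refine propext ⟨?_, fun h => ⟨⟨w 0, h1 i w h 0⟩, ?_, rfl⟩⟩
    · rintro ⟨x, h3, h4⟩
      have h5 : X () (fun _ => (x : ℕ)) := by simpa using h3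
      rw [hw]
      simp only [h4]
      exact h5
    · have h5 : X () (fun _ => w 0) := hw ▸ h
      simpa using h5
  right_inv := by
    rintro ⟨s, hs⟩
    refine Subtype.ext ?_
    ext x
    simp only [Finset.mem_filter, Finset.mem_univ, true_and]
    constructor
    · rintro ⟨y, h1, h2⟩
      have : x = y := Fin.ext h2
      rwa [this]
    · intro h
      exact ⟨x, h, rfl⟩

theorem card_ne (B : ℕ) : Nat.card {s : Finset (Fin B) // s.Nonempty} = 2 ^ B - 1 := by
  rw [Nat.card_eq_fintype_card, Fintype.card_subtype]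
  have e1 : (Finset.univ.filter (fun s : Finset (Fin B) => s.Nonempty)) =
      Finset.univ.erase ∅ := by
    ext s
    simp [Finset.nonempty_iff_ne_empty]
  rw [e1, Finset.card_erase_of_mem (Finset.mem_univ _), Finset.card_univ, Fintype.card_finset,
    Fintype.card_fin]

theorem cn_two_pow_sub {q : (Fin k → ℕ) → ℕ} (hq : IsPoly k q) :
    Cn b k (fun _ v => 2 ^ q v - 1) := by
  refine ⟨Unit, inferInstance, fun _ => 1, q, fun Z v => ∃ x, x ≤ q v ∧ (x < q v ∧
    Z (Sum.inr ()) (fun _ => x)), hq, ?_, fun Y v => ?_⟩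
  · refine RudX.ex (P := fun Z v x => x < q v ∧ Z (Sum.inr ()) (fun _ => x)) hq ?_
    refine RudX.and' (RudX.lt (IsPoly.var 0) hq.tail) ?_
    exact RudX.so' (a := Sum.elim b (fun _ : Unit => 1)) (Sum.inr ()) (t := fun _ w => w 0)
      (fun _ => IsPoly.var 0)
  · show 2 ^ q v - 1 = _
    rw [← card_ne, ← Nat.card_congr (neEquiv (q v))]
    rfl

end

end Pool.Agent.Helper38.DG
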