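import Pool.Agent.Helper38.DG.CnBasic

/-!
# DG5: the sum over a bounded relation variable of a counting function is a counting function
-/

set_option autoImplicit false

namespace Pool.Agent.Helper38.DG

open FirstOrder FirstOrder.Language Pool.Agent.Helper20.Spectra
open scoped Classical

namespace CR

open CB

variable {β : Type} {b : β → ℕ} {ι : Type} {a : ι → ℕ} {k : ℕ}

/-- one relation of arity `e` -/
def uA (e : ℕ) : Unit → ℕ := fun _ => e

/-- the assignment with one relation -/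
def mkR {e : ℕ} (Z : (Fin e → ℕ) → Prop) : SOA (uA e) := fun _ => Z

/-- the relation in a joint assignment -/
def zp {e : ℕ} (W : SOA (Sum.elim (uA e) a)) : (Fin e → ℕ) → Prop := W (Sum.inl ())

/-- the rest of a joint assignment -/
def xp {e : ℕ} (W : SOA (Sum.elim (uA e) a)) : SOA a := fun i => W (Sum.inr i)

theorem finite_brel (e B : ℕ) : Finite (BRel e B) := by
  have h := finite_bd (a := uA e) B (fun _ => True)
  refine Finite.of_injective (β := {X : SOA (uA e) // Bd B X ∧ True})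
    (fun Z => ⟨mkR Z.1, fun _ w hw => Z.2 w hw, trivial⟩) ?_
  intro Z Z' hZ
  have h1 : mkR Z.1 = mkR Z'.1 := Subtype.ext_iff.1 hZ
  exact Subtype.ext (congrFun h1 ())

theorem cnt_sum (e : ℕ) [Finite ι] {B B₁ B₂ : ℕ} (h₁ : B₁ ≤ B) (h₂ : B₂ ≤ B)
    (R : ((Fin e → ℕ) → Prop) → SOA a → Prop) :
    cnt B (fun W : SOA (Sum.elim (uA e) a) => R (zp W) (xp W) ∧
      (BdIn B₁ B (lft W) ∧ BdIn B₂ B (rgt W))) =
      ∑ᶠ Z : BRel e B₁, cnt B₂ (R Z.1) := by
  have hf := finite_brel e B₁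
  have := Fintype.ofFinite (BRel e B₁)
  have hf2 : ∀ Z : BRel e B₁, Finite {X : SOA a // Bd B₂ X ∧ R Z.1 X} := fun Z => finite_bd _ _
  rw [finsum_eq_sum_of_fintype]
  unfold cnt
  rw [← Nat.card_sigma]
  symm
  refine Nat.card_congr (Equiv.ofBijective (fun x => ⟨jn (mkR x.1.1) x.2.1, ?_, ?_⟩) ⟨?_, ?_⟩)
  · exact (bd_jn _ _).2 ⟨bd_mono h₁ (fun _ w hw => x.1.2 w hw), bd_mono h₂ x.2.2.1⟩
  · exact ⟨x.2.2.2, bdIn_of (fun _ w hw => x.1.2 w hw), bdIn_of x.2.2.1⟩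
  · rintro ⟨⟨Z, hZ⟩, ⟨X, hX⟩⟩ ⟨⟨Z', hZ'⟩, ⟨X', hX'⟩⟩ hxy
    obtain ⟨h1, h2⟩ := jn_inj (Subtype.ext_iff.1 hxy)
    have h3 : Z = Z' := congrFun h1 ()
    simp only at h2
    subst h3
    subst h2
    rfl
  · rintro ⟨W, hW, h1, h3, h4⟩
    have hW' := hW
    rw [← jn_eta W] at hW'
    obtain ⟨hW1, hW2⟩ := (bd_jn _ _).1 hW'
    have h5 : Bd B₁ (lft W) := bd_of_in hW1 h3
    refine ⟨⟨⟨lft W (), fun w hw => h5 () w hw⟩, ⟨rgt W, bd_of_in hW2 h4, h1⟩⟩, Subtype.ext ?_⟩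
    exact jn_eta W

end CR

open CB CR

section

variable {β : Type} {b : β → ℕ} {k : ℕ}

/-- sum over a second-order variable of arity `e` -/
theorem cn_sumR (e : ℕ) {g : SOA (addV e b) → (Fin k → ℕ) → ℕ} (h : Cn (addV e b) k g)
    {q : (Fin k → ℕ) → ℕ} (hq : IsPoly k q) :
    Cn b k (fun Y v => ∑ᶠ Z : BRel e (q v), g (consV Z.1 Y) v) := by
  obtain ⟨ι, hι, a, p, P, hp, hP, hg⟩ := h
  refine ⟨Unit ⊕ ι, inferInstance, Sum.elim (uA e) a, fun v => q v + p v,
    fun W v => P (jn (consV (zp (rgt W)) (lft W)) (xp (rgt W))) v ∧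
      (BdIn (q v) (q v + p v) (lft (rgt W)) ∧ BdIn (p v) (q v + p v) (rgt (rgt W))),
    hq.add hp, ?_, ?_⟩
  · refine RudX.and' ?_ (RudX.and' ?_ ?_)
    · refine rudX_mapF hP (fun W => jn (consV (zp (rgt W)) (lft W)) (xp (rgt W)))
        (fun i m t ht => ?_)
      match i, t, ht with
      | Sum.inl none, t, ht =>
        exact RudX.so' (a := Sum.elim b (Sum.elim (uA e) a)) (Sum.inr (Sum.inl ())) ht
      | Sum.inl (some i), t, ht =>
        exact RudX.so' (a := Sum.elim b (Sum.elim (uA e) a)) (Sum.inl i) ht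
      | Sum.inr i, t, ht =>
        exact RudX.so' (a := Sum.elim b (Sum.elim (uA e) a)) (Sum.inr (Sum.inr i)) ht
    · exact rudX_bdIn (a := Sum.elim b (Sum.elim (uA e) a)) (fun i : Unit => Sum.inr (Sum.inl i))
        (hq.add hp) hq
    · exact rudX_bdIn (a := Sum.elim b (Sum.elim (uA e) a)) (fun i : ι => Sum.inr (Sum.inr i))
        (hq.add hp) hp
  · intro Y v
    have h1 := cnt_sum (a := a) e (B := q v + p v) (B₁ := q v) (B₂ := p v) (Nat.le_add_right _ _)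
      (Nat.le_add_left _ _) (fun Z X => P (jn (consV Z Y) X) v)
    simp only [hg]
    exact h1.symm

end

end Pool.Agent.Helper38.DG
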