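import Pool.Agent.Helper38.DG.CnBasic

/-!
# DG3: bounded sums of counting functions
-/

set_option autoImplicit false

namespace Pool.Agent.Helper38.DG

open FirstOrder FirstOrder.Language Pool.Agent.Helper20.Spectra
open scoped Classical

namespace CS

open CB

variable {ι : Type} {a : ι → ℕ}

/-- one unary relation -/
def u1 : Unit → ℕ := fun _ => 1

/-- the singleton of `x` -/
def sg (x : ℕ) : SOA u1 := fun _ w => (show Fin 1 → ℕ from w) 0 = x

/-- the unary relation in a joint assignment, at `y` -/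
def zat (W : SOA (Sum.elim u1 a)) (y : ℕ) : Prop := W (Sum.inl ()) (fun _ => y)

theorem cnt_sum1 [Finite ι] {B q : ℕ} (p : ℕ → ℕ) (hq : q ≤ B) (hp : ∀ x, x < q → p x ≤ B)
    (R : ℕ → SOA a → Prop) :
    cnt B (fun W : SOA (Sum.elim u1 a) => ∃ x, x ≤ q ∧ (x < q ∧ ((∀ y, y ≤ B → (zat W y ↔ y = x)) ∧
      (R x (rgt W) ∧ BdIn (p x) B (rgt W))))) = ∑ x ∈ Finset.range q, cnt (p x) (R x) := by
  have hf2 : ∀ x : Fin q, Finite {X : SOA a // Bd (p x) X ∧ R x X} := fun Z => finite_bd _ _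
  rw [Finset.sum_range]
  unfold cnt
  rw [← Nat.card_sigma]
  symm
  refine Nat.card_congr (Equiv.ofBijective (fun x => ⟨jn (sg x.1) x.2.1, ?_, ?_⟩) ⟨?_, ?_⟩)
  · refine (bd_jn _ _).2 ⟨fun i w hw j => ?_, bd_mono (hp _ x.1.2) x.2.2.1⟩
    have h1 : (show Fin 1 → ℕ from w) 0 = x.1 := hw
    have h2 : j = (0 : Fin 1) := @Subsingleton.elim (Fin 1) _ j 0
    rw [h2]
    show (show Fin 1 → ℕ from w) 0 < B
    rw [h1]
    exact x.1.2.trans_le hq
  · exact ⟨x.1, x.1.2.le, x.1.2, fun y _ => Iff.rfl, x.2.2.2, bdIn_of x.2.2.1⟩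
  · rintro ⟨x, ⟨X, hX⟩⟩ ⟨x', ⟨X', hX'⟩⟩ hxy
    obtain ⟨h1, h2⟩ := jn_inj (Subtype.ext_iff.1 hxy)
    have h3 : ((x : ℕ) = x) = ((x : ℕ) = x') := congrFun (congrFun h1 ()) (fun _ => (x : ℕ))
    have h4 : (x : ℕ) = x' := by rw [← h3]
    have h5 : x = x' := Fin.ext h4
    subst h5
    simp only at h2
    subst h2
    rfl
  · rintro ⟨W, hW, x, _, hxq, hz, hR, hB⟩
    have hW' := hW
    rw [← jn_eta W] at hW'
    obtain ⟨hW1, hW2⟩ := (bd_jn _ _).1 hW'
    refine ⟨⟨⟨x, hxq⟩, ⟨rgt W, bd_of_in hW2 hB, hR⟩⟩, Subtype.ext ?_⟩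
    show jn (sg x) (rgt W) = W
    conv_rhs => rw [← jn_eta W]
    congr 1
    funext i w
    have hw : w = fun _ => (show Fin 1 → ℕ from w) 0 := by
      funext j
      have h2 : j = (0 : Fin 1) := @Subsingleton.elim (Fin 1) _ j 0
      rw [h2]
    apply propext
    show (show Fin 1 → ℕ from w) 0 = x ↔ lft W () w
    by_cases hy : (show Fin 1 → ℕ from w) 0 ≤ B
    · rw [← hz _ hy]
      conv_rhs => rw [hw]
      exact Iff.rfl
    · constructor
      · intro h; omega
      · intro h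
        have := hW1 () w h (0 : Fin 1)
        exact absurd (le_of_lt this) hy

end CS

open CB CS

section

variable {β : Type} {b : β → ℕ} {k : ℕ}

theorem cn_sum {g : SOA b → (Fin (k + 1) → ℕ) → ℕ} (h : Cn b (k + 1) g)
    {q : (Fin k → ℕ) → ℕ} (hq : IsPoly k q) :
    Cn b k (fun Y v => ∑ x ∈ Finset.range (q v), g Y (Fin.cons x v)) := by
  obtain ⟨ι, hι, a, p, P, hp, hP, hg⟩ := h
  have hpm : Helper20.Spectra.IsPoly k (fun v => p (Fin.cons (q v) v)) := by
    have h1 := hp.sub (f := fun i v => (Fin.cons (q v) v : Fin (k + 1) → ℕ) i)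
      (fun i => by
        refine Fin.cases ?_ (fun i => ?_) i
        · exact hq
        · exact Helper20.Spectra.IsPoly.var i)
    exact h1
  have hB : Helper20.Spectra.IsPoly k (fun v => q v + p (Fin.cons (q v) v)) := hq.add hpm
  have hP1 : RudX (Sum.elim b (Sum.elim u1 a)) (k + 1)
      (fun W u => P (jn (lft W) (rgt (rgt W))) u) := by
    refine rudX_mapF hP (fun W => jn (lft W) (rgt (rgt W))) (fun i m t ht => ?_)
    match i, t, ht with
    | Sum.inl i, t, ht =>
      exact RudX.so' (a := Sum.elim b (Sum.elim u1 a)) (Sum.inl i) ht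
    | Sum.inr i, t, ht =>
      exact RudX.so' (a := Sum.elim b (Sum.elim u1 a)) (Sum.inr (Sum.inr i)) ht
  refine ⟨Unit ⊕ ι, inferInstance, Sum.elim u1 a, fun v => q v + p (Fin.cons (q v) v),
    fun W v => ∃ x, x ≤ q v ∧ (x < q v ∧
      ((∀ y, y ≤ q v + p (Fin.cons (q v) v) → (zat (rgt W) y ↔ y = x)) ∧
      (P (jn (lft W) (rgt (rgt W))) (Fin.cons x v) ∧
        BdIn (p (Fin.cons x v)) (q v + p (Fin.cons (q v) v)) (rgt (rgt W))))), hB, ?_, ?_⟩
  · refine RudX.ex hq (P := fun W v x => (x < q v ∧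
      ((∀ y, y ≤ q v + p (Fin.cons (q v) v) → (zat (rgt W) y ↔ y = x)) ∧
      (P (jn (lft W) (rgt (rgt W))) (Fin.cons x v) ∧
        BdIn (p (Fin.cons x v)) (q v + p (Fin.cons (q v) v)) (rgt (rgt W)))))) ?_
    refine RudX.and' (RudX.lt (Helper20.Spectra.IsPoly.var 0) hq.tail) (RudX.and' ?_
      (RudX.and' ?_ ?_))
    · refine RudX.all hB.tail (P := fun W u y => (zat (rgt W) y ↔ y = u 0)) ?_
      refine RudX.iff ?_ (RudX.eq (Helper20.Spectra.IsPoly.var 0)
        (Helper20.Spectra.IsPoly.var 1))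
      exact RudX.so' (a := Sum.elim b (Sum.elim u1 a)) (Sum.inr (Sum.inl ()))
        (t := fun _ v => v 0) (fun _ => Helper20.Spectra.IsPoly.var 0)
    · refine hP1.congr (fun W u => ?_)
      rw [Fin.cons_self_tail]
    · refine (rudX_bdIn (a := Sum.elim b (Sum.elim u1 a)) (fun i : ι => Sum.inr (Sum.inr i))
        hB.tail hp).congr (fun W u => ?_)
      rw [Fin.cons_self_tail]
      exact Iff.rfl
  · intro Y v
    have h1 := cnt_sum1 (a := a) (B := q v + p (Fin.cons (q v) v)) (q := q v)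
      (fun x => p (Fin.cons x v)) (Nat.le_add_right _ _) (fun x hx => ?_)
      (fun x X => P (jn Y X) (Fin.cons x v))
    · simp only [hg]
      exact h1.symm
    · refine le_trans (isPoly_mono hp (fun i => ?_)) (Nat.le_add_left _ _)
      refine Fin.cases ?_ (fun i => ?_) i
      · exact hx.le
      · exact le_rfl

theorem cn_poly {q : (Fin k → ℕ) → ℕ} (hq : IsPoly k q) : Cn b k (fun _ v => q v) := by
  have h1 := cn_ind (b := b) (k := k + 1) (RudX.const True)
  have h2 := cn_sum h1 hq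
  simp only [if_true, Finset.sum_const, Finset.card_range, smul_eq_mul, mul_one] at h2
  exact h2

end

end Pool.Agent.Helper38.DG
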