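import Pool.Agent.Helper38.DG.Defs

/-!
# Block DG10: an estimate
-/

set_option autoImplicit false

namespace Pool.Agent.Helper38.DG

open FirstOrder FirstOrder.Language Pool.Agent.Helper20.Spectra
open scoped Classical

theorem est_aux (e : ℕ) : ∃ l₀ : ℕ, ∀ l, l₀ ≤ l → (e + e * (l + 1) ^ 2 + 3) * l ≤ 2 ^ l := by
  have h := (tendsto_pow_const_div_const_pow_of_one_lt 4 (r := (2 : ℝ)) (by norm_num))
  have h1 : ∀ᶠ n : ℕ in Filter.atTop, (n : ℝ) ^ 4 / 2 ^ n < 1 :=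
    h.eventually (gt_mem_nhds (by norm_num))
  obtain ⟨N, hN⟩ := Filter.eventually_atTop.1 h1
  refine ⟨max N (5 * e + 3), fun l hl => ?_⟩
  have hl1 : N ≤ l := le_trans (le_max_left _ _) hl
  have hl2 : 5 * e + 3 ≤ l := le_trans (le_max_right _ _) hl
  have h4 : l ^ 4 ≤ 2 ^ l := by
    have h5 := hN l hl1
    rw [div_lt_one (by positivity)] at h5
    exact_mod_cast h5.le
  refine le_trans ?_ h4
  have h6 : (l + 1) ^ 2 ≤ 4 * l ^ 2 := by nlinarith
  have h7 : 1 ≤ l ^ 2 := Nat.one_le_pow _ _ (by omega)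
  have h8 : e + e * (l + 1) ^ 2 + 3 ≤ (5 * e + 3) * l ^ 2 := by nlinarith
  have h9 : (5 * e + 3) * l ^ 2 ≤ l * l ^ 2 := Nat.mul_le_mul_right _ hl2
  calc (e + e * (l + 1) ^ 2 + 3) * l ≤ (l * l ^ 2) * l := Nat.mul_le_mul_right _ (h8.trans h9)
    _ = l ^ 4 := by ring

theorem est (e : ℕ) : ∃ n₀ : ℕ, ∀ n, n₀ ≤ n →
    (e : ℝ) * ((smallN ll n : ℝ) * (n + 1)) ^ e * (1 - 1 / 2 ^ (ll n)) ^ n ≤ 1 / 8 := by
  obtain ⟨l₀, hl₀⟩ := est_aux e
  refine ⟨2 ^ (max l₀ 1), fun n hn => ?_⟩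
  have hn0 : n ≠ 0 := by
    have := Nat.one_le_two_pow (n := max l₀ 1)
    omega
  obtain ⟨l, hl⟩ : ∃ l, l = Nat.log 2 n := ⟨_, rfl⟩
  have hll : max l₀ 1 ≤ l := by
    rw [hl]
    exact Nat.le_log_of_pow_le (by norm_num) hn
  have hl1 : 1 ≤ l := le_trans (le_max_right _ _) hll
  have hl0 : l₀ ≤ l := le_trans (le_max_left _ _) hll
  have hn1 : n + 1 ≤ 2 ^ (l + 1) := by
    have := Nat.lt_pow_succ_log_self (b := 2) (by norm_num) n
    rw [← hl] at this
    exact this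
  have hn2 : 2 ^ l ≤ n := by
    have := Nat.pow_log_le_self 2 hn0
    rw [← hl] at this
    exact this
  have h2 : 2 ^ (ll n) ≤ l := by
    have := Nat.pow_log_le_self 2 (x := l) (by omega)
    unfold ll
    rw [← hl]
    exact this
  have h3 : ll n + 1 ≤ l + 1 := by
    have := Nat.lt_two_pow_self (n := ll n)
    omega
  have h4 := hl₀ l hl0
  obtain ⟨m, hm⟩ : ∃ m, m = e + e * (l + 1) ^ 2 + 3 := ⟨_, rfl⟩
  rw [← hm] at h4
  -- first factor
  have hA : ((smallN ll n : ℝ) * (n + 1)) ^ e ≤ 2 ^ (e * (l + 1) ^ 2) := by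
    have h5 : (smallN ll n * (n + 1)) ^ e ≤ 2 ^ (e * (l + 1) ^ 2) := by
      unfold smallN
      rw [← pow_succ]
      calc ((n + 1) ^ (ll n + 1)) ^ e ≤ ((2 ^ (l + 1)) ^ (l + 1)) ^ e := by
            apply Nat.pow_le_pow_left
            exact (Nat.pow_le_pow_left hn1 _).trans (Nat.pow_le_pow_right (by positivity) h3)
        _ = 2 ^ (e * (l + 1) ^ 2) := by
            rw [← pow_mul, ← pow_mul]
            congr 1
            ring
    exact_mod_cast h5
  -- second factor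
  have hx0 : (0 : ℝ) < 2 ^ (ll n) := by positivity
  have hx1 : (1 : ℝ) ≤ 2 ^ (ll n) := one_le_pow₀ (by norm_num)
  have hB0 : (0 : ℝ) ≤ 1 - 1 / 2 ^ (ll n) := by
    have : (1 : ℝ) / 2 ^ (ll n) ≤ 1 := by
      rw [div_le_one hx0]
      exact hx1
    linarith
  have hB : (1 - 1 / (2 : ℝ) ^ (ll n)) ^ n ≤ (1 / 2) ^ m := by
    have h6 : (1 - 1 / (2 : ℝ) ^ (ll n)) ≤ Real.exp (-(1 / 2 ^ (ll n))) :=
      Real.one_sub_le_exp_neg _
    have h7 : (m : ℝ) ≤ n * (1 / 2 ^ (ll n)) := by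
      rw [mul_one_div, le_div_iff₀ hx0]
      have : m * 2 ^ (ll n) ≤ n :=
        (Nat.mul_le_mul_left _ h2).trans (h4.trans hn2)
      exact_mod_cast this
    calc (1 - 1 / (2 : ℝ) ^ (ll n)) ^ n ≤ (Real.exp (-(1 / 2 ^ (ll n)))) ^ n :=
          pow_le_pow_left₀ hB0 h6 n
      _ = Real.exp (-(n * (1 / 2 ^ (ll n)))) := by
          rw [← Real.exp_nat_mul]
          congr 1
          ring
      _ ≤ Real.exp (-(m : ℝ)) := Real.exp_le_exp.2 (by linarith)
      _ = (Real.exp (-1)) ^ m := by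
          rw [← Real.exp_nat_mul]
          congr 1
          ring
      _ ≤ (1 / 2) ^ m := by
          apply pow_le_pow_left₀ (Real.exp_pos _).le
          rw [Real.exp_neg, one_div]
          apply inv_anti₀ (by norm_num)
          have := Real.add_one_le_exp (1 : ℝ)
          linarith
  have hE : (e : ℝ) ≤ 2 ^ e := by
    have := (Nat.lt_two_pow_self (n := e)).le
    exact_mod_cast this
  calc (e : ℝ) * ((smallN ll n : ℝ) * (n + 1)) ^ e * (1 - 1 / 2 ^ (ll n)) ^ n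
      ≤ (2 ^ e * 2 ^ (e * (l + 1) ^ 2)) * (1 / 2) ^ m := by
        apply mul_le_mul _ hB (pow_nonneg hB0 _) (by positivity)
        exact mul_le_mul hE hA (by positivity) (by positivity)
    _ = 1 / 8 := by
        rw [hm, one_div, inv_pow, ← pow_add, pow_add _ _ 3]
        have : (2 : ℝ) ^ (e + e * (l + 1) ^ 2) ≠ 0 := by positivity
        field_simp
        norm_num

end Pool.Agent.Helper38.DG
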