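import Pool.Agent.Helper12.SS.Hash

/-!
DG7: parity hashing for families of small sets.
-/

set_option autoImplicit false

open scoped Classical

namespace Pool.Agent.Helper38.DG

theorem hash_one {n s : ℕ} (F : Finset (Finset (Fin n))) (hs : ∀ Z ∈ F, Z.card ≤ s)
    (hF : F.Nonempty) :
    2 ^ n ≤ 2 ^ s * (Finset.univ.filter (fun ρ : Finset (Fin n) =>
      Odd (F.filter (fun Z => Z ⊆ ρ)).card)).card := by
  have h := Pool.Agent.Helper12.SS.hash F s hF hs
  rw [Fintype.card_fin] at h
  convert h using 3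

theorem hash_many {n s : ℕ} (F : Finset (Finset (Fin n))) (hs : ∀ Z ∈ F, Z.card ≤ s)
    (hF : F.Nonempty) :
    ((Finset.univ.filter (fun r : Fin n → Fin n → Bool => ∀ j, Even (F.filter (fun Z =>
      ∀ x ∈ Z, r j x = true)).card)).card : ℝ) ≤ (1 - 1 / 2 ^ s) ^ n * 2 ^ (n * n) := by
  set E : Finset (Fin n → Bool) := Finset.univ.filter (fun ρ : Fin n → Bool =>
    Even (F.filter (fun Z => ∀ x ∈ Z, ρ x = true)).card) with hE
  set O : Finset (Fin n → Bool) := Finset.univ.filter (fun ρ : Fin n → Bool =>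
    Odd (F.filter (fun Z => ∀ x ∈ Z, ρ x = true)).card) with hO
  have h1 : E.card + O.card = 2 ^ n := by
    have h2 := Finset.card_filter_add_card_filter_not (s := (Finset.univ : Finset (Fin n → Bool)))
      (fun ρ : Fin n → Bool => Even (F.filter (fun Z => ∀ x ∈ Z, ρ x = true)).card)
    simp only [Nat.not_even_iff_odd] at h2
    rw [Finset.card_univ, Fintype.card_fun, Fintype.card_bool, Fintype.card_fin] at h2
    exact h2
  have h2 : (Finset.univ.filter (fun ρ : Finset (Fin n) =>
      Odd (F.filter (fun Z => Z ⊆ ρ)).card)).card = O.card := by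
    refine Finset.card_bij (fun ρ _ => fun x => decide (x ∈ ρ)) ?_ ?_ ?_
    · intro ρ hρ
      rw [Finset.mem_filter] at hρ ⊢
      refine ⟨Finset.mem_univ _, ?_⟩
      have e : F.filter (fun Z => ∀ x ∈ Z, (fun x => decide (x ∈ ρ)) x = true) =
          F.filter (fun Z => Z ⊆ ρ) := by
        refine Finset.filter_congr (fun Z _ => ?_)
        simp only [decide_eq_true_eq]
        exact Iff.rfl
      rw [e]
      exact hρ.2
    · intro ρ _ ρ' _ h
      ext x
      have := congrFun h x
      simpa using this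
    · intro b hb
      rw [Finset.mem_filter] at hb
      refine ⟨Finset.univ.filter (fun x => b x = true), ?_, ?_⟩
      · rw [Finset.mem_filter]
        refine ⟨Finset.mem_univ _, ?_⟩
        have e : F.filter (fun Z => Z ⊆ Finset.univ.filter (fun x => b x = true)) =
            F.filter (fun Z => ∀ x ∈ Z, b x = true) := by
          refine Finset.filter_congr (fun Z _ => ?_)
          constructor
          · intro h x hx
            exact (Finset.mem_filter.1 (h hx)).2
          · intro h x hx
            exact Finset.mem_filter.2 ⟨Finset.mem_univ _, h x hx⟩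
        rw [e]
        exact hb.2
      · funext x
        simp
  have h3 : (2 : ℝ) ^ n ≤ 2 ^ s * (O.card : ℝ) := by
    have := hash_one F hs hF
    rw [h2] at this
    exact_mod_cast this
  have h4 : (E.card : ℝ) ≤ (1 - 1 / 2 ^ s) * 2 ^ n := by
    have h5 : (E.card : ℝ) + O.card = 2 ^ n := by exact_mod_cast h1
    have h6 : (0 : ℝ) < 2 ^ s := by positivity
    have h7 : (2 : ℝ) ^ n / 2 ^ s ≤ O.card := by
      rw [div_le_iff₀ h6]
      linarith
    have h8 : (1 - 1 / 2 ^ s) * (2 : ℝ) ^ n = 2 ^ n - 2 ^ n / 2 ^ s := by ring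
    rw [h8]
    linarith
  have h5 : (Finset.univ.filter (fun r : Fin n → Fin n → Bool => ∀ j, Even (F.filter (fun Z =>
      ∀ x ∈ Z, r j x = true)).card)) = Fintype.piFinset (fun _ : Fin n => E) := by
    ext r
    rw [Finset.mem_filter, Fintype.mem_piFinset]
    simp [hE]
  rw [h5, Fintype.card_piFinset, Finset.prod_const, Finset.card_univ, Fintype.card_fin]
  push_cast
  calc (E.card : ℝ) ^ n ≤ ((1 - 1 / 2 ^ s) * 2 ^ n) ^ n :=
        pow_le_pow_left₀ (Nat.cast_nonneg _) h4 n
    _ = (1 - 1 / 2 ^ s) ^ n * 2 ^ (n * n) := by rw [mul_pow, ← pow_mul]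

end Pool.Agent.Helper38.DG
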