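import Pool.Agent.Helper38.DG.CnBasic

/-!
# Smallness as a counting function
-/

set_option autoImplicit false

namespace Pool.Agent.Helper38.DG

open FirstOrder FirstOrder.Language Pool.Agent.Helper20.Spectra
open scoped Classical

namespace Sm

/-- the arity of the given set variable -/
abbrev b1 : Unit → ℕ := fun _ => 1

/-- the arities of the witnesses: a counting relation and the iterated squares -/
abbrev a2 : Bool → ℕ := fun _ => 2

/-- the value of a witness -/
def rel (Z : SOA (Sum.elim b1 a2)) (i : Bool) (x y : ℕ) : Prop :=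
  Z (Sum.inr i) (![x, y] : Fin 2 → ℕ)

/-- the value of the set variable -/
def set (Z : SOA (Sum.elim b1 a2)) (x : ℕ) : Prop := Z (Sum.inl ()) (![x] : Fin 1 → ℕ)

lemma rudX_rel {k : ℕ} (i : Bool) {s t : (Fin k → ℕ) → ℕ} (hs : Helper20.Spectra.IsPoly k s) (ht : Helper20.Spectra.IsPoly k t) :
    RudX (Sum.elim b1 a2) k (fun Z v => rel Z i (s v) (t v)) := by
  refine RudX.so' (a := Sum.elim b1 a2) (Sum.inr i)
    (t := fun j v => (![s v, t v] : Fin 2 → ℕ) j) (fun j => ?_)
  change Helper20.Spectra.IsPoly k (fun v => (![s v, t v] : Fin 2 → ℕ) (show Fin 2 from j))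
  generalize (show Fin 2 from j) = j'
  fin_cases j'
  · exact hs
  · exact ht

lemma rudX_set {k : ℕ} {s : (Fin k → ℕ) → ℕ} (hs : Helper20.Spectra.IsPoly k s) :
    RudX (Sum.elim b1 a2) k (fun Z v => set Z (s v)) := by
  refine RudX.so' (a := Sum.elim b1 a2) (Sum.inl ())
    (t := fun j v => (![s v] : Fin 1 → ℕ) j) (fun j => ?_)
  change Helper20.Spectra.IsPoly k (fun v => (![s v] : Fin 1 → ℕ) (show Fin 1 from j))
  generalize (show Fin 1 from j) = j'
  fin_cases j'
  exact hs

/-- the conditions -/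
def cond (n : ℕ) (Z : SOA (Sum.elim b1 a2)) : Prop :=
  (∀ i, i ≤ n + 2 → (rel Z false 0 i ↔ i = 0)) ∧
  (∀ x, x ≤ n + 1 → ∀ i, i ≤ n + 2 → (rel Z false (x + 1) i ↔
    ((¬ set Z x ∧ rel Z false x i) ∨ (set Z x ∧ ∃ j, j ≤ i ∧ i = j + 1 ∧ rel Z false x j)))) ∧
  (∀ m, m ≤ n + 2 → (rel Z true 0 m ↔ m = 2)) ∧
  (∀ i, i ≤ n + 1 → ∀ m, m ≤ n + 2 → (rel Z true (i + 1) m ↔
    ∃ j, j ≤ m ∧ m = j * j ∧ rel Z true i j)) ∧
  (∃ c, c ≤ n ∧ rel Z false n c ∧ (c = 0 ∨ ∃ m, m ≤ n ∧ rel Z true c m))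

lemma rudX_cond : RudX (Sum.elim b1 a2) 1 (fun Z v => cond (v 0) Z) := by
  have v0 : Helper20.Spectra.IsPoly 1 (fun v => v 0) := Helper20.Spectra.IsPoly.var 0
  have c1 := RudX.all (a := Sum.elim b1 a2) (k := 1) (v0.add (Helper20.Spectra.IsPoly.const 2))
    (P := fun Z v i => (rel Z false 0 i ↔ i = 0))
    ((rudX_rel false (Helper20.Spectra.IsPoly.const 0) (Helper20.Spectra.IsPoly.var 0)).iff (RudX.eq (Helper20.Spectra.IsPoly.var 0) (Helper20.Spectra.IsPoly.const 0)))
  have c3 := RudX.all (a := Sum.elim b1 a2) (k := 1) (v0.add (Helper20.Spectra.IsPoly.const 2))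
    (P := fun Z v m => (rel Z true 0 m ↔ m = 2))
    ((rudX_rel true (Helper20.Spectra.IsPoly.const 0) (Helper20.Spectra.IsPoly.var 0)).iff (RudX.eq (Helper20.Spectra.IsPoly.var 0) (Helper20.Spectra.IsPoly.const 2)))
  have c2 := RudX.all (a := Sum.elim b1 a2) (k := 1) (v0.add (Helper20.Spectra.IsPoly.const 1))
    (P := fun Z v x => ∀ i, i ≤ v 0 + 2 → (rel Z false (x + 1) i ↔
      ((¬ set Z x ∧ rel Z false x i) ∨ (set Z x ∧ ∃ j, j ≤ i ∧ i = j + 1 ∧ rel Z false x j))))
    (RudX.all (a := Sum.elim b1 a2) (k := 2) ((Helper20.Spectra.IsPoly.var 1).add (Helper20.Spectra.IsPoly.const 2))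
      (P := fun Z v i => (rel Z false (v 0 + 1) i ↔
        ((¬ set Z (v 0) ∧ rel Z false (v 0) i) ∨
          (set Z (v 0) ∧ ∃ j, j ≤ i ∧ i = j + 1 ∧ rel Z false (v 0) j))))
      (RudX.iff (rudX_rel false ((Helper20.Spectra.IsPoly.var 1).add (Helper20.Spectra.IsPoly.const 1)) (Helper20.Spectra.IsPoly.var 0))
        (RudX.or ((rudX_set (Helper20.Spectra.IsPoly.var 1)).not'.and' (rudX_rel false (Helper20.Spectra.IsPoly.var 1) (Helper20.Spectra.IsPoly.var 0)))
          ((rudX_set (Helper20.Spectra.IsPoly.var 1)).and' (RudX.ex (a := Sum.elim b1 a2) (k := 3) (Helper20.Spectra.IsPoly.var 0)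
            (P := fun Z v j => v 0 = j + 1 ∧ rel Z false (v 1) j)
            ((RudX.eq (Helper20.Spectra.IsPoly.var 1) ((Helper20.Spectra.IsPoly.var 0).add (Helper20.Spectra.IsPoly.const 1))).and'
              (rudX_rel false (Helper20.Spectra.IsPoly.var 2) (Helper20.Spectra.IsPoly.var 0))))))))
  have c4 := RudX.all (a := Sum.elim b1 a2) (k := 1) (v0.add (Helper20.Spectra.IsPoly.const 1))
    (P := fun Z v i => ∀ m, m ≤ v 0 + 2 → (rel Z true (i + 1) m ↔
      ∃ j, j ≤ m ∧ m = j * j ∧ rel Z true i j))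
    (RudX.all (a := Sum.elim b1 a2) (k := 2) ((Helper20.Spectra.IsPoly.var 1).add (Helper20.Spectra.IsPoly.const 2))
      (P := fun Z v m => (rel Z true (v 0 + 1) m ↔ ∃ j, j ≤ m ∧ m = j * j ∧ rel Z true (v 0) j))
      (RudX.iff (rudX_rel true ((Helper20.Spectra.IsPoly.var 1).add (Helper20.Spectra.IsPoly.const 1)) (Helper20.Spectra.IsPoly.var 0))
        (RudX.ex (a := Sum.elim b1 a2) (k := 3) (Helper20.Spectra.IsPoly.var 0)
          (P := fun Z v j => v 0 = j * j ∧ rel Z true (v 1) j)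
          ((RudX.eq (Helper20.Spectra.IsPoly.var 1) ((Helper20.Spectra.IsPoly.var 0).mul (Helper20.Spectra.IsPoly.var 0))).and'
            (rudX_rel true (Helper20.Spectra.IsPoly.var 2) (Helper20.Spectra.IsPoly.var 0))))))
  have c5 := RudX.ex (a := Sum.elim b1 a2) (k := 1) v0
    (P := fun Z v c => rel Z false (v 0) c ∧ (c = 0 ∨ ∃ m, m ≤ v 0 ∧ rel Z true c m))
    ((rudX_rel false (Helper20.Spectra.IsPoly.var 1) (Helper20.Spectra.IsPoly.var 0)).and'
      ((RudX.eq (Helper20.Spectra.IsPoly.var 0) (Helper20.Spectra.IsPoly.const 0)).or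
        (RudX.ex (a := Sum.elim b1 a2) (k := 2) (Helper20.Spectra.IsPoly.var 1)
          (P := fun Z v m => rel Z true (v 0) m) (rudX_rel true (Helper20.Spectra.IsPoly.var 1) (Helper20.Spectra.IsPoly.var 0)))))
  exact c1.and' (c2.and' (c3.and' (c4.and' c5)))

lemma rel_jn (Y : SOA b1) (X : SOA a2) (i : Bool) (x y : ℕ) :
    rel (jn Y X) i x y ↔ X i (![x, y] : Fin 2 → ℕ) := Iff.rfl

lemma set_jn (Y : SOA b1) (X : SOA a2) (x : ℕ) : set (jn Y X) x ↔ Y () (![x] : Fin 1 → ℕ) :=
  Iff.rfl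

/-- the number of elements below `x` -/
noncomputable def num (Y : SOA b1) (x : ℕ) : ℕ := ({y : ℕ | y < x ∧ Y () ![y]} : Set ℕ).ncard

lemma num_zero (Y : SOA b1) : num Y 0 = 0 := by
  simp [num]

lemma num_succ (Y : SOA b1) (x : ℕ) : num Y (x + 1) = num Y x + if Y () ![x] then 1 else 0 := by
  unfold num
  split_ifs with h
  · have : ({y : ℕ | y < x + 1 ∧ Y () ![y]} : Set ℕ) = insert x {y : ℕ | y < x ∧ Y () ![y]} := by
      ext y
      simp only [Set.mem_ofPred_eq, Set.mem_insert_iff]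
      constructor
      · rintro ⟨h1, h2⟩
        rcases Nat.lt_succ_iff_lt_or_eq.mp h1 with h3 | h3
        · exact Or.inr ⟨h3, h2⟩
        · exact Or.inl h3
      · rintro (h1 | ⟨h1, h2⟩)
        · exact ⟨by omega, h1 ▸ h⟩
        · exact ⟨by omega, h2⟩
    rw [this, Set.ncard_insert_of_notMem (by simp)
      ((Set.finite_lt_nat x).subset (fun y hy => hy.1))]
  · have : ({y : ℕ | y < x + 1 ∧ Y () ![y]} : Set ℕ) = {y : ℕ | y < x ∧ Y () ![y]} := by
      ext y
      simp only [Set.mem_ofPred_eq]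
      constructor
      · rintro ⟨h1, h2⟩
        rcases Nat.lt_succ_iff_lt_or_eq.mp h1 with h3 | h3
        · exact ⟨h3, h2⟩
        · exact absurd (h3 ▸ h2) h
      · rintro ⟨h1, h2⟩
        exact ⟨by omega, h2⟩
    rw [this, add_zero]

lemma num_le (Y : SOA b1) (x : ℕ) : num Y x ≤ x := by
  induction x with
  | zero => rw [num_zero]
  | succ x ih => rw [num_succ]; split_ifs <;> omega

lemma le_ll (i n : ℕ) : i ≤ ll n ↔ (i = 0 ∨ 2 ^ 2 ^ i ≤ n) := by
  unfold ll
  rcases Nat.eq_zero_or_pos i with hi | hi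
  · simp [hi]
  by_cases hn : n = 0
  · subst hn
    have : 0 < 2 ^ 2 ^ i := by positivity
    simp only [Nat.log_zero_right]
    omega
  by_cases hl : Nat.log 2 n = 0
  · rw [hl, Nat.log_zero_right]
    have h1 : ¬ 2 ^ i ≤ Nat.log 2 n := by
      rw [hl]
      have : 0 < 2 ^ i := by positivity
      omega
    rw [Nat.le_log_iff_pow_le (by norm_num) hn] at h1
    constructor
    · intro h; omega
    · rintro (h | h)
      · omega
      · exact absurd h h1
  · rw [Nat.le_log_iff_pow_le (by norm_num) hl, Nat.le_log_iff_pow_le (by norm_num) hn]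
    constructor
    · intro h; exact Or.inr h
    · rintro (h | h)
      · omega
      · exact h

/-- the intended values -/
lemma cond_iff (n : ℕ) (Y : SOA b1) (X : SOA a2) : cond n (jn Y X) ↔
    ((∀ x, x ≤ n + 2 → ∀ i, i ≤ n + 2 → (X false ![x, i] ↔ i = num Y x)) ∧
    (∀ i, i ≤ n + 2 → ∀ m, m ≤ n + 2 → (X true ![i, m] ↔ m = 2 ^ 2 ^ i)) ∧ num Y n ≤ ll n) := by
  unfold cond
  simp only [rel_jn, set_jn]
  have key1 : (∀ i, i ≤ n + 2 → (X false ![0, i] ↔ i = 0)) →
      (∀ x, x ≤ n + 1 → ∀ i, i ≤ n + 2 → (X false ![x + 1, i] ↔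
      ((¬ Y () ![x] ∧ X false ![x, i]) ∨ (Y () ![x] ∧ ∃ j, j ≤ i ∧ i = j + 1 ∧ X false ![x, j])))) →
      ∀ x, x ≤ n + 2 → ∀ i, i ≤ n + 2 → (X false ![x, i] ↔ i = num Y x) := by
    intro h0 h1 x
    induction x with
    | zero =>
      intro _ i hi
      rw [h0 i hi, num_zero]
    | succ x ih =>
      intro hx i hi
      rw [h1 x (by omega) i hi, num_succ]
      by_cases hY : Y () ![x]
      · rw [if_pos hY]
        constructor
        · rintro (⟨h2, _⟩ | ⟨_, j, hj, hj1, hj2⟩)
          · exact absurd hY h2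
          · rw [ih (by omega) j (by omega)] at hj2
            omega
        · intro h2
          refine Or.inr ⟨hY, num Y x, by omega, by omega, ?_⟩
          rw [ih (by omega) _ (by omega)]
      · rw [if_neg hY]
        constructor
        · rintro (⟨_, h2⟩ | ⟨h2, _⟩)
          · rw [ih (by omega) i hi] at h2
            omega
          · exact absurd h2 hY
        · intro h2
          refine Or.inl ⟨hY, ?_⟩
          rw [ih (by omega) i hi]
          omega
  have key2 : (∀ m, m ≤ n + 2 → (X true ![0, m] ↔ m = 2)) →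
      (∀ i, i ≤ n + 1 → ∀ m, m ≤ n + 2 → (X true ![i + 1, m] ↔
        ∃ j, j ≤ m ∧ m = j * j ∧ X true ![i, j])) →
      ∀ i, i ≤ n + 2 → ∀ m, m ≤ n + 2 → (X true ![i, m] ↔ m = 2 ^ 2 ^ i) := by
    intro h0 h1 i
    induction i with
    | zero =>
      intro _ m hm
      rw [h0 m hm]
      norm_num
    | succ i ih =>
      intro hi m hm
      rw [h1 i (by omega) m hm]
      have e : 2 ^ 2 ^ (i + 1) = 2 ^ 2 ^ i * 2 ^ 2 ^ i := by
        rw [← pow_add, pow_succ, mul_two]
      constructor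
      · rintro ⟨j, hj, hj1, hj2⟩
        rw [ih (by omega) j (by omega)] at hj2
        rw [e, hj1, hj2]
      · intro h2
        have h3 : 2 ^ 2 ^ i ≤ m := by
          rw [h2, e]
          exact Nat.le_mul_self _
        refine ⟨2 ^ 2 ^ i, h3, by rw [h2, e], ?_⟩
        rw [ih (by omega) _ (by omega)]
  constructor
  · rintro ⟨h1, h2, h3, h4, c, hc, hc1, hc2⟩
    have k1 := key1 h1 h2
    have k2 := key2 h3 h4
    refine ⟨k1, k2, ?_⟩
    rw [k1 n (by omega) c (by omega)] at hc1
    rw [← hc1, le_ll]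
    refine hc2.imp id ?_
    rintro ⟨m, hm, hm1⟩
    rw [k2 c (by omega) m (by omega)] at hm1
    omega
  · rintro ⟨k1, k2, h⟩
    refine ⟨fun i hi => ?_, fun x hx i hi => ?_, fun m hm => ?_, fun i hi m hm => ?_, num Y n,
      num_le Y n, ?_, ?_⟩
    · rw [k1 0 (by omega) i hi, num_zero]
    · rw [k1 (x + 1) (by omega) i hi, num_succ]
      by_cases hY : Y () ![x]
      · rw [if_pos hY]
        constructor
        · intro h2
          refine Or.inr ⟨hY, num Y x, by omega, by omega, ?_⟩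
          rw [k1 x (by omega) _ (by omega)]
        · rintro (⟨h2, _⟩ | ⟨_, j, hj, hj1, hj2⟩)
          · exact absurd hY h2
          · rw [k1 x (by omega) j (by omega)] at hj2
            omega
      · rw [if_neg hY]
        constructor
        · intro h2
          refine Or.inl ⟨hY, ?_⟩
          rw [k1 x (by omega) i hi]
          omega
        · rintro (⟨_, h2⟩ | ⟨h2, _⟩)
          · rw [k1 x (by omega) i hi] at h2
            omega
          · exact absurd h2 hY
    · rw [k2 0 (by omega) m hm]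
      norm_num
    · have e : 2 ^ 2 ^ (i + 1) = 2 ^ 2 ^ i * 2 ^ 2 ^ i := by
        rw [← pow_add, pow_succ, mul_two]
      rw [k2 (i + 1) (by omega) m hm]
      constructor
      · intro h2
        have h3 : 2 ^ 2 ^ i ≤ m := by
          rw [h2, e]
          exact Nat.le_mul_self _
        refine ⟨2 ^ 2 ^ i, h3, by rw [h2, e], ?_⟩
        rw [k2 i (by omega) _ (by omega)]
      · rintro ⟨j, hj, hj1, hj2⟩
        rw [k2 i (by omega) j (by omega)] at hj2
        rw [e, hj1, hj2]
    · rw [k1 n (by omega) _ (by have := num_le Y n; omega)]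
    · rw [le_ll] at h
      refine h.imp id (fun h2 => ⟨2 ^ 2 ^ num Y n, h2, ?_⟩)
      rw [k2 _ (by have := num_le Y n; omega) _ (by omega)]

end Sm

open Sm in
theorem cn_small : Cn (fun _ : Unit => 1) 1 (fun Y v =>
    if ({x : ℕ | x < v 0 ∧ Y () ![x]} : Set ℕ).ncard ≤ ll (v 0) then 1 else 0) := by
  have h := cn_uniq (b := b1) (a := a2) (k := 1) (p := fun v => v 0 + 3)
    ((Helper20.Spectra.IsPoly.var 0).add (Helper20.Spectra.IsPoly.const 3)) (P := fun Z v => cond (v 0) Z) rudX_cond ?_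
  · convert h using 4 with Y v
    have e : ({x : ℕ | x < v 0 ∧ Y () ![x]} : Set ℕ).ncard = num Y (v 0) := rfl
    rw [e]
    constructor
    · intro h1
      refine ⟨fun i w => (show Fin 2 → ℕ from w) 0 ≤ v 0 + 2 ∧ (show Fin 2 → ℕ from w) 1 ≤ v 0 + 2 ∧
        if i = true then (show Fin 2 → ℕ from w) 1 = 2 ^ 2 ^ (show Fin 2 → ℕ from w) 0
        else (show Fin 2 → ℕ from w) 1 = num Y ((show Fin 2 → ℕ from w) 0), ?_, ?_⟩
      · intro i w hw j
        change (show Fin 2 → ℕ from w) (show Fin 2 from j) < _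
        generalize (show Fin 2 from j) = j'
        fin_cases j'
        · exact Nat.lt_succ_of_le hw.1
        · exact Nat.lt_succ_of_le hw.2.1
      · rw [cond_iff]
        refine ⟨fun x hx i hi => ?_, fun i hi m hm => ?_, h1⟩
        · constructor
          · rintro ⟨_, _, h2⟩
            simpa using h2
          · intro h2
            exact ⟨hx, hi, by simpa using h2⟩
        · constructor
          · rintro ⟨_, _, h2⟩
            simpa using h2
          · intro h2
            exact ⟨hi, hm, by simpa using h2⟩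
    · rintro ⟨X, _, hX⟩
      exact ((cond_iff _ _ _).1 hX).2.2
  · intro Y v X X' hX hX' h1 h2
    rw [cond_iff] at h1 h2
    funext i w
    have hw : w = (![(show Fin 2 → ℕ from w) 0, (show Fin 2 → ℕ from w) 1] : Fin 2 → ℕ) := by
      funext j
      change (show Fin 2 → ℕ from w) (show Fin 2 from j) = _
      generalize (show Fin 2 from j) = j'
      fin_cases j' <;> rfl
    by_cases hb : (show Fin 2 → ℕ from w) 0 < v 0 + 3 ∧ (show Fin 2 → ℕ from w) 1 < v 0 + 3
    · rw [hw]
      apply propext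
      cases i with
      | false => exact (h1.1 _ (by omega) _ (by omega)).trans (h2.1 _ (by omega) _ (by omega)).symm
      | true => exact (h1.2.1 _ (by omega) _ (by omega)).trans (h2.2.1 _ (by omega) _ (by omega)).symm
    · apply propext
      constructor
      · intro h3
        exact absurd ⟨hX i w h3 (0 : Fin 2), hX i w h3 (1 : Fin 2)⟩ hb
      · intro h3
        exact absurd ⟨hX' i w h3 (0 : Fin 2), hX' i w h3 (1 : Fin 2)⟩ hb

end Pool.Agent.Helper38.DG
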