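import Pool.Agent.Helper38.DG.CnProd
import Pool.Agent.Helper38.DG.CnRel
import Pool.Agent.Helper38.DG.Hash
import Pool.Agent.Helper38.DG.Small

/-!
DG9: the small set quantifier.
-/

set_option autoImplicit false

namespace Pool.Agent.Helper38.DG

open FirstOrder FirstOrder.Language Pool.Agent.Helper20.Spectra
open scoped Classical

namespace RepS

/-- the set of numbers given by a finite set -/
def sOf {n : ℕ} (S : Finset (Fin n)) : Set ℕ := {x | ∃ y ∈ S, (y : ℕ) = x}

lemma sOf_coe {n : ℕ} (S : Finset (Fin n)) (x : Fin n) : (x : ℕ) ∈ sOf S ↔ x ∈ S := by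
  constructor
  · rintro ⟨y, hy, h⟩
    rwa [← Fin.ext h]
  · intro h
    exact ⟨x, h, rfl⟩

lemma sOf_lt {n : ℕ} (S : Finset (Fin n)) {x : ℕ} (h : x ∈ sOf S) : x < n := by
  obtain ⟨y, _, rfl⟩ := h
  exact y.2

lemma sOf_ncard {n : ℕ} (S : Finset (Fin n)) : (sOf S).ncard = S.card := by
  have : sOf S = ((S.map Fin.valEmbedding : Finset ℕ) : Set ℕ) := by
    ext x
    simp [sOf]
  rw [this, Set.ncard_coe_finset, Finset.card_map]

lemma sOf_small {n : ℕ} (S : Finset (Fin n)) : Small ll n (sOf S) ↔ S.card ≤ ll n := by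
  unfold Small
  rw [sOf_ncard]
  exact ⟨fun h => h.2, fun h => ⟨fun x hx => sOf_lt S hx, h⟩⟩

lemma exists_sOf {n : ℕ} {Z : Set ℕ} (h : Small ll n Z) : ∃ S : Finset (Fin n), sOf S = Z := by
  refine ⟨Finset.univ.filter (fun x : Fin n => (x : ℕ) ∈ Z), ?_⟩
  ext x
  constructor
  · rintro ⟨y, hy, rfl⟩
    exact (Finset.mem_filter.mp hy).2
  · intro hx
    exact ⟨⟨x, h.1 hx⟩, by simp [hx], rfl⟩

/-- the unary relation given by a finite set -/
def rOf {n : ℕ} (S : Finset (Fin n)) : BRel 1 n :=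
  ⟨fun w => w 0 ∈ sOf S, fun w hw j => by
    have : j = 0 := Subsingleton.elim _ _
    rw [this]
    exact sOf_lt S hw⟩

lemma rOf_bij (n : ℕ) : Function.Bijective (rOf (n := n)) := by
  constructor
  · intro S S' h
    ext x
    have := congrFun (congrArg Subtype.val h) (fun _ => (x : ℕ))
    simp only [rOf] at this
    rw [← sOf_coe, ← sOf_coe, this]
  · rintro ⟨Z, hZ⟩
    refine ⟨Finset.univ.filter (fun x : Fin n => Z (fun _ => (x : ℕ))), ?_⟩
    apply Subtype.ext
    funext w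
    have hw : w = fun _ => w 0 := by
      funext j
      rw [Subsingleton.elim j 0]
    apply propext
    constructor
    · rintro ⟨y, hy, h⟩
      rw [hw, ← h]
      exact (Finset.mem_filter.mp hy).2
    · intro h
      exact ⟨⟨w 0, hZ w h 0⟩, by
        rw [Finset.mem_filter]
        refine ⟨Finset.mem_univ _, ?_⟩
        rw [hw] at h
        exact h, rfl⟩

/-- where the second-order variables of the inner condition come from -/
def QQ {j : ℕ} (i : Option (Fin (j + 1))) (Y : SOA (addV 1 (tdAr j)))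
    (w : Fin (tdAr (j + 1) i + 0) → ℕ) : Prop :=
  match i with
  | none => Y (some none) (fun l => w (Fin.castAdd 0 l))
  | some i => Fin.cases (motive := fun _ => Prop) (Y none (fun l => w (Fin.castAdd 0 l)))
      (fun i' => Y (some (some i')) (fun l => w (Fin.castAdd 0 l))) i

lemma QQ_rud {j : ℕ} (i : Option (Fin (j + 1))) :
    RudX (addV 1 (tdAr j)) (tdAr (j + 1) i + 0) (QQ i) := by
  rcases i with _ | i
  · exact RudX.so' (a := addV 1 (tdAr j)) (k := 2) (some none)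
      (t := fun l v => v l) (fun l => IsPoly.var l)
  · refine Fin.cases ?_ (fun i' => ?_) i
    · exact RudX.so' (a := addV 1 (tdAr j)) (k := 1) none
        (t := fun l v => v l) (fun l => IsPoly.var l)
    · exact RudX.so' (a := addV 1 (tdAr j)) (k := 1) (some (some i'))
        (t := fun l v => v l) (fun l => IsPoly.var l)

lemma QQ_eval {j n : ℕ} (r : Fin n → Fin n → Bool) (Z : Fin j → Set ℕ) (S : Finset (Fin n))
    {m : ℕ} (τ : Fin 0 → (Fin m → ℕ) → ℕ) (v : Fin m → ℕ) :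
    (fun (i : Option (Fin (j + 1))) (w : Fin (tdAr (j + 1) i) → ℕ) =>
      QQ i (consV (rOf S).1 (tdAs r Z)) (Fin.append w (fun l => τ l v))) =
    tdAs r (Fin.cons (sOf S) Z) := by
  funext i w
  rcases i with _ | i
  · show consV (rOf S).1 (tdAs r Z) (some none)
      (fun l => Fin.append w (fun l => τ l v) (Fin.castAdd 0 l)) = _
    simp only [Fin.append_left]
    rfl
  · refine Fin.cases ?_ (fun i' => ?_) i
    · show consV (rOf S).1 (tdAs r Z) none
        (fun l => Fin.append w (fun l => τ l v) (Fin.castAdd 0 l)) = _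
      simp only [Fin.append_left]
      rfl
    · show consV (rOf S).1 (tdAs r Z) (some (some i'))
        (fun l => Fin.append w (fun l => τ l v) (Fin.castAdd 0 l)) = _
      simp only [Fin.append_left]
      rfl

/-- the number of small sets -/
lemma small_count (n s : ℕ) : (Finset.univ.filter (fun S : Finset (Fin n) => S.card ≤ s)).card ≤
    (n + 1) ^ s := by
  have h1 : (Finset.univ.filter (fun S : Finset (Fin n) => S.card ≤ s)) ⊆
      (Finset.range (s + 1)).biUnion (fun i => Finset.powersetCard i Finset.univ) := by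
    intro S hS
    rw [Finset.mem_biUnion]
    exact ⟨S.card, Finset.mem_range.mpr (Nat.lt_succ_of_le (Finset.mem_filter.mp hS).2),
      Finset.mem_powersetCard.mpr ⟨Finset.subset_univ _, rfl⟩⟩
  refine (Finset.card_le_card h1).trans (Finset.card_biUnion_le.trans ?_)
  rw [add_pow]
  refine Finset.sum_le_sum (fun i hi => ?_)
  rw [Finset.card_powersetCard, Finset.card_univ, Fintype.card_fin, one_pow, mul_one]
  refine (Nat.choose_le_pow n i).trans ?_
  exact Nat.le_mul_of_pos_right _ (Nat.choose_pos (Nat.lt_succ_iff.mp (Finset.mem_range.mp hi)))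

/-- the set variable `none` is contained in the row `u 0` -/
def sel {j k : ℕ} (Y : SOA (addV 1 (tdAr j))) (u : Fin (k + 2) → ℕ) : Prop :=
  ∀ x, x ≤ u (Fin.succ 0) → (x < u (Fin.succ 0) → ((Y none : (Fin 1 → ℕ) → Prop) ![x] →
    (Y (some none) : (Fin 2 → ℕ) → Prop) ![u 0, x]))

/-- the inner counting function -/
noncomputable def hfun {j k : ℕ} (C : SOA (tdAr (j + 1)) → (Fin (k + 1) → ℕ) → ℕ)
    (Y : SOA (addV 1 (tdAr j))) (u : Fin (k + 2) → ℕ) : ℕ :=
  (if ({x : ℕ | x < u (Fin.succ 0) ∧ Y none ![x]} : Set ℕ).ncard ≤ ll (u (Fin.succ 0))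
    then 1 else 0) *
  (if sel Y u then 1 else 0) *
  C (fun i w => QQ i Y (Fin.append w (fun l : Fin 0 => l.elim0))) (fun i => u i.succ)

lemma hfun_cn {j k : ℕ} {C : SOA (tdAr (j + 1)) → (Fin (k + 1) → ℕ) → ℕ}
    (hC : Cn (tdAr (j + 1)) (k + 1) C) : Cn (addV 1 (tdAr j)) (k + 2) (hfun C) := by
  have h1 := cn_substR cn_small (b' := addV 1 (tdAr j)) (d := 0)
    (Q := fun _ Y w => Y none (fun l => w (Fin.castAdd 0 l)))
    (fun _ => RudX.so' (a := addV 1 (tdAr j)) (k := 1) none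
      (t := fun l v => v l) (fun l => IsPoly.var l)) (m := k + 2)
    (σ := fun _ u => u (Fin.succ 0)) (fun _ => IsPoly.var _) (τ := fun l _ => l.elim0)
    (fun l => l.elim0)
  have h2 : Cn (addV 1 (tdAr j)) (k + 2) (fun Y u => if sel Y u then 1 else 0) := by
    apply cn_ind
    refine RudX.all (IsPoly.var (Fin.succ 0)) (P := fun (Y : SOA (addV 1 (tdAr j)))
      (u : Fin (k + 2) → ℕ) (x : ℕ) => (x < u (Fin.succ 0) →
      ((Y none : (Fin 1 → ℕ) → Prop) ![x] → (Y (some none) : (Fin 2 → ℕ) → Prop) ![u 0, x]))) ?_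
    refine RudX.imp (RudX.lt (IsPoly.var 0) (IsPoly.var (Fin.succ (Fin.succ 0)))) (RudX.imp ?_ ?_)
    · refine (RudX.so' (a := addV 1 (tdAr j)) (k := k + 3) none
        (t := fun _ v => v 0) (fun _ => IsPoly.var 0)).congr (fun X v => ?_)
      exact Iff.of_eq (congrArg _ (by funext l; rw [Subsingleton.elim l (0 : Fin 1)]; rfl))
    · refine (RudX.so' (a := addV 1 (tdAr j)) (k := k + 3) (some none)
        (t := ![fun v => v (Fin.succ 0), fun v => v 0]) ?_).congr (fun X v => ?_)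
      · intro l
        fin_cases l
        · exact IsPoly.var (Fin.succ 0)
        · exact IsPoly.var 0
      · refine Iff.of_eq (congrArg _ ?_)
        funext l
        fin_cases l <;> rfl
  have h3 := cn_substR hC (b' := addV 1 (tdAr j)) (d := 0) (fun i => QQ_rud i) (m := k + 2)
    (σ := fun i u => u i.succ) (fun _ => IsPoly.var _) (τ := fun l _ => l.elim0)
    (fun l => l.elim0)
  have h4 := cn_mul (cn_mul h1 h2) h3
  convert h4 using 1
  funext Y u
  unfold hfun
  simp only [Fin.append_left]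

lemma hfun_eval {j k n : ℕ} (C : SOA (tdAr (j + 1)) → (Fin (k + 1) → ℕ) → ℕ)
    (r : Fin n → Fin n → Bool) (Z : Fin j → Set ℕ) (v : Fin k → ℕ) (S : Finset (Fin n)) (x : Fin n) :
    hfun C (consV (rOf S).1 (tdAs r Z)) (Fin.cons (x : ℕ) (Fin.cons n v)) =
      (if S.card ≤ ll n then 1 else 0) * (if ∀ y ∈ S, r x y = true then 1 else 0) *
        C (tdAs r (Fin.cons (sOf S) Z)) (Fin.cons n v) := by
  unfold hfun
  have e1 : ({y : ℕ | y < (Fin.cons (x : ℕ) (Fin.cons n v) : Fin (k + 2) → ℕ) (Fin.succ 0) ∧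
      consV (rOf S).1 (tdAs r Z) none ![y]} : Set ℕ) = sOf S := by
    ext y
    constructor
    · intro h
      exact h.2
    · intro h
      exact ⟨sOf_lt S h, h⟩
  have e2 : sel (consV (rOf S).1 (tdAs r Z)) (Fin.cons (x : ℕ) (Fin.cons n v) : Fin (k + 2) → ℕ) ↔
      ∀ y ∈ S, r x y = true := by
    constructor
    · intro h y hy
      obtain ⟨x', y', hxy, hr⟩ := h (y : ℕ) y.2.le y.2 ((sOf_coe S y).mpr hy)
      have h0 : (x : ℕ) = x' := congrFun hxy 0
      have h1 : (y : ℕ) = y' := congrFun hxy 1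
      rw [Fin.ext h0, Fin.ext h1]
      exact hr
    · intro h y _ hy hS
      obtain ⟨y', hy', rfl⟩ := (show y ∈ sOf S from hS)
      exact ⟨x, y', rfl, h y' hy'⟩
  rw [e1, sOf_ncard, if_congr e2 rfl rfl]
  congr 1
  congr 1
  exact QQ_eval r Z S (fun l _ => l.elim0) v

/-- the counting function of the quantified property -/
noncomputable def CS {j k : ℕ} (C : SOA (tdAr (j + 1)) → (Fin (k + 1) → ℕ) → ℕ)
    (Y : SOA (tdAr j)) (w : Fin (k + 1) → ℕ) : ℕ :=
  1 + ∏ x ∈ Finset.range (w 0), (1 + ∑ᶠ Z : BRel 1 ((Fin.cons x w : Fin (k + 2) → ℕ) (Fin.succ 0)),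
    hfun C (consV Z.1 Y) (Fin.cons x w))

lemma cn_one {β : Type} {b : β → ℕ} {k : ℕ} : Cn b k (fun _ _ => 1) := by
  convert cn_ind (b := b) (k := k) (RudX.const True) using 1
  funext Y v
  rw [if_pos trivial]

lemma CS_cn {j k : ℕ} {C : SOA (tdAr (j + 1)) → (Fin (k + 1) → ℕ) → ℕ}
    (hC : Cn (tdAr (j + 1)) (k + 1) C) : Cn (tdAr j) (k + 1) (CS C) :=
  cn_add cn_one (cn_prod (cn_add cn_one
    (cn_sumR 1 (hfun_cn hC) (IsPoly.var (Fin.succ 0)))) (IsPoly.var 0))

lemma CS_eval {j k n : ℕ} (C : SOA (tdAr (j + 1)) → (Fin (k + 1) → ℕ) → ℕ)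
    (r : Fin n → Fin n → Bool) (Z : Fin j → Set ℕ) (v : Fin k → ℕ) :
    CS C (tdAs r Z) (Fin.cons n v) = 1 + ∏ x : Fin n, (1 + ∑ S : Finset (Fin n),
      (if S.card ≤ ll n then 1 else 0) * (if ∀ y ∈ S, r x y = true then 1 else 0) *
        C (tdAs r (Fin.cons (sOf S) Z)) (Fin.cons n v)) := by
  unfold CS
  show 1 + ∏ x ∈ Finset.range n, (1 + ∑ᶠ Z' : BRel 1 n,
    hfun C (consV Z'.1 (tdAs r Z)) (Fin.cons x (Fin.cons n v))) = _
  rw [Finset.prod_range]
  congr 1
  refine Finset.prod_congr rfl (fun x _ => ?_)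
  congr 1
  rw [← finsum_eq_of_bijective rOf (rOf_bij n) (fun S => rfl), finsum_eq_sum_of_fintype]
  exact Finset.sum_congr rfl (fun S _ => hfun_eval C r Z v S x)

/-- the small sets with the property -/
noncomputable def FS {j k : ℕ} (n : ℕ) (P : ℕ → (Fin (j + 1) → Set ℕ) → (Fin k → ℕ) → Prop)
    (Z : Fin j → Set ℕ) (v : Fin k → ℕ) : Finset (Finset (Fin n)) :=
  Finset.univ.filter (fun S => S.card ≤ ll n ∧ P n (Fin.cons (sOf S) Z) v)

lemma FS_nonempty {j k : ℕ} (n : ℕ) (P : ℕ → (Fin (j + 1) → Set ℕ) → (Fin k → ℕ) → Prop)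
    (Z : Fin j → Set ℕ) (v : Fin k → ℕ) :
    (∃ Z₀, Small ll n Z₀ ∧ P n (Fin.cons Z₀ Z) v) ↔ (FS n P Z v).Nonempty := by
  constructor
  · rintro ⟨Z₀, h, hP⟩
    obtain ⟨S, rfl⟩ := exists_sOf h
    exact ⟨S, Finset.mem_filter.mpr ⟨Finset.mem_univ _, (sOf_small S).mp h, hP⟩⟩
  · rintro ⟨S, hS⟩
    obtain ⟨_, h1, h2⟩ := Finset.mem_filter.mp hS
    exact ⟨sOf S, (sOf_small S).mpr h1, h2⟩

lemma CS_par {j k n : ℕ} {C : SOA (tdAr (j + 1)) → (Fin (k + 1) → ℕ) → ℕ}
    {P : ℕ → (Fin (j + 1) → Set ℕ) → (Fin k → ℕ) → Prop}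
    {r : Fin n → Fin n → Bool} {Z : Fin j → Set ℕ} {v : Fin k → ℕ}
    (hg : ∀ S : Finset (Fin n), S.card ≤ ll n →
      (C (tdAs r (Fin.cons (sOf S) Z)) (Fin.cons n v) % 2 = 1 ↔ P n (Fin.cons (sOf S) Z) v)) :
    CS C (tdAs r Z) (Fin.cons n v) % 2 = 1 ↔ ¬ ∀ x : Fin n, Even ((FS n P Z v).filter (fun S =>
      ∀ y ∈ S, r x y = true)).card := by
  have hx : ∀ x : Fin n, ((∑ S : Finset (Fin n),
      (if S.card ≤ ll n then 1 else 0) * (if ∀ y ∈ S, r x y = true then 1 else 0) *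
        C (tdAs r (Fin.cons (sOf S) Z)) (Fin.cons n v) : ℕ) : ZMod 2) =
      ((((FS n P Z v).filter (fun S => ∀ y ∈ S, r x y = true)).card : ℕ) : ZMod 2) := by
    intro x
    rw [Finset.card_eq_sum_ones, FS, Finset.filter_filter, Finset.sum_filter]
    push_cast
    refine Finset.sum_congr rfl (fun S _ => ?_)
    by_cases h1 : S.card ≤ ll n
    · by_cases h2 : ∀ y ∈ S, r x y = true
      · have h3 := hg S h1
        by_cases hP : P n (Fin.cons (sOf S) Z) v
        · rw [if_pos h1, if_pos h2, if_pos ⟨⟨h1, hP⟩, h2⟩, one_mul, one_mul]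
          exact ZMod.natCast_eq_one_iff_odd.mpr (Nat.odd_iff.mpr (h3.mpr hP))
        · rw [if_pos h1, if_pos h2, if_neg (fun h => hP h.1.2), one_mul, one_mul]
          refine ZMod.natCast_eq_zero_iff_even.mpr (Nat.even_iff.mpr ?_)
          have h4 : ¬ C (tdAs r (Fin.cons (sOf S) Z)) (Fin.cons n v) % 2 = 1 := fun h => hP (h3.mp h)
          omega
      · have hn : ¬ ((S.card ≤ ll n ∧ P n (Fin.cons (sOf S) Z) v) ∧ ∀ y ∈ S, r x y = true) :=
          fun h => h2 h.2
        rw [if_neg h2, if_neg hn, mul_zero, zero_mul]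
    · have hn : ¬ ((S.card ≤ ll n ∧ P n (Fin.cons (sOf S) Z) v) ∧ ∀ y ∈ S, r x y = true) :=
        fun h => h1 h.1.1
      rw [if_neg h1, if_neg hn, zero_mul, zero_mul]
  rw [← Nat.odd_iff, ← ZMod.natCast_eq_one_iff_odd, CS_eval]
  push_cast
  push_cast at hx
  simp only [hx]
  rw [add_eq_left, Finset.prod_eq_zero_iff, not_forall]
  constructor
  · rintro ⟨x, _, h⟩
    refine ⟨x, fun he => ?_⟩
    rw [ZMod.natCast_eq_zero_iff_even.mpr he, add_zero] at h
    exact one_ne_zero h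
  · rintro ⟨x, h⟩
    refine ⟨x, Finset.mem_univ _, ?_⟩
    rw [ZMod.natCast_eq_one_iff_odd.mpr (Nat.not_even_iff_odd.mp h)]
    rfl

end RepS

open RepS in
/-- the small set quantifier -/
theorem rep_exS (j k : ℕ) (P : ℕ → (Fin (j + 1) → Set ℕ) → (Fin k → ℕ) → Prop)
    (h : Rep ll (j + 1) k P) :
    Rep ll j k (fun n Z v => ∃ Z₀, Small ll n Z₀ ∧ P n (Fin.cons Z₀ Z) v) := by
  obtain ⟨C, e, hC, hb⟩ := h
  refine ⟨CS C, e + 1, CS_cn hC, fun n hn Z hZ v hv => ?_⟩
  have hB0 : (0 : ℝ) ≤ (1 - 1 / 2 ^ (ll n)) ^ n * 2 ^ (n * n) := by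
    have : (0 : ℝ) ≤ 1 - 1 / 2 ^ (ll n) := by
      rw [sub_nonneg]
      exact (div_le_one (by positivity)).mpr (one_le_pow₀ (by norm_num))
    positivity
  generalize hB : (1 - 1 / 2 ^ (ll n) : ℝ) ^ n * 2 ^ (n * n) = B at hB0
  set bad : Finset (Fin n) → Finset (Fin n → Fin n → Bool) := fun S =>
    Finset.univ.filter (fun r => ¬ (C (tdAs r (Fin.cons (sOf S) Z)) (Fin.cons n v) % 2 = 1 ↔
      P n (Fin.cons (sOf S) Z) v)) with hbad
  set E : Finset (Fin n → Fin n → Bool) := Finset.univ.filter (fun r => (FS n P Z v).Nonempty ∧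
    ∀ x : Fin n, Even ((FS n P Z v).filter (fun S => ∀ y ∈ S, r x y = true)).card) with hE
  have h1 : ∀ S ∈ Finset.univ.filter (fun S : Finset (Fin n) => S.card ≤ ll n),
      ((bad S).card : ℝ) ≤ e * ((smallN ll n : ℝ) * (n + 1)) ^ e * B := by
    intro S hS
    have hS' := (Finset.mem_filter.mp hS).2
    have := hb n hn (Fin.cons (sOf S) Z) (Fin.cases ((sOf_small S).mpr hS') hZ) v hv
    rw [Nat.card_eq_fintype_card, Fintype.card_subtype, mul_assoc, hB] at this
    exact this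
  have h2 : (E.card : ℝ) ≤ B := by
    by_cases hF : (FS n P Z v).Nonempty
    · have := hash_many (s := ll n) (FS n P Z v) (fun S hS => (Finset.mem_filter.mp hS).2.1) hF
      rw [hB] at this
      refine le_trans ?_ this
      refine Nat.cast_le.mpr (Finset.card_le_card (fun r hr => ?_))
      exact Finset.mem_filter.mpr ⟨Finset.mem_univ _, (Finset.mem_filter.mp hr).2.2⟩
    · have : E = ∅ := Finset.filter_eq_empty_iff.mpr (fun r _ h => hF h.1)
      rw [this, Finset.card_empty, Nat.cast_zero]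
      exact hB0
  have h3 : Finset.univ.filter (fun r : Fin n → Fin n → Bool =>
      ¬ (CS C (tdAs r Z) (Fin.cons n v) % 2 = 1 ↔
        ∃ Z₀, Small ll n Z₀ ∧ P n (Fin.cons Z₀ Z) v)) ⊆
      (Finset.univ.filter (fun S : Finset (Fin n) => S.card ≤ ll n)).biUnion bad ∪ E := by
    intro r hr
    by_contra hc
    rw [Finset.mem_union, not_or] at hc
    have hg : ∀ S : Finset (Fin n), S.card ≤ ll n →
        (C (tdAs r (Fin.cons (sOf S) Z)) (Fin.cons n v) % 2 = 1 ↔
          P n (Fin.cons (sOf S) Z) v) := by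
      intro S hS
      by_contra hcc
      exact hc.1 (Finset.mem_biUnion.mpr ⟨S, Finset.mem_filter.mpr ⟨Finset.mem_univ _, hS⟩,
        Finset.mem_filter.mpr ⟨Finset.mem_univ _, hcc⟩⟩)
    apply (Finset.mem_filter.mp hr).2
    rw [CS_par hg, FS_nonempty]
    constructor
    · intro h
      rw [Finset.nonempty_iff_ne_empty]
      intro he
      apply h
      intro x
      rw [he, Finset.filter_empty, Finset.card_empty]
      exact Even.zero
    · intro hF hall
      exact hc.2 (Finset.mem_filter.mpr ⟨Finset.mem_univ _, hF, hall⟩)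
  rw [Nat.card_eq_fintype_card, Fintype.card_subtype, mul_assoc, hB]
  have hM : (1 : ℝ) ≤ smallN ll n := by
    unfold smallN
    exact_mod_cast Nat.one_le_pow _ _ (Nat.succ_pos n)
  have hn1 : (1 : ℝ) ≤ (n : ℝ) + 1 := by
    have : (0 : ℝ) ≤ n := Nat.cast_nonneg n
    linarith
  have hMn : (1 : ℝ) ≤ (smallN ll n : ℝ) * (n + 1) := one_le_mul_of_one_le_of_one_le hM hn1
  have h4 : (((Finset.univ.filter (fun S : Finset (Fin n) => S.card ≤ ll n)).biUnion bad).card : ℝ) ≤
      (smallN ll n : ℝ) * (e * ((smallN ll n : ℝ) * (n + 1)) ^ e * B) := by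
    calc (((Finset.univ.filter (fun S : Finset (Fin n) => S.card ≤ ll n)).biUnion bad).card : ℝ)
        ≤ ((∑ S ∈ Finset.univ.filter (fun S : Finset (Fin n) => S.card ≤ ll n),
          (bad S).card : ℕ) : ℝ) := Nat.cast_le.mpr Finset.card_biUnion_le
      _ = ∑ S ∈ Finset.univ.filter (fun S : Finset (Fin n) => S.card ≤ ll n),
          ((bad S).card : ℝ) := Nat.cast_sum _ _
      _ ≤ ∑ S ∈ Finset.univ.filter (fun S : Finset (Fin n) => S.card ≤ ll n),
          (e * ((smallN ll n : ℝ) * (n + 1)) ^ e * B) := Finset.sum_le_sum h1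
      _ = ((Finset.univ.filter (fun S : Finset (Fin n) => S.card ≤ ll n)).card : ℝ) *
          (e * ((smallN ll n : ℝ) * (n + 1)) ^ e * B) := by
        rw [Finset.sum_const, nsmul_eq_mul]
      _ ≤ (smallN ll n : ℝ) * (e * ((smallN ll n : ℝ) * (n + 1)) ^ e * B) := by
        refine mul_le_mul_of_nonneg_right ?_ (by positivity)
        exact Nat.cast_le.mpr (small_count n (ll n))
  calc ((Finset.univ.filter (fun r : Fin n → Fin n → Bool =>
      ¬ (CS C (tdAs r Z) (Fin.cons n v) % 2 = 1 ↔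
        ∃ Z₀, Small ll n Z₀ ∧ P n (Fin.cons Z₀ Z) v))).card : ℝ)
      ≤ (((Finset.univ.filter (fun S : Finset (Fin n) => S.card ≤ ll n)).biUnion bad ∪ E).card : ℝ) :=
        Nat.cast_le.mpr (Finset.card_le_card h3)
    _ ≤ (((Finset.univ.filter (fun S : Finset (Fin n) => S.card ≤ ll n)).biUnion bad).card : ℝ) +
        (E.card : ℝ) := by
        rw [← Nat.cast_add]
        exact Nat.cast_le.mpr (Finset.card_union_le _ _)
    _ ≤ (smallN ll n : ℝ) * (e * ((smallN ll n : ℝ) * (n + 1)) ^ e * B) + B := add_le_add h4 h2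
    _ ≤ ((smallN ll n : ℝ) * (n + 1)) * (e * ((smallN ll n : ℝ) * (n + 1)) ^ e * B) +
        ((smallN ll n : ℝ) * (n + 1)) ^ (e + 1) * B := by
        refine add_le_add (mul_le_mul_of_nonneg_right ?_ (by positivity)) ?_
        · exact le_mul_of_one_le_right (by positivity) hn1
        · exact le_mul_of_one_le_left hB0 (one_le_pow₀ hMn)
    _ = ((e + 1 : ℕ) : ℝ) * ((smallN ll n : ℝ) * (n + 1)) ^ (e + 1) * B := by
        push_cast
        ring

end Pool.Agent.Helper38.DG
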