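import Pool.Agent.Helper38.DG.Rep
import Pool.Agent.Helper38.DG.RepS
import Pool.Agent.Helper38.DG.Est
import Pool.Agent.Helper38.DG.CnSum
import Pool.Agent.Helper38.DG.CnProd
import Pool.Agent.Helper38.DG.CnRel
import Pool.Agent.Helper38.DG.Amp

/-!
# E3: digits of counting functions give the class `RudS ll` (no labelled factor)
-/

set_option autoImplicit false

namespace Pool.Agent.Helper38.DG

open FirstOrder FirstOrder.Language Pool.Agent.Helper20.Spectra
open scoped Classical

/-- every property of the class is represented modulo 2 -/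
private theorem rep_asf {j k : ℕ} {P : ℕ → (Fin j → Set ℕ) → (Fin k → ℕ) → Prop}
    (h : ASF ll j k P) : Rep ll j k P := by
  induction h with
  | add j k x y z => exact rep_add ll j k x y z
  | mul j k x y z => exact rep_mul ll j k x y z
  | mem j k x i => exact rep_mem ll j k x i
  | not j k P _ ih => exact rep_not ll j k P ih
  | and j k P Q _ _ ih ih' => exact rep_and ll j k P Q ih ih'
  | ex j k P _ ih => exact rep_ex ll j k P ih
  | exS j k P _ ih => exact rep_exS j k P ih

/-! ### counting relations on `{0, ..., n - 1}` -/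

/-- relations below the bound are functions to `Bool` -/
noncomputable def brelEquiv (e n : ℕ) : BRel e n ≃ ((Fin e → Fin n) → Bool) where
  toFun Z := fun w => @decide (Z.1 fun j => (w j : ℕ)) (Classical.propDecidable _)
  invFun g := ⟨fun w => ∃ u : Fin e → Fin n, (fun j => (u j : ℕ)) = w ∧ g u = true, by
    rintro w ⟨u, rfl, _⟩ j
    exact (u j).2⟩
  left_inv Z := by
    refine Subtype.ext (funext fun w => propext ⟨?_, fun hw => ?_⟩)
    · rintro ⟨u, rfl, hu⟩
      exact (@decide_eq_true_iff _ (Classical.propDecidable _)).1 hu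
    · exact ⟨fun j => ⟨w j, Z.2 w hw j⟩, rfl, (@decide_eq_true_iff _ (Classical.propDecidable _)).2 hw⟩
  right_inv g := by
    funext w
    have h1 : (∃ u : Fin e → Fin n, (fun j => (u j : ℕ)) = (fun j => (w j : ℕ)) ∧ g u = true) ↔
        g w = true := by
      constructor
      · rintro ⟨u, hu, hg⟩
        have h2 : u = w := funext fun j => Fin.ext (congrFun hu j)
        rw [← h2]
        exact hg
      · intro hg
        exact ⟨w, rfl, hg⟩
    rw [Bool.eq_iff_iff]
    exact (@decide_eq_true_iff _ (Classical.propDecidable _)).trans h1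

/-- the number of functions with a given restriction property -/
private lemma restrict_card {α β : Type} [Fintype α] [Fintype β] (f : α → β)
    (hf : Function.Injective f) (S : Set (α → Bool)) :
    Nat.card {g : β → Bool // g ∘ f ∈ S} * 2 ^ Fintype.card α =
      2 ^ Fintype.card β * Nat.card S := by
  let e1 : (β → Bool) ≃ ({b // b ∈ Set.range f} → Bool) × ({b // ¬ b ∈ Set.range f} → Bool) :=
    Equiv.piEquivPiSubtypeProd (fun b => b ∈ Set.range f) (fun _ => Bool)
  let e2 : α ≃ {b // b ∈ Set.range f} := Equiv.ofInjective f hf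
  have e3 : {g : β → Bool // g ∘ f ∈ S} ≃ S × ({b // ¬ b ∈ Set.range f} → Bool) :=
    { toFun := fun g => (⟨g.1 ∘ f, g.2⟩, fun b => g.1 b.1)
      invFun := fun p => ⟨e1.symm (fun b => p.1.1 (e2.symm b), p.2), by
        have h1 : (e1.symm (fun b => p.1.1 (e2.symm b), p.2)) ∘ f = p.1.1 := by
          funext x
          have h2 : e2 x = ⟨f x, Set.mem_range_self x⟩ := rfl
          have h3 : (e1 (e1.symm (fun b => p.1.1 (e2.symm b), p.2))).1 (e2 x) =
              p.1.1 (e2.symm (e2 x)) := by rw [Equiv.apply_symm_apply]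
          rw [Equiv.symm_apply_apply] at h3
          exact h3
        rw [h1]
        exact p.1.2⟩
      left_inv := fun g => by
        refine Subtype.ext ?_
        refine e1.injective ?_
        rw [Equiv.apply_symm_apply]
        refine Prod.ext (funext fun b => ?_) rfl
        obtain ⟨x, rfl⟩ := e2.surjective b
        show (g.1 ∘ f) (e2.symm (e2 x)) = g.1 (f x)
        rw [Equiv.symm_apply_apply]
        rfl
      right_inv := fun p => by
        refine Prod.ext (Subtype.ext ?_) ?_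
        · funext x
          have h3 : (e1 (e1.symm (fun b => p.1.1 (e2.symm b), p.2))).1 (e2 x) =
              p.1.1 (e2.symm (e2 x)) := by rw [Equiv.apply_symm_apply]
          rw [Equiv.symm_apply_apply] at h3
          exact h3
        · have h3 : (e1 (e1.symm (fun b => p.1.1 (e2.symm b), p.2))).2 = p.2 := by
            rw [Equiv.apply_symm_apply]
          exact h3 }
  have h4 : Nat.card ({b // ¬ b ∈ Set.range f} → Bool) * 2 ^ Fintype.card α =
      2 ^ Fintype.card β := by
    have h5 := Nat.card_congr e1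
    rw [Nat.card_prod] at h5
    have h6 : Nat.card ({b // b ∈ Set.range f} → Bool) = 2 ^ Fintype.card α := by
      rw [Nat.card_congr (Equiv.arrowCongr e2.symm (Equiv.refl Bool)), Nat.card_eq_fintype_card,
        Fintype.card_fun, Fintype.card_bool]
    have h7 : Nat.card (β → Bool) = 2 ^ Fintype.card β := by
      rw [Nat.card_eq_fintype_card, Fintype.card_fun, Fintype.card_bool]
    rw [h6, h7] at h5
    rw [h5, mul_comm]
  rw [Nat.card_congr e3, Nat.card_prod, mul_assoc, h4, mul_comm]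

theorem slice_cardR {n : ℕ} (hn : 1 ≤ n) (S : Set (Fin n → Fin n → Bool)) :
    Nat.card {Z : BRel 3 n // slice n Z.1 ∈ S} * 2 ^ (n * n) = 2 ^ (n ^ 3) * Nat.card S := by
  have : NeZero n := ⟨by omega⟩
  let f : Fin n × Fin n → (Fin 3 → Fin n) := fun p => ![0, p.1, p.2]
  have hf : Function.Injective f := by
    intro p q h
    exact Prod.ext (congrFun h 1) (congrFun h 2)
  have h1 := restrict_card f hf {h | (fun x y => h (x, y)) ∈ S}
  have h2 : Nat.card {Z : BRel 3 n // slice n Z.1 ∈ S} =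
      Nat.card {g : (Fin 3 → Fin n) → Bool // g ∘ f ∈ {h | (fun x y => h (x, y)) ∈ S}} := by
    refine Nat.card_congr ((brelEquiv 3 n).subtypeEquiv fun Z => ?_)
    rw [Set.mem_ofPred_eq]
    refine iff_of_eq (congrArg (· ∈ S) ?_)
    funext x y
    have h3 : (fun j => ((f (x, y) j : Fin n) : ℕ)) = ![0, (x : ℕ), (y : ℕ)] := by
      funext j
      fin_cases j <;> simp [f]
    show slice n Z.1 x y = (brelEquiv 3 n Z) (f (x, y))
    unfold slice brelEquiv
    show _ = @decide (Z.1 fun j => ((f (x, y) j : Fin n) : ℕ)) (Classical.propDecidable _)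
    rw [h3]
  have h4 : Nat.card {h : Fin n × Fin n → Bool | (fun x y => h (x, y)) ∈ S} = Nat.card S :=
    Nat.card_congr ((Equiv.curry (Fin n) (Fin n) Bool).subtypeEquiv fun h => Iff.rfl)
  rw [h2]
  rw [Fintype.card_prod, Fintype.card_fin, h4, Fintype.card_fun, Fintype.card_fin,
    Fintype.card_fin] at h1
  exact h1

theorem quarter_cardR {n : ℕ} (hn : 2 ≤ n) :
    4 * Nat.card {Z : BRel 3 n // ¬ Z.1 ![0, 0, 0] ∧ ¬ Z.1 ![0, 0, 1]} = 2 ^ (n ^ 3) := by
  have : NeZero n := ⟨by omega⟩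
  let f : Bool → (Fin 3 → Fin n) := fun b => ![0, 0, bif b then ⟨1, by omega⟩ else 0]
  have hf : Function.Injective f := by
    intro p q h
    have h1 : (bif p then (⟨1, by omega⟩ : Fin n) else 0) = bif q then ⟨1, by omega⟩ else 0 :=
      congrFun h 2
    have h2 := congrArg Fin.val h1
    cases p <;> cases q <;> simp_all
  have h1 := restrict_card f hf {fun _ => false}
  have h2 : Nat.card {Z : BRel 3 n // ¬ Z.1 ![0, 0, 0] ∧ ¬ Z.1 ![0, 0, 1]} =
      Nat.card {g : (Fin 3 → Fin n) → Bool // g ∘ f ∈ ({fun _ => false} : Set (Bool → Bool))} := by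
    refine Nat.card_congr ((brelEquiv 3 n).subtypeEquiv fun Z => ?_)
    rw [Set.mem_singleton_iff]
    have h0 : (brelEquiv 3 n Z) (f false) = @decide (Z.1 ![0, 0, 0]) (Classical.propDecidable _) := by
      show @decide (Z.1 fun j => ((f false j : Fin n) : ℕ)) (Classical.propDecidable _) = _
      have h3 : (fun j => ((f false j : Fin n) : ℕ)) = ![0, 0, 0] := by
        funext j
        fin_cases j <;> simp [f]
      rw [h3]
    have h0' : (brelEquiv 3 n Z) (f true) = @decide (Z.1 ![0, 0, 1]) (Classical.propDecidable _) := by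
      show @decide (Z.1 fun j => ((f true j : Fin n) : ℕ)) (Classical.propDecidable _) = _
      have h3 : (fun j => ((f true j : Fin n) : ℕ)) = ![0, 0, 1] := by
        funext j
        fin_cases j <;> simp [f]
      rw [h3]
    constructor
    · rintro ⟨h5, h6⟩
      funext b
      cases b
      · exact h0.trans ((@decide_eq_false_iff_not _ (Classical.propDecidable _)).2 h5)
      · exact h0'.trans ((@decide_eq_false_iff_not _ (Classical.propDecidable _)).2 h6)
    · intro h
      exact ⟨(@decide_eq_false_iff_not _ (Classical.propDecidable _)).1 (h0.symm.trans (congrFun h false)),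
        (@decide_eq_false_iff_not _ (Classical.propDecidable _)).1 (h0'.symm.trans (congrFun h true))⟩
  rw [h2]
  rw [Fintype.card_bool, Fintype.card_fun, Fintype.card_fin, Fintype.card_fin] at h1
  have h5 : Nat.card ({fun _ => false} : Set (Bool → Bool)) = 1 := by simp
  rw [h5] at h1
  omega

/-! ### the sum over the random relations -/

private lemma pv {k : ℕ} (i : Fin k) : Pool.Agent.Helper20.Spectra.IsPoly k (fun v => v i) :=
  Pool.Agent.Helper20.Spectra.IsPoly.var i

private lemma pc {k : ℕ} (n : ℕ) : Pool.Agent.Helper20.Spectra.IsPoly k (fun _ => n) :=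
  Pool.Agent.Helper20.Spectra.IsPoly.const n

/-- the first slice of the ternary relation, below the bound -/
private def qt : ∀ i : Option (Fin 0), SOA (addV 3 noV) → (Fin (tdAr 0 i + 1) → ℕ) → Prop
  | none => fun Y w => (show Fin 3 → ℕ from w) 0 < (show Fin 3 → ℕ from w) 2 ∧
      (show Fin 3 → ℕ from w) 1 < (show Fin 3 → ℕ from w) 2 ∧
      Y none ![0, (show Fin 3 → ℕ from w) 0, (show Fin 3 → ℕ from w) 1]
  | some i => i.elim0

private lemma qt_rud (i : Option (Fin 0)) : RudX (addV 3 noV) (tdAr 0 i + 1) (qt i) := by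
  match i with
  | none =>
    have h0 : RudX (addV 3 noV) 3 (fun _ w => w 0 < w 2) := RudX.lt (pv 0) (pv 2)
    have h1 : RudX (addV 3 noV) 3 (fun _ w => w 1 < w 2) := RudX.lt (pv 1) (pv 2)
    have h2 : RudX (addV 3 noV) 3 (fun Y w => Y none (fun j : Fin 3 => (![fun _ => 0, fun w => w 0, fun w => w 1] :
        Fin 3 → (Fin 3 → ℕ) → ℕ) j w)) := by
      refine RudX.so' (a := addV 3 noV) (k := 3) none (t := (![fun _ => 0, fun w => w 0, fun w => w 1] : Fin 3 → (Fin 3 → ℕ) → ℕ)) ?_
      intro j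
      change Fin 3 at j
      fin_cases j
      · exact pc 0
      · exact pv 0
      · exact pv 1
    refine (h0.and' (h1.and' h2)).congr fun Y w => ?_
    have h3 : (fun j : Fin 3 => (![fun _ => 0, fun w => w 0, fun w => w 1] : Fin 3 → (Fin 3 → ℕ) → ℕ) j w) =
        ![0, (show Fin 3 → ℕ from w) 0, (show Fin 3 → ℕ from w) 1] := by
      funext j
      fin_cases j <;> rfl
    rw [h3]
    rfl
  | some i => exact i.elim0

private lemma qt_eq (n : ℕ) (Z : (Fin 3 → ℕ) → Prop) :
    (fun i w => qt i (consV Z nil) (Fin.append w (fun _ : Fin 1 => n))) = tdAs (slice n Z) Fin.elim0 := by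
  funext i
  match i with
  | none =>
    funext w
    change Fin 2 → ℕ at w
    refine propext ?_
    change (w 0 < n ∧ w 1 < n ∧ Z ![0, w 0, w 1]) ↔
      ∃ x y : Fin n, w = ![(x : ℕ), (y : ℕ)] ∧ slice n Z x y = true
    constructor
    · rintro ⟨h0, h1, h2⟩
      refine ⟨⟨w 0, h0⟩, ⟨w 1, h1⟩, ?_, ?_⟩
      · funext j
        fin_cases j <;> rfl
      · unfold slice
        exact (@decide_eq_true_iff _ (Classical.propDecidable _)).2 h2
    · rintro ⟨x, y, rfl, h⟩
      unfold slice at h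
      exact ⟨x.2, y.2, (@decide_eq_true_iff _ (Classical.propDecidable _)).1 h⟩
  | some i => exact i.elim0

private lemma isPoly_Lp : Pool.Agent.Helper20.Spectra.IsPoly 1 (fun v => Lp (v 0)) :=
  ((pc 2).mul ((pv 0).pow 3)).add (pc 2)

private lemma finite_brel (e B : ℕ) : Finite (BRel e B) := Finite.of_equiv _ (brelEquiv e B).symm

private lemma sum_card (n : ℕ) (R : BRel 3 n → Prop) [dec : ∀ Z, Decidable (R Z)] :
    ∑ᶠ Z : BRel 3 n, (if R Z then 1 else 0) = Nat.card {Z : BRel 3 n // R Z} := by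
  have := finite_brel 3 n
  have := Fintype.ofFinite (BRel 3 n)
  rw [finsum_eq_sum_of_fintype, Finset.sum_boole, Nat.cast_id, ← Fintype.card_subtype, ← Nat.card_eq_fintype_card]

private lemma modEq_sum {α : Type} [Fintype α] (m : ℕ) (f g : α → ℕ) (h : ∀ i, f i ≡ g i [MOD m]) :
    ∑ i, f i ≡ ∑ i, g i [MOD m] := by
  unfold Nat.ModEq
  rw [Finset.sum_nat_mod, Finset.sum_nat_mod (f := g)]
  exact congrArg (· % m) (Finset.sum_congr rfl fun i _ => h i)

theorem toda_GR {C : SOA (tdAr 0) → (Fin 1 → ℕ) → ℕ} (hC : Cn (tdAr 0) 1 C) :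
    ∃ G : SOA noV → (Fin 1 → ℕ) → ℕ, Cn noV 1 G ∧ ∀ n, G nil (fun _ => n) ≡
      Nat.card {Z : BRel 3 n // Even (C (tdAs (slice n Z.1) Fin.elim0) (fun _ => n))} +
      Nat.card {Z : BRel 3 n // ¬ Z.1 ![0, 0, 0] ∧ ¬ Z.1 ![0, 0, 1]} [MOD 2 ^ Lp n] := by
  have h1 : Cn (addV 3 noV) 1 (fun Y v => C (fun i w => qt i Y (Fin.append w (fun _ : Fin 1 => v 0)))
      (fun _ => v 0)) :=
    cn_substR hC (d := 1) (Q := qt) qt_rud (σ := fun _ v => v 0) (fun _ => pv 0)
      (τ := fun _ v => v 0) (fun _ => pv 0)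
  have h3 := cn_pow (cn_add (cn_pow h1 isPoly_Lp) (cn_two_pow_sub isPoly_Lp)) isPoly_Lp
  have h4 := cn_sumR 3 h3 (pv 0)
  have hso : ∀ m : ℕ, RudX (addV 3 noV) 1 (fun Y _ => ¬ Y none ![0, 0, m]) := by
    intro m
    exact (RudX.so' (a := addV 3 noV) (k := 1) none (t := fun (j : Fin 3) (_ : Fin 1 → ℕ) => (![0, 0, m] : Fin 3 → ℕ) j)
      fun j => pc _).not'
  have h5 := cn_sumR 3 (cn_ind ((hso 0).and' (hso 1))) (pv 0)
  refine ⟨_, cn_add h4 h5, fun n => ?_⟩
  refine Nat.ModEq.add ?_ (congrArg (· % 2 ^ Lp n) ?_)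
  · rw [← sum_card n fun Z => Even (C (tdAs (slice n Z.1) Fin.elim0) (fun _ => n))]
    have := finite_brel 3 n
    have := Fintype.ofFinite (BRel 3 n)
    rw [finsum_eq_sum_of_fintype, finsum_eq_sum_of_fintype]
    refine modEq_sum _ _ _ fun Z => ?_
    have h6 := qt_eq n Z.1
    show (C (fun i w => qt i (consV Z.1 nil) (Fin.append w (fun _ : Fin 1 => n))) (fun _ => n) ^ Lp n +
        (2 ^ Lp n - 1)) ^ Lp n ≡ _ [MOD 2 ^ Lp n]
    rw [h6]
    by_cases he : Even (C (tdAs (slice n Z.1) Fin.elim0) (fun _ => n))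
    · rw [if_pos he]
      refine amp_even ?_ he
      unfold Lp
      exact ⟨n ^ 3 + 1, by ring⟩
    · rw [if_neg he]
      exact (Nat.modEq_zero_iff_dvd).2 (amp_odd (Nat.not_even_iff_odd.1 he))
  · exact sum_card n (fun Z => ¬ Z.1 ![0, 0, 0] ∧ ¬ Z.1 ![0, 0, 1]) (dec := fun _ => Classical.propDecidable _)

/-! ### the digit -/

/-- bit `p` of a number between `2^p` and `2^(p+1)` -/
private lemma testBit_le {p B : ℕ} (h1 : 2 ^ p ≤ B) (h2 : B < 2 ^ (p + 1)) : B.testBit p = true := by
  rw [Nat.testBit_eq_decide_div_mod_eq]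
  have : B / 2 ^ p = 1 := by
    rw [Nat.div_eq_iff (by positivity)]
    rw [pow_succ] at h2
    omega
  rw [this]
  decide

/-- the counting step -/
private lemma digit_iff' {n p : ℕ} (S : Set (Fin n → Fin n → Bool)) (Q : Prop) (E q : ℕ)
    (hE : E * 2 ^ (n * n) = 2 ^ p * Nat.card S) (hq : 4 * q = 2 ^ p)
    (h1 : Q → ((Nat.card (Sᶜ : Set (Fin n → Fin n → Bool)) : ℕ) : ℝ) ≤ 1 / 8 * 2 ^ (n * n))
    (h2 : ¬ Q → ((Nat.card S : ℕ) : ℝ) ≤ 1 / 8 * 2 ^ (n * n)) :
    (E + q).testBit p = true ↔ Q := by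
  have hcard : Nat.card S + Nat.card (Sᶜ : Set (Fin n → Fin n → Bool)) = 2 ^ (n * n) := by
    have h := Set.ncard_add_ncard_compl S
    rw [Nat.card_coe_set_eq, Nat.card_coe_set_eq, h, Nat.card_eq_fintype_card]
    simp [pow_mul]
  have hpos : (0 : ℝ) < 2 ^ (n * n) := by positivity
  have hposN : (0 : ℝ) < 2 ^ p := by positivity
  have hE' : (E : ℝ) * 2 ^ (n * n) = 2 ^ p * (Nat.card S : ℝ) := by exact_mod_cast hE
  have hq' : 4 * (q : ℝ) = 2 ^ p := by exact_mod_cast hq
  have hcard' : (Nat.card S : ℝ) + (Nat.card (Sᶜ : Set (Fin n → Fin n → Bool)) : ℝ) = 2 ^ (n * n) := by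
    exact_mod_cast hcard
  by_cases hQ : Q
  · refine iff_of_true ?_ hQ
    have h3 := h1 hQ
    have h4 : (7 / 8 : ℝ) * 2 ^ (n * n) ≤ Nat.card S := by linarith
    have h5 : (7 / 8 : ℝ) * 2 ^ p ≤ E := by
      have : (7 / 8 : ℝ) * 2 ^ p * 2 ^ (n * n) ≤ E * 2 ^ (n * n) := by
        rw [hE']
        calc (7 / 8 : ℝ) * 2 ^ p * 2 ^ (n * n) = 2 ^ p * (7 / 8 * 2 ^ (n * n)) := by ring
          _ ≤ _ := mul_le_mul_of_nonneg_left h4 hposN.le
      exact le_of_mul_le_mul_right this hpos
    have h6 : (E : ℝ) ≤ 2 ^ p := by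
      have h7 : (Nat.card S : ℝ) ≤ 2 ^ (n * n) := by
        have : (0 : ℝ) ≤ (Nat.card (Sᶜ : Set (Fin n → Fin n → Bool)) : ℝ) := Nat.cast_nonneg _
        linarith
      have : (E : ℝ) * 2 ^ (n * n) ≤ 2 ^ p * 2 ^ (n * n) := by
        rw [hE']
        exact mul_le_mul_of_nonneg_left h7 hposN.le
      exact le_of_mul_le_mul_right this hpos
    refine testBit_le ?_ ?_
    · have : (2 : ℝ) ^ p ≤ ((E + q : ℕ) : ℝ) := by push_cast; linarith
      exact_mod_cast this
    · have : ((E + q : ℕ) : ℝ) < 2 ^ (p + 1) := by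
        push_cast
        rw [pow_succ]
        linarith
      exact_mod_cast this
  · refine iff_of_false ?_ hQ
    have h3 := h2 hQ
    have h5 : (E : ℝ) ≤ (1 / 8 : ℝ) * 2 ^ p := by
      have : (E : ℝ) * 2 ^ (n * n) ≤ (1 / 8 : ℝ) * 2 ^ p * 2 ^ (n * n) := by
        rw [hE']
        calc 2 ^ p * (Nat.card S : ℝ) ≤ 2 ^ p * (1 / 8 * 2 ^ (n * n)) :=
              mul_le_mul_of_nonneg_left h3 hposN.le
          _ = _ := by ring
      exact le_of_mul_le_mul_right this hpos
    have h6 : E + q < 2 ^ p := by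
      have : ((E + q : ℕ) : ℝ) < 2 ^ p := by push_cast; linarith
      exact_mod_cast this
    rw [Nat.testBit_eq_false_of_lt h6]
    decide

/-- congruent numbers have the same digits -/
private lemma testBit_modEq {L p x y : ℕ} (h : x ≡ y [MOD 2 ^ L]) (hp : p < L) :
    x.testBit p = y.testBit p := by
  have h1 := congrArg (fun z => z.testBit p) (show x % 2 ^ L = y % 2 ^ L from h)
  simp only [Nat.testBit_mod_two_pow, hp, decide_true, Bool.true_and] at h1
  exact h1

/-- as `toda`, without the labelled factor -/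
theorem todaR (A : Set ℕ) (hA : RudS ll A) :
    ∃ (G : SOA noV → (Fin 1 → ℕ) → ℕ) (n₀ : ℕ), Cn noV 1 G ∧ ∀ n, n₀ ≤ n →
      ((G nil (fun _ => n)).testBit (n ^ 3) = true ↔ n ∈ A) := by
  obtain ⟨P, hP, rfl⟩ := hA
  obtain ⟨C, e, hC, hrep⟩ := rep_not ll 0 0 P (rep_asf hP)
  obtain ⟨G, hG, hGn⟩ := toda_GR hC
  obtain ⟨n₁, hn₁⟩ := est e
  refine ⟨G, max 2 n₁, hG, fun n hn => ?_⟩
  have hn2 : 2 ≤ n := le_trans (le_max_left _ _) hn
  have hn1 : n₁ ≤ n := le_trans (le_max_right _ _) hn
  have hLp : n ^ 3 < Lp n := by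
    unfold Lp
    omega
  rw [testBit_modEq (hGn n) hLp]
  have hmem : n ∈ {n | 1 ≤ n ∧ P n Fin.elim0 Fin.elim0} ↔ P n Fin.elim0 Fin.elim0 := by
    rw [Set.mem_ofPred_eq]
    exact and_iff_right (by omega)
  rw [hmem]
  have hv : (Fin.cons n (Fin.elim0 : Fin 0 → ℕ) : Fin (0 + 1) → ℕ) = fun _ => n := by
    funext i
    have : i = 0 := Subsingleton.elim (α := Fin 1) i 0
    subst this
    rfl
  have hbd := hrep n hn2 Fin.elim0 (fun i => i.elim0) Fin.elim0 (fun i => i.elim0)
  rw [hv] at hbd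
  have hbd' : (Nat.card {r : Fin n → Fin n → Bool //
        ¬ (C (tdAs r Fin.elim0) (fun _ => n) % 2 = 1 ↔ ¬ P n Fin.elim0 Fin.elim0)} : ℝ) ≤
        1 / 8 * 2 ^ (n * n) :=
    hbd.trans (mul_le_mul_of_nonneg_right (hn₁ n hn1) (by positivity))
  refine digit_iff' {r | Even (C (tdAs r Fin.elim0) (fun _ => n))} _ _ _
    (slice_cardR (by omega) {r | Even (C (tdAs r Fin.elim0) (fun _ => n))}) (quarter_cardR hn2) ?_ ?_
  · intro hQ
    refine le_trans (le_of_eq ?_) hbd'
    congr 1
    refine Nat.card_congr (Equiv.subtypeEquivRight fun r => ?_)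
    rw [Set.mem_compl_iff, Set.mem_ofPred_eq, Nat.not_even_iff]
    constructor
    · intro h h'
      exact (h'.1 h) hQ
    · intro h
      by_contra hne
      exact h ⟨fun h' => absurd h' hne, fun h' => absurd hQ h'⟩
  · intro hQ
    refine le_trans (le_of_eq ?_) hbd'
    congr 1
    refine Nat.card_congr (Equiv.subtypeEquivRight fun r => ?_)
    rw [Set.mem_ofPred_eq, Nat.even_iff]
    constructor
    · intro h h'
      have := h'.2 hQ
      omega
    · intro h
      by_contra hne
      exact h ⟨fun _ => hQ, fun _ => by omega⟩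

end Pool.Agent.Helper38.DG
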