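import Pool.Agent.Helper38.DG.Defs

/-!
# Counting labelled models; the linear orders
-/

set_option autoImplicit false

namespace Pool.Agent.Helper38.DG

open FirstOrder FirstOrder.Language Pool.Agent.Helper20.Spectra
open scoped Classical

theorem numModels_card {S : Type} {ar : S → ℕ}
    {Q : ∀ (M : Type), Interp S ar M → (Empty → M) → Prop} (h : FD S ar Empty Q) :
    ∃ φ : (RelLang S ar).Sentence, ∀ n,
      numModels φ n = Nat.card {R : Interp S ar (Fin n) // Q (Fin n) R Empty.elim} := by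
  obtain ⟨φ, hφ⟩ := h
  refine ⟨φ, fun n => ?_⟩
  unfold numModels
  have key : ∀ R : Interp S ar (Fin n),
      @Sentence.Realize (RelLang S ar) (Fin n) (mkS R) φ ↔ Q (Fin n) R Empty.elim := fun R =>
    (real_iff (mkS R) φ Empty.elim default).symm.trans (hφ (Fin n) R Empty.elim)
  symm
  refine Nat.card_congr (Equiv.ofBijective
    (fun R : {R : Interp S ar (Fin n) // Q (Fin n) R Empty.elim} =>
      (⟨mkS R.1, (key R.1).2 R.2⟩ :
        {T : (RelLang S ar).Structure (Fin n) // @Sentence.Realize _ (Fin n) T φ})) ⟨?_, ?_⟩)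
  · rintro ⟨R, hR⟩ ⟨R', hR'⟩ h
    have h1 : mkS R = mkS R' := congrArg Subtype.val h
    apply Subtype.ext
    show R = R'
    funext s v
    have h2 := congrArg (fun T : (RelLang S ar).Structure (Fin n) =>
      T.RelMap (⟨s, rfl⟩ : (RelLang S ar).Relations (ar s)) v) h1
    exact h2
  · rintro ⟨T, hT⟩
    have e := structure_eq T
    refine ⟨⟨fun s v => T.RelMap (⟨s, rfl⟩ : (RelLang S ar).Relations (ar s)) v, ?_⟩, ?_⟩
    · rw [← key, ← e]
      exact hT
    · apply Subtype.ext
      exact e.symm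

section Orders

variable {ι : Type} {a : ι → ℕ} {K n : ℕ}

/-- the interpretation transported by a permutation -/
def actI (σ : Equiv.Perm (Fin n)) (R : Interp (ASym ι) (aar a K) (Fin n)) :
    Interp (ASym ι) (aar a K) (Fin n) :=
  fun s w => R s (σ.symm ∘ w)

lemma ltR_actI (σ : Equiv.Perm (Fin n)) (R : Interp (ASym ι) (aar a K) (Fin n)) (x y : Fin n) :
    ltR (actI σ R) x y ↔ ltR R (σ.symm x) (σ.symm y) := by
  show R .lt _ ↔ R .lt _
  refine Iff.of_eq (congrArg _ ?_)
  funext i
  change Fin 2 at i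
  fin_cases i <;> rfl

lemma actI_symm (σ : Equiv.Perm (Fin n)) (R : Interp (ASym ι) (aar a K) (Fin n)) :
    actI σ (actI σ.symm R) = R := by
  funext s w
  show R s (σ.symm.symm ∘ (σ.symm ∘ w)) = R s w
  congr 1
  funext i
  simp

lemma actI_inj (σ : Equiv.Perm (Fin n)) {R R' : Interp (ASym ι) (aar a K) (Fin n)}
    (h : actI σ R = actI σ R') : R = R' := by
  have h1 := actI_symm σ.symm R
  have h2 := actI_symm σ.symm R'
  simp only [Equiv.symm_symm] at h1 h2
  rw [← h1, ← h2, h]

lemma perm_eq_one {n : ℕ} (τ : Equiv.Perm (Fin n)) (h : ∀ x y, τ x < τ y ↔ x < y) : τ = 1 := by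
  let e : Fin n ≃o Fin n := { τ with
    map_rel_iff' := by
      intro x y
      have := h y x
      rw [← not_lt, ← not_lt]
      exact not_congr this }
  have h1 : e = OrderIso.refl _ := Subsingleton.elim _ _
  ext x
  have h2 : e x = x := by rw [h1]; rfl
  exact congrArg Fin.val h2

lemma exists_rank {M : Type} [Fintype M] {m : ℕ} (hc : Fintype.card M = m) (r : M → M → Prop)
    (hr : IsStrictTotalOrder M r) : ∃ e : M ≃ Fin m, ∀ x y, r x y ↔ e x < e y := by
  let LO : LinearOrder M := linearOrderOfSTO r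
  let e0 : Fin m ≃o M := monoEquivOfFin M hc
  exact ⟨e0.symm.toEquiv, fun x y => (e0.symm.lt_iff_lt (x := x) (y := y)).symm⟩

theorem orders_card {ι : Type} [Finite ι] {a : ι → ℕ} {K : ℕ}
    {Q : ∀ (M : Type), Interp (ASym ι) (aar a K) M → (Empty → M) → Prop}
    (h : FD (ASym ι) (aar a K) Empty Q) (n : ℕ) :
    Nat.card {R : Interp (ASym ι) (aar a K) (Fin n) // AxA R ∧ Q (Fin n) R Empty.elim} =
      n.factorial * Nat.card {R : Interp (ASym ι) (aar a K) (Fin n) //
        Std R ∧ Q (Fin n) R Empty.elim} := by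
  have hP : ∀ (σ : Equiv.Perm (Fin n)) (R : Interp (ASym ι) (aar a K) (Fin n)),
      (AxA R ∧ Q (Fin n) R Empty.elim) ↔
        (AxA (actI σ R) ∧ Q (Fin n) (actI σ R) Empty.elim) := by
    intro σ R
    have h1 := (AxA_FD (ι := ι) (a := a) (K := K)).transport σ R Empty.elim
    have h2 := h.transport σ R Empty.elim
    have h3 : (σ ∘ Empty.elim : Empty → Fin n) = Empty.elim := Subsingleton.elim _ _
    rw [h3] at h2
    exact and_congr h1 h2
  have hn : n.factorial = Nat.card (Equiv.Perm (Fin n)) := by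
    rw [Nat.card_eq_fintype_card, Fintype.card_perm, Fintype.card_fin]
  rw [hn, ← Nat.card_prod]
  symm
  refine Nat.card_congr (Equiv.ofBijective
    (fun x : Equiv.Perm (Fin n) × {R : Interp (ASym ι) (aar a K) (Fin n) //
        Std R ∧ Q (Fin n) R Empty.elim} =>
      (⟨actI x.1 x.2.1, (hP x.1 x.2.1).1 ⟨x.2.2.1.axA, x.2.2.2⟩⟩ :
        {R : Interp (ASym ι) (aar a K) (Fin n) // AxA R ∧ Q (Fin n) R Empty.elim})) ⟨?_, ?_⟩)
  · rintro ⟨σ, R, hR, hQ⟩ ⟨τ, R', hR', hQ'⟩ h
    have h1 : actI σ R = actI τ R' := congrArg Subtype.val h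
    have h2 : ∀ x y, σ.symm x < σ.symm y ↔ τ.symm x < τ.symm y := by
      intro x y
      rw [← hR.lt, ← hR'.lt, ← ltR_actI, ← ltR_actI, h1]
    have h3 : σ.symm * τ = 1 := by
      apply perm_eq_one
      intro x y
      rw [Equiv.Perm.mul_apply, Equiv.Perm.mul_apply, h2]
      simp
    have h4 : σ = τ := by
      ext x
      have h5 := congrArg (fun ρ : Equiv.Perm (Fin n) => σ (ρ x)) h3
      simp only [Equiv.Perm.mul_apply, Equiv.apply_symm_apply, Equiv.Perm.one_apply] at h5
      rw [h5]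
    subst h4
    have h6 := actI_inj σ h1
    subst h6
    rfl
  · rintro ⟨R, hA, hQ⟩
    let r : Fin n → Fin n → Prop := fun x y => ltR R x y
    have hSTO : IsStrictTotalOrder (Fin n) r :=
      { trichotomous := fun x y hxy hyx => by
          rcases hA.total x y with h | h | h
          · exact absurd h hxy
          · exact h
          · exact absurd h hyx
        irrefl := hA.irrefl
        trans := hA.trans }
    obtain ⟨e, hlt⟩ : ∃ e : Equiv.Perm (Fin n), ∀ x y, ltR R x y ↔ e x < e y :=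
      exists_rank (Fintype.card_fin n) r hSTO
    have h1 := (hP e R).1 ⟨hA, hQ⟩
    have h2 : ∀ x y, ltR (actI e R) x y ↔ x < y := by
      intro x y
      rw [ltR_actI, hlt]
      simp
    refine ⟨(e.symm, ⟨actI e R, h1.1.std h2, h1.2⟩), ?_⟩
    apply Subtype.ext
    show actI e.symm (actI e R) = R
    have h3 := actI_symm e.symm R
    simpa using h3

end Orders

end Pool.Agent.Helper38.DG
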