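import Pool.Agent.Helper20.Spectra.FD

/-!
# Relativisation of uniformly definable conditions to a definable set
-/

set_option autoImplicit false

namespace Pool.Agent.Helper38.DG

open FirstOrder FirstOrder.Language Pool.Agent.Helper20.Spectra

private lemma term_var_r {S : Type} {ar : S → ℕ} {β : Type} (t : (RelLang S ar).Term β) :
    ∃ x : β, t = Term.var x := by
  cases t with
  | var x => exact ⟨x, rfl⟩
  | func f _ => exact Empty.elim f

private theorem relat_bdd {S S' : Type} {ar : S → ℕ} {ar' : S' → ℕ}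
    {Z : ∀ V : Type, Interp S' ar' V → V → Prop}
    (hZ : FD S' ar' Unit (fun V R v => Z V R (v ())))
    {ρ : ∀ (s : S) (V : Type), Interp S' ar' V → (Fin (ar s) → V) → Prop}
    (hρ : ∀ s, FD S' ar' (Fin (ar s)) (ρ s)) {m : ℕ}
    (φ : (RelLang S ar).BoundedFormula Empty m) :
    FD S' ar' (Fin m) (fun V R v => ∀ h : ∀ i, Z V R (v i),
      @BoundedFormula.Realize _ {x // Z V R x}
        (mkS (fun s (w : Fin (ar s) → {x // Z V R x}) => ρ s V R (fun i => (w i).1))) _ _ φ
        default (fun i => ⟨v i, h i⟩)) := by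
  have hdom : ∀ k : ℕ, FD S' ar' (Fin k) (fun V R v => ∀ i : Fin k, Z V R (v i)) := fun k =>
    FD.all_fin (fun i => FD.sub (f := fun M v => v ∘ (fun _ : Unit => i)) ⟨_, fun _ _ => rfl⟩ hZ)
  have hvar : ∀ {k : ℕ} (t : (RelLang S ar).Term (Empty ⊕ Fin k)),
      ∃ i : Fin k, t = Term.var (Sum.inr i) := by
    intro k t
    obtain ⟨x, rfl⟩ := term_var_r t
    rcases x with x | i
    · exact x.elim
    · exact ⟨i, rfl⟩
  induction φ with
  | @falsum m => exact ((hdom m).imp (FD.const False)).congr fun V R v => Iff.rfl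
  | @equal m t₁ t₂ =>
    obtain ⟨i, rfl⟩ := hvar t₁
    obtain ⟨j, rfl⟩ := hvar t₂
    refine ((hdom m).imp (FD.eq (El.var i) (El.var j))).congr fun V R v => ?_
    refine forall_congr' fun h => ?_
    exact Subtype.ext_iff
  | @rel m l r ts =>
    obtain ⟨s, hs⟩ := r
    subst hs
    choose g hg using fun i => hvar (ts i)
    refine ((hdom m).imp (FD.sub (f := fun M v => v ∘ g) ⟨g, fun _ _ => rfl⟩ (hρ s))).congr
      fun V R v => ?_
    refine forall_congr' fun h => ?_
    let _ := mkS (fun s (w : Fin (ar s) → {x // Z V R x}) => ρ s V R (fun i => (w i).1))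
    show ρ s V R (fun i => ((ts i).realize
      (Sum.elim default fun i => (⟨v i, h i⟩ : {x // Z V R x}))).1) ↔ _
    have h1 : (fun i => ((ts i).realize
        (Sum.elim default fun i => (⟨v i, h i⟩ : {x // Z V R x}))).1) = v ∘ g := by
      funext i
      rw [hg i]
      rfl
    rw [h1]
  | @imp m φ ψ ih₁ ih₂ =>
    refine ((hdom m).imp (ih₁.imp ih₂)).congr fun V R v => ?_
    constructor
    · intro H h H1 h'
      exact H h (H1 h)
    · intro H h H1
      exact H h (fun _ => H1) h
  | @all m φ ih =>
    let g : Fin (m + 1) → Fin m ⊕ Unit :=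
      Fin.snoc (α := fun _ => Fin m ⊕ Unit) (fun i => Sum.inl i) (Sum.inr ())
    have h1 : FD S' ar' (Fin m) (fun V R v => ∀ x : V,
        ∀ h : ∀ i, Z V R ((Fin.snoc v x : Fin (m + 1) → V) i),
        @BoundedFormula.Realize _ {x // Z V R x}
          (mkS (fun s (w : Fin (ar s) → {x // Z V R x}) => ρ s V R (fun i => (w i).1))) _ _ φ
          default (fun i => ⟨(Fin.snoc v x : Fin (m + 1) → V) i, h i⟩)) := by
      apply FD.all1
      refine (FD.sub (f := fun M v => v ∘ g) ⟨g, fun _ _ => rfl⟩ ih).congr fun V R v => ?_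
      have h2 : (Fin.snoc (v ∘ Sum.inl) (v (Sum.inr ())) : Fin (m + 1) → V) = v ∘ g := by
        funext i
        refine Fin.lastCases ?_ (fun j => ?_) i
        · simp [g]
        · simp [g]
      rw [h2]
    refine h1.congr fun V R v => ?_
    have key : ∀ (h : ∀ i, Z V R (v i)) (x : V) (hx : Z V R x)
        (h' : ∀ i, Z V R ((Fin.snoc v x : Fin (m + 1) → V) i)),
        (Fin.snoc (fun i => (⟨v i, h i⟩ : {x // Z V R x})) ⟨x, hx⟩ : Fin (m + 1) → {x // Z V R x}) =
          fun i => ⟨(Fin.snoc v x : Fin (m + 1) → V) i, h' i⟩ := by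
      intro h x hx h'
      funext i
      apply Subtype.ext
      refine Fin.lastCases ?_ (fun j => ?_) i
      · simp only [Fin.snoc_last]
      · simp only [Fin.snoc_castSucc]
    constructor
    · intro H x h'
      have h : ∀ i, Z V R (v i) := fun i => by
        have := h' i.castSucc
        rwa [Fin.snoc_castSucc] at this
      have hx : Z V R x := by
        have := h' (Fin.last m)
        rwa [Fin.snoc_last] at this
      have := H h ⟨x, hx⟩
      rw [key h x hx h'] at this
      exact this
    · intro H h x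
      obtain ⟨x, hx⟩ := x
      have h' : ∀ i, Z V R ((Fin.snoc v x : Fin (m + 1) → V) i) := by
        intro i
        refine Fin.lastCases ?_ (fun j => ?_) i
        · rw [Fin.snoc_last]; exact hx
        · rw [Fin.snoc_castSucc]; exact h j
      rw [key h x hx h']
      exact H x h'

/-- relativisation -/
theorem fd_relat {S S' : Type} {ar : S → ℕ} {ar' : S' → ℕ}
    {P : ∀ (M : Type), Interp S ar M → (Empty → M) → Prop} (hP : FD S ar Empty P)
    {Z : ∀ V : Type, Interp S' ar' V → V → Prop}
    (hZ : FD S' ar' Unit (fun V R v => Z V R (v ())))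
    {ρ : ∀ (s : S) (V : Type), Interp S' ar' V → (Fin (ar s) → V) → Prop}
    (hρ : ∀ s, FD S' ar' (Fin (ar s)) (ρ s)) :
    FD S' ar' Empty (fun V R _ => P {x // Z V R x} (fun s v => ρ s V R (fun i => (v i).1))
      Empty.elim) := by
  obtain ⟨φ, hφ⟩ := hP
  have h0 : FD S' ar' (Fin 0) (fun V R _ => P {x // Z V R x}
      (fun s v => ρ s V R (fun i => (v i).1)) Empty.elim) := by
    refine (relat_bdd hZ hρ φ).congr fun V R v => ?_
    have e0 : (Empty.elim : Empty → {x // Z V R x}) = default := Subsingleton.elim _ _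
    refine (hφ {x // Z V R x} (fun s v => ρ s V R (fun i => (v i).1)) Empty.elim).symm.trans ?_
    rw [e0]
    constructor
    · intro H h
      have : (fun i => (⟨v i, h i⟩ : {x // Z V R x})) = default := Subsingleton.elim _ _
      rw [this]
      exact H
    · intro H
      have h : ∀ i : Fin 0, Z V R (v i) := fun i => i.elim0
      have H1 := H h
      have : (fun i => (⟨v i, h i⟩ : {x // Z V R x})) = default := Subsingleton.elim _ _
      rw [this] at H1
      exact H1
  exact FD.sub (f := fun M v => v ∘ (fun i : Fin 0 => i.elim0)) ⟨_, fun _ _ => rfl⟩ h0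

end Pool.Agent.Helper38.DG
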