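import Pool.Agent.Helper20.Spectra.RudTools

/-!
# Nonuniform rudimentary sets
-/

set_option autoImplicit false

namespace Pool.Agent.Helper38.DG

open Pool.Agent.Helper20.Spectra

/-- The class RUD/lin: rudimentary with an advice `a`, which is a number bounded by a polynomial
in `n` and depends only on the length of `n` in binary. -/
def Adv (A : Set ℕ) : Prop :=
  ∃ (R : Set (Fin 2 → ℕ)) (c : ℕ) (a : ℕ → ℕ), Rud 2 R ∧ (∀ k, a k ≤ 2 ^ (c * (k + 1))) ∧
    A = {n | 1 ≤ n ∧ ![n, a (Nat.log 2 n)] ∈ R}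

end Pool.Agent.Helper38.DG
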