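import Pool.Agent.Helper38.DG.NumM
import Pool.Agent.Helper38.DG.FDRelat

/-!
# Arity reduction for the number of labelled models

From a sentence `φ` in a relational vocabulary with arities at most `K`, a sentence `φ'` in binary
and unary relation symbols, whose models on `n ^ K` points are the structures on the set of all
`K`-tuples of `n` points: the `K` binary relations are the coordinate functions (with values in the
diagonal), the unary relations are the relations of a model of `φ` on the diagonal.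
-/

set_option autoImplicit false

namespace Pool.Agent.Helper38.DG

open FirstOrder FirstOrder.Language Pool.Agent.Helper20.Spectra

namespace Arity

/-- interpretations of the new vocabulary -/
abbrev IK (K : ℕ) (S : Type) (M : Type) :=
  Interp (Fin K ⊕ S) (Sum.elim (fun _ => 2) (fun _ => 1)) M

variable {S : Type} {ar : S → ℕ} {K : ℕ} {M : Type}

/-- `y` is the `i`-th coordinate of `x` -/
def cR (R : IK K S M) (i : Fin K) (x y : M) : Prop := R (Sum.inl i) (![x, y] : Fin 2 → M)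

/-- the unary relations -/
def uR (R : IK K S M) (s : S) (x : M) : Prop := R (Sum.inr s) (fun _ : Fin 1 => x)

/-- the diagonal -/
def Dg (M : Type) (R : IK K S M) (x : M) : Prop := ∀ i, cR R i x x

/-- the relation of arity `ar s` -/
def rel (hS : ∀ s, ar s ≤ K) (s : S) (M : Type) (R : IK K S M) (v : Fin (ar s) → M) : Prop :=
  ∃ x, (∀ j, cR R (Fin.castLE (hS s) j) x (v j)) ∧ uR R s x

/-- the axioms -/
structure Ax (hS : ∀ s, ar s ≤ K) (R : IK K S M) : Prop where
  ex : ∀ i x, ∃ y, cR R i x y ∧ Dg M R y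
  uniq : ∀ i x y z, cR R i x y → cR R i x z → y = z
  tup : ∀ d : Fin K → M, (∀ i, Dg M R (d i)) → ∃ x, ∀ i, cR R i x (d i)
  inj : ∀ x y, (∀ i, ∃ z, cR R i x z ∧ cR R i y z) → x = y
  dep : ∀ s x y, (∀ j, ∃ z, cR R (Fin.castLE (hS s) j) x z ∧ cR R (Fin.castLE (hS s) j) y z) →
    (uR R s x ↔ uR R s y)

section FDs

variable {α : Type}

lemma fd_c (i : Fin K) {x y : ∀ (M : Type), (α → M) → M} (hx : El α x) (hy : El α y) :
    FD (Fin K ⊕ S) (Sum.elim (fun _ => 2) (fun _ => 1)) α
      (fun M R v => cR R i (x M v) (y M v)) := by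
  obtain ⟨a, ha⟩ := hx
  obtain ⟨b, hb⟩ := hy
  refine (FD.rel (S := Fin K ⊕ S) (ar := Sum.elim (fun _ => 2) (fun _ => 1)) (Sum.inl i)
    (f := fun M v => (fun j : Fin 2 => v ((![a, b] : Fin 2 → α) j)))
    ⟨(![a, b] : Fin 2 → α), fun _ _ => rfl⟩).congr fun M R v => ?_
  show R (Sum.inl i) (![x M v, y M v] : Fin 2 → M) ↔
    R (Sum.inl i) (fun j : Fin 2 => v ((![a, b] : Fin 2 → α) j))
  have : (![x M v, y M v] : Fin 2 → M) = (fun j : Fin 2 => v ((![a, b] : Fin 2 → α) j)) := by
    funext j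
    rw [ha, hb]
    fin_cases j <;> rfl
  rw [this]

lemma fd_u (s : S) {x : ∀ (M : Type), (α → M) → M} (hx : El α x) :
    FD (Fin K ⊕ S) (Sum.elim (fun _ => 2) (fun _ => 1)) α
      (fun M R v => uR R s (x M v)) := by
  obtain ⟨a, ha⟩ := hx
  refine (FD.rel (S := Fin K ⊕ S) (ar := Sum.elim (fun _ => 2) (fun _ => 1)) (Sum.inr s)
    (f := fun M v => (fun _ : Fin 1 => v a)) ⟨fun _ => a, fun _ _ => rfl⟩).congr fun M R v => ?_
  show R (Sum.inr s) (fun _ : Fin 1 => x M v) ↔ R (Sum.inr s) (fun _ : Fin 1 => v a)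
  rw [ha]

lemma fd_dg {x : ∀ (M : Type), (α → M) → M} (hx : El α x) :
    FD (Fin K ⊕ S) (Sum.elim (fun _ => 2) (fun _ => 1)) α
      (fun M R v => Dg M R (x M v)) :=
  FD.all_fin fun i => fd_c i hx hx

lemma fd_rel (hS : ∀ s, ar s ≤ K) (s : S) :
    FD (Fin K ⊕ S) (Sum.elim (fun _ => 2) (fun _ => 1)) (Fin (ar s)) (rel hS s) :=
  FD.ex1 ((FD.all_fin fun j => fd_c _ (El.var _) (El.var (Sum.inl j))).and (fd_u s (El.var _)))

lemma fd_ax [Finite S] (hS : ∀ s, ar s ≤ K) :
    FD (Fin K ⊕ S) (Sum.elim (fun _ => 2) (fun _ => 1)) Empty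
      (fun M R _ => Ax (M := M) hS R) := by
  have h1 : FD (Fin K ⊕ S) (Sum.elim (fun _ => 2) (fun _ => 1)) Empty
      (fun M R _ => ∀ i : Fin K, ∀ x : M, ∃ y, cR R i x y ∧ Dg M R y) :=
    FD.all_fin fun i => FD.all1 <| FD.ex1 <|
      (fd_c i (El.var (Sum.inl (Sum.inr ()))) (El.var (Sum.inr ()))).and (fd_dg (El.var (Sum.inr ())))
  have h2 : FD (Fin K ⊕ S) (Sum.elim (fun _ => 2) (fun _ => 1)) Empty
      (fun M R _ => ∀ i : Fin K, ∀ x y z : M, cR R i x y → cR R i x z → y = z) :=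
    FD.all_fin fun i => FD.all1 <| FD.all1 <| FD.all1 <|
      (fd_c i (El.var (Sum.inl (Sum.inl (Sum.inr ())))) (El.var (Sum.inl (Sum.inr ())))).imp <|
      (fd_c i (El.var (Sum.inl (Sum.inl (Sum.inr ())))) (El.var (Sum.inr ()))).imp <|
      FD.eq (El.var (Sum.inl (Sum.inr ()))) (El.var (Sum.inr ()))
  have h3 : FD (Fin K ⊕ S) (Sum.elim (fun _ => 2) (fun _ => 1)) Empty
      (fun M R _ => ∀ d : Fin K → M, (∀ i, Dg M R (d i)) → ∃ x, ∀ i, cR R i x (d i)) :=
    FD.all <| (FD.all_fin fun i => fd_dg (El.var (Sum.inr i))).imp <| FD.ex1 <|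
      FD.all_fin fun i => fd_c i (El.var (Sum.inr ())) (El.var (Sum.inl (Sum.inr i)))
  have h4 : FD (Fin K ⊕ S) (Sum.elim (fun _ => 2) (fun _ => 1)) Empty
      (fun M R _ => ∀ x y : M, (∀ i, ∃ z, cR R i x z ∧ cR R i y z) → x = y) :=
    FD.all1 <| FD.all1 <| (FD.all_fin fun i => FD.ex1 <|
      (fd_c i (El.var (Sum.inl (Sum.inl (Sum.inr ())))) (El.var (Sum.inr ()))).and
      (fd_c i (El.var (Sum.inl (Sum.inr ()))) (El.var (Sum.inr ())))).imp <|
      FD.eq (El.var (Sum.inl (Sum.inr ()))) (El.var (Sum.inr ()))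
  have h5 : FD (Fin K ⊕ S) (Sum.elim (fun _ => 2) (fun _ => 1)) Empty
      (fun M R _ => ∀ s : S, ∀ x y : M, (∀ j, ∃ z, cR R (Fin.castLE (hS s) j) x z ∧
        cR R (Fin.castLE (hS s) j) y z) → (uR R s x ↔ uR R s y)) :=
    FD.all_fin fun s => FD.all1 <| FD.all1 <| (FD.all_fin fun i => FD.ex1 <|
      (fd_c _ (El.var (Sum.inl (Sum.inl (Sum.inr ())))) (El.var (Sum.inr ()))).and
      (fd_c _ (El.var (Sum.inl (Sum.inr ()))) (El.var (Sum.inr ())))).imp <|
      (fd_u s (El.var (Sum.inl (Sum.inr ())))).iff (fd_u s (El.var (Sum.inr ())))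
  refine (h1.and (h2.and (h3.and (h4.and h5)))).congr fun M R v => ?_
  exact ⟨fun h => ⟨h.ex, h.uniq, h.tup, h.inj, h.dep⟩,
    fun h => ⟨h.1, h.2.1, h.2.2.1, h.2.2.2.1, h.2.2.2.2⟩⟩

end FDs

/-! ### standard models -/

variable {n N : ℕ}

/-- the structure of all `K`-tuples -/
def std (hS : ∀ s, ar s ≤ K) (e : (Fin K → Fin n) ≃ Fin N) (T : Interp S ar (Fin n)) :
    IK K S (Fin N) := fun s =>
  match s with
  | .inl i => fun v => (show Fin 2 → Fin N from v) 1 =
      e (fun _ => e.symm ((show Fin 2 → Fin N from v) 0) i)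
  | .inr s => fun v => T s (fun j => e.symm ((show Fin 1 → Fin N from v) 0) (Fin.castLE (hS s) j))

section Std

variable (hS : ∀ s, ar s ≤ K) (e : (Fin K → Fin n) ≃ Fin N) (T : Interp S ar (Fin n))

lemma cR_std (i : Fin K) (x y : Fin N) :
    cR (std hS e T) i x y ↔ y = e (fun _ => e.symm x i) := Iff.rfl

lemma uR_std (s : S) (x : Fin N) :
    uR (std hS e T) s x ↔ T s (fun j => e.symm x (Fin.castLE (hS s) j)) := Iff.rfl

lemma dg_std (hK : 1 ≤ K) (x : Fin N) : Dg (Fin N) (std hS e T) x ↔ ∃ a, x = e (fun _ => a) := by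
  constructor
  · intro h
    exact ⟨_, h ⟨0, hK⟩⟩
  · rintro ⟨a, rfl⟩ i
    rw [cR_std]
    simp

lemma diag_inj (hK : 1 ≤ K) {a b : Fin n} (h : e (fun _ => a) = e (fun _ => b)) : a = b := by
  have := congrFun (e.injective h) ⟨0, hK⟩
  exact this

/-- extension of tuples -/
lemma exists_ext {A : Type} (hA : Nonempty A) {k : ℕ} (h : k ≤ K) (v : Fin k → A) :
    ∃ w : Fin K → A, ∀ j, w (Fin.castLE h j) = v j := by
  obtain ⟨a⟩ := hA
  refine ⟨fun i => if hi : i.1 < k then v ⟨i.1, hi⟩ else a, fun j => ?_⟩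
  simp

lemma ax_std (hK : 1 ≤ K) : Ax hS (std hS e T) where
  ex i x := ⟨_, (cR_std hS e T i x _).2 rfl, (dg_std hS e T hK _).2 ⟨_, rfl⟩⟩
  uniq i x y z h h' := by
    rw [cR_std] at h h'
    rw [h, h']
  tup d hd := by
    have h1 : ∀ i, ∃ a, d i = e (fun _ => a) := fun i => (dg_std hS e T hK _).1 (hd i)
    choose a ha using h1
    refine ⟨e a, fun i => ?_⟩
    rw [cR_std, ha, Equiv.symm_apply_apply]
  inj x y h := by
    have h1 : e.symm x = e.symm y := by
      funext i
      obtain ⟨z, h1, h2⟩ := h i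
      rw [cR_std] at h1 h2
      exact diag_inj e hK (h1.symm.trans h2)
    exact e.symm.injective h1
  dep s x y h := by
    have h1 : (fun j => e.symm x (Fin.castLE (hS s) j)) =
        (fun j => e.symm y (Fin.castLE (hS s) j)) := by
      funext i
      obtain ⟨z, h1, h2⟩ := h i
      rw [cR_std] at h1 h2
      exact diag_inj e hK (h1.symm.trans h2)
    rw [uR_std, uR_std, h1]

/-- the diagonal of a standard model -/
noncomputable def dgEquiv (hK : 1 ≤ K) : Fin n ≃ {x // Dg (Fin N) (std hS e T) x} :=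
  Equiv.ofBijective (fun a => ⟨e (fun _ => a), (dg_std hS e T hK _).2 ⟨a, rfl⟩⟩) (by
    constructor
    · intro a b h
      exact diag_inj e hK (congrArg Subtype.val h)
    · rintro ⟨x, hx⟩
      obtain ⟨a, rfl⟩ := (dg_std hS e T hK _).1 hx
      exact ⟨a, rfl⟩)

lemma rel_std (hK : 1 ≤ K) (hn : 1 ≤ n) (s : S) (v : Fin (ar s) → Fin n) :
    rel hS s (Fin N) (std hS e T) (fun j => e (fun _ => v j)) ↔ T s v := by
  constructor
  · rintro ⟨x, h1, h2⟩
    rw [uR_std] at h2
    have h3 : (fun j => e.symm x (Fin.castLE (hS s) j)) = v := by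
      funext j
      exact (diag_inj e hK ((cR_std hS e T _ _ _).1 (h1 j))).symm
    rwa [h3] at h2
  · intro h
    obtain ⟨w, hw⟩ := exists_ext ⟨(⟨0, hn⟩ : Fin n)⟩ (hS s) v
    refine ⟨e w, fun j => ?_, ?_⟩
    · rw [cR_std, Equiv.symm_apply_apply, hw]
    · rw [uR_std, Equiv.symm_apply_apply]
      have : (fun j => w (Fin.castLE (hS s) j)) = v := funext hw
      rwa [this]

lemma P_std (hK : 1 ≤ K) (hn : 1 ≤ n)
    {P : ∀ (M : Type), Interp S ar M → (Empty → M) → Prop} (hP : FD S ar Empty P) :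
    P {x // Dg (Fin N) (std hS e T) x}
      (fun s v => rel hS s (Fin N) (std hS e T) (fun i => (v i).1)) Empty.elim ↔
      P (Fin n) T Empty.elim := by
  rw [hP.transport (dgEquiv hS e T hK) T Empty.elim]
  have h1 : (fun s (w : Fin (ar s) → {x // Dg (Fin N) (std hS e T) x}) =>
      T s ((dgEquiv hS e T hK).symm ∘ w)) =
      (fun s v => rel hS s (Fin N) (std hS e T) (fun i => (v i).1)) := by
    funext s w
    apply propext
    rw [← rel_std hS e T hK hn s ((dgEquiv hS e T hK).symm ∘ w)]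
    have : (fun j => e (fun _ => ((dgEquiv hS e T hK).symm ∘ w) j)) = (fun i => (w i).1) := by
      funext j
      have h2 : ((dgEquiv hS e T hK) ((dgEquiv hS e T hK).symm (w j))).1 = (w j).1 := by
        rw [Equiv.apply_symm_apply]
      exact h2
    rw [this]
  rw [h1]
  have h3 : (⇑(dgEquiv hS e T hK) ∘ Empty.elim : Empty → {x // Dg (Fin N) (std hS e T) x}) =
      Empty.elim := Subsingleton.elim _ _
  rw [h3]

/-- every model of the axioms on `n ^ K` points is standard -/
lemma exists_std (hK : 1 ≤ K) (hn : 1 ≤ n) {R : IK K S (Fin (n ^ K))} (hR : Ax hS R) :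
    ∃ (e : (Fin K → Fin n) ≃ Fin (n ^ K)) (T : Interp S ar (Fin n)), std hS e T = R := by
  classical
  let D := {x // Dg (Fin (n ^ K)) R x}
  have hco : ∀ x i, ∃ y : D, cR R i x y.1 := fun x i => by
    obtain ⟨y, h1, h2⟩ := hR.ex i x
    exact ⟨⟨y, h2⟩, h1⟩
  choose co hco using hco
  have hbij : Function.Bijective co := by
    constructor
    · intro x y h
      apply hR.inj
      intro i
      refine ⟨(co x i).1, hco x i, ?_⟩
      rw [h]
      exact hco y i
    · intro d
      obtain ⟨x, hx⟩ := hR.tup (fun i => (d i).1) (fun i => (d i).2)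
      refine ⟨x, ?_⟩
      funext i
      exact Subtype.ext (hR.uniq i x _ _ (hco x i) (hx i))
  have hcard : Fintype.card D = n := by
    have h1 : Fintype.card (Fin (n ^ K)) = Fintype.card (Fin K → D) :=
      Fintype.card_of_bijective hbij
    rw [Fintype.card_fin, Fintype.card_fun, Fintype.card_fin] at h1
    exact (Nat.pow_left_injective (n := K) (by omega) h1.symm)
  let δ : Fin n ≃ D := (Fintype.equivFinOfCardEq hcard).symm
  let e : (Fin K → Fin n) ≃ Fin (n ^ K) :=
    (Equiv.arrowCongr (Equiv.refl _) δ).trans (Equiv.ofBijective co hbij).symm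
  have he : ∀ x i, co x i = δ (e.symm x i) := by
    intro x i
    show co x i = δ (δ.symm (co x i))
    rw [Equiv.apply_symm_apply]
  have hc : ∀ x i, cR R i x (δ (e.symm x i)).1 := fun x i => by
    rw [← he]
    exact hco x i
  have hdiag : ∀ a, e (fun _ => a) = (δ a).1 := by
    intro a
    apply hR.inj
    intro i
    refine ⟨(δ a).1, ?_, (δ a).2 i⟩
    have := hc (e (fun _ => a)) i
    rwa [Equiv.symm_apply_apply] at this
  refine ⟨e, fun s v => rel hS s _ R (fun j => (δ (v j)).1), ?_⟩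
  funext s v
  apply propext
  rcases s with i | s
  · show (show Fin 2 → Fin (n ^ K) from v) 1 =
      e (fun _ => e.symm ((show Fin 2 → Fin (n ^ K) from v) 0) i) ↔ _
    change Fin 2 → Fin (n ^ K) at v
    have hv : R (Sum.inl i) v = cR R i (v 0) (v 1) := by
      show R (Sum.inl i) v = R (Sum.inl i) (![v 0, v 1] : Fin 2 → Fin (n ^ K))
      congr 1
      funext j
      change Fin 2 at j
      fin_cases j <;> rfl
    rw [hv, hdiag]
    constructor
    · intro h
      show cR R i (v 0) (v 1)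
      have h' : v 1 = (δ (e.symm (v 0) i)).1 := h
      rw [h']
      exact hc _ _
    · intro h
      exact hR.uniq i _ _ _ h (hc _ _)
  · change Fin 1 → Fin (n ^ K) at v
    have hv : R (Sum.inr s) v = uR R s (v 0) := by
      show R (Sum.inr s) v = R (Sum.inr s) (fun _ : Fin 1 => v 0)
      congr 1
      funext j
      change Fin 1 at j
      rw [Subsingleton.elim j 0]
    rw [hv]
    show rel hS s _ R (fun j => (δ (e.symm (v 0) (Fin.castLE (hS s) j))).1) ↔ _
    constructor
    · rintro ⟨x, h1, h2⟩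
      exact (hR.dep s x (v 0) (fun j => ⟨_, h1 j, hc _ _⟩)).1 h2
    · intro h
      exact ⟨v 0, fun j => hc _ _, h⟩

/-- two standard presentations of the same structure -/
lemma std_eq (hK : 1 ≤ K) (hn : 1 ≤ n) {e e' : (Fin K → Fin n) ≃ Fin N}
    {T T' : Interp S ar (Fin n)} (h : std hS e T = std hS e' T') :
    ∃ σ : Equiv.Perm (Fin n), (∀ w, e w = e' (fun i => σ (w i))) ∧
      T = fun s v => T' s (fun i => σ (v i)) := by
  have hd : ∀ a, ∃ b, e (fun _ => a) = e' (fun _ => b) := fun a => by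
    rw [← dg_std hS e' T' hK, ← h, dg_std hS e T hK]
    exact ⟨a, rfl⟩
  choose σ hσ using hd
  have hinj : Function.Injective σ := by
    intro a b hab
    apply diag_inj e hK
    rw [hσ, hσ, hab]
  have hbij : Function.Bijective σ := Finite.injective_iff_bijective.1 hinj
  have hw : ∀ w, e w = e' (fun i => σ (w i)) := by
    intro w
    have h1 : ∀ i, cR (std hS e' T') i (e w) (e (fun _ => w i)) := fun i => by
      rw [← h, cR_std, Equiv.symm_apply_apply]
    rw [← Equiv.symm_apply_eq]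
    funext i
    have h2 := h1 i
    rw [cR_std, hσ] at h2
    exact (diag_inj e' hK h2).symm
  refine ⟨Equiv.ofBijective σ hbij, hw, ?_⟩
  funext s v
  apply propext
  obtain ⟨w, hw'⟩ := exists_ext ⟨(⟨0, hn⟩ : Fin n)⟩ (hS s) v
  have h1 : uR (std hS e T) s (e w) ↔ uR (std hS e' T') s (e w) := by rw [h]
  rw [uR_std, uR_std, Equiv.symm_apply_apply, hw w, Equiv.symm_apply_apply] at h1
  have h2 : (fun j => w (Fin.castLE (hS s) j)) = v := funext hw'
  have h3 : (fun j => σ (w (Fin.castLE (hS s) j))) = fun i => σ (v i) := by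
    funext j
    rw [hw']
  rw [h2, h3] at h1
  exact h1

/-- change of the numbering -/
def reE (σ : Equiv.Perm (Fin n)) (e : (Fin K → Fin n) ≃ Fin N) : (Fin K → Fin n) ≃ Fin N :=
  (Equiv.arrowCongr (Equiv.refl _) σ).trans e

lemma reE_apply (σ : Equiv.Perm (Fin n)) (w : Fin K → Fin n) :
    reE σ e w = e (fun i => σ (w i)) := rfl

lemma reE_symm (σ : Equiv.Perm (Fin n)) (x : Fin N) :
    (reE σ e).symm x = fun i => σ.symm (e.symm x i) := rfl

lemma std_re (σ : Equiv.Perm (Fin n)) :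
    std hS (reE σ e) (fun s v => T s (fun i => σ (v i))) = std hS e T := by
  funext s v
  rcases s with i | s
  · show ((show Fin 2 → Fin N from v) 1 = reE σ e (fun _ => (reE σ e).symm _ i)) = (_ = e _)
    rw [reE_apply, reE_symm]
    simp
  · show T s (fun j => σ ((reE σ e).symm _ _)) = T s _
    rw [reE_symm]
    simp

end Std

end Arity

open Arity in
theorem arity_red {S : Type} [Finite S] {ar : S → ℕ} (φ : (RelLang S ar).Sentence) (K : ℕ)
    (hK : 1 ≤ K) (hS : ∀ s, ar s ≤ K) :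
    ∃ φ' : (RelLang (Fin K ⊕ S) (Sum.elim (fun _ => 2) (fun _ => 1))).Sentence,
      ∀ n, 1 ≤ n → numModels φ' (n ^ K) * n.factorial = (n ^ K).factorial * numModels φ n := by
  classical
  -- the condition defined by `φ`
  let P : ∀ (M : Type), Interp S ar M → (Empty → M) → Prop := fun M R v =>
    @Formula.Realize _ M (mkS R) _ φ v
  have hP : FD S ar Empty P := ⟨φ, fun M R v => Iff.rfl⟩
  have hφ : ∀ n, numModels φ n =
      Nat.card {R : Interp S ar (Fin n) // P (Fin n) R Empty.elim} := by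
    intro n
    unfold numModels
    have key : ∀ R : Interp S ar (Fin n),
        @Sentence.Realize (RelLang S ar) (Fin n) (mkS R) φ ↔ P (Fin n) R Empty.elim := fun R =>
      (real_iff (mkS R) φ Empty.elim default).symm
    symm
    refine Nat.card_congr (Equiv.ofBijective
      (fun R : {R : Interp S ar (Fin n) // P (Fin n) R Empty.elim} =>
        (⟨mkS R.1, (key R.1).2 R.2⟩ :
          {T : (RelLang S ar).Structure (Fin n) // @Sentence.Realize _ (Fin n) T φ})) ⟨?_, ?_⟩)
    · rintro ⟨R, hR⟩ ⟨R', hR'⟩ h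
      have h1 : mkS R = mkS R' := congrArg Subtype.val h
      apply Subtype.ext
      show R = R'
      funext s v
      have h2 := congrArg (fun T : (RelLang S ar).Structure (Fin n) =>
        T.RelMap (⟨s, rfl⟩ : (RelLang S ar).Relations (ar s)) v) h1
      exact h2
    · rintro ⟨T, hT⟩
      have e := structure_eq T
      refine ⟨⟨fun s v => T.RelMap (⟨s, rfl⟩ : (RelLang S ar).Relations (ar s)) v, ?_⟩, ?_⟩
      · rw [← key, ← e]
        exact hT
      · apply Subtype.ext
        exact e.symm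
  have hrel := fd_relat hP (Z := fun M R x => Dg (K := K) (S := S) M R x)
    (fd_dg (El.var ())) (ρ := rel hS) (fd_rel hS)
  obtain ⟨φ', hφ'⟩ := numModels_card ((fd_ax hS).and hrel)
  refine ⟨φ', fun n hn => ?_⟩
  rw [hφ', hφ]
  have hE : (n ^ K).factorial = Nat.card ((Fin K → Fin n) ≃ Fin (n ^ K)) := by
    rw [Nat.card_eq_fintype_card, Fintype.card_equiv (finFunctionFinEquiv (m := n) (n := K))]
    simp
  have hn' : n.factorial = Nat.card (Equiv.Perm (Fin n)) := by
    rw [Nat.card_eq_fintype_card, Fintype.card_perm, Fintype.card_fin]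
  rw [hE, hn', ← Nat.card_prod, ← Nat.card_prod]
  have hsur : ∀ R : {R : IK K S (Fin (n ^ K)) // Ax hS R ∧
      P {x // Dg (Fin (n ^ K)) R x}
        (fun s v => rel hS s (Fin (n ^ K)) R (fun i => (v i).1)) Empty.elim},
      ∃ (e : (Fin K → Fin n) ≃ Fin (n ^ K)) (T : Interp S ar (Fin n)), std hS e T = R.1 := fun R =>
    exists_std hS hK hn R.2.1
  choose e₀ T₀ h₀ using hsur
  have hT₀ : ∀ R, P (Fin n) (T₀ R) Empty.elim := fun R => by
    have h1 := R.2.2
    rw [← h₀ R] at h1
    exact (P_std hS (e₀ R) (T₀ R) hK hn hP).1 h1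
  have htr : ∀ (σ : Equiv.Perm (Fin n)) (T : Interp S ar (Fin n)), P (Fin n) T Empty.elim →
      P (Fin n) (fun s v => T s (fun i => σ (v i))) Empty.elim := by
    intro σ T hT
    have h1 := (hP.transport σ.symm T Empty.elim).1 hT
    have h2 : (⇑σ.symm ∘ Empty.elim : Empty → Fin n) = Empty.elim := Subsingleton.elim _ _
    rw [h2] at h1
    exact h1
  refine Nat.card_congr (Equiv.ofBijective
    (fun x : {R : IK K S (Fin (n ^ K)) // Ax hS R ∧
      P {x // Dg (Fin (n ^ K)) R x}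
        (fun s v => rel hS s (Fin (n ^ K)) R (fun i => (v i).1)) Empty.elim} ×
        Equiv.Perm (Fin n) =>
      ((reE x.2 (e₀ x.1), ⟨fun s v => T₀ x.1 s (fun i => x.2 (v i)), htr x.2 _ (hT₀ x.1)⟩) :
        ((Fin K → Fin n) ≃ Fin (n ^ K)) × {R : Interp S ar (Fin n) // P (Fin n) R Empty.elim}))
    ⟨?_, ?_⟩)
  · rintro ⟨R, σ⟩ ⟨R', σ'⟩ h
    have h1 : reE σ (e₀ R) = reE σ' (e₀ R') := congrArg Prod.fst h
    have h2 : (fun s v => T₀ R s (fun i => σ (v i)) : Interp S ar (Fin n)) =
        (fun s v => T₀ R' s (fun i => σ' (v i))) :=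
      congrArg (fun x => (Prod.snd x).1) h
    have h3 : R = R' := by
      apply Subtype.ext
      rw [← h₀ R, ← h₀ R', ← std_re hS (e₀ R) (T₀ R) σ, ← std_re hS (e₀ R') (T₀ R') σ', h1, h2]
    subst h3
    have h4 : σ = σ' := by
      ext a
      have h5 := congrArg (fun e : (Fin K → Fin n) ≃ Fin (n ^ K) => e (fun _ => a)) h1
      simp only [reE_apply] at h5
      exact congrArg Fin.val (diag_inj (e₀ R) hK h5)
    rw [h4]
  · rintro ⟨e, T, hT⟩
    let R : {R : IK K S (Fin (n ^ K)) // Ax hS R ∧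
      P {x // Dg (Fin (n ^ K)) R x}
        (fun s v => rel hS s (Fin (n ^ K)) R (fun i => (v i).1)) Empty.elim} :=
      ⟨std hS e T, ax_std hS e T hK, (P_std hS e T hK hn hP).2 hT⟩
    obtain ⟨σ, h1, h2⟩ := std_eq hS hK hn (h₀ R).symm
    refine ⟨(R, σ), ?_⟩
    refine Prod.ext ?_ (Subtype.ext ?_)
    · apply Equiv.ext
      intro w
      exact (h1 w).symm
    · exact h2.symm

end Pool.Agent.Helper38.DG
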