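import Pool.Agent.Helper38.DG.Defs

/-!
# Tools for counting functions
-/

set_option autoImplicit false

namespace Pool.Agent.Helper38.DG

open FirstOrder FirstOrder.Language Pool.Agent.Helper20.Spectra
open scoped Classical

section
variable {ι : Type} {a : ι → ℕ} {k : ℕ}

theorem isPoly_mono {t : (Fin k → ℕ) → ℕ} (ht : Helper20.Spectra.IsPoly k t) {v w : Fin k → ℕ}
    (h : ∀ i, v i ≤ w i) : t v ≤ t w := by
  obtain ⟨p, hp⟩ := ht
  rw [← hp, ← hp]
  clear hp
  induction p using MvPolynomial.induction_on with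
  | C n => simp
  | add p q ih1 ih2 => rw [map_add, map_add]; exact Nat.add_le_add ih1 ih2
  | mul_X p i ih =>
    rw [map_mul, map_mul, MvPolynomial.eval_X, MvPolynomial.eval_X]
    exact Nat.mul_le_mul ih (h i)

/-- bounded quantifier over tuples -/
theorem rudX_allT {e : ℕ} {t : (Fin k → ℕ) → ℕ} (ht : Helper20.Spectra.IsPoly k t)
    {P : SOA a → (Fin (e + k) → ℕ) → Prop} (h : RudX a (e + k) P) :
    RudX a k (fun X v => ∀ w : Fin e → ℕ, (∀ j, w j < t v) → P X (Fin.append w v)) := by
  induction e generalizing k with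
  | zero =>
    refine (h.subst k (fun i v => v (Fin.cast (Nat.zero_add k) i))
      (fun i => Helper20.Spectra.IsPoly.var _)).congr (fun X v => ?_)
    have e1 : ∀ w : Fin 0 → ℕ, Fin.append w v = fun i => v (Fin.cast (Nat.zero_add k) i) := by
      intro w
      have hw : w = Fin.elim0 := Subsingleton.elim _ _
      rw [hw, Fin.elim0_append]
      rfl
    constructor
    · intro H
      have := H Fin.elim0 (fun j => j.elim0)
      rw [e1] at this
      exact this
    · intro H w _
      rw [e1]
      exact H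
  | succ e ih =>
    let f : Fin (e + 1 + k) → (Fin (e + (k + 1)) → ℕ) → ℕ := fun i z =>
      (Fin.append (Fin.cons (z (Fin.natAdd e 0)) (fun j => z (Fin.castAdd (k + 1) j)))
        (fun j => z (Fin.natAdd e j.succ)) : Fin (e + 1 + k) → ℕ) i
    have hf : ∀ i, Helper20.Spectra.IsPoly (e + (k + 1)) (f i) := by
      intro i
      refine Fin.addCases (fun i => ?_) (fun i => ?_) i
      · refine Fin.cases ?_ (fun i => ?_) i
        · have : f (Fin.castAdd k 0) = fun z => z (Fin.natAdd e 0) := by
            funext z; simp [f]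
          rw [this]; exact Helper20.Spectra.IsPoly.var _
        · have : f (Fin.castAdd k i.succ) = fun z => z (Fin.castAdd (k + 1) i) := by
            funext z; simp [f]
          rw [this]; exact Helper20.Spectra.IsPoly.var _
      · have : f (Fin.natAdd (e + 1) i) = fun z => z (Fin.natAdd e i.succ) := by
          funext z; simp [f]
        rw [this]; exact Helper20.Spectra.IsPoly.var _
    have h1 := h.subst (e + (k + 1)) f hf
    have h2 := ih (k := k + 1) ht.tail h1
    refine (RudX.all ht (P := fun X v x => x < t v → ∀ w : Fin e → ℕ, (∀ j, w j < t v) →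
      P X (Fin.append (Fin.cons x w : Fin (e + 1) → ℕ) v)) ?_).congr (fun X v => ?_)
    · refine (RudX.imp (RudX.lt (Helper20.Spectra.IsPoly.var 0) ht.tail) h2).congr
        (fun X u => ?_)
      refine imp_congr Iff.rfl (forall_congr' (fun w => imp_congr Iff.rfl
        (Iff.of_eq (congrArg (P X) ?_))))
      funext i
      refine Fin.addCases (fun i => ?_) (fun i => ?_) i
      · refine Fin.cases ?_ (fun i => ?_) i
        · simp [f]
        · simp [f]
      · simp [f, Fin.tail]
    · constructor
      · intro H x _ hx w hw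
        exact H (Fin.cons x w) (fun j => Fin.cases hx hw j)
      · intro H w hw
        have := H (w 0) (hw 0).le (hw 0) (Fin.tail w) (fun j => hw j.succ)
        rw [Fin.cons_self_tail] at this
        exact this

theorem rudX_exT {e : ℕ} {t : (Fin k → ℕ) → ℕ} (ht : Helper20.Spectra.IsPoly k t)
    {P : SOA a → (Fin (e + k) → ℕ) → Prop} (h : RudX a (e + k) P) :
    RudX a k (fun X v => ∃ w : Fin e → ℕ, (∀ j, w j < t v) ∧ P X (Fin.append w v)) :=
  (rudX_allT ht h.not').not'.congr (fun X v => by push Not; rfl)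

/-- substitution of defined relations (with parameters) for the second-order variables -/
theorem rudX_substR {ι' : Type} {a' : ι' → ℕ}
    {P : SOA a → (Fin k → ℕ) → Prop} (h : RudX a k P) {d : ℕ}
    {Q : ∀ i : ι, SOA a' → (Fin (a i + d) → ℕ) → Prop} (hQ : ∀ i, RudX a' (a i + d) (Q i))
    {m : ℕ} {σ : Fin k → (Fin m → ℕ) → ℕ} (hσ : ∀ i, Helper20.Spectra.IsPoly m (σ i))
    {τ : Fin d → (Fin m → ℕ) → ℕ} (hτ : ∀ i, Helper20.Spectra.IsPoly m (τ i)) :
    RudX a' m (fun X v => P (fun i w => Q i X (Fin.append w (fun j => τ j v)))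
      (fun i => σ i v)) := by
  induction h generalizing m with
  | atom k p q =>
    exact RudX.eq (Helper20.Spectra.IsPoly.sub ⟨p, fun _ => rfl⟩ hσ)
      (Helper20.Spectra.IsPoly.sub ⟨q, fun _ => rfl⟩ hσ)
  | so k i q =>
    refine ((hQ i).subst m (fun l v => (Fin.append
      (fun j => MvPolynomial.eval (fun i => σ i v) (q j)) (fun j => τ j v) :
        Fin (a i + d) → ℕ) l) (fun l => ?_)).congr (fun X v => Iff.rfl)
    refine Fin.addCases (fun l => ?_) (fun l => ?_) l
    · simp only [Fin.append_left]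
      exact Helper20.Spectra.IsPoly.sub ⟨q l, fun _ => rfl⟩ hσ
    · simp only [Fin.append_right]
      exact hτ l
  | not k P _ ih => exact (ih hσ hτ).not'
  | and k P P' _ _ ih ih' => exact (ih hσ hτ).and' (ih' hσ hτ)
  | bex k p P _ ih =>
    refine RudX.ex (t := fun v => MvPolynomial.eval (fun i => σ i v) p)
      (P := fun X v x => P (fun i w => Q i X (Fin.append w (fun j => τ j v)))
        (Fin.cons x (fun i => σ i v)))
      (Helper20.Spectra.IsPoly.sub ⟨p, fun _ => rfl⟩ hσ) ?_
    refine (ih (m := m + 1) (σ := Fin.cons (fun w => w 0) (fun i w => σ i (Fin.tail w)))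
      (τ := fun i w => τ i (Fin.tail w)) ?_ (fun i => (hτ i).tail)).congr ?_
    · intro i
      refine Fin.cases ?_ (fun i => ?_) i
      · exact Helper20.Spectra.IsPoly.var 0
      · exact (hσ i).tail
    · intro X w
      refine Iff.of_eq (congrArg _ ?_)
      funext i
      refine Fin.cases ?_ (fun i => ?_) i
      · rfl
      · rfl

/-- boundedness of some second-order variables -/
theorem rudX_bdIn {ι' : Type} [Finite ι'] (f : ι' → ι) {t u : (Fin k → ℕ) → ℕ}
    (ht : Helper20.Spectra.IsPoly k t) (hu : Helper20.Spectra.IsPoly k u) :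
    RudX a k (fun X v => ∀ i : ι', ∀ w : Fin (a (f i)) → ℕ, (∀ j, w j < t v) → X (f i) w →
      ∀ j, w j < u v) := by
  refine RudX.all_fin (fun i => ?_)
  have h1 : RudX a (a (f i) + k) (fun X z => X (f i) (fun j => z (Fin.castAdd k j)) →
      ∀ j, z (Fin.castAdd k j) < u (fun l => z (Fin.natAdd (a (f i)) l))) := by
    refine RudX.imp (RudX.so' (f i) (fun j => Helper20.Spectra.IsPoly.var _))
      (RudX.all_fin (fun j => RudX.lt (Helper20.Spectra.IsPoly.var _)
        (hu.sub (fun l => Helper20.Spectra.IsPoly.var _))))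
  refine (rudX_allT ht h1).congr (fun X v => ?_)
  refine forall_congr' (fun w => imp_congr Iff.rfl ?_)
  simp only [Fin.append_left, Fin.append_right]

theorem finite_bd [Finite ι] (B : ℕ) (P : SOA a → Prop) : Finite {X : SOA a // Bd B X ∧ P X} := by
  refine Finite.of_injective (β := ∀ i, (Fin (a i) → Fin B) → Prop)
    (fun X i w => X.1 i (fun j => (w j : ℕ))) ?_
  rintro ⟨X, hX, _⟩ ⟨Y, hY, _⟩ h
  apply Subtype.ext
  show X = Y
  funext i w
  by_cases hw : ∀ j, w j < B
  · exact congrFun (congrFun h i) (fun j => ⟨w j, hw j⟩)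
  · apply propext
    exact ⟨fun h1 => absurd (hX i w h1) hw, fun h1 => absurd (hY i w h1) hw⟩

theorem cnt_mono {B B' : ℕ} (h : B ≤ B') (P : SOA a → Prop) :
    cnt B P = cnt B' (fun X => Bd B X ∧ P X) := by
  refine Nat.card_congr (Equiv.subtypeEquivRight (fun X => ?_))
  exact ⟨fun h1 => ⟨fun i w hw j => (h1.1 i w hw j).trans_le h, h1⟩, fun h1 => h1.2⟩

end

end Pool.Agent.Helper38.DG
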