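import Pool.Agent.Helper38.DG.Defs
import Pool.Agent.Helper38.DG.NumM

/-!
# Digit relations of sentences in unary and binary relation symbols
-/

set_option autoImplicit false

namespace Pool.Agent.Helper38.DG

open FirstOrder FirstOrder.Language Pool.Agent.Helper20.Spectra
open scoped Classical

/-- all digit relations of sentences in unary and binary relation symbols are rudimentary -/
def BinDig : Prop :=
  ∀ (S : Type) (_ : Finite S) (ar : S → ℕ) (_ : ∀ s, ar s = 1 ∨ ar s = 2)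
    (φ : (RelLang S ar).Sentence), Rud 2 {v : Fin 2 → ℕ | (numModels φ (v 0)).testBit (v 1) = true}

/-! ### the trivial bound -/

lemma finite_interp {S : Type} [Finite S] {ar : S → ℕ} {n : ℕ} :
    Finite (Interp S ar (Fin n)) := by
  have h : ∀ s : S, Finite ((Fin (ar s) → Fin n) → Prop) := fun s => inferInstance
  exact Pi.finite

lemma card_interp {S : Type} [Fintype S] {ar : S → ℕ} (n : ℕ) :
    Nat.card (Interp S ar (Fin n)) = 2 ^ (∑ s, n ^ ar s) := by
  show Nat.card (∀ s : S, (Fin (ar s) → Fin n) → Prop) = _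
  rw [Nat.card_pi, ← Finset.prod_pow_eq_pow_sum]
  refine Finset.prod_congr rfl (fun s _ => ?_)
  have h2 : Nat.card (Fin (ar s) → Fin n) = n ^ ar s := by
    simp [Nat.card_eq_fintype_card]
  have h3 : Nat.card ((Fin (ar s) → Fin n) → Prop) = 2 ^ (Nat.card (Fin (ar s) → Fin n)) := by
    rw [Nat.card_fun]
    congr 1
    simp [Nat.card_eq_fintype_card]
  rw [h3, h2]

lemma isPoly_sum {γ : Type} {k : ℕ} (s : Finset γ) {t : γ → (Fin k → ℕ) → ℕ}
    (h : ∀ c ∈ s, Helper20.Spectra.IsPoly k (t c)) :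
    Helper20.Spectra.IsPoly k (fun v => ∑ c ∈ s, t c v) := by
  induction s using Finset.induction_on with
  | empty => exact ⟨0, fun v => by simp⟩
  | insert c s hc ih =>
    obtain ⟨p, hp⟩ := h c (Finset.mem_insert_self c s)
    obtain ⟨q, hq⟩ := ih (fun d hd => h d (Finset.mem_insert_of_mem hd))
    exact ⟨p + q, fun v => by beta_reduce; rw [map_add, hp, hq, Finset.sum_insert hc]⟩

theorem numModels_lt {S : Type} [Finite S] {ar : S → ℕ} (φ : (RelLang S ar).Sentence) :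
    ∃ q : (Fin 1 → ℕ) → ℕ, Helper20.Spectra.IsPoly 1 q ∧
      ∀ n, numModels φ n < 2 ^ q (fun _ => n) := by
  have := Fintype.ofFinite S
  refine ⟨fun v => (∑ s : S, v 0 ^ ar s) + 1,
    (isPoly_sum Finset.univ (fun s _ => (Helper20.Spectra.IsPoly.var 0).pow (ar s))).add
      (Helper20.Spectra.IsPoly.const 1), ?_⟩
  intro n
  have h1 : numModels φ n ≤ Nat.card (Interp S ar (Fin n)) := by
    unfold numModels
    have := finite_interp (S := S) (ar := ar) (n := n)
    apply Nat.card_le_card_of_injective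
      (fun T : {T : (RelLang S ar).Structure (Fin n) // @Sentence.Realize _ (Fin n) T φ} =>
        (fun s v => T.1.RelMap (⟨s, rfl⟩ : (RelLang S ar).Relations (ar s)) v :
          Interp S ar (Fin n)))
    rintro ⟨T, hT⟩ ⟨T', hT'⟩ h
    apply Subtype.ext
    show T = T'
    rw [structure_eq T, structure_eq T']
    exact congrArg mkS h
  rw [card_interp] at h1
  exact lt_of_le_of_lt h1 (Nat.pow_lt_pow_right (by norm_num) (by simp))

/-! ### the sentence of a set of blocks -/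

section Blocks

variable {C : ℕ}

/-- the symbols: the order, and the colours -/
abbrev BSym (C : ℕ) := Option (Fin (C + 1))

/-- the arities -/
abbrev bar (C : ℕ) : BSym C → ℕ := fun _ => 2

/-- the relation of a symbol -/
def bRel {M : Type} (R : Interp (BSym C) (bar C) M) (s : BSym C) (x y : M) : Prop := R s ![x, y]

/-- linear order -/
def bOrd {M : Type} (R : Interp (BSym C) (bar C) M) : Prop :=
  (∀ x, ¬ bRel R none x x) ∧
    (∀ x y z, bRel R none x y → bRel R none y z → bRel R none x z) ∧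
    ∀ x y, bRel R none x y ∨ x = y ∨ bRel R none y x

/-- one step: from the border to the first element, to the successor, from the last element
to the border -/
def bStep {M : Type} (R : Interp (BSym C) (bar C) M) (k : Fin 3) (x x' : M) : Prop :=
  (k = 0 → ∀ z, ¬ bRel R none z x') ∧
    (k = 1 → bRel R none x x' ∧ ∀ z, ¬ (bRel R none x z ∧ bRel R none z x')) ∧
    (k = 2 → ∀ z, ¬ bRel R none x z)

/-- the colour of a cell; `p`: the cell is inside -/
def bCol {M : Type} (R : Interp (BSym C) (bar C) M) (p : Prop) (x y : M) (c : Fin (C + 1)) :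
    Prop :=
  (p → bRel R (some c) x y) ∧ (¬ p → c = 0)

/-- the whole condition -/
def bAll (Θ : Finset (ℕ × ℕ × ℕ × ℕ)) {M : Type} (R : Interp (BSym C) (bar C) M) : Prop :=
  bOrd R ∧ (∀ x y : M, ∃ c : Fin (C + 1), c ≠ 0 ∧ bRel R (some c) x y ∧
    ∀ c', bRel R (some c') x y → c' = c) ∧
  ∀ kx ky : Fin 3, ∀ x x' y y' : M, bStep R kx x x' → bStep R ky y y' →
    ∃ c : Fin 4 → Fin (C + 1), ((c 0 : ℕ), (c 1 : ℕ), (c 2 : ℕ), (c 3 : ℕ)) ∈ Θ ∧
      bCol R (kx ≠ 0 ∧ ky ≠ 0) x y (c 0) ∧ bCol R (kx ≠ 2 ∧ ky ≠ 0) x' y (c 1) ∧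
      bCol R (kx ≠ 0 ∧ ky ≠ 2) x y' (c 2) ∧ bCol R (kx ≠ 2 ∧ ky ≠ 2) x' y' (c 3)

section FDs

variable {α : Type} {a b : ∀ (M : Type), (α → M) → M}

lemma El_inl {β : Type} (ha : El α a) : El (α ⊕ β) (fun M v => a M (v ∘ Sum.inl)) := by
  obtain ⟨i, hi⟩ := ha
  exact ⟨Sum.inl i, fun M v => by beta_reduce; rw [hi]; rfl⟩

lemma bRel_FD (s : BSym C) (ha : El α a) (hb : El α b) :
    FD (BSym C) (bar C) α (fun M R v => bRel R s (a M v) (b M v)) := by
  obtain ⟨i, hi⟩ := ha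
  obtain ⟨j, hj⟩ := hb
  have h : Pj α (Fin 2) (fun M v => ![a M v, b M v]) := by
    refine ⟨![i, j], fun M v => ?_⟩
    funext t
    fin_cases t
    · exact hi M v
    · exact hj M v
  exact FD.rel (S := BSym C) (ar := bar C) s h

lemma bStep_FD (k : Fin 3) (ha : El α a) (hb : El α b) :
    FD (BSym C) (bar C) α (fun M R v => bStep R k (a M v) (b M v)) := by
  have hz : El (α ⊕ Unit) (fun M v => v (Sum.inr ())) := El.var _
  unfold bStep
  refine FD.and (FD.imp (FD.const _) ?_) (FD.and (FD.imp (FD.const _) ?_)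
    (FD.imp (FD.const _) ?_))
  · exact FD.all1 (P := fun M R v z => ¬ bRel R none z (b M v)) (bRel_FD none hz (El_inl hb)).not
  · exact (bRel_FD none ha hb).and
      (FD.all1 (P := fun M R v z => ¬ (bRel R none (a M v) z ∧ bRel R none z (b M v)))
        ((bRel_FD none (El_inl ha) hz).and (bRel_FD none hz (El_inl hb))).not)
  · exact FD.all1 (P := fun M R v z => ¬ bRel R none (a M v) z) (bRel_FD none (El_inl ha) hz).not

lemma bCol_FD (p : Prop) (c : Fin (C + 1)) (ha : El α a) (hb : El α b) :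
    FD (BSym C) (bar C) α (fun M R v => bCol R p (a M v) (b M v) c) := by
  unfold bCol
  exact (FD.imp (FD.const _) (bRel_FD _ ha hb)).and (FD.imp (FD.const _) (FD.const _))

lemma bOrd_FD : FD (BSym C) (bar C) α (fun _ R _ => bOrd R) := by
  unfold bOrd
  refine FD.and ?_ (FD.and ?_ ?_)
  · exact FD.all1 (P := fun M R _ x => ¬ bRel R none x x)
      (bRel_FD none (El.var (Sum.inr ())) (El.var (Sum.inr ()))).not
  · refine FD.all1 (P := fun M R _ x => ∀ y z, bRel R none x y → bRel R none y z →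
      bRel R none x z) ?_
    refine FD.all1 (P := fun M R v y => ∀ z, bRel R none (v (Sum.inr ())) y →
      bRel R none y z → bRel R none (v (Sum.inr ())) z) ?_
    refine FD.all1 (P := fun M R v z => bRel R none (v (Sum.inl (Sum.inr ()))) (v (Sum.inr ())) →
      bRel R none (v (Sum.inr ())) z → bRel R none (v (Sum.inl (Sum.inr ()))) z) ?_
    have x1 : El (((α ⊕ Unit) ⊕ Unit) ⊕ Unit)
      (fun M v => v (Sum.inl (Sum.inl (Sum.inr ())))) := El.var _
    have y1 : El (((α ⊕ Unit) ⊕ Unit) ⊕ Unit) (fun M v => v (Sum.inl (Sum.inr ()))) := El.var _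
    have z1 : El (((α ⊕ Unit) ⊕ Unit) ⊕ Unit) (fun M v => v (Sum.inr ())) := El.var _
    exact (bRel_FD none x1 y1).imp ((bRel_FD none y1 z1).imp (bRel_FD none x1 z1))
  · refine FD.all1 (P := fun M R _ x => ∀ y, bRel R none x y ∨ x = y ∨ bRel R none y x) ?_
    refine FD.all1 (P := fun M R v y => bRel R none (v (Sum.inr ())) y ∨ v (Sum.inr ()) = y ∨
      bRel R none y (v (Sum.inr ()))) ?_
    have x1 : El ((α ⊕ Unit) ⊕ Unit) (fun M v => v (Sum.inl (Sum.inr ()))) := El.var _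
    have y1 : El ((α ⊕ Unit) ⊕ Unit) (fun M v => v (Sum.inr ())) := El.var _
    exact (bRel_FD none x1 y1).or ((FD.eq x1 y1).or (bRel_FD none y1 x1))

lemma bAll_FD (Θ : Finset (ℕ × ℕ × ℕ × ℕ)) :
    FD (BSym C) (bar C) α (fun _ R _ => bAll Θ R) := by
  unfold bAll
  refine bOrd_FD.and (FD.and ?_ ?_)
  · refine FD.all1 (P := fun M R _ x => ∀ y : M, ∃ c : Fin (C + 1), c ≠ 0 ∧
      bRel R (some c) x y ∧ ∀ c', bRel R (some c') x y → c' = c) ?_
    refine FD.all1 (P := fun M R v y => ∃ c : Fin (C + 1), c ≠ 0 ∧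
      bRel R (some c) (v (Sum.inr ())) y ∧
      ∀ c', bRel R (some c') (v (Sum.inr ())) y → c' = c) ?_
    have x1 : El ((α ⊕ Unit) ⊕ Unit) (fun M v => v (Sum.inl (Sum.inr ()))) := El.var _
    have y1 : El ((α ⊕ Unit) ⊕ Unit) (fun M v => v (Sum.inr ())) := El.var _
    exact FD.ex_fin (fun c => (FD.const _).and ((bRel_FD _ x1 y1).and
      (FD.all_fin (fun c' => (bRel_FD _ x1 y1).imp (FD.const _)))))
  · refine FD.all_fin (fun kx => FD.all_fin (fun ky => ?_))
    have h : FD (BSym C) (bar C) α (fun M R _ => ∀ u : Fin 4 → M,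
        bStep R kx (u 0) (u 1) → bStep R ky (u 2) (u 3) →
        ∃ c : Fin 4 → Fin (C + 1), ((c 0 : ℕ), (c 1 : ℕ), (c 2 : ℕ), (c 3 : ℕ)) ∈ Θ ∧
          bCol R (kx ≠ 0 ∧ ky ≠ 0) (u 0) (u 2) (c 0) ∧
          bCol R (kx ≠ 2 ∧ ky ≠ 0) (u 1) (u 2) (c 1) ∧
          bCol R (kx ≠ 0 ∧ ky ≠ 2) (u 0) (u 3) (c 2) ∧
          bCol R (kx ≠ 2 ∧ ky ≠ 2) (u 1) (u 3) (c 3)) := by
      refine FD.all (β := Fin 4) ?_
      have e : ∀ i : Fin 4, El (α ⊕ Fin 4) (fun M v => (v ∘ Sum.inr) i) := fun i =>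
        El.var (Sum.inr i)
      exact (bStep_FD kx (e 0) (e 1)).imp ((bStep_FD ky (e 2) (e 3)).imp
        (FD.ex_fin (fun c => (FD.const _).and ((bCol_FD _ _ (e 0) (e 2)).and
          ((bCol_FD _ _ (e 1) (e 2)).and ((bCol_FD _ _ (e 0) (e 3)).and
            (bCol_FD _ _ (e 1) (e 3))))))))
    refine h.congr (fun M R v => ?_)
    constructor
    · intro h u
      exact h (u 0) (u 1) (u 2) (u 3)
    · intro h x x' y y'
      exact h ![x, x', y, y']

end FDs

/-- `p` is the position of the element `x`, or outside -/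
def RepP {n : ℕ} (e : Fin n ≃ Fin n) (p : ℕ) (x : Fin n) (P : Prop) : Prop :=
  (P → p = (e x : ℕ) + 1) ∧ (¬ P → ¬ (1 ≤ p ∧ p ≤ n))

lemma step_pos {n : ℕ} {R : Interp (BSym C) (bar C) (Fin n)} {e : Fin n ≃ Fin n}
    (he : ∀ x y, bRel R none x y ↔ e x < e y) {k : Fin 3} {x x' : Fin n}
    (h : bStep R k x x') :
    ∃ p, p ≤ n ∧ RepP e p x (k ≠ 0) ∧ RepP e (p + 1) x' (k ≠ 2) := by
  obtain ⟨h0, h1, h2⟩ := h
  simp only [he] at h0 h1 h2
  have hn : 0 < n := Fin.pos x
  have hex : ((e x : Fin n) : ℕ) < n := (e x).2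
  have hex' : ((e x' : Fin n) : ℕ) < n := (e x').2
  fin_cases k
  · have h3 : ((e x' : Fin n) : ℕ) = 0 := by
      have h4 := h0 rfl (e.symm ⟨0, hn⟩)
      rw [Equiv.apply_symm_apply, Fin.lt_def] at h4
      simp only at h4
      omega
    refine ⟨0, by omega, ⟨fun h => absurd rfl h, fun _ => by omega⟩, ⟨fun _ => by omega, ?_⟩⟩
    intro h
    exact absurd (by decide) h
  · obtain ⟨h3, h4⟩ := h1 rfl
    have h5 : ((e x' : Fin n) : ℕ) = (e x : ℕ) + 1 := by
      rw [Fin.lt_def] at h3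
      by_contra h6
      have h7 := h4 (e.symm ⟨(e x : ℕ) + 1, by omega⟩)
      rw [Equiv.apply_symm_apply, Fin.lt_def, Fin.lt_def] at h7
      simp only at h7
      omega
    refine ⟨(e x : ℕ) + 1, by omega, ⟨fun _ => rfl, fun h => absurd (by decide) h⟩,
      ⟨fun _ => by omega, fun h => absurd (by decide) h⟩⟩
  · have h3 : ((e x : Fin n) : ℕ) + 1 = n := by
      by_contra h6
      have h4 := h2 rfl (e.symm ⟨n - 1, by omega⟩)
      rw [Equiv.apply_symm_apply, Fin.lt_def] at h4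
      simp only at h4
      omega
    refine ⟨n, le_refl n, ⟨fun _ => h3.symm, fun h => absurd (by decide) h⟩,
      ⟨fun h => absurd rfl h, fun _ => by omega⟩⟩

lemma pos_step {n : ℕ} {R : Interp (BSym C) (bar C) (Fin n)} {e : Fin n ≃ Fin n}
    (he : ∀ x y, bRel R none x y ↔ e x < e y) (hn : 0 < n) {p : ℕ} (hp : p ≤ n) :
    ∃ (k : Fin 3) (x x' : Fin n), bStep R k x x' ∧ RepP e p x (k ≠ 0) ∧
      RepP e (p + 1) x' (k ≠ 2) := by
  unfold bStep RepP
  simp only [he]
  rcases Nat.eq_zero_or_pos p with h0 | h0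
  · refine ⟨0, e.symm ⟨0, hn⟩, e.symm ⟨0, hn⟩, ⟨fun _ z => ?_, fun h => absurd h (by decide),
      fun h => absurd h (by decide)⟩, ⟨fun h => absurd rfl h, fun _ => by omega⟩,
      ⟨fun _ => ?_, fun h => absurd (by decide) h⟩⟩
    · rw [Equiv.apply_symm_apply, Fin.lt_def]
      simp
    · rw [Equiv.apply_symm_apply]
      simp only
      omega
  · rcases Nat.lt_or_ge p n with h1 | h1
    · refine ⟨1, e.symm ⟨p - 1, by omega⟩, e.symm ⟨p, h1⟩, ⟨fun h => absurd h (by decide),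
        fun _ => ⟨?_, fun z => ?_⟩, fun h => absurd h (by decide)⟩,
        ⟨fun _ => ?_, fun h => absurd (by decide) h⟩,
        ⟨fun _ => ?_, fun h => absurd (by decide) h⟩⟩
      · rw [Equiv.apply_symm_apply, Equiv.apply_symm_apply, Fin.lt_def]
        simp only
        omega
      · rw [Equiv.apply_symm_apply, Equiv.apply_symm_apply, Fin.lt_def, Fin.lt_def]
        simp only
        omega
      · rw [Equiv.apply_symm_apply]
        simp only
        omega
      · rw [Equiv.apply_symm_apply]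
    · refine ⟨2, e.symm ⟨n - 1, by omega⟩, e.symm ⟨n - 1, by omega⟩,
        ⟨fun h => absurd h (by decide), fun h => absurd h (by decide), fun _ z => ?_⟩,
        ⟨fun _ => ?_, fun h => absurd (by decide) h⟩,
        ⟨fun h => absurd rfl h, fun _ => by omega⟩⟩
      · rw [Equiv.apply_symm_apply, Fin.lt_def]
        have := (e z).2
        simp only
        omega
      · rw [Equiv.apply_symm_apply]
        simp only
        omega

lemma bAll_of_squareSizes {Θ : Finset (ℕ × ℕ × ℕ × ℕ)}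
    (hC : ∀ θ ∈ Θ, θ.1 ≤ C ∧ θ.2.1 ≤ C ∧ θ.2.2.1 ≤ C ∧ θ.2.2.2 ≤ C) {n : ℕ}
    (h : n ∈ squareSizes Θ) : ∃ R : Interp (BSym C) (bar C) (Fin n), bAll Θ R := by
  obtain ⟨hn, a, h1, h2⟩ := h
  have hbd : ∀ x y, x ≤ n → y ≤ n → a x y ≤ C ∧ a (x + 1) y ≤ C ∧ a x (y + 1) ≤ C ∧
      a (x + 1) (y + 1) ≤ C := fun x y hx hy => hC _ (h2 x y hx hy)
  let R : Interp (BSym C) (bar C) (Fin n) := fun s =>
    match s with
    | none => fun (w : Fin 2 → Fin n) => w 0 < w 1
    | some c => fun (w : Fin 2 → Fin n) => a ((w 0 : ℕ) + 1) ((w 1 : ℕ) + 1) = c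
  have hlt : ∀ x y, bRel R none x y ↔ x < y := fun x y => Iff.rfl
  have hco : ∀ c x y, bRel R (some c) x y ↔ a ((x : ℕ) + 1) ((y : ℕ) + 1) = c :=
    fun c x y => Iff.rfl
  refine ⟨R, ⟨?_, ?_, ?_⟩, ?_, ?_⟩
  · intro x
    rw [hlt]
    exact lt_irrefl x
  · intro x y z
    rw [hlt, hlt, hlt]
    exact lt_trans
  · intro x y
    rw [hlt, hlt]
    exact lt_trichotomy x y
  · intro x y
    have h3 : a ((x : ℕ) + 1) ((y : ℕ) + 1) ≤ C :=
      (hbd _ _ (by omega) (by omega)).1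
    refine ⟨⟨a ((x : ℕ) + 1) ((y : ℕ) + 1), by omega⟩, ?_, (hco _ _ _).2 rfl, ?_⟩
    · intro h4
      have h5 := congrArg Fin.val h4
      exact (h1 ((x : ℕ) + 1) ((y : ℕ) + 1)).2 (by omega) h5
    · intro c' hc'
      exact Fin.ext ((hco _ _ _).1 hc').symm
  · intro kx ky x x' y y' hx hy
    obtain ⟨p, hp, hpx, hpx'⟩ := step_pos (e := Equiv.refl (Fin n)) (fun x y => hlt x y) hx
    obtain ⟨r, hr, hry, hry'⟩ := step_pos (e := Equiv.refl (Fin n)) (fun x y => hlt x y) hy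
    obtain ⟨b0, b1, b2, b3⟩ := hbd p r hp hr
    have key : ∀ (p r : ℕ) (x y : Fin n) (P Q : Prop), RepP (Equiv.refl (Fin n)) p x P →
        RepP (Equiv.refl (Fin n)) r y Q → ∀ hb : a p r ≤ C,
        bCol R (P ∧ Q) x y ⟨a p r, by omega⟩ := by
      intro p r x y P Q hP hQ hb
      refine ⟨?_, ?_⟩
      · rintro ⟨h3, h4⟩
        have e1 := hP.1 h3
        have e2 := hQ.1 h4
        rw [hco]
        show a _ _ = a p r
        rw [e1, e2]
        rfl
      · intro h3
        apply Fin.ext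
        show a p r = 0
        by_contra h4
        have h5 := (h1 p r).1 h4
        by_cases h6 : P
        · by_cases h7 : Q
          · exact h3 ⟨h6, h7⟩
          · exact hQ.2 h7 h5.2
        · exact hP.2 h6 h5.1
    exact ⟨![⟨a p r, by omega⟩, ⟨a (p + 1) r, by omega⟩, ⟨a p (r + 1), by omega⟩,
      ⟨a (p + 1) (r + 1), by omega⟩], h2 p r hp hr, key p r x y _ _ hpx hry b0,
      key (p + 1) r x' y _ _ hpx' hry b1, key p (r + 1) x y' _ _ hpx hry' b2,
      key (p + 1) (r + 1) x' y' _ _ hpx' hry' b3⟩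

lemma squareSizes_of_bAll {Θ : Finset (ℕ × ℕ × ℕ × ℕ)} {n : ℕ} (hn : 1 ≤ n)
    {R : Interp (BSym C) (bar C) (Fin n)} (h : bAll Θ R) : n ∈ squareSizes Θ := by
  obtain ⟨⟨o1, o2, o3⟩, hcol, hblk⟩ := h
  have hSTO : IsStrictTotalOrder (Fin n) (fun x y => bRel R none x y) :=
    { trichotomous := fun x y hxy hyx => by
        rcases o3 x y with h | h | h
        · exact absurd h hxy
        · exact h
        · exact absurd h hyx
      irrefl := o1
      trans := o2 }
  obtain ⟨e, he⟩ : ∃ e : Equiv.Perm (Fin n), ∀ x y, bRel R none x y ↔ e x < e y :=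
    exists_rank (Fintype.card_fin n) _ hSTO
  choose col hc0 hc1 hc2 using hcol
  let a : ℕ → ℕ → ℕ := fun p r =>
    if h : (1 ≤ p ∧ p ≤ n) ∧ (1 ≤ r ∧ r ≤ n) then
      (col (e.symm ⟨p - 1, by omega⟩) (e.symm ⟨r - 1, by omega⟩) : ℕ) else 0
  refine ⟨hn, a, ?_, ?_⟩
  · intro p r
    show (dite _ _ _ : ℕ) ≠ 0 ↔ _
    split_ifs with h
    · refine ⟨fun _ => h, fun _ h3 => ?_⟩
      exact hc0 _ _ (Fin.ext h3)
    · exact ⟨fun h3 => absurd rfl h3, fun h3 => absurd h3 h⟩
  · intro p r hp hr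
    obtain ⟨kx, x, x', hx, hpx, hpx'⟩ := pos_step he (by omega) hp
    obtain ⟨ky, y, y', hy, hry, hry'⟩ := pos_step he (by omega) hr
    obtain ⟨c, hc, g0, g1, g2, g3⟩ := hblk kx ky x x' y y' hx hy
    have key : ∀ (p r : ℕ) (x y : Fin n) (P Q : Prop) (d : Fin (C + 1)), RepP e p x P →
        RepP e r y Q → bCol R (P ∧ Q) x y d → a p r = d := by
      intro p r x y P Q d hP hQ hd
      show (dite _ _ _ : ℕ) = _
      by_cases h6 : P
      · by_cases h7 : Q
        · have e1 := hP.1 h6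
          have e2 := hQ.1 h7
          have l1 : ((e x : Fin n) : ℕ) < n := (e x).2
          have l2 : ((e y : Fin n) : ℕ) < n := (e y).2
          rw [dif_pos (by omega)]
          have e3 : (⟨p - 1, by omega⟩ : Fin n) = e x := Fin.ext (by simp only; omega)
          have e4 : (⟨r - 1, by omega⟩ : Fin n) = e y := Fin.ext (by simp only; omega)
          rw [e3, e4, Equiv.symm_apply_apply, Equiv.symm_apply_apply,
            hc2 x y d (hd.1 ⟨h6, h7⟩)]
        · rw [dif_neg (fun h => hQ.2 h7 h.2), hd.2 (fun h => h7 h.2)]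
          rfl
      · rw [dif_neg (fun h => hP.2 h6 h.1), hd.2 (fun h => h6 h.1)]
        rfl
    rw [key p r x y _ _ _ hpx hry g0, key (p + 1) r x' y _ _ _ hpx' hry g1,
      key p (r + 1) x y' _ _ _ hpx hry' g2, key (p + 1) (r + 1) x' y' _ _ _ hpx' hry' g3]
    exact hc

end Blocks

lemma squareSizes_rud (h : BinDig) (Θ : Finset (ℕ × ℕ × ℕ × ℕ)) :
    IsRudimentary (squareSizes Θ) := by
  obtain ⟨C, hC⟩ : ∃ C : ℕ, ∀ θ ∈ Θ, θ.1 ≤ C ∧ θ.2.1 ≤ C ∧ θ.2.2.1 ≤ C ∧ θ.2.2.2 ≤ C := by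
    refine ⟨Θ.sup (fun θ => θ.1 + θ.2.1 + θ.2.2.1 + θ.2.2.2), fun θ hθ => ?_⟩
    have := Finset.le_sup (f := fun θ : ℕ × ℕ × ℕ × ℕ => θ.1 + θ.2.1 + θ.2.2.1 + θ.2.2.2) hθ
    beta_reduce at this
    omega
  obtain ⟨φ, hφ⟩ := numModels_card (bAll_FD (C := C) (α := Empty) Θ)
  have hmem : ∀ n, n ∈ squareSizes Θ ↔ 1 ≤ n ∧ numModels φ n ≠ 0 := by
    intro n
    rw [hφ]
    have hf : Finite {R : Interp (BSym C) (bar C) (Fin n) // bAll Θ R} := by
      have := finite_interp (S := BSym C) (ar := bar C) (n := n)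
      exact Subtype.finite
    constructor
    · intro hn
      refine ⟨hn.1, ?_⟩
      obtain ⟨R, hR⟩ := bAll_of_squareSizes hC hn
      have : Nonempty {R : Interp (BSym C) (bar C) (Fin n) // bAll Θ R} := ⟨⟨R, hR⟩⟩
      exact Nat.card_pos.ne'
    · rintro ⟨h1, h2⟩
      obtain ⟨⟨R, hR⟩, _⟩ := Nat.card_ne_zero.1 h2
      exact squareSizes_of_bAll h1 hR
  obtain ⟨q, ⟨p, hp⟩, hq⟩ := numModels_lt φ
  have hrud := h (BSym C) inferInstance (bar C) (fun _ => Or.inr rfl) φ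
  rw [isRudimentary_iff]
  have h1 := hrud.subst 2 ![MvPolynomial.X 1, MvPolynomial.X 0]
  have h2 := Rud.bex 1 p _ h1
  have h3 := Rud.le (k := 1) 1 (MvPolynomial.X 0)
  refine (Rud.inter 1 _ _ h3 h2).congr ?_
  ext v
  simp only [Set.mem_inter_iff, Set.mem_ofPred_eq, map_one, MvPolynomial.eval_X]
  rw [hmem]
  refine and_congr_right (fun _ => ?_)
  have hv : (fun _ : Fin 1 => v 0) = v := by
    funext i
    rw [Subsingleton.elim i 0]
  constructor
  · rintro ⟨x, _, hx⟩ h0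
    have hx' : (numModels φ (v 0)).testBit x = true := by simpa using hx
    rw [h0] at hx'
    simp at hx'
  · intro h0
    obtain ⟨x, hx⟩ := Nat.exists_testBit_of_ne_zero h0
    refine ⟨x, ?_, by simpa using hx⟩
    rw [hp]
    have h4 := hq (v 0)
    rw [hv] at h4
    have h5 : 2 ^ x ≤ numModels φ (v 0) := Nat.ge_two_pow_of_testBit hx
    exact ((Nat.pow_lt_pow_iff_right (by norm_num)).1 (lt_of_le_of_lt h5 h4)).le

theorem binDig_spec (h : BinDig) (A : Set ℕ) (hA : IsSpectrum A) : IsRudimentary A := by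
  obtain ⟨Θ, hΘ⟩ := exists_universal_blocks
  obtain ⟨q, rfl⟩ := hΘ A hA
  exact (squareSizes_rud h Θ).preimage q

end Pool.Agent.Helper38.DG
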