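import Pool.Agent.Helper38.DG.Base

set_option autoImplicit false

namespace Pool.Agent.Helper38.DG

open FirstOrder FirstOrder.Language Pool.Agent.Helper20.Spectra
open scoped Classical

namespace CB

variable {β : Type} {b : β → ℕ} {ι : Type} {a : ι → ℕ} {k : ℕ}

/-- pulling back along a map of assignments given by bounded formulas -/
theorem rudX_mapF {ι' : Type} {a' : ι' → ℕ} {P : SOA a → (Fin k → ℕ) → Prop} (h : RudX a k P)
    (F : SOA a' → SOA a)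
    (hF : ∀ (i : ι) (m : ℕ) (t : Fin (a i) → (Fin m → ℕ) → ℕ), (∀ j, IsPoly m (t j)) →
      RudX a' m (fun X v => F X i (fun j => t j v))) :
    RudX a' k (fun X v => P (F X) v) := by
  induction h with
  | atom k p q => exact RudX.atom k p q
  | so k i q => exact hF i k (fun j v => MvPolynomial.eval v (q j)) (fun j => ⟨q j, fun _ => rfl⟩)
  | not k P _ ih => exact RudX.not k _ ih
  | and k P Q _ _ ih ih' => exact RudX.and k _ _ ih ih'
  | bex k p P _ ih => exact RudX.bex k p _ ih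

/-- all relations of a family are empty -/
theorem rudX_empty {ι' : Type} [Finite ι'] (f : ι' → ι) {t : (Fin k → ℕ) → ℕ}
    (ht : IsPoly k t) :
    RudX a k (fun X v => ∀ i : ι', ∀ w : Fin (a (f i)) → ℕ, (∀ j, w j < t v) → ¬ X (f i) w) := by
  refine RudX.all_fin (fun i => ?_)
  have h1 : RudX a (a (f i) + k) (fun X u => ¬ X (f i) (fun j => u (Fin.castAdd k j))) :=
    RudX.not' (RudX.so' (f i) (fun j => IsPoly.var _))
  refine (rudX_allT ht h1).congr (fun X v => ?_)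
  simp only [Fin.append_left]

/-- the first part of a joint assignment -/
def lft (Z : SOA (Sum.elim b a)) : SOA b := fun i => Z (Sum.inl i)

/-- the second part of a joint assignment -/
def rgt (Z : SOA (Sum.elim b a)) : SOA a := fun i => Z (Sum.inr i)

theorem lft_jn (Y : SOA b) (X : SOA a) : lft (jn Y X) = Y := rfl

theorem rgt_jn (Y : SOA b) (X : SOA a) : rgt (jn Y X) = X := rfl

theorem jn_eta (Z : SOA (Sum.elim b a)) : jn (lft Z) (rgt Z) = Z := by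
  funext i
  cases i with
  | inl i => rfl
  | inr i => rfl

theorem bd_jn {B : ℕ} (Y : SOA b) (X : SOA a) : Bd B (jn Y X) ↔ Bd B Y ∧ Bd B X := by
  constructor
  · intro h
    exact ⟨fun i w hw => h (Sum.inl i) w hw, fun i w hw => h (Sum.inr i) w hw⟩
  · rintro ⟨h1, h2⟩ i w hw
    cases i with
    | inl i => exact h1 i w hw
    | inr i => exact h2 i w hw

theorem bd_mono {B B' : ℕ} (h : B ≤ B') {X : SOA a} (hX : Bd B X) : Bd B' X :=
  fun i w hw j => lt_of_lt_of_le (hX i w hw j) h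

theorem jn_inj {Y Y' : SOA b} {X X' : SOA a} (h : jn Y X = jn Y' X') : Y = Y' ∧ X = X' :=
  ⟨by rw [← lft_jn Y X, h, lft_jn], by rw [← rgt_jn Y X, h, rgt_jn]⟩

theorem rudX_jn {ι' : Type} {a' : ι' → ℕ} {P : SOA (Sum.elim b a) → (Fin k → ℕ) → Prop}
    (h : RudX (Sum.elim b a) k P) (F : SOA a' → SOA b) (G : SOA a' → SOA a)
    (hF : ∀ (i : β) (m : ℕ) (t : Fin (b i) → (Fin m → ℕ) → ℕ), (∀ j, IsPoly m (t j)) →
      RudX a' m (fun X v => F X i (fun j => t j v)))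
    (hG : ∀ (i : ι) (m : ℕ) (t : Fin (a i) → (Fin m → ℕ) → ℕ), (∀ j, IsPoly m (t j)) →
      RudX a' m (fun X v => G X i (fun j => t j v))) :
    RudX a' k (fun X v => P (jn (F X) (G X)) v) := by
  refine rudX_mapF h (fun X => jn (F X) (G X)) (fun i m t ht => ?_)
  cases i with
  | inl i => exact hF i m t ht
  | inr i => exact hG i m t ht

/-- bounded by `B`, the numbers `≥ B'` are not looked at -/
def BdIn (B B' : ℕ) (X : SOA a) : Prop :=
  ∀ i : ι, ∀ w : Fin (a i) → ℕ, (∀ j, w j < B') → X i w → ∀ j, w j < B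

/-- empty, the numbers `≥ B'` are not looked at -/
def EmIn (B' : ℕ) (X : SOA a) : Prop :=
  ∀ i : ι, ∀ w : Fin (a i) → ℕ, (∀ j, w j < B') → ¬ X i w

/-- the empty assignment of any arities -/
def em (a : ι → ℕ) : SOA a := fun _ _ => False

theorem bd_of_in {B B' : ℕ} {X : SOA a} (hX : Bd B' X) (h : BdIn B B' X) : Bd B X :=
  fun i w hw => h i w (hX i w hw) hw

theorem bdIn_of {B B' : ℕ} {X : SOA a} (hX : Bd B X) : BdIn B B' X :=
  fun i w _ hw => hX i w hw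

theorem em_of_in {B' : ℕ} {X : SOA a} (hX : Bd B' X) (h : EmIn B' X) : X = em a := by
  funext i w
  exact propext ⟨fun hw => h i w (hX i w hw) hw, fun hw => hw.elim⟩

theorem emIn_em {B' : ℕ} : EmIn B' (em a) := fun _ _ _ hw => hw

theorem bd_em {B : ℕ} : Bd B (em a) := fun _ _ hw => hw.elim

theorem cnt_mul {ι' : Type} {a' : ι' → ℕ} {B B₁ B₂ : ℕ} (h₁ : B₁ ≤ B) (h₂ : B₂ ≤ B)
    (R : SOA a → Prop) (R' : SOA a' → Prop) :
    cnt B (fun Z : SOA (Sum.elim a a') => (R (lft Z) ∧ R' (rgt Z)) ∧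
      (BdIn B₁ B (lft Z) ∧ BdIn B₂ B (rgt Z))) = cnt B₁ R * cnt B₂ R' := by
  unfold cnt
  rw [← Nat.card_prod]
  symm
  refine Nat.card_congr (Equiv.ofBijective (fun x => ⟨jn x.1.1 x.2.1, ?_, ?_⟩) ⟨?_, ?_⟩)
  · exact (bd_jn _ _).2 ⟨bd_mono h₁ x.1.2.1, bd_mono h₂ x.2.2.1⟩
  · exact ⟨⟨x.1.2.2, x.2.2.2⟩, bdIn_of x.1.2.1, bdIn_of x.2.2.1⟩
  · rintro ⟨⟨X, hX⟩, ⟨X', hX'⟩⟩ ⟨⟨W, hW⟩, ⟨W', hW'⟩⟩ hxy
    obtain ⟨h1, h2⟩ := jn_inj (Subtype.ext_iff.1 hxy)
    simp only at h1 h2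
    subst h1
    subst h2
    rfl
  · rintro ⟨Z, hZ, ⟨h1, h2⟩, h3, h4⟩
    have hZ' := hZ
    rw [← jn_eta Z] at hZ'
    obtain ⟨hZ1, hZ2⟩ := (bd_jn _ _).1 hZ'
    exact ⟨⟨⟨lft Z, bd_of_in hZ1 h3, h1⟩, ⟨rgt Z, bd_of_in hZ2 h4, h2⟩⟩, Subtype.ext (jn_eta Z)⟩

/-- the arity of the tag -/
def tgA : Unit → ℕ := fun _ => 0

/-- the tag -/
def tag (T : SOA tgA) : Prop := T () (fun j => Fin.elim0 j)

/-- the tag with a given value -/
def mkT (p : Prop) : SOA tgA := fun _ _ => p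

theorem mkT_tag (T : SOA tgA) : mkT (tag T) = T := by
  funext i w
  exact congrArg (T ()) (funext fun j : Fin 0 => Fin.elim0 j)

theorem cnt_add {ι' : Type} {a' : ι' → ℕ} [Finite ι] [Finite ι'] {B B₁ B₂ : ℕ} (h₁ : B₁ ≤ B)
    (h₂ : B₂ ≤ B) (R : SOA a → Prop) (R' : SOA a' → Prop) :
    cnt B (fun Z : SOA (Sum.elim tgA (Sum.elim a a')) =>
      (tag (lft Z) ∧ R (lft (rgt Z)) ∧ BdIn B₁ B (lft (rgt Z)) ∧ EmIn B (rgt (rgt Z))) ∨
      (¬ tag (lft Z) ∧ R' (rgt (rgt Z)) ∧ BdIn B₂ B (rgt (rgt Z)) ∧ EmIn B (lft (rgt Z)))) =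
      cnt B₁ R + cnt B₂ R' := by
  unfold cnt
  have f1 : Finite {X : SOA a // Bd B₁ X ∧ R X} := finite_bd _ _
  have f2 : Finite {X : SOA a' // Bd B₂ X ∧ R' X} := finite_bd _ _
  rw [← Nat.card_sum]
  symm
  refine Nat.card_congr (Equiv.ofBijective (fun x => Sum.elim
    (fun x => ⟨jn (mkT True) (jn x.1 (em a')), ?_, ?_⟩)
    (fun x => ⟨jn (mkT False) (jn (em a) x.1), ?_, ?_⟩) x) ⟨?_, ?_⟩)
  · exact (bd_jn _ _).2 ⟨fun i w _ j => Fin.elim0 j,
      (bd_jn _ _).2 ⟨bd_mono h₁ x.2.1, bd_em⟩⟩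
  · exact Or.inl ⟨trivial, x.2.2, bdIn_of x.2.1, emIn_em⟩
  · exact (bd_jn _ _).2 ⟨fun i w _ j => Fin.elim0 j,
      (bd_jn _ _).2 ⟨bd_em, bd_mono h₂ x.2.1⟩⟩
  · exact Or.inr ⟨fun h => h, x.2.2, bdIn_of x.2.1, emIn_em⟩
  · rintro (⟨X, hX⟩ | ⟨X, hX⟩) (⟨W, hW⟩ | ⟨W, hW⟩) hxy
    · obtain ⟨_, h1⟩ := jn_inj (Subtype.ext_iff.1 hxy)
      obtain ⟨h1, _⟩ := jn_inj h1
      simp only at h1
      subst h1
      rfl
    · obtain ⟨h1, _⟩ := jn_inj (Subtype.ext_iff.1 hxy)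
      exact absurd (congrFun (congrFun h1 ()) (fun j => Fin.elim0 j)) (by simp [mkT])
    · obtain ⟨h1, _⟩ := jn_inj (Subtype.ext_iff.1 hxy)
      exact absurd (congrFun (congrFun h1 ()) (fun j => Fin.elim0 j)) (by simp [mkT])
    · obtain ⟨_, h1⟩ := jn_inj (Subtype.ext_iff.1 hxy)
      obtain ⟨_, h1⟩ := jn_inj h1
      simp only at h1
      subst h1
      rfl
  · rintro ⟨Z, hZ, hR⟩
    have hZ' := hZ
    rw [← jn_eta Z, ← jn_eta (rgt Z)] at hZ'
    obtain ⟨hZ1, hZ2⟩ := (bd_jn _ _).1 hZ'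
    obtain ⟨hZ2, hZ3⟩ := (bd_jn _ _).1 hZ2
    rcases hR with ⟨h1, h2, h3, h4⟩ | ⟨h1, h2, h3, h4⟩
    · refine ⟨Sum.inl ⟨lft (rgt Z), bd_of_in hZ2 h3, h2⟩, Subtype.ext ?_⟩
      have e1 : mkT True = lft Z := by
        rw [← mkT_tag (lft Z)]
        congr 1
        exact (eq_true h1).symm
      show jn (mkT True) (jn (lft (rgt Z)) (em a')) = Z
      rw [e1, ← em_of_in hZ3 h4, jn_eta, jn_eta]
    · refine ⟨Sum.inr ⟨rgt (rgt Z), bd_of_in hZ3 h3, h2⟩, Subtype.ext ?_⟩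
      have e1 : mkT False = lft Z := by
        rw [← mkT_tag (lft Z)]
        congr 1
        exact (eq_false h1).symm
      show jn (mkT False) (jn (em a) (rgt (rgt Z))) = Z
      rw [e1, ← em_of_in hZ2 h4, jn_eta, jn_eta]

end CB

open CB

section
variable {β : Type} {b : β → ℕ} {k : ℕ}

theorem cn_ind {Q : SOA b → (Fin k → ℕ) → Prop} (h : RudX b k Q) :
    Cn b k (fun Y v => if Q Y v then 1 else 0) := by
  refine ⟨Empty, inferInstance, noV, fun _ => 0, fun Z v => Q (lft Z) v,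
    Helper20.Spectra.IsPoly.const 0, ?_, ?_⟩
  · exact rudX_mapF h (fun Z : SOA (Sum.elim b noV) => lft Z)
      (fun i m t ht => RudX.so' (a := Sum.elim b noV) (Sum.inl i) ht)
  · intro Y v
    show (if Q Y v then 1 else 0) = Nat.card {X : SOA noV // Bd 0 X ∧ Q Y v}
    have hb : ∀ X : SOA noV, Bd 0 X := fun X i => i.elim
    by_cases hQ : Q Y v
    · rw [if_pos hQ]
      symm
      rw [Nat.card_eq_one_iff_unique]
      exact ⟨⟨fun x y => Subtype.ext (funext fun i => i.elim)⟩, ⟨⟨nil, hb _, hQ⟩⟩⟩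
    · rw [if_neg hQ]
      symm
      rw [Nat.card_eq_zero]
      left
      exact ⟨fun x => hQ x.2.2⟩

/-- indicator of a property with unique witnesses -/
theorem cn_uniq {ι : Type} [Finite ι] {a : ι → ℕ} {p : (Fin k → ℕ) → ℕ} (hp : IsPoly k p)
    {P : SOA (Sum.elim b a) → (Fin k → ℕ) → Prop} (h : RudX (Sum.elim b a) k P)
    (hu : ∀ Y v (X X' : SOA a), Bd (p v) X → Bd (p v) X' →
      P (jn Y X) v → P (jn Y X') v → X = X') :
    Cn b k (fun Y v => if ∃ X : SOA a, Bd (p v) X ∧ P (jn Y X) v then 1 else 0) := by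
  refine ⟨ι, inferInstance, a, p, P, hp, h, ?_⟩
  intro Y v
  show (if ∃ X : SOA a, Bd (p v) X ∧ P (jn Y X) v then 1 else 0) =
    Nat.card {X : SOA a // Bd (p v) X ∧ P (jn Y X) v}
  by_cases hQ : ∃ X : SOA a, Bd (p v) X ∧ P (jn Y X) v
  · rw [if_pos hQ]
    symm
    rw [Nat.card_eq_one_iff_unique]
    obtain ⟨X, hX⟩ := hQ
    exact ⟨⟨fun x y => Subtype.ext (hu Y v _ _ x.2.1 y.2.1 x.2.2 y.2.2)⟩, ⟨⟨X, hX⟩⟩⟩
  · rw [if_neg hQ]
    symm
    rw [Nat.card_eq_zero]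
    left
    exact ⟨fun x => hQ ⟨x.1, x.2⟩⟩

theorem cn_add {g g' : SOA b → (Fin k → ℕ) → ℕ} (h : Cn b k g) (h' : Cn b k g') :
    Cn b k (fun Y v => g Y v + g' Y v) := by
  obtain ⟨ι, hι, a, p, P, hp, hP, hg⟩ := h
  obtain ⟨ι', hι', a', p', P', hp', hP', hg'⟩ := h'
  refine ⟨Unit ⊕ (ι ⊕ ι'), inferInstance, Sum.elim tgA (Sum.elim a a'), fun v => p v + p' v,
    fun Z v =>
      (tag (lft (rgt Z)) ∧ P (jn (lft Z) (lft (rgt (rgt Z)))) v ∧
        BdIn (p v) (p v + p' v) (lft (rgt (rgt Z))) ∧ EmIn (p v + p' v) (rgt (rgt (rgt Z)))) ∨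
      (¬ tag (lft (rgt Z)) ∧ P' (jn (lft Z) (rgt (rgt (rgt Z)))) v ∧
        BdIn (p' v) (p v + p' v) (rgt (rgt (rgt Z))) ∧ EmIn (p v + p' v) (lft (rgt (rgt Z)))),
    hp.add hp', ?_, ?_⟩
  · have ht : RudX (Sum.elim b (Sum.elim tgA (Sum.elim a a'))) k
        (fun Z _ => tag (lft (rgt Z))) :=
      RudX.so' (a := Sum.elim b (Sum.elim tgA (Sum.elim a a'))) (Sum.inr (Sum.inl ()))
        (t := fun (j : Fin 0) _ => Fin.elim0 j) (fun (j : Fin 0) => Fin.elim0 j)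
    refine RudX.or (RudX.and' ht (RudX.and' ?_ (RudX.and' ?_ ?_)))
      (RudX.and' (RudX.not' ht) (RudX.and' ?_ (RudX.and' ?_ ?_)))
    · exact rudX_jn hP (fun Z : SOA (Sum.elim b (Sum.elim tgA (Sum.elim a a'))) => lft Z)
        (fun Z => lft (rgt (rgt Z)))
        (fun i m t ht => RudX.so' (a := Sum.elim b (Sum.elim tgA (Sum.elim a a'))) (Sum.inl i) ht)
        (fun i m t ht => RudX.so' (a := Sum.elim b (Sum.elim tgA (Sum.elim a a')))
          (Sum.inr (Sum.inr (Sum.inl i))) ht)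
    · exact rudX_bdIn (a := Sum.elim b (Sum.elim tgA (Sum.elim a a')))
        (fun i : ι => Sum.inr (Sum.inr (Sum.inl i))) (hp.add hp') hp
    · exact rudX_empty (a := Sum.elim b (Sum.elim tgA (Sum.elim a a')))
        (fun i : ι' => Sum.inr (Sum.inr (Sum.inr i))) (hp.add hp')
    · exact rudX_jn hP' (fun Z : SOA (Sum.elim b (Sum.elim tgA (Sum.elim a a'))) => lft Z)
        (fun Z => rgt (rgt (rgt Z)))
        (fun i m t ht => RudX.so' (a := Sum.elim b (Sum.elim tgA (Sum.elim a a'))) (Sum.inl i) ht)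
        (fun i m t ht => RudX.so' (a := Sum.elim b (Sum.elim tgA (Sum.elim a a')))
          (Sum.inr (Sum.inr (Sum.inr i))) ht)
    · exact rudX_bdIn (a := Sum.elim b (Sum.elim tgA (Sum.elim a a')))
        (fun i : ι' => Sum.inr (Sum.inr (Sum.inr i))) (hp.add hp') hp'
    · exact rudX_empty (a := Sum.elim b (Sum.elim tgA (Sum.elim a a')))
        (fun i : ι => Sum.inr (Sum.inr (Sum.inl i))) (hp.add hp')
  · intro Y v
    show g Y v + g' Y v = _
    rw [hg, hg']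
    exact (cnt_add (Nat.le_add_right _ _) (Nat.le_add_left _ _) (fun X => P (jn Y X) v)
      (fun X => P' (jn Y X) v)).symm

theorem cn_mul {g g' : SOA b → (Fin k → ℕ) → ℕ} (h : Cn b k g) (h' : Cn b k g') :
    Cn b k (fun Y v => g Y v * g' Y v) := by
  obtain ⟨ι, hι, a, p, P, hp, hP, hg⟩ := h
  obtain ⟨ι', hι', a', p', P', hp', hP', hg'⟩ := h'
  refine ⟨ι ⊕ ι', inferInstance, Sum.elim a a', fun v => p v + p' v, fun Z v =>
    (P (jn (lft Z) (lft (rgt Z))) v ∧ P' (jn (lft Z) (rgt (rgt Z))) v) ∧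
      (BdIn (p v) (p v + p' v) (lft (rgt Z)) ∧ BdIn (p' v) (p v + p' v) (rgt (rgt Z))),
    hp.add hp', ?_, ?_⟩
  · refine RudX.and' (RudX.and' ?_ ?_) (RudX.and' ?_ ?_)
    · exact rudX_jn hP (fun Z : SOA (Sum.elim b (Sum.elim a a')) => lft Z)
        (fun Z => lft (rgt Z))
        (fun i m t ht => RudX.so' (a := Sum.elim b (Sum.elim a a')) (Sum.inl i) ht)
        (fun i m t ht => RudX.so' (a := Sum.elim b (Sum.elim a a')) (Sum.inr (Sum.inl i)) ht)
    · exact rudX_jn hP' (fun Z : SOA (Sum.elim b (Sum.elim a a')) => lft Z)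
        (fun Z => rgt (rgt Z))
        (fun i m t ht => RudX.so' (a := Sum.elim b (Sum.elim a a')) (Sum.inl i) ht)
        (fun i m t ht => RudX.so' (a := Sum.elim b (Sum.elim a a')) (Sum.inr (Sum.inr i)) ht)
    · exact rudX_bdIn (a := Sum.elim b (Sum.elim a a')) (fun i : ι => Sum.inr (Sum.inl i))
        (hp.add hp') hp
    · exact rudX_bdIn (a := Sum.elim b (Sum.elim a a')) (fun i : ι' => Sum.inr (Sum.inr i))
        (hp.add hp') hp'
  · intro Y v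
    show g Y v * g' Y v = _
    rw [hg, hg']
    exact (cnt_mul (Nat.le_add_right _ _) (Nat.le_add_left _ _) (fun X => P (jn Y X) v)
      (fun X => P' (jn Y X) v)).symm

theorem cn_substR {β' : Type} {b' : β' → ℕ} {g : SOA b → (Fin k → ℕ) → ℕ} (h : Cn b k g) {d : ℕ}
    {Q : ∀ i : β, SOA b' → (Fin (b i + d) → ℕ) → Prop} (hQ : ∀ i, RudX b' (b i + d) (Q i))
    {m : ℕ} {σ : Fin k → (Fin m → ℕ) → ℕ} (hσ : ∀ i, IsPoly m (σ i))
    {τ : Fin d → (Fin m → ℕ) → ℕ} (hτ : ∀ i, IsPoly m (τ i)) :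
    Cn b' m (fun Y v => g (fun i w => Q i Y (Fin.append w (fun j => τ j v)))
      (fun i => σ i v)) := by
  obtain ⟨ι, hι, a, p, P, hp, hP, hg⟩ := h
  refine ⟨ι, hι, a, fun v => p (fun i => σ i v), fun Z v =>
    P (jn (fun i w => Q i (lft Z) (Fin.append w (fun j => τ j v))) (rgt Z)) (fun i => σ i v),
    hp.sub hσ, ?_, ?_⟩
  · let Q' : ∀ i : β ⊕ ι, SOA (Sum.elim b' a) → (Fin (Sum.elim b a i + d) → ℕ) → Prop := fun i =>
      match i with
      | Sum.inl i => fun Z u => Q i (lft Z) u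
      | Sum.inr i => fun Z u => rgt Z i (fun j => u (Fin.castAdd d j))
    have hQ' : ∀ i, RudX (Sum.elim b' a) (Sum.elim b a i + d) (Q' i) := by
      intro i
      cases i with
      | inl i =>
        exact rudX_mapF (hQ i) (fun Z : SOA (Sum.elim b' a) => lft Z)
          (fun i m t ht => RudX.so' (a := Sum.elim b' a) (Sum.inl i) ht)
      | inr i =>
        exact RudX.so' (a := Sum.elim b' a) (Sum.inr i)
          (t := fun j u => u (Fin.castAdd d j)) (fun j => IsPoly.var _)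
    refine (rudX_substR hP hQ' hσ hτ).congr (fun Z v => ?_)
    refine Iff.of_eq (congrArg (fun W => P W (fun i => σ i v)) ?_)
    funext i w
    cases i with
    | inl i => rfl
    | inr i =>
      show rgt Z i w = rgt Z i (fun j => Fin.append w (fun j => τ j v) (Fin.castAdd d j))
      congr 1
      funext j
      rw [Fin.append_left]
  · intro Y v
    exact hg _ _

theorem cn_subst {g : SOA b → (Fin k → ℕ) → ℕ} (h : Cn b k g)
    {m : ℕ} {σ : Fin k → (Fin m → ℕ) → ℕ} (hσ : ∀ i, IsPoly m (σ i)) :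
    Cn b m (fun Y v => g Y (fun i => σ i v)) := by
  obtain ⟨ι, hι, a, p, P, hp, hP, hg⟩ := h
  exact ⟨ι, hι, a, fun v => p (fun i => σ i v), fun Z v => P Z (fun i => σ i v), hp.sub hσ,
    hP.subst m σ hσ, fun Y v => hg _ _⟩

end

end Pool.Agent.Helper38.DG
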