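import Pool.Agent.Helper38.DG.Base

/-!
# The positions of the random bits
-/

set_option autoImplicit false

namespace Pool.Agent.Helper38.DG

open FirstOrder FirstOrder.Language Pool.Agent.Helper20.Spectra
open scoped Classical

/-! ### powers of two -/

private lemma pow_iff52 {u : ℕ} (hu : 1 ≤ u) : (∃ t, u = 2 ^ (t + 1)) ↔ u ≠ 1 ∧ ∀ x, x ≤ u → (∃ y, y ≤ u ∧ x * y = u) →
    (x = 1 ∨ ∃ z, z ≤ u ∧ x = 2 * z) := by
  constructor
  · rintro ⟨t, rfl⟩
    refine ⟨fun h => ?_, fun x hx ⟨y, _, hy⟩ => ?_⟩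
    · have : 2 ≤ 2 ^ (t + 1) := by
        calc 2 = 2 ^ 1 := rfl
          _ ≤ 2 ^ (t + 1) := Nat.pow_le_pow_right (by norm_num) (by omega)
      omega
    · have h1 : x ∣ 2 ^ (t + 1) := Dvd.intro y hy
      obtain ⟨i, _, hi⟩ := (Nat.dvd_prime_pow Nat.prime_two).1 h1
      rcases i with _ | i
      · left; simpa using hi
      · right
        refine ⟨2 ^ i, ?_, by rw [hi, pow_succ']⟩
        rw [hi, pow_succ'] at hx
        have : 0 < 2 ^ i := by positivity
        omega
  · rintro ⟨h1, h2⟩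
    obtain ⟨e, m, hm, he⟩ := Nat.exists_eq_two_pow_mul_odd (n := u) (by omega)
    have h3 : m = 1 := by
      rcases h2 m (by rw [he]; exact Nat.le_mul_of_pos_left m (by positivity)) ⟨2 ^ e, by
        rw [he]; exact Nat.le_mul_of_pos_right _ hm.pos, by rw [he, mul_comm]⟩ with h | ⟨z, _, hz⟩
      · exact h
      · exfalso
        rw [hz] at hm
        exact (Nat.not_odd_iff_even.2 ⟨z, by ring⟩) hm
    rw [h3, mul_one] at he
    rcases e with _ | e
    · exfalso; apply h1; rw [he, pow_zero]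
    · exact ⟨e, he⟩

private lemma dvd_iff52 {u m : ℕ} (hu : 1 ≤ u) : u ∣ m ↔ ∃ q, q ≤ m ∧ u * q = m := by
  constructor
  · rintro ⟨q, rfl⟩
    exact ⟨q, Nat.le_mul_of_pos_left q hu, rfl⟩
  · rintro ⟨q, _, h⟩
    exact Dvd.intro q h

theorem pos_rudX {ι : Type} {a : ι → ℕ} {k : ℕ} {t : (Fin k → ℕ) → ℕ} (ht : Helper20.Spectra.IsPoly k t)
    {w : Fin 3 → (Fin k → ℕ) → ℕ} (hw : ∀ i, Helper20.Spectra.IsPoly k (w i)) :
    RudX a k (fun _ v => Pos (t v) (fun i => w i v)) := by
  have c1 : ∀ m, Helper20.Spectra.IsPoly m (fun _ => 1) := fun m => Helper20.Spectra.IsPoly.const 1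
  have h1 : RudX a k (fun _ v => ∀ j : Fin 3, w j v < t v) := RudX.all_fin (fun j => RudX.lt (hw j) ht)
  have h2 : RudX a k (fun _ v => w 0 v + 1 = t v) := RudX.eq ((hw 0).add (c1 k)) ht
  have h3 : RudX a k (fun _ v => ∃ q, q ≤ w 1 v + 1 ∧ (w 2 v + 1) * q = w 1 v + 1) := by
    refine RudX.ex ((hw 1).add (c1 k)) (P := fun _ v q => (w 2 v + 1) * q = w 1 v + 1) ?_
    exact RudX.eq (((hw 2).tail.add (c1 _)).mul (Helper20.Spectra.IsPoly.var 0)) ((hw 1).tail.add (c1 _))
  have h4 : RudX a k (fun _ v => w 2 v + 1 ≠ 1) := (RudX.eq ((hw 2).add (c1 k)) (c1 k)).not'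
  have h5 : RudX a k (fun _ v => ∀ x, x ≤ w 2 v + 1 → ((∃ y, y ≤ w 2 v + 1 ∧ x * y = w 2 v + 1) →
      (x = 1 ∨ ∃ z, z ≤ w 2 v + 1 ∧ x = 2 * z))) := by
    refine RudX.all ((hw 2).add (c1 k)) (P := fun _ v x => ((∃ y, y ≤ w 2 v + 1 ∧ x * y = w 2 v + 1) →
      (x = 1 ∨ ∃ z, z ≤ w 2 v + 1 ∧ x = 2 * z))) ?_
    refine RudX.imp ?_ (RudX.or ?_ ?_)
    · refine RudX.ex ((hw 2).tail.add (c1 _)) (P := fun _ v y => v 0 * y = w 2 (Fin.tail v) + 1) ?_
      refine RudX.eq ?_ ?_
      · exact (Helper20.Spectra.IsPoly.var 0).tail.mul (Helper20.Spectra.IsPoly.var 0)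
      · exact (hw 2).tail.tail.add (c1 _)
    · exact RudX.eq (Helper20.Spectra.IsPoly.var 0) (c1 _)
    · refine RudX.ex ((hw 2).tail.add (c1 _)) (P := fun _ v z => v 0 = 2 * z) ?_
      refine RudX.eq ?_ ?_
      · exact (Helper20.Spectra.IsPoly.var 0).tail
      · exact (Helper20.Spectra.IsPoly.const 2).mul (Helper20.Spectra.IsPoly.var 0)
  refine (h1.and' ((h2.and' ((h4.and' h5).and' h3)).not')).congr (fun X v => ?_)
  unfold Pos
  refine and_congr_right fun hlt => not_congr (and_congr ?_ (and_congr ?_ ?_))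
  · have h0 : w 0 v < t v := hlt 0
    show w 0 v = t v - 1 ↔ w 0 v + 1 = t v
    omega
  · exact pow_iff52 (by omega)
  · exact dvd_iff52 (by omega)

theorem pos_slice (n x y : ℕ) (hn : 2 ≤ n) : Pos n ![0, x, y] ↔ x < n ∧ y < n := by
  unfold Pos
  constructor
  · rintro ⟨h, _⟩
    exact ⟨h 1, h 2⟩
  · rintro ⟨hx, hy⟩
    refine ⟨fun j => ?_, fun h => ?_⟩
    · fin_cases j
      · show 0 < n; omega
      · exact hx
      · exact hy
    · have h0 : (0 : ℕ) = n - 1 := h.1
      omega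

/-! ### counting -/

/-- triples -/
private def tri52 (n : ℕ) : Finset (ℕ × ℕ × ℕ) := Finset.range n ×ˢ Finset.range n ×ˢ Finset.range n

/-- the condition for triples -/
private def Ex52 (n : ℕ) (x : ℕ × ℕ × ℕ) : Prop := x.1 = n - 1 ∧ (∃ t, x.2.2 + 1 = 2 ^ (t + 1)) ∧ (x.2.2 + 1) ∣ (x.2.1 + 1)

private def eqv52 (n : ℕ) : {w : Fin 3 → ℕ // Pos n w} ≃ {x // x ∈ (tri52 n).filter (fun x => ¬ Ex52 n x)} where
  toFun w := ⟨(w.1 0, w.1 1, w.1 2), by
    rw [Finset.mem_filter]
    refine ⟨?_, w.2.2⟩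
    unfold tri52
    simp only [Finset.mem_product, Finset.mem_range]
    exact ⟨w.2.1 0, w.2.1 1, w.2.1 2⟩⟩
  invFun x := ⟨![x.1.1, x.1.2.1, x.1.2.2], by
    have h := Finset.mem_filter.1 x.2
    have h1 := h.1
    unfold tri52 at h1
    simp only [Finset.mem_product, Finset.mem_range] at h1
    refine ⟨fun j => ?_, h.2⟩
    fin_cases j
    · exact h1.1
    · exact h1.2.1
    · exact h1.2.2⟩
  left_inv w := by
    apply Subtype.ext
    funext j
    fin_cases j <;> rfl
  right_inv x := rfl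

private lemma posN_eq52 (n : ℕ) : posN n = ((tri52 n).filter (fun x => ¬ Ex52 n x)).card := by
  unfold posN
  rw [Nat.card_congr (eqv52 n), Nat.card_eq_fintype_card, Fintype.card_coe]

/-- the exponent of two as a number of powers -/
private lemma val_card52 (y n : ℕ) (hy : y < n) : ((Finset.range n).filter (fun z => (∃ t, z + 1 = 2 ^ (t + 1)) ∧ (z + 1) ∣ (y + 1))).card =
    padicValNat 2 (y + 1) := by
  rw [← Finset.card_range (padicValNat 2 (y + 1))]
  symm
  refine Finset.card_bij (fun t _ => 2 ^ (t + 1) - 1) ?_ ?_ ?_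
  · intro t ht
    rw [Finset.mem_range] at ht
    have h1 : 2 ^ (t + 1) ∣ y + 1 := (padicValNat_dvd_iff_le (by omega)).2 (by omega)
    have h2 : 2 ^ (t + 1) ≤ y + 1 := Nat.le_of_dvd (by omega) h1
    have h3 : 1 ≤ 2 ^ (t + 1) := Nat.one_le_two_pow
    rw [Finset.mem_filter, Finset.mem_range, Nat.sub_add_cancel h3]
    exact ⟨by omega, ⟨t, rfl⟩, h1⟩
  · intro t _ t' _ h
    have h3 : 1 ≤ 2 ^ (t + 1) := Nat.one_le_two_pow
    have h4 : 1 ≤ 2 ^ (t' + 1) := Nat.one_le_two_pow
    have h5 : 2 ^ (t + 1) = 2 ^ (t' + 1) := by omega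
    have := Nat.pow_right_injective (le_refl 2) h5
    omega
  · intro z hz
    rw [Finset.mem_filter, Finset.mem_range] at hz
    obtain ⟨_, ⟨t, ht⟩, hd⟩ := hz
    refine ⟨t, ?_, by omega⟩
    rw [Finset.mem_range]
    rw [ht] at hd
    have := (padicValNat_dvd_iff_le (p := 2) (by omega : y + 1 ≠ 0)).1 hd
    omega

private lemma fact_val52 (n : ℕ) : padicValNat 2 n.factorial = ∑ y ∈ Finset.range n, padicValNat 2 (y + 1) := by
  induction n with
  | zero => simp
  | succ n ih =>
    rw [Nat.factorial_succ, padicValNat.mul (by omega) (Nat.factorial_ne_zero n), ih, Finset.sum_range_succ, add_comm]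

theorem pos_card (n : ℕ) : posN n + padicValNat 2 n.factorial = n ^ 3 := by
  rw [posN_eq52]
  have h1 : ((tri52 n).filter (fun x => Ex52 n x)).card = padicValNat 2 n.factorial := by
    rcases Nat.eq_zero_or_pos n with rfl | hn
    · simp [tri52]
    rw [fact_val52]
    have h2 : ((tri52 n).filter (fun x => Ex52 n x)).card = ((Finset.range n ×ˢ Finset.range n).filter
        (fun x : ℕ × ℕ => (∃ t, x.2 + 1 = 2 ^ (t + 1)) ∧ (x.2 + 1) ∣ (x.1 + 1))).card := by
      refine Finset.card_bij (fun x _ => x.2) ?_ ?_ ?_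
      · intro x hx
        rw [Finset.mem_filter] at hx ⊢
        have h := hx.1
        unfold tri52 at h
        rw [Finset.mem_product] at h
        exact ⟨h.2, hx.2.2⟩
      · intro x hx y hy h
        rw [Finset.mem_filter] at hx hy
        exact Prod.ext (hx.2.1.trans hy.2.1.symm) h
      · intro y hy
        rw [Finset.mem_filter] at hy
        refine ⟨(n - 1, y), ?_, rfl⟩
        rw [Finset.mem_filter]
        refine ⟨?_, rfl, hy.2⟩
        unfold tri52
        rw [Finset.mem_product]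
        exact ⟨Finset.mem_range.2 (by show n - 1 < n; omega), hy.1⟩
    rw [h2, Finset.card_filter, Finset.sum_product]
    refine Finset.sum_congr rfl fun y hy => ?_
    rw [← val_card52 y n (Finset.mem_range.1 hy), Finset.card_filter]
  rw [← h1, add_comm, Finset.card_filter_add_card_filter_not]
  unfold tri52
  rw [Finset.card_product, Finset.card_product, Finset.card_range]
  ring

theorem posN_ge {n : ℕ} (hn : 2 ≤ n) : n * n ≤ posN n := by
  rw [posN_eq52]
  have h1 : ((Finset.range n ×ˢ Finset.range n).image (fun x : ℕ × ℕ => ((0 : ℕ), x.1, x.2))) ⊆ (tri52 n).filter (fun x => ¬ Ex52 n x) := by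
    intro x hx
    rw [Finset.mem_image] at hx
    obtain ⟨y, hy, rfl⟩ := hx
    rw [Finset.mem_product, Finset.mem_range, Finset.mem_range] at hy
    rw [Finset.mem_filter]
    refine ⟨?_, fun h => ?_⟩
    · unfold tri52
      simp only [Finset.mem_product, Finset.mem_range]
      exact ⟨by omega, hy.1, hy.2⟩
    · have h0 : (0 : ℕ) = n - 1 := h.1
      omega
  have h2 := Finset.card_le_card h1
  rw [Finset.card_image_of_injective _ (fun a b h => by
    have := congrArg Prod.snd h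
    exact this), Finset.card_product, Finset.card_range] at h2
  exact h2

/-! ### slices -/

/-- the positions outside the slice -/
private abbrev Rest52 (n : ℕ) := {w : Fin 3 → ℕ // Pos n w ∧ w 0 ≠ 0}

private lemma finPos52 (n : ℕ) : Finite {w : Fin 3 → ℕ // Pos n w} := Finite.of_equiv _ (eqv52 n).symm

private lemma finRest52 (n : ℕ) : Finite (Rest52 n) := by
  have := finPos52 n
  exact Finite.of_injective (fun w : Rest52 n => (⟨w.1, w.2.1⟩ : {w : Fin 3 → ℕ // Pos n w}))
    fun a b h => Subtype.ext (congrArg (fun z : {w : Fin 3 → ℕ // Pos n w} => z.1) h)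

private noncomputable def splitPos52 {n : ℕ} (hn : 2 ≤ n) : {w : Fin 3 → ℕ // Pos n w} ≃ Rest52 n ⊕ (Fin n × Fin n) where
  toFun w := if h : w.1 0 ≠ 0 then Sum.inl ⟨w.1, w.2, h⟩ else Sum.inr (⟨w.1 1, w.2.1 1⟩, ⟨w.1 2, w.2.1 2⟩)
  invFun z := match z with
    | .inl w => ⟨w.1, w.2.1⟩
    | .inr p => ⟨![0, p.1, p.2], (pos_slice n _ _ hn).2 ⟨p.1.2, p.2.2⟩⟩
  left_inv w := by
    by_cases h : w.1 0 ≠ 0
    · simp only [dif_pos h]
    · simp only [dif_neg h]
      apply Subtype.ext
      funext j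
      rw [not_not] at h
      fin_cases j
      · exact h.symm
      · rfl
      · rfl
  right_inv z := by
    rcases z with w | p
    · simp only [dif_pos w.2.2]
    · have h : ¬ ((![0, (p.1 : ℕ), (p.2 : ℕ)] : Fin 3 → ℕ) 0 ≠ 0) := by simp
      simp only [dif_neg h]
      rfl

private lemma card_rest52 {n : ℕ} (hn : 2 ≤ n) : Nat.card (Rest52 n) + n * n = posN n := by
  have := finRest52 n
  unfold posN
  rw [Nat.card_congr (splitPos52 hn), Nat.card_sum, Nat.card_prod, Nat.card_fin]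

private lemma slice_iff52 {n : ℕ} {Z : (Fin 3 → ℕ) → Prop} {x y : Fin n} : slice n Z x y = true ↔ Z ![0, x, y] := by
  unfold slice
  exact @decide_eq_true_iff _ (Classical.propDecidable _)

private noncomputable def sliceEqv52 {n : ℕ} (hn : 2 ≤ n) (S : Set (Fin n → Fin n → Bool)) :
    {Z : (Fin 3 → ℕ) → Prop // (∀ w, Z w → Pos n w) ∧ slice n Z ∈ S} ≃ S × (Rest52 n → Bool) where
  toFun Z := (⟨slice n Z.1, Z.2.2⟩, fun w => decide (Z.1 w.1))
  invFun z := ⟨fun w => Pos n w ∧ ((∃ h : Pos n w ∧ w 0 ≠ 0, z.2 ⟨w, h⟩ = true) ∨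
      (∃ x y : Fin n, w = ![0, (x : ℕ), (y : ℕ)] ∧ z.1.1 x y = true)), fun w h => h.1, by
    have : slice n (fun w => Pos n w ∧ ((∃ h : Pos n w ∧ w 0 ≠ 0, z.2 ⟨w, h⟩ = true) ∨
      (∃ x y : Fin n, w = ![0, (x : ℕ), (y : ℕ)] ∧ z.1.1 x y = true))) = z.1.1 := by
      funext x y
      rw [Bool.eq_iff_iff, slice_iff52]
      constructor
      · rintro ⟨_, ⟨h, _⟩ | ⟨x', y', h, h'⟩⟩
        · exact absurd rfl h.2
        · have e1 : (x : ℕ) = x' := congrFun h 1
          have e2 : (y : ℕ) = y' := congrFun h 2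
          rw [Fin.ext e1, Fin.ext e2]
          exact h'
      · intro h
        exact ⟨(pos_slice n _ _ hn).2 ⟨x.2, y.2⟩, Or.inr ⟨x, y, rfl, h⟩⟩
    rw [this]
    exact z.1.2⟩
  left_inv Z := by
    apply Subtype.ext
    funext w
    apply propext
    constructor
    · rintro ⟨_, ⟨h, h'⟩ | ⟨x, y, h, h'⟩⟩
      · exact of_decide_eq_true h'
      · rw [h]
        exact slice_iff52.1 h'
    · intro h
      have hp := Z.2.1 w h
      refine ⟨hp, ?_⟩
      by_cases h0 : w 0 = 0
      · right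
        refine ⟨⟨w 1, hp.1 1⟩, ⟨w 2, hp.1 2⟩, ?_, ?_⟩
        · funext j
          fin_cases j
          · exact h0
          · rfl
          · rfl
        · apply slice_iff52.2
          have e : (![0, w 1, w 2] : Fin 3 → ℕ) = w := by
            funext j
            fin_cases j
            · exact h0.symm
            · rfl
            · rfl
          show Z.1 ![0, w 1, w 2]
          rw [e]
          exact h
      · left
        exact ⟨⟨hp, h0⟩, decide_eq_true h⟩
  right_inv z := by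
    apply Prod.ext
    · apply Subtype.ext
      funext x y
      rw [Bool.eq_iff_iff, slice_iff52]
      constructor
      · rintro ⟨_, ⟨h, _⟩ | ⟨x', y', h, h'⟩⟩
        · exact absurd rfl h.2
        · have e1 : (x : ℕ) = x' := congrFun h 1
          have e2 : (y : ℕ) = y' := congrFun h 2
          rw [Fin.ext e1, Fin.ext e2]
          exact h'
      · intro h
        exact ⟨(pos_slice n _ _ hn).2 ⟨x.2, y.2⟩, Or.inr ⟨x, y, rfl, h⟩⟩
    · funext w
      rw [Bool.eq_iff_iff]
      refine (@decide_eq_true_iff _ (Classical.propDecidable _)).trans ?_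
      constructor
      · rintro ⟨_, ⟨_, h⟩ | ⟨x, y, h, _⟩⟩
        · exact h
        · exact absurd (congrFun h 0) w.2.2
      · intro h
        exact ⟨w.2.1, Or.inl ⟨w.2, h⟩⟩

theorem slice_card {n : ℕ} (hn : 2 ≤ n) (S : Set (Fin n → Fin n → Bool)) :
    Nat.card {Z : (Fin 3 → ℕ) → Prop // (∀ w, Z w → Pos n w) ∧ slice n Z ∈ S} * 2 ^ (n * n) =
      2 ^ posN n * Nat.card S := by
  have := finRest52 n
  rw [Nat.card_congr (sliceEqv52 hn S), Nat.card_prod, Nat.card_fun, ← card_rest52 hn, pow_add]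
  have h2 : Nat.card Bool = 2 := by simp
  rw [h2]
  ring

private lemma two_false52 {A : Type} [Fintype A] [DecidableEq A] {p q : A} (hpq : p ≠ q) :
    4 * Nat.card {f : A → Bool // f p = false ∧ f q = false} = 2 ^ Fintype.card A := by
  have h1 : {f : A → Bool | f p = false ∧ f q = false} =
      ((Fintype.piFinset fun a : A => if a = p ∨ a = q then {false} else (Finset.univ : Finset Bool)) : Set (A → Bool)) := by
    ext f
    simp only [Set.mem_ofPred_eq, Finset.mem_coe, Fintype.mem_piFinset]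
    constructor
    · rintro ⟨h1, h2⟩ a
      by_cases ha : a = p ∨ a = q
      · rw [if_pos ha, Finset.mem_singleton]
        rcases ha with rfl | rfl
        · exact h1
        · exact h2
      · rw [if_neg ha]
        exact Finset.mem_univ _
    · intro h
      have h2 := h p
      have h3 := h q
      rw [if_pos (Or.inl rfl), Finset.mem_singleton] at h2
      rw [if_pos (Or.inr rfl), Finset.mem_singleton] at h3
      exact ⟨h2, h3⟩
  have h2 : Nat.card {f : A → Bool // f p = false ∧ f q = false} = ∏ a : A, (if a = p ∨ a = q then 1 else 2) := by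
    show Nat.card ({f : A → Bool | f p = false ∧ f q = false} : Set (A → Bool)) = _
    rw [h1]
    rw [Nat.card_coe_set_eq, Set.ncard_coe_finset, Fintype.card_piFinset]
    refine Finset.prod_congr rfl fun a _ => ?_
    split_ifs
    · simp
    · simp
  rw [h2, Finset.prod_ite, Finset.prod_const_one, one_mul, Finset.prod_const]
  have h3 : (Finset.univ.filter (fun a : A => ¬ (a = p ∨ a = q))).card + 2 = Fintype.card A := by
    have h4 : Finset.univ.filter (fun a : A => ¬ (a = p ∨ a = q)) = Finset.univ \ {p, q} := by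
      ext a
      simp
    rw [h4, Finset.card_sdiff_of_subset (Finset.subset_univ _), Finset.card_pair hpq, Finset.card_univ]
    have : 2 ≤ Fintype.card A := by
      rw [← Finset.card_pair hpq]
      exact Finset.card_le_univ _
    omega
  rw [← h3, pow_add]
  ring

theorem quarter_card {n : ℕ} (hn : 2 ≤ n) :
    4 * Nat.card {Z : (Fin 3 → ℕ) → Prop // (∀ w, Z w → Pos n w) ∧ ¬ Z ![0, 0, 0] ∧
      ¬ Z ![0, 0, 1]} = 2 ^ posN n := by
  let x0 : Fin n := ⟨0, by omega⟩
  let x1 : Fin n := ⟨1, by omega⟩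
  have hx : ∀ Z : (Fin 3 → ℕ) → Prop, (¬ Z ![0, 0, 0] ∧ ¬ Z ![0, 0, 1]) ↔ slice n Z ∈ {s : Fin n → Fin n → Bool | s x0 x0 = false ∧ s x0 x1 = false} := by
    intro Z
    rw [Set.mem_ofPred_eq, ← Bool.not_eq_true, ← Bool.not_eq_true, slice_iff52, slice_iff52]
  have h1 := slice_card hn {s : Fin n → Fin n → Bool | s x0 x0 = false ∧ s x0 x1 = false}
  have h2 : Nat.card {Z : (Fin 3 → ℕ) → Prop // (∀ w, Z w → Pos n w) ∧ ¬ Z ![0, 0, 0] ∧ ¬ Z ![0, 0, 1]} =
      Nat.card {Z : (Fin 3 → ℕ) → Prop // (∀ w, Z w → Pos n w) ∧ slice n Z ∈ {s : Fin n → Fin n → Bool | s x0 x0 = false ∧ s x0 x1 = false}} :=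
    Nat.card_congr (Equiv.subtypeEquivRight fun Z => and_congr_right fun _ => hx Z)
  have h3 : Nat.card ({s : Fin n → Fin n → Bool | s x0 x0 = false ∧ s x0 x1 = false} : Set (Fin n → Fin n → Bool)) =
      Nat.card {f : Fin n × Fin n → Bool // f (x0, x0) = false ∧ f (x0, x1) = false} := by
    refine Nat.card_congr ?_
    exact (Equiv.subtypeEquiv (Equiv.curry (Fin n) (Fin n) Bool) fun f => Iff.rfl).symm
  have h4 : 4 * Nat.card {f : Fin n × Fin n → Bool // f (x0, x0) = false ∧ f (x0, x1) = false} = 2 ^ (n * n) := by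
    have hne : ((x0, x0) : Fin n × Fin n) ≠ (x0, x1) := by
      intro h
      have := congrArg (fun p : Fin n × Fin n => (p.2 : ℕ)) h
      simp [x0, x1] at this
    rw [two_false52 hne, Fintype.card_prod, Fintype.card_fin]
  rw [h3] at h1
  rw [h2]
  have h5 : (0 : ℕ) < 2 ^ (n * n) := by positivity
  refine Nat.eq_of_mul_eq_mul_right h5 ?_
  rw [mul_assoc, h1, ← h4]
  ring

end Pool.Agent.Helper38.DG
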