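import Pool.Agent.Helper38.DG.CnSum
import Pool.Agent.Helper38.DG.CnProd
import Pool.Agent.Helper38.DG.Amp
import Pool.Agent.Helper38.DG.Pos

/-!
# Digits of the number of models: the labelled factor
-/

set_option autoImplicit false

namespace Pool.Agent.Helper38.DG

open FirstOrder FirstOrder.Language Pool.Agent.Helper20.Spectra
open scoped Classical

private lemma eq_two_pow {u : ℕ} (hu : 0 < u) (h : ∀ d, d ∣ u → d = 1 ∨ 2 ∣ d) :
    ∃ j, u = 2 ^ j := by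
  obtain ⟨j, m, hm, rfl⟩ := Nat.exists_eq_two_pow_mul_odd hu.ne'
  refine ⟨j, ?_⟩
  rcases h m (Dvd.intro_left _ rfl) with h1 | h1
  · rw [h1, mul_one]
  · rw [Nat.odd_iff] at hm; omega

private lemma oddp_two_pow_mul {o : ℕ} (ho : o % 2 = 1) (j : ℕ) : oddp (o * 2 ^ j) = o := by
  have h0 : o ≠ 0 := by omega
  have h1 : padicValNat 2 (o * 2 ^ j) = j := by
    rw [padicValNat.mul h0 (by positivity), padicValNat.prime_pow,
      padicValNat.eq_zero_of_not_dvd (by omega), zero_add]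
  rw [oddp, h1, Nat.mul_div_cancel _ (by positivity)]

private lemma oddp_spec {n : ℕ} (hn : 0 < n) :
    oddp n % 2 = 1 ∧ n = oddp n * 2 ^ padicValNat 2 n := by
  obtain ⟨j, m, hm, rfl⟩ := Nat.exists_eq_two_pow_mul_odd hn.ne'
  rw [Nat.odd_iff] at hm
  have h1 := oddp_two_pow_mul hm j
  rw [mul_comm] at h1
  have h0 : m ≠ 0 := by omega
  have h2 : padicValNat 2 (2 ^ j * m) = j := by
    rw [padicValNat.mul (by positivity) h0, padicValNat.prime_pow,
      padicValNat.eq_zero_of_not_dvd (by omega), add_zero]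
  rw [h1, h2]
  exact ⟨hm, mul_comm _ _⟩

private lemma oddp_iff (o T : ℕ) : o = oddp (T + 1) ↔
    ((∃ j, j ≤ o ∧ o = 2 * j + 1) ∧ ∃ u, u ≤ T + 1 ∧ (T + 1 = o * u ∧
      ∀ d, d ≤ u → ((∃ e, e ≤ u ∧ u = d * e) → (d = 1 ∨ ∃ f, f ≤ d ∧ d = 2 * f)))) := by
  constructor
  · intro h
    obtain ⟨h1, h2⟩ := oddp_spec (Nat.succ_pos T)
    rw [Nat.succ_eq_add_one, ← h] at h1 h2
    refine ⟨⟨o / 2, by omega, by omega⟩, 2 ^ padicValNat 2 (T + 1), ?_, h2, ?_⟩
    · have : 0 < o := by omega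
      calc 2 ^ padicValNat 2 (T + 1) = 1 * 2 ^ padicValNat 2 (T + 1) := (one_mul _).symm
        _ ≤ o * 2 ^ padicValNat 2 (T + 1) := Nat.mul_le_mul_right _ this
        _ = T + 1 := h2.symm
    · rintro d - ⟨e, -, he⟩
      have hd : d ∣ 2 ^ padicValNat 2 (T + 1) := ⟨e, he⟩
      obtain ⟨i, -, rfl⟩ := (Nat.dvd_prime_pow Nat.prime_two).1 hd
      rcases i with _ | i
      · left; rfl
      · right
        exact ⟨2 ^ i, by rw [pow_succ]; omega, by rw [pow_succ]; ring⟩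
  · rintro ⟨⟨j, -, hj⟩, u, -, hu, h⟩
    have hu0 : 0 < u := by
      rcases Nat.eq_zero_or_pos u with h0 | h0
      · rw [h0] at hu; omega
      · exact h0
    obtain ⟨i, hi⟩ := eq_two_pow hu0 (fun d hd => by
      obtain ⟨e, he⟩ := hd
      have hdu : d ≤ u := Nat.le_of_dvd hu0 ⟨e, he⟩
      have heu : e ≤ u := Nat.le_of_dvd hu0 ⟨d, by rw [he]; ring⟩
      rcases h d hdu ⟨e, heu, he⟩ with h1 | ⟨f, -, hf⟩
      · exact Or.inl h1
      · exact Or.inr ⟨f, hf⟩)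
    rw [hu, hi, oddp_two_pow_mul (by omega)]

private lemma rudX_oddp {β : Type} {b : β → ℕ} {k : ℕ} {s t : (Fin k → ℕ) → ℕ}
    (hs : IsPoly k s) (ht : IsPoly k t) :
    RudX b k (fun _ v => s v = oddp (t v + 1)) := by
  refine RudX.congr (P := fun _ v => ((∃ j, j ≤ s v ∧ s v = 2 * j + 1) ∧
    ∃ u, u ≤ t v + 1 ∧ (t v + 1 = s v * u ∧
      ∀ d, d ≤ u → ((∃ e, e ≤ u ∧ u = d * e) → (d = 1 ∨ ∃ f, f ≤ d ∧ d = 2 * f))))) ?_
    (fun X v => oddp_iff (s v) (t v))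
  refine RudX.and' ?_ ?_
  · exact RudX.ex hs (P := fun _ v j => s v = 2 * j + 1)
      (RudX.eq hs.tail (((Helper20.Spectra.IsPoly.const 2).mul (IsPoly.var 0)).add (Helper20.Spectra.IsPoly.const 1)))
  · refine RudX.ex (ht.add (Helper20.Spectra.IsPoly.const 1)) (P := fun _ v u => (t v + 1 = s v * u ∧
      ∀ d, d ≤ u → ((∃ e, e ≤ u ∧ u = d * e) → (d = 1 ∨ ∃ f, f ≤ d ∧ d = 2 * f)))) ?_
    refine RudX.and' ?_ ?_
    · exact RudX.eq (ht.tail.add (Helper20.Spectra.IsPoly.const 1)) (hs.tail.mul (IsPoly.var 0))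
    · refine RudX.all (t := fun w : Fin (k + 1) → ℕ => w 0) (IsPoly.var 0)
        (P := fun _ w d => ((∃ e, e ≤ w 0 ∧ w 0 = d * e) → (d = 1 ∨ ∃ f, f ≤ d ∧ d = 2 * f))) ?_
      refine RudX.imp ?_ (RudX.or ?_ ?_)
      · refine RudX.ex (t := fun w : Fin (k + 1 + 1) → ℕ => w 1) (IsPoly.var 1)
          (P := fun _ w e => w 1 = w 0 * e) ?_
        exact RudX.eq (s := fun w : Fin (k + 1 + 1 + 1) → ℕ => w 2)
          (t := fun w => w 1 * w 0) (IsPoly.var 2) ((IsPoly.var 1).mul (IsPoly.var 0))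
      · exact RudX.eq (IsPoly.var 0) (Helper20.Spectra.IsPoly.const 1)
      · refine RudX.ex (t := fun w : Fin (k + 1 + 1) → ℕ => w 0) (IsPoly.var 0)
          (P := fun _ w f => w 0 = 2 * f) ?_
        exact RudX.eq (s := fun w : Fin (k + 1 + 1 + 1) → ℕ => w 1)
          (t := fun w => 2 * w 0) (IsPoly.var 1) ((Helper20.Spectra.IsPoly.const 2).mul (IsPoly.var 0))

private lemma oddp_le (T : ℕ) : oddp (T + 1) ≤ T + 1 := Nat.div_le_self _ _

theorem cn_oddp {β : Type} {b : β → ℕ} {k : ℕ} {g : SOA b → (Fin (k + 1) → ℕ) → ℕ}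
    (h : Cn b (k + 1) g) {t : (Fin k → ℕ) → ℕ} (ht : IsPoly k t) :
    Cn b k (fun Y v => g Y (Fin.cons (oddp (t v + 1)) v)) := by
  have h1 := cn_ind (rudX_oddp (b := b) (s := fun w : Fin (k + 1) → ℕ => w 0)
    (t := fun w => t (Fin.tail w)) (IsPoly.var 0) ht.tail)
  have h2 := cn_sum (cn_mul h1 h) (ht.add (Helper20.Spectra.IsPoly.const 2))
  convert h2 using 1
  funext Y v
  simp only [Fin.cons_zero, Fin.tail_cons, ite_mul, one_mul, zero_mul]
  rw [Finset.sum_ite_eq' (Finset.range (t v + 2)) (oddp (t v + 1))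
    (fun x => g Y (Fin.cons x v)), if_pos]
  rw [Finset.mem_range]
  have := oddp_le (t v)
  omega

private lemma cn_pred {β : Type} {b : β → ℕ} {k : ℕ} {t : (Fin k → ℕ) → ℕ} (ht : IsPoly k t) :
    Cn b k (fun _ v => t v - 1) := by
  have h1 := cn_ind (RudX.le (a := b) (k := k + 1) (s := fun _ => 1)
    (t := fun w : Fin (k + 1) → ℕ => w 0) (Helper20.Spectra.IsPoly.const 1) (IsPoly.var 0))
  have h2 := cn_sum h1 ht
  convert h2 using 1
  funext Y v
  simp only [Fin.cons_zero]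
  have key : ∀ n : ℕ, n - 1 = ∑ x ∈ Finset.range n, (if 1 ≤ x then 1 else 0) := by
    intro n
    induction n with
    | zero => simp
    | succ n ih =>
      rw [Finset.sum_range_succ, ← ih]
      rcases n with _ | n
      · simp
      · simp
  convert key (t v) using 2

private lemma isPoly_Lp {k : ℕ} (i : Fin k) : IsPoly k (fun v => Lp (v i)) :=
  ((Helper20.Spectra.IsPoly.const 2).mul ((IsPoly.var i).pow 3)).add (Helper20.Spectra.IsPoly.const 2)

theorem cn_Y : Cn noV 1 (fun _ v => ∏ i ∈ Finset.range (v 0), invc (Lp (v 0)) (oddp (i + 1))) := by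
  have h1 : Cn noV 4 (fun _ x => ((2 ^ Lp (x 3) - 1) * (x 1 - 1)) ^ x 0) :=
    cn_pow (cn_mul (cn_two_pow_sub (isPoly_Lp 3)) (cn_pred (IsPoly.var 1))) (IsPoly.var 0)
  have h2 : Cn noV 3 (fun _ u => invc (Lp (u 2)) (u 0)) :=
    cn_sum h1 (isPoly_Lp (2 : Fin 3))
  have h3 : Cn noV 2 (fun _ w => invc (Lp (w 1)) (oddp (w 0 + 1))) :=
    cn_oddp h2 (IsPoly.var 0)
  exact cn_prod h3 (IsPoly.var 0)

theorem digit_of {G : SOA noV → (Fin 1 → ℕ) → ℕ} (hG : Cn noV 1 G) :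
    ∃ F : SOA noV → (Fin 1 → ℕ) → ℕ, Cn noV 1 F ∧ ∀ n B : ℕ,
      G nil (fun _ => n) ≡ B [MOD 2 ^ Lp n] →
      (n.factorial * F nil (fun _ => n)).testBit (n ^ 3) = B.testBit (posN n) := by
  refine ⟨_, cn_mul cn_Y hG, ?_⟩
  intro n B hB
  have h1 := (fact_inv n (Lp n)).mul_right (G nil (fun _ => n))
  rw [mul_assoc] at h1
  have h2 := pos_card n
  have h3 : posN n < Lp n := by
    have : Lp n = 2 * n ^ 3 + 2 := rfl
    omega
  have h4 := digit_shift h1 hB h3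
  rw [← h4, ← h2, add_comm]

end Pool.Agent.Helper38.DG
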