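import Pool.Agent.Helper38.DG.NumM

/-!
# Counting functions and numbers of models
-/

set_option autoImplicit false

namespace Pool.Agent.Helper38.DG

open FirstOrder FirstOrder.Language Pool.Agent.Helper20.Spectra TupSys
open scoped Classical

section Models

variable {ι : Type} {a : ι → ℕ} {K n : ℕ}

/-- the standard interpretation given by an assignment -/
def stdI (K n : ℕ) (X : SOA a) : Interp (ASym ι) (aar a K) (Fin n) := fun s =>
  match s with
  | .lt => fun u => (show Fin 2 → Fin n from u) 0 < (show Fin 2 → Fin n from u) 1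
  | .add => fun u => ∃ x y z : Fin (K + 1) → Fin n, u = flat (b := 3) ![x, y, z] ∧
      col x + col y = col z
  | .mul => fun u => ∃ x y z : Fin (K + 1) → Fin n, u = flat (b := 3) ![x, y, z] ∧
      col x * col y = col z
  | .so i => fun u => ∃ w : Fin (a i) → Fin (K + 1) → Fin n, u = flat w ∧
      X i (fun j => col (w j))

lemma flat3_inj {x y z x' y' z' : Fin (K + 1) → Fin n}
    (h : flat (b := 3) ![x, y, z] = flat (b := 3) ![x', y', z']) : x = x' ∧ y = y' ∧ z = z' := by
  have h3 := flat_inj h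
  exact ⟨congrFun h3 0, congrFun h3 1, congrFun h3 2⟩

lemma stdI_std (X : SOA a) : Std (stdI K n X) := by
  refine ⟨fun x y => Iff.rfl, fun x y z => ?_, fun x y z => ?_⟩
  · constructor
    · rintro ⟨x', y', z', h1, h2⟩
      obtain ⟨e0, e1, e2⟩ := flat3_inj h1
      rw [e0, e1, e2]; exact h2
    · intro h1; exact ⟨x, y, z, rfl, h1⟩
  · constructor
    · rintro ⟨x', y', z', h1, h2⟩
      obtain ⟨e0, e1, e2⟩ := flat3_inj h1
      rw [e0, e1, e2]; exact h2
    · intro h1; exact ⟨x, y, z, rfl, h1⟩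

lemma stdI_so (X : SOA a) (i : ι) (w : Fin (a i) → Fin (K + 1) → Fin n) :
    soR (stdI K n X) i w ↔ X i (fun j => col (w j)) := by
  constructor
  · rintro ⟨w', h1, h2⟩
    rw [flat_inj h1]; exact h2
  · intro h1; exact ⟨w, rfl, h1⟩

lemma flat3_surj (u : Fin (3 * (K + 1)) → Fin n) :
    ∃ x y z : Fin (K + 1) → Fin n, u = flat (b := 3) ![x, y, z] := by
  refine ⟨fun j => u (finProdFinEquiv ((0 : Fin 3), j)),
    fun j => u (finProdFinEquiv ((1 : Fin 3), j)),
    fun j => u (finProdFinEquiv ((2 : Fin 3), j)), ?_⟩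
  conv_lhs => rw [← flat_surj (b := 3) u]
  refine congrArg (flat (b := 3)) ?_
  funext i
  fin_cases i <;> rfl

lemma std_ext {R R' : Interp (ASym ι) (aar a K) (Fin n)} (hR : Std R) (hR' : Std R')
    (hso : ∀ i w, soR R i w ↔ soR R' i w) : R = R' := by
  funext s
  cases s with
  | lt =>
    funext u
    have hu : u = ![(show Fin 2 → Fin n from u) 0, (show Fin 2 → Fin n from u) 1] := by
      funext i
      change Fin 2 at i
      fin_cases i <;> rfl
    rw [hu]
    exact propext ((hR.lt _ _).trans (hR'.lt _ _).symm)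
  | add =>
    funext u
    obtain ⟨x, y, z, rfl⟩ := flat3_surj u
    exact propext ((hR.add x y z).trans (hR'.add x y z).symm)
  | mul =>
    funext u
    obtain ⟨x, y, z, rfl⟩ := flat3_surj u
    exact propext ((hR.mul x y z).trans (hR'.mul x y z).symm)
  | so i =>
    funext u
    have hu := flat_surj (b := a i) (K := K) u
    rw [← hu]
    exact propext (hso i _)

/-- the values of all variables are less than the value of `z` -/
def bdR {M : Type} (R : Interp (ASym ι) (aar a K) M) (z : Fin (K + 1) → M) : Prop :=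
  ∀ i : ι, ∀ w : Fin (a i) × Fin (K + 1) → M, soR R i (fun j l => w (j, l)) →
    ∀ j : Fin (a i), ∃ y : Fin (K + 1) → M, ¬ zeroT R y ∧ addR R (fun l => w (j, l)) y z

lemma bdR_FD [Finite ι] {α : Type} {e : ∀ (M : Type), (α → M) → (Fin (K + 1) → M)}
    (h : Pj α _ e) : FD (ASym ι) (aar a K) α (fun M R v => bdR R (e M v)) := by
  unfold bdR
  refine FD.all_fin (fun i => FD.all (FD.imp (soR_FD i (fun j => ?_)) (FD.all_fin (fun j =>
    FD.ex (FD.and (FD.not (zeroT_FD Pj.inr)) (addR_FD ?_ Pj.inr (Pj.inl (Pj.inl h))))))))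
  · exact ⟨fun l => Sum.inr (j, l), fun M v => rfl⟩
  · exact ⟨fun l => Sum.inl (Sum.inr (j, l)), fun M v => rfl⟩

lemma bdR_iff {R : Interp (ASym ι) (aar a K) (Fin n)} (hR : Std R) {X : SOA a}
    (hso : ∀ i w, soR R i w ↔ X i (fun j => col (w j))) (z : Fin (K + 1) → Fin n) :
    bdR R z ↔ ∀ i (w : Fin (a i) → Fin (K + 1) → Fin n), X i (fun j => col (w j)) →
      ∀ j, col (w j) < col z := by
  unfold bdR
  apply forall_congr'
  intro i
  constructor
  · intro h w hw j
    obtain ⟨y, h1, h2⟩ := h (fun q => w q.1 q.2) ((hso i _).2 hw) j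
    rw [zeroT_iff hR.lt] at h1
    rw [hR.add] at h2
    have h3 : col (w j) + col y = col z := h2
    omega
  · intro h w hw j
    have h1 := h (fun j l => w (j, l)) ((hso i _).1 hw) j
    have h2 := col_lt z
    obtain ⟨y, hy⟩ := exists_col (K := K) (m := n) (N := col z - col (fun l => w (j, l)))
      (by omega)
    refine ⟨y, ?_, ?_⟩
    · rw [zeroT_iff hR.lt]; omega
    · rw [hR.add]; omega

/-- Numbers of models and numbers of assignments. -/
theorem models_countR {ι : Type} [Finite ι] {a : ι → ℕ} {p : (Fin 1 → ℕ) → ℕ} (hp : IsPoly 1 p)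
    {P : SOA a → (Fin 1 → ℕ) → Prop} (h : RudX a 1 P) :
    ∃ (S : Type) (_ : Finite S) (ar : S → ℕ) (φ : (RelLang S ar).Sentence), ∀ n, 2 ≤ n →
        numModels φ n = n.factorial *
          cnt (p (fun _ => n)) (fun X : SOA a => P X (fun _ => n)) := by
  obtain ⟨q, hq⟩ := hp
  obtain ⟨K0, h0⟩ := h.main 2
  obtain ⟨K1, h1⟩ := poly_UDT a q 2
  obtain ⟨K, hK0, hK1, hK⟩ : ∃ K, K0 ≤ K ∧ K1 ≤ K ∧ 1 ≤ K :=
    ⟨max (max K0 K1) 1, by omega, by omega, by omega⟩
  obtain ⟨Q, hQ, hQ'⟩ := h0 K hK0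
  obtain ⟨b1, Q1, hQ1, hQ1'⟩ := h1 K hK1
  let S : ∀ (M : Type), Interp (ASym ι) (aar a K) M → (Empty → M) → Prop := fun M R _ =>
    ∃ x : Fin (K + 1) → M, sizeT R x ∧ Q M R (fun _ => x) ∧
      ∃ z : Fin (K + 1) → M, Q1 M R (Fin.cons z (fun _ => x)) ∧ bdR R z
  have hS : FD (ASym ι) (aar a K) Empty S := by
    refine FD.ex (FD.and (sizeT_FD Pj.inr) (FD.and (hQ.app (fun i => Pj.inr)) (FD.ex (FD.and
      (hQ1.app ?_) (bdR_FD Pj.inr)))))
    intro i
    refine Fin.cases ?_ (fun i => ?_) i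
    · exact Pj.inr
    · exact Pj.inl Pj.inr
  obtain ⟨φ, hφ⟩ := numModels_card (AxA_FD.and hS)
  refine ⟨ASym ι, inferInstance, aar a K, φ, fun n hn => ?_⟩
  rw [hφ]
  have e1 := orders_card hS n
  refine e1.trans ?_
  congr 1
  have hn2 : n < n ^ 2 := by
    calc n = n ^ 1 := (pow_one n).symm
      _ < n ^ 2 := Nat.pow_lt_pow_right (by omega) (by omega)
  have hnK : n < n ^ (K + 1) := by
    calc n = n ^ 1 := (pow_one n).symm
      _ < n ^ (K + 1) := Nat.pow_lt_pow_right (by omega) (by omega)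
  have hpn : p (fun _ => n) < n ^ (K + 1) := by
    rw [← hq]
    exact b1 n hn _ (fun _ => hn2)
  -- the condition for standard interpretations
  have key : ∀ (R : Interp (ASym ι) (aar a K) (Fin n)), Std R → ∀ X : SOA a,
      (∀ i w, soR R i w ↔ X i (fun j => col (w j))) →
      (S (Fin n) R Empty.elim ↔ P X (fun _ => n) ∧
        ∀ i (w : Fin (a i) → Fin (K + 1) → Fin n), X i (fun j => col (w j)) →
          ∀ j, col (w j) < p (fun _ => n)) := by
    intro R hR X hX
    constructor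
    · rintro ⟨x, h2, h3, z, h4, h5⟩
      rw [sizeT_iff hK hn hR] at h2
      have hx : ∀ i : Fin 1, col x < n ^ 2 := fun _ => by rw [h2]; exact hn2
      rw [hQ' n hn R hR X hX (fun _ => x) hx] at h3
      rw [hQ1' n hn R hR z (fun _ => x) hx] at h4
      rw [bdR_iff hR hX] at h5
      simp only [h2, hq] at h3 h4
      refine ⟨h3, ?_⟩
      rw [← h4]
      exact h5
    · rintro ⟨h3, h5⟩
      obtain ⟨x, hx⟩ := exists_col (K := K) (m := n) hnK
      obtain ⟨z, hz⟩ := exists_col (K := K) (m := n) hpn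
      have hx2 : ∀ i : Fin 1, col x < n ^ 2 := fun _ => by rw [hx]; exact hn2
      refine ⟨x, (sizeT_iff hK hn hR x).2 hx, ?_, z, ?_, ?_⟩
      · rw [hQ' n hn R hR X hX (fun _ => x) hx2]
        simp only [hx]
        exact h3
      · rw [hQ1' n hn R hR z (fun _ => x) hx2]
        simp only [hx, hq]
        exact hz
      · rw [bdR_iff hR hX, hz]
        exact h5
  symm
  unfold cnt
  refine Nat.card_congr (Equiv.ofBijective
    (fun X : {X : SOA a // Bd (p (fun _ => n)) X ∧ P X (fun _ => n)} =>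
      (⟨stdI K n X.1, stdI_std X.1, (key _ (stdI_std X.1) X.1 (stdI_so X.1)).2
        ⟨X.2.2, fun i w hw j => X.2.1 i _ hw j⟩⟩ :
        {R : Interp (ASym ι) (aar a K) (Fin n) // Std R ∧ S (Fin n) R Empty.elim})) ⟨?_, ?_⟩)
  · rintro ⟨X, hX, hPX⟩ ⟨X', hX', hPX'⟩ hXX
    have h2 : stdI K n X = stdI K n X' := congrArg Subtype.val hXX
    apply Subtype.ext
    show X = X'
    have h3 : ∀ (Y Y' : SOA a), Bd (p (fun _ => n)) Y → stdI K n Y = stdI K n Y' →
        ∀ i w, Y i w → Y' i w := by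
      intro Y Y' hY hYY i w hw
      have h4 : ∀ j, ∃ u : Fin (K + 1) → Fin n, col u = w j := fun j =>
        exists_col ((hY i w hw j).trans hpn)
      choose u hu using h4
      have h5 : (fun j => col (u j)) = w := funext hu
      rw [← h5] at hw ⊢
      have h6 := (stdI_so (K := K) (n := n) Y i u).2 hw
      rw [hYY] at h6
      exact (stdI_so Y' i u).1 h6
    funext i w
    exact propext ⟨h3 X X' hX h2 i w, h3 X' X hX' h2.symm i w⟩
  · rintro ⟨R, hR, hSR⟩
    let X : SOA a := fun i w => ∃ u : Fin (a i) → Fin (K + 1) → Fin n,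
      (fun j => col (u j)) = w ∧ soR R i u
    have hso : ∀ i w, soR R i w ↔ X i (fun j => col (w j)) := by
      intro i w
      constructor
      · intro h3; exact ⟨w, rfl, h3⟩
      · rintro ⟨u, h3, h4⟩
        have : u = w := by
          funext j
          exact col_inj (congrFun h3 j)
        rw [← this]; exact h4
    obtain ⟨h2, h3⟩ := (key R hR X hso).1 hSR
    refine ⟨⟨X, ?_, h2⟩, ?_⟩
    · rintro i w ⟨u, rfl, hu⟩ j
      exact h3 i u ⟨u, rfl, hu⟩ j
    · apply Subtype.ext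
      show stdI K n X = R
      exact std_ext (stdI_std X) hR (fun i w => (stdI_so X i w).trans (hso i w).symm)

end Models

/-- `cn_models`, with a relational vocabulary -/
theorem cn_models_rel {F : SOA noV → (Fin 1 → ℕ) → ℕ} (h : Cn noV 1 F) :
    ∃ (S : Type) (_ : Finite S) (ar : S → ℕ) (φ : (RelLang S ar).Sentence), ∀ n, 2 ≤ n →
        numModels φ n = n.factorial * F nil (fun _ => n) := by
  obtain ⟨ι, hι, a, p, P, hp, hP, hF⟩ := h
  obtain ⟨S, i1, ar, φ, hφ⟩ := models_countR hp hP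
  refine ⟨S, i1, ar, φ, fun n hn => ?_⟩
  rw [hφ n hn, hF]
  congr 1
  symm
  unfold cnt
  refine Nat.card_congr (Equiv.ofBijective
    (fun X : {X : SOA a // Bd (p (fun _ => n)) X ∧ P (jn nil X) (fun _ => n)} =>
      (⟨jn nil X.1, ?_, X.2.2⟩ : {X : SOA (Sum.elim noV a) //
        Bd (p (fun _ => n)) X ∧ P X (fun _ => n)})) ⟨?_, ?_⟩)
  · rintro (i | i) w hw j
    · exact i.elim
    · exact X.2.1 i w hw j
  · rintro ⟨X, hX, hPX⟩ ⟨X', hX', hPX'⟩ hXX
    have h2 : jn nil X = jn nil X' := congrArg Subtype.val hXX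
    apply Subtype.ext
    show X = X'
    funext i
    exact congrFun h2 (Sum.inr i)
  · rintro ⟨Y, hY, hPY⟩
    let X : SOA a := fun i => Y (Sum.inr i)
    have h3 : jn nil X = Y := by
      funext i
      rcases i with i | i
      · exact i.elim
      · rfl
    have h4 : P (jn nil X) (fun _ => n) := by rw [h3]; exact hPY
    exact ⟨⟨X, fun i w hw j => hY (Sum.inr i) w hw j, h4⟩, Subtype.ext h3⟩

theorem cn_models {F : SOA noV → (Fin 1 → ℕ) → ℕ} (h : Cn noV 1 F) :
    ∃ (L : FirstOrder.Language.{0, 0}) (_ : Finite (Σ l, L.Functions l))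
      (_ : Finite (Σ l, L.Relations l)) (φ : L.Sentence), ∀ n, 2 ≤ n →
        numModels φ n = n.factorial * F nil (fun _ => n) := by
  obtain ⟨S, i1, ar, φ, hφ⟩ := cn_models_rel h
  exact ⟨RelLang S ar, inferInstance, inferInstance, φ, hφ⟩

end Pool.Agent.Helper38.DG
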