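import Mathlib

/-!
# Counting labelled structures along a faithful construction
-/

set_option autoImplicit false

namespace Pool.Agent.Helper38.DG

theorem orbit_count {G H X Y : Type} [Group G] [Group H] [MulAction G X] [MulAction H Y]
    [Finite G] [Finite H] [Finite X] [Finite Y] (F : X → Y) (ι : G →* H)
    (hι : Function.Injective ι) (h1 : ∀ g x, F (g • x) = ι g • F x)
    (h2 : ∀ x x' (h : H), h • F x = F x' → ∃ g, h = ι g ∧ g • x = x')
    (h3 : ∀ y, ∃ (h : H) (x : X), h • F x = y) :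
    Nat.card Y * Nat.card G = Nat.card H * Nat.card X := by
  classical
  let p : H × X → Y := fun z => z.1 • F z.2
  have e1 : (H × X) ≃ Σ y : Y, {z : H × X // p z = y} := (Equiv.sigmaFiberEquiv p).symm
  have hfib : ∀ y : Y, Nonempty (G ≃ {z : H × X // p z = y}) := by
    intro y
    obtain ⟨h₀, x₀, hy⟩ := h3 y
    refine ⟨Equiv.ofBijective (fun g => ⟨(h₀ * (ι g)⁻¹, g • x₀), ?_⟩) ⟨?_, ?_⟩⟩
    · show (h₀ * (ι g)⁻¹) • F (g • x₀) = y
      rw [h1, mul_smul, inv_smul_smul, hy]
    · intro g g' hg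
      have h4 : h₀ * (ι g)⁻¹ = h₀ * (ι g')⁻¹ := congrArg (fun z => z.1.1) hg
      exact hι (inv_injective (mul_left_cancel h4))
    · rintro ⟨⟨h, x⟩, hz⟩
      have hz' : h • F x = y := hz
      have h5 : (h⁻¹ * h₀) • F x₀ = F x := by
        rw [mul_smul, hy, ← hz', inv_smul_smul]
      obtain ⟨g, hg, hgx⟩ := h2 _ _ _ h5
      refine ⟨g, Subtype.ext (Prod.ext ?_ hgx)⟩
      show h₀ * (ι g)⁻¹ = h
      rw [← hg]
      group
  have e2 : (Σ y : Y, {z : H × X // p z = y}) ≃ Y × G :=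
    (Equiv.sigmaCongrRight (fun y => (Classical.choice (hfib y)).symm)).trans
      (Equiv.sigmaEquivProd Y G)
  have h6 := Nat.card_congr (e1.trans e2)
  rw [Nat.card_prod, Nat.card_prod] at h6
  exact h6.symm

end Pool.Agent.Helper38.DG
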