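import Pool.Agent.Helper38.DG.CnSum
import Pool.Agent.Helper38.DG.CnProd

/-!
# Digits of the number of models, DG8: simple closure of `Rep`
-/

set_option autoImplicit false

namespace Pool.Agent.Helper38.DG

open FirstOrder FirstOrder.Language Pool.Agent.Helper20.Spectra
open scoped Classical

/-! ### counting -/

private lemma card_le {n : ℕ} {p q : (Fin n → Fin n → Bool) → Prop} (h : ∀ r, p r → q r) :
    Nat.card {r : Fin n → Fin n → Bool // p r} ≤ Nat.card {r : Fin n → Fin n → Bool // q r} :=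
  Nat.card_le_card_of_injective (fun x => ⟨x.1, h x.1 x.2⟩) (fun _ _ hxy =>
    Subtype.ext (congrArg (fun z : {r : Fin n → Fin n → Bool // q r} => z.1) hxy))

private lemma card_eq {n : ℕ} (p : (Fin n → Fin n → Bool) → Prop) :
    Nat.card {r : Fin n → Fin n → Bool // p r} = (Finset.univ.filter p).card := by
  rw [Nat.card_eq_fintype_card, Fintype.card_subtype]

private lemma card_or {n : ℕ} {p q u : (Fin n → Fin n → Bool) → Prop} (h : ∀ r, u r → p r ∨ q r) :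
    Nat.card {r : Fin n → Fin n → Bool // u r} ≤ Nat.card {r : Fin n → Fin n → Bool // p r} +
      Nat.card {r : Fin n → Fin n → Bool // q r} := by
  rw [card_eq, card_eq, card_eq]
  refine (Finset.card_le_card ?_).trans (Finset.card_union_le _ _)
  intro r hr
  simp only [Finset.mem_union, Finset.mem_filter, Finset.mem_univ, true_and] at hr ⊢
  exact h r hr

private lemma card_ex {n : ℕ} {u : (Fin n → Fin n → Bool) → Prop}
    {q : ℕ → (Fin n → Fin n → Bool) → Prop} (h : ∀ r, u r → ∃ x < n, q x r) :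
    Nat.card {r : Fin n → Fin n → Bool // u r} ≤
      ∑ x ∈ Finset.range n, Nat.card {r : Fin n → Fin n → Bool // q x r} := by
  rw [card_eq]
  simp only [card_eq]
  refine (Finset.card_le_card ?_).trans Finset.card_biUnion_le
  intro r hr
  simp only [Finset.mem_biUnion, Finset.mem_filter, Finset.mem_univ, true_and,
    Finset.mem_range] at hr ⊢
  exact h r hr

private lemma one_le_M (s : ℕ → ℕ) (n : ℕ) : (1 : ℝ) ≤ (smallN s n : ℝ) * (n + 1) := by
  have h1 : (1 : ℝ) ≤ (smallN s n : ℝ) := by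
    have : 1 ≤ smallN s n := Nat.one_le_pow _ _ (Nat.succ_pos n)
    exact_mod_cast this
  have h2 : (0 : ℝ) ≤ (n : ℝ) := Nat.cast_nonneg n
  nlinarith

private lemma le_M (s : ℕ → ℕ) (n : ℕ) : (n : ℝ) ≤ (smallN s n : ℝ) * (n + 1) := by
  have h1 : (1 : ℝ) ≤ (smallN s n : ℝ) := by
    have : 1 ≤ smallN s n := Nat.one_le_pow _ _ (Nat.succ_pos n)
    exact_mod_cast this
  have h2 : (0 : ℝ) ≤ (n : ℝ) := Nat.cast_nonneg n
  nlinarith

private lemma frac_nonneg (s : ℕ → ℕ) (n : ℕ) : (0 : ℝ) ≤ (1 - 1 / 2 ^ (s n)) ^ n := by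
  refine pow_nonneg ?_ n
  have h1 : (1 : ℝ) ≤ 2 ^ (s n) := one_le_pow₀ (by norm_num)
  have h2 : (1 : ℝ) / 2 ^ (s n) ≤ 1 := by
    rw [div_le_one (by positivity)]
    exact h1
  linarith

/-! ### the constant one -/

private lemma cn_one {β : Type} {b : β → ℕ} {k : ℕ} : Cn b k (fun _ _ => 1) := by
  have h := cn_ind (b := b) (RudX.const (a := b) (k := k) True)
  simpa using h

/-! ### atoms -/

private lemma rep_rud (s : ℕ → ℕ) (j k : ℕ) {P : ℕ → (Fin j → Set ℕ) → (Fin k → ℕ) → Prop}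
    (Q : SOA (tdAr j) → (Fin (k + 1) → ℕ) → Prop) (hQ : RudX (tdAr j) (k + 1) Q)
    (h : ∀ (n : ℕ) (r : Fin n → Fin n → Bool) (Z : Fin j → Set ℕ) (v : Fin k → ℕ),
      Q (tdAs r Z) (Fin.cons n v) ↔ P n Z v) :
    Rep s j k P := by
  refine ⟨fun Y v => if Q Y v then 1 else 0, 0, cn_ind hQ, ?_⟩
  intro n hn Z hZ v hv
  have he : IsEmpty {r : Fin n → Fin n → Bool //
      ¬ ((if Q (tdAs r Z) (Fin.cons n v) then 1 else 0) % 2 = 1 ↔ P n Z v)} := by
    refine ⟨fun r => r.2 ?_⟩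
    have hh := h n r.1 Z v
    by_cases hq : Q (tdAs r.1 Z) (Fin.cons n v)
    · simp [hq, hh.mp hq]
    · have hq' : ¬ P n Z v := fun hp => hq (hh.mpr hp)
      simp [hq, hq']
  rw [Nat.card_of_isEmpty]
  simp

theorem rep_add (s : ℕ → ℕ) (j k : ℕ) (x y z : Fin k) :
    Rep s j k (fun _ _ v => v x + v y = v z) := by
  refine rep_rud s j k (fun _ w => w x.succ + w y.succ = w z.succ)
    (RudX.eq ((IsPoly.var x.succ).add (IsPoly.var y.succ)) (IsPoly.var z.succ)) ?_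
  intro n r Z v
  simp only [Fin.cons_succ]

theorem rep_mul (s : ℕ → ℕ) (j k : ℕ) (x y z : Fin k) :
    Rep s j k (fun _ _ v => v x * v y = v z) := by
  refine rep_rud s j k (fun _ w => w x.succ * w y.succ = w z.succ)
    (RudX.eq ((IsPoly.var x.succ).mul (IsPoly.var y.succ)) (IsPoly.var z.succ)) ?_
  intro n r Z v
  simp only [Fin.cons_succ]

theorem rep_mem (s : ℕ → ℕ) (j k : ℕ) (x : Fin k) (i : Fin j) :
    Rep s j k (fun _ Z v => v x ∈ Z i) := by
  refine rep_rud s j k (fun X w => X (some i) (fun _ => w x.succ))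
    (RudX.so' (a := tdAr j) (some i) (t := fun _ w => w x.succ) (fun _ => IsPoly.var x.succ)) ?_
  intro n r Z v
  exact Iff.rfl

/-! ### connectives -/

theorem rep_not (s : ℕ → ℕ) (j k : ℕ) (P : ℕ → (Fin j → Set ℕ) → (Fin k → ℕ) → Prop)
    (h : Rep s j k P) : Rep s j k (fun n Z v => ¬ P n Z v) := by
  obtain ⟨C, e, hC, hb⟩ := h
  refine ⟨fun Y v => 1 + C Y v, e, cn_add cn_one hC, ?_⟩
  intro n hn Z hZ v hv
  refine le_trans ?_ (hb n hn Z hZ v hv)
  refine Nat.cast_le.mpr (card_le ?_)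
  intro r hr hr'
  apply hr
  show (1 + C (tdAs r Z) (Fin.cons n v)) % 2 = 1 ↔ ¬ P n Z v
  rw [← hr']
  omega

theorem rep_and (s : ℕ → ℕ) (j k : ℕ) (P Q : ℕ → (Fin j → Set ℕ) → (Fin k → ℕ) → Prop)
    (h : Rep s j k P) (h' : Rep s j k Q) : Rep s j k (fun n Z v => P n Z v ∧ Q n Z v) := by
  obtain ⟨C, e, hC, hb⟩ := h
  obtain ⟨C', e', hC', hb'⟩ := h'
  refine ⟨fun Y v => C Y v * C' Y v, e + e', cn_mul hC hC', ?_⟩
  intro n hn Z hZ v hv
  have h1 := hb n hn Z hZ v hv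
  have h2 := hb' n hn Z hZ v hv
  have h3 : (Nat.card {r : Fin n → Fin n → Bool //
      ¬ (C (tdAs r Z) (Fin.cons n v) * C' (tdAs r Z) (Fin.cons n v) % 2 = 1 ↔
        P n Z v ∧ Q n Z v)} : ℝ) ≤
      (Nat.card {r : Fin n → Fin n → Bool //
        ¬ (C (tdAs r Z) (Fin.cons n v) % 2 = 1 ↔ P n Z v)} : ℝ) +
      (Nat.card {r : Fin n → Fin n → Bool //
        ¬ (C' (tdAs r Z) (Fin.cons n v) % 2 = 1 ↔ Q n Z v)} : ℝ) := by
    rw [← Nat.cast_add]
    refine Nat.cast_le.mpr (card_or ?_)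
    intro r hr
    by_contra hcon
    push Not at hcon
    obtain ⟨ha, hb⟩ := hcon
    apply hr
    rw [← ha, ← hb, ← Nat.odd_iff, ← Nat.odd_iff, ← Nat.odd_iff, Nat.odd_mul]
  refine h3.trans ((add_le_add h1 h2).trans ?_)
  set M : ℝ := (smallN s n : ℝ) * (n + 1) with hM
  have hM1 : 1 ≤ M := one_le_M s n
  have hf := frac_nonneg s n
  have hp1 : M ^ e ≤ M ^ (e + e') := pow_le_pow_right₀ hM1 (by omega)
  have hp2 : M ^ e' ≤ M ^ (e + e') := pow_le_pow_right₀ hM1 (by omega)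
  have hK : (0 : ℝ) ≤ (1 - 1 / 2 ^ (s n)) ^ n * 2 ^ (n * n) := mul_nonneg hf (by positivity)
  have he : (0 : ℝ) ≤ (e : ℝ) := Nat.cast_nonneg e
  have he' : (0 : ℝ) ≤ (e' : ℝ) := Nat.cast_nonneg e'
  have h4 : (e : ℝ) * M ^ e + e' * M ^ e' ≤ (e + e') * M ^ (e + e') := by
    rw [add_mul]
    exact add_le_add (mul_le_mul_of_nonneg_left hp1 he) (mul_le_mul_of_nonneg_left hp2 he')
  have h5 := mul_le_mul_of_nonneg_right h4 hK
  push_cast
  calc (e : ℝ) * M ^ e * (1 - 1 / 2 ^ (s n)) ^ n * 2 ^ (n * n) +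
        e' * M ^ e' * (1 - 1 / 2 ^ (s n)) ^ n * 2 ^ (n * n)
      = ((e : ℝ) * M ^ e + e' * M ^ e') * ((1 - 1 / 2 ^ (s n)) ^ n * 2 ^ (n * n)) := by ring
    _ ≤ (e + e') * M ^ (e + e') * ((1 - 1 / 2 ^ (s n)) ^ n * 2 ^ (n * n)) := h5
    _ = (e + e') * M ^ (e + e') * (1 - 1 / 2 ^ (s n)) ^ n * 2 ^ (n * n) := by ring

/-! ### quantifier over elements -/

/-- exchange of the first two variables -/
private def sw {k : ℕ} (u : Fin (k + 1 + 1) → ℕ) : Fin (k + 1 + 1) → ℕ :=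
  Fin.cons (u (Fin.succ 0)) (Fin.cons (u 0) (fun i => u i.succ.succ))

private lemma sw_cons {k : ℕ} (x n : ℕ) (v : Fin k → ℕ) :
    sw (Fin.cons x (Fin.cons n v)) = Fin.cons n (Fin.cons x v) := rfl

private lemma sw_poly {k : ℕ} (i : Fin (k + 1 + 1)) :
    IsPoly (k + 1 + 1) (fun u => sw u i) := by
  refine Fin.cases ?_ (fun i => ?_) i
  · exact IsPoly.var (Fin.succ 0)
  · refine Fin.cases ?_ (fun i => ?_) i
    · exact IsPoly.var 0
    · exact IsPoly.var i.succ.succ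

private lemma odd_one_add (a : ℕ) : Odd (1 + a) ↔ ¬ Odd a := by
  rw [Nat.odd_iff, Nat.odd_iff]
  omega

private lemma odd_prod (n : ℕ) (f : ℕ → ℕ) :
    Odd (∏ x ∈ Finset.range n, f x) ↔ ∀ x < n, Odd (f x) := by
  induction n with
  | zero => simp
  | succ n ih =>
    rw [Finset.prod_range_succ, Nat.odd_mul, ih]
    constructor
    · rintro ⟨h1, h2⟩ x hx
      rcases Nat.lt_succ_iff_lt_or_eq.mp hx with h | h
      · exact h1 x h
      · exact h ▸ h2
    · intro h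
      exact ⟨fun x hx => h x (Nat.lt_succ_of_lt hx), h n (Nat.lt_succ_self n)⟩

theorem rep_ex (s : ℕ → ℕ) (j k : ℕ) (P : ℕ → (Fin j → Set ℕ) → (Fin (k + 1) → ℕ) → Prop)
    (h : Rep s j (k + 1) P) : Rep s j k (fun n Z v => ∃ x, x < n ∧ P n Z (Fin.cons x v)) := by
  obtain ⟨C, e, hC, hb⟩ := h
  have hC1 : Cn (tdAr j) (k + 1 + 1) (fun Y u => C Y (sw u)) :=
    cn_subst hC (σ := fun i u => sw u i) (fun i => sw_poly i)
  have hC2 : Cn (tdAr j) (k + 1 + 1) (fun Y u => 1 + C Y (sw u)) := cn_add cn_one hC1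
  have hC3 := cn_prod hC2 (q := fun w => w 0) (IsPoly.var 0)
  refine ⟨_, e + 1, cn_add cn_one hC3, ?_⟩
  intro n hn Z hZ v hv
  have h3 : Nat.card {r : Fin n → Fin n → Bool //
      ¬ ((1 + ∏ x ∈ Finset.range ((Fin.cons n v : Fin (k + 1) → ℕ) 0),
        (1 + C (tdAs r Z) (sw (Fin.cons x (Fin.cons n v))))) % 2 = 1 ↔
          ∃ x, x < n ∧ P n Z (Fin.cons x v))} ≤
      ∑ x ∈ Finset.range n, Nat.card {r : Fin n → Fin n → Bool //
        ¬ (C (tdAs r Z) (Fin.cons n (Fin.cons x v)) % 2 = 1 ↔ P n Z (Fin.cons x v))} := by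
    refine card_ex ?_
    intro r hr
    by_contra hcon
    push Not at hcon
    apply hr
    rw [← Nat.odd_iff, odd_one_add, Fin.cons_zero, odd_prod]
    simp only [sw_cons, odd_one_add]
    push Not
    constructor
    · rintro ⟨x, hx, ho⟩
      exact ⟨x, hx, (hcon x hx).mp (Nat.odd_iff.mp ho)⟩
    · rintro ⟨x, hx, hP⟩
      exact ⟨x, hx, Nat.odd_iff.mpr ((hcon x hx).mpr hP)⟩
  have h3' : (Nat.card {r : Fin n → Fin n → Bool //
      ¬ ((1 + ∏ x ∈ Finset.range ((Fin.cons n v : Fin (k + 1) → ℕ) 0),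
        (1 + C (tdAs r Z) (sw (Fin.cons x (Fin.cons n v))))) % 2 = 1 ↔
          ∃ x, x < n ∧ P n Z (Fin.cons x v))} : ℝ) ≤
      ∑ x ∈ Finset.range n, (Nat.card {r : Fin n → Fin n → Bool //
        ¬ (C (tdAs r Z) (Fin.cons n (Fin.cons x v)) % 2 = 1 ↔ P n Z (Fin.cons x v))} : ℝ) := by
    rw [← Nat.cast_sum]
    exact Nat.cast_le.mpr h3
  set M : ℝ := (smallN s n : ℝ) * (n + 1) with hM
  have hM1 : 1 ≤ M := one_le_M s n
  have hMn : (n : ℝ) ≤ M := le_M s n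
  have hf := frac_nonneg s n
  have hK : (0 : ℝ) ≤ (1 - 1 / 2 ^ (s n)) ^ n * 2 ^ (n * n) := mul_nonneg hf (by positivity)
  have he : (0 : ℝ) ≤ (e : ℝ) := Nat.cast_nonneg e
  have h4 : ∀ x ∈ Finset.range n, (Nat.card {r : Fin n → Fin n → Bool //
        ¬ (C (tdAs r Z) (Fin.cons n (Fin.cons x v)) % 2 = 1 ↔ P n Z (Fin.cons x v))} : ℝ) ≤
      (e : ℝ) * M ^ e * (1 - 1 / 2 ^ (s n)) ^ n * 2 ^ (n * n) := by
    intro x hx
    refine hb n hn Z hZ (Fin.cons x v) ?_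
    intro i
    refine Fin.cases ?_ (fun i => ?_) i
    · exact Finset.mem_range.mp hx
    · exact hv i
  refine h3'.trans ((Finset.sum_le_sum h4).trans ?_)
  rw [Finset.sum_const, Finset.card_range, nsmul_eq_mul]
  have h5 : (n : ℝ) * (e * M ^ e) ≤ (e + 1) * M ^ (e + 1) := by
    have h6 : (n : ℝ) * (e * M ^ e) ≤ M * (e * M ^ e) :=
      mul_le_mul_of_nonneg_right hMn (by positivity)
    have h7 : M * (e * M ^ e) ≤ (e + 1) * M ^ (e + 1) := by
      rw [pow_succ]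
      have h8 : (0 : ℝ) ≤ M ^ e * M := by positivity
      nlinarith
    exact h6.trans h7
  have h6 := mul_le_mul_of_nonneg_right h5 hK
  push_cast
  calc (n : ℝ) * (e * M ^ e * (1 - 1 / 2 ^ (s n)) ^ n * 2 ^ (n * n))
      = (n : ℝ) * (e * M ^ e) * ((1 - 1 / 2 ^ (s n)) ^ n * 2 ^ (n * n)) := by ring
    _ ≤ (e + 1) * M ^ (e + 1) * ((1 - 1 / 2 ^ (s n)) ^ n * 2 ^ (n * n)) := h6
    _ = (e + 1) * M ^ (e + 1) * (1 - 1 / 2 ^ (s n)) ^ n * 2 ^ (n * n) := by ring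

end Pool.Agent.Helper38.DG
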