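import Pool.Agent.Helper38.DG.Base
import Pool.Agent.Helper38.DG.Pos
import Pool.Agent.Helper20.Spectra.SqSpec

/-!
# Digits of the number of models: counting arrays
-/

set_option autoImplicit false

namespace Pool.Agent.Helper38.DG

open FirstOrder FirstOrder.Language Pool.Agent.Helper20.Spectra
open scoped Classical

private lemma finite_pos (n : ℕ) : Finite {w : Fin 3 → ℕ // Pos n w} := by
  have h1 : {f : Fin 3 → ℕ | ∀ i, f i ∈ Set.Iio n}.Finite :=
    Set.Finite.pi' (fun _ => Set.finite_Iio n)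
  exact (h1.subset (fun w (hw : Pos n w) j => hw.1 j)).to_subtype

private lemma card_nonempty_sets {α : Type} (Q : α → Prop) (h : Finite {w : α // Q w}) :
    Nat.card {Z : α → Prop // (∀ w, Z w → Q w) ∧ ∃ w, Z w} = 2 ^ Nat.card {w : α // Q w} - 1 := by
  have e1 : {Z : α → Prop // (∀ w, Z w → Q w) ∧ ∃ w, Z w} ≃
      {S : Set {w : α // Q w} // S ≠ ∅} :=
    { toFun := fun Z => ⟨{w | Z.1 w.1}, by
        obtain ⟨Z, hZ, w, hw⟩ := Z
        exact Set.Nonempty.ne_empty ⟨⟨w, hZ w hw⟩, hw⟩⟩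
      invFun := fun S => ⟨fun w => ∃ h : Q w, (⟨w, h⟩ : {w : α // Q w}) ∈ S.1,
        fun w hw => hw.1, by
          obtain ⟨S, hS⟩ := S
          obtain ⟨w, hw⟩ := Set.nonempty_iff_ne_empty.2 hS
          exact ⟨w.1, w.2, hw⟩⟩
      left_inv := by
        rintro ⟨Z, hZ, hZ'⟩
        apply Subtype.ext
        funext w
        exact propext ⟨fun h => h.2, fun h => ⟨hZ w h, h⟩⟩
      right_inv := by
        rintro ⟨S, hS⟩
        apply Subtype.ext
        ext w
        exact ⟨fun h => h.2, fun h => ⟨w.2, h⟩⟩ }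
  rw [Nat.card_congr e1]
  have := Fintype.ofFinite {w : α // Q w}
  rw [Nat.card_eq_fintype_card, Nat.card_eq_fintype_card]
  have h2 : Fintype.card {S : Set {w : α // Q w} // S ≠ ∅} =
      Fintype.card (Set {w : α // Q w}) - Fintype.card {S : Set {w : α // Q w} // S = ∅} :=
    Fintype.card_subtype_compl (fun S : Set {w : α // Q w} => S = ∅)
  rw [h2, Fintype.card_set]
  congr 1

theorem cn_posSub : Cn noV 1 (fun _ v => 2 ^ posN (v 0) - 1) := by
  refine ⟨Unit, inferInstance, fun _ => 3, fun v => v 0,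
    fun X v => (∀ w : Fin 3 → ℕ, (∀ j, w j < v 0) → (X (.inr ()) w → Pos (v 0) w)) ∧
      ∃ w : Fin 3 → ℕ, (∀ j, w j < v 0) ∧ X (.inr ()) w, IsPoly.var 0, ?_, ?_⟩
  · have hX : RudX (Sum.elim noV (fun _ : Unit => 3)) (3 + 1)
        (fun X u => X (.inr ()) (fun j : Fin 3 => u (Fin.castAdd 1 j))) :=
      RudX.so' (a := Sum.elim noV (fun _ : Unit => 3)) (.inr ())
        (fun j => IsPoly.var (Fin.castAdd 1 j))
    have hP : RudX (Sum.elim noV (fun _ : Unit => 3)) (3 + 1)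
        (fun _ u => Pos (u (Fin.natAdd 3 0)) (fun j : Fin 3 => u (Fin.castAdd 1 j))) :=
      pos_rudX (IsPoly.var _) (fun j => IsPoly.var _)
    refine RudX.and' ?_ ?_
    · refine (rudX_allT (IsPoly.var 0) (hX.imp hP)).congr (fun X v => ?_)
      simp only [Fin.append_left, Fin.append_right]
    · refine (rudX_exT (IsPoly.var 0) hX).congr (fun X v => ?_)
      simp only [Fin.append_left]
  · intro Y v
    show 2 ^ posN (v 0) - 1 = _
    rw [posN, ← card_nonempty_sets _ (finite_pos (v 0)), cnt]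
    refine Nat.card_congr
      { toFun := fun Z => ⟨fun _ => Z.1, fun _ w hw => (Z.2.1 w hw).1,
          fun w _ hw => Z.2.1 w hw, ?_⟩
        invFun := fun X => ⟨X.1 (), fun w hw => X.2.2.1 w (X.2.1 () w hw) hw, ?_⟩
        left_inv := fun Z => rfl
        right_inv := fun X => rfl }
    · obtain ⟨w, hw⟩ := Z.2.2
      exact ⟨w, (Z.2.1 w hw).1, hw⟩
    · obtain ⟨w, _, hw⟩ := X.2.2.2
      exact ⟨w, hw⟩

/-- the number of the colourings of the `n × n` square -/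
private noncomputable def tg (Θ : Finset (ℕ × ℕ × ℕ × ℕ)) (C n : ℕ) : ℕ :=
  cnt (n + 2) (fun X : SOA (fun _ : Fin (C + 1) => 2) => SqCond Θ C X n)

private lemma cn_tg (Θ : Finset (ℕ × ℕ × ℕ × ℕ)) (C : ℕ) : Cn noV 1 (fun _ v => tg Θ C (v 0)) := by
  refine ⟨Fin (C + 1), inferInstance, fun _ => 2, fun v => v 0 + 2,
    fun X v => SqCond Θ C (fun c w => X (.inr c) w) (v 0),
    (IsPoly.var 0).add (Helper20.Spectra.IsPoly.const 2), ?_, fun Y v => rfl⟩
  have h1 : RudX (fun _ : Fin (C + 1) => 2) 1 (fun X v => SqCond Θ C X (v 0)) :=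
    SqCond_rudX Θ C (IsPoly.var 0)
  have h2 := rudX_substR (a' := Sum.elim noV (fun _ : Fin (C + 1) => 2)) h1 (d := 0) (m := 1)
    (Q := fun c X u => X (.inr c) (fun j : Fin 2 => u (Fin.castAdd 0 j)))
    (fun c => RudX.so' (a := Sum.elim noV (fun _ : Fin (C + 1) => 2)) (.inr c)
        (fun j => IsPoly.var (Fin.castAdd 0 j)))
    (σ := fun i v => v i) (fun i => IsPoly.var i) (τ := fun i _ => i.elim0) (fun i => i.elim0)
  refine h2.congr (fun X v => ?_)
  simp only [Fin.append_left]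

/-- restriction of an assignment -/
private def rst {ι : Type} {a : ι → ℕ} (B : ℕ) (X : SOA a) : SOA a :=
  fun i w => X i w ∧ ∀ j, w j < B

private lemma bd_rst {ι : Type} {a : ι → ℕ} (B : ℕ) (X : SOA a) : Bd B (rst B X) :=
  fun _ _ h => h.2

private lemma rst2 {C : ℕ} (n : ℕ) (X : SOA (fun _ : Fin (C + 1) => 2)) (c : Fin (C + 1))
    {x y : ℕ} (hx : x ≤ n + 1) (hy : y ≤ n + 1) : rst (n + 2) X c ![x, y] ↔ X c ![x, y] := by
  constructor
  · exact fun h => h.1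
  · intro h
    refine ⟨h, fun j => ?_⟩
    change Fin 2 at j
    fin_cases j
    · show x < n + 2; omega
    · show y < n + 2; omega

private lemma sqCond_rst (Θ : Finset (ℕ × ℕ × ℕ × ℕ)) (C n : ℕ)
    (X : SOA (fun _ : Fin (C + 1) => 2)) (h : SqCond Θ C X n) :
    SqCond Θ C (rst (n + 2) X) n := by
  obtain ⟨h0, h1, h2⟩ := h
  refine ⟨h0, fun x hx y hy => ?_, fun x hx y hy => ?_⟩
  · obtain ⟨⟨c, hc, hc'⟩, h3⟩ := h1 x hx y hy
    exact ⟨⟨c, (rst2 n X c hx hy).2 hc, fun c' h4 => hc' c' ((rst2 n X c' hx hy).1 h4)⟩,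
      (rst2 n X 0 hx hy).trans h3⟩
  · obtain ⟨θ, hθ, c, hc, h3, h4, h5, h6⟩ := h2 x hx y hy
    exact ⟨θ, hθ, c, hc, (rst2 n X _ (by omega) (by omega)).2 h3,
      (rst2 n X _ (by omega) (by omega)).2 h4, (rst2 n X _ (by omega) (by omega)).2 h5,
      (rst2 n X _ (by omega) (by omega)).2 h6⟩

private lemma tg_ne_zero (Θ : Finset (ℕ × ℕ × ℕ × ℕ)) (C n : ℕ) :
    tg Θ C n ≠ 0 ↔ ∃ X, SqCond Θ C X n := by
  have hf : Finite {X : SOA (fun _ : Fin (C + 1) => 2) // Bd (n + 2) X ∧ SqCond Θ C X n} :=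
    finite_bd _ _
  rw [tg, cnt, Nat.card_ne_zero]
  constructor
  · rintro ⟨⟨X, _, hX⟩, _⟩
    exact ⟨X, hX⟩
  · rintro ⟨X, hX⟩
    exact ⟨⟨⟨rst (n + 2) X, bd_rst _ _, sqCond_rst Θ C n X hX⟩⟩, hf⟩

private lemma tg_le (Θ : Finset (ℕ × ℕ × ℕ × ℕ)) (C n : ℕ) :
    tg Θ C n ≤ (C + 1) ^ (n * n) := by
  have hcol : ∀ X : {X : SOA (fun _ : Fin (C + 1) => 2) // Bd (n + 2) X ∧ SqCond Θ C X n},
      ∃ f : Fin n × Fin n → Fin (C + 1), ∀ x y : Fin n, ∀ c,
        (X.1 c ![(x : ℕ) + 1, (y : ℕ) + 1] ↔ c = f (x, y)) := by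
    intro X
    have h1 : ∀ p : Fin n × Fin n, ∃ d : Fin (C + 1), ∀ c,
        (X.1 c ![(p.1 : ℕ) + 1, (p.2 : ℕ) + 1] ↔ c = d) := by
      intro p
      obtain ⟨d, hd, hd'⟩ := (X.2.2.2.1 (p.1 + 1) (by omega) (p.2 + 1) (by omega)).1
      exact ⟨d, fun c => ⟨hd' c, fun h => h ▸ hd⟩⟩
    choose f hf using h1
    exact ⟨f, fun x y c => hf (x, y) c⟩
  choose F hF using hcol
  have hinj : Function.Injective F := by
    intro X X' h
    have key : ∀ (X X' : {X : SOA (fun _ : Fin (C + 1) => 2) // Bd (n + 2) X ∧ SqCond Θ C X n}),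
        F X = F X' → ∀ c (w : Fin 2 → ℕ), X.1 c w → X'.1 c w := by
      intro X X' h c w hw
      have hw1 : w = ![w 0, w 1] := by
        funext j
        fin_cases j <;> rfl
      have hb := X.2.1 c w hw
      have hb0 : w 0 < n + 2 := hb 0
      have hb1 : w 1 < n + 2 := hb 1
      by_cases hin : (1 ≤ w 0 ∧ w 0 ≤ n) ∧ (1 ≤ w 1 ∧ w 1 ≤ n)
      · obtain ⟨⟨a1, a2⟩, a3, a4⟩ := hin
        have e0 : w 0 = (⟨w 0 - 1, by omega⟩ : Fin n) + 1 := by simp; omega
        have e1 : w 1 = (⟨w 1 - 1, by omega⟩ : Fin n) + 1 := by simp; omega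
        rw [hw1, e0, e1] at hw ⊢
        rw [hF X] at hw
        rw [hF X', ← h]
        exact hw
      · have h0 := (X.2.2.2.1 (w 0) (by omega) (w 1) (by omega))
        have h0' := (X'.2.2.2.1 (w 0) (by omega) (w 1) (by omega))
        obtain ⟨d, hd, hd'⟩ := h0.1
        have e1 := hd' c (hw1 ▸ hw)
        have e2 := hd' 0 (h0.2.2 hin)
        have e3 := h0'.2.2 hin
        rw [e1, ← e2, hw1]
        exact e3
    apply Subtype.ext
    funext c w
    exact propext ⟨key X X' h c w, key X' X h.symm c w⟩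
  have h1 := Nat.card_le_card_of_injective F hinj
  rw [tg, cnt]
  refine h1.trans (le_of_eq ?_)
  rw [Nat.card_eq_fintype_card, Fintype.card_fun, Fintype.card_prod, Fintype.card_fin,
    Fintype.card_fin]

private lemma val_fact_le (n : ℕ) : padicValNat 2 n.factorial ≤ n := by
  have h1 := sub_one_mul_padicValNat_factorial (p := 2) n
  simp only [Nat.add_one_sub_one, one_mul] at h1
  omega

theorem cn_tiles (Θ : Finset (ℕ × ℕ × ℕ × ℕ)) :
    ∃ g : ℕ → ℕ, Cn noV 1 (fun _ v => g (v 0)) ∧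
      (∀ n, 1 ≤ n → (g n ≠ 0 ↔ n ∈ squareSizes Θ)) ∧
      ∃ n₀, ∀ n, n₀ ≤ n → g n ≤ 2 ^ posN n := by
  obtain ⟨C, hC⟩ := exists_SqCond Θ
  refine ⟨tg Θ C, cn_tg Θ C, fun n _ => ?_, C + 2, fun n hn => ?_⟩
  · rw [tg_ne_zero, hC]
  · refine (tg_le Θ C n).trans ?_
    calc (C + 1) ^ (n * n) ≤ (2 ^ (C + 1)) ^ (n * n) :=
          Nat.pow_le_pow_left Nat.lt_two_pow_self.le _
      _ = 2 ^ ((C + 1) * (n * n)) := (pow_mul _ _ _).symm
      _ ≤ 2 ^ posN n := by
          refine Nat.pow_le_pow_right (by norm_num) ?_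
          have h1 := pos_card n
          have h2 := val_fact_le n
          have h3 : n ^ 3 = n * (n * n) := by ring
          have h4 : (C + 2) * (n * n) ≤ n * (n * n) := Nat.mul_le_mul_right _ hn
          have h5 : n ≤ n * n := Nat.le_mul_self n
          have h6 : (C + 2) * (n * n) = (C + 1) * (n * n) + n * n := by ring
          omega

end Pool.Agent.Helper38.DG
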