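import Pool.Agent.Helper38.DG.Digit
import Pool.Agent.Helper38.DG.Tiles
import Pool.Agent.Helper38.DG.Models

/-!
# Digits of the number of models: digits give `squareSizes`
-/

set_option autoImplicit false

namespace Pool.Agent.Helper38.DG

open FirstOrder FirstOrder.Language Pool.Agent.Helper20.Spectra
open scoped Classical

theorem sq_digit (Θ : Finset (ℕ × ℕ × ℕ × ℕ)) :
    ∃ (L : FirstOrder.Language.{0, 0}) (_ : Finite (Σ l, L.Functions l))
      (_ : Finite (Σ l, L.Relations l)) (φ : L.Sentence) (n₀ : ℕ), ∀ n, n₀ ≤ n →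
      ((numModels φ n).testBit (n ^ 3) = true ↔ n ∈ squareSizes Θ) := by
  obtain ⟨g, hg, hg1, n₀, hg2⟩ := cn_tiles Θ
  obtain ⟨F, hF, hF1⟩ := digit_of (cn_add hg cn_posSub)
  obtain ⟨L, i1, i2, φ, hφ⟩ := cn_models hF
  refine ⟨L, i1, i2, φ, n₀ + 2, fun n hn => ?_⟩
  rw [hφ n (by omega), hF1 n _ (Nat.ModEq.refl _), ← hg1 n (by omega)]
  have h1 := hg2 n (by omega)
  show (g n + (2 ^ posN n - 1)).testBit (posN n) = true ↔ g n ≠ 0
  have h2 : 0 < 2 ^ posN n := by positivity
  rcases Nat.eq_zero_or_pos (g n) with h0 | h0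
  · rw [h0, zero_add, Nat.testBit_lt_two_pow (by omega)]
    simp
  · have h3 : g n + (2 ^ posN n - 1) = (g n - 1) + 2 ^ posN n := by omega
    rw [h3, Nat.testBit_eq_decide_div_mod_eq, Nat.add_div_right _ h2,
      Nat.div_eq_of_lt (by omega)]
    simp
    omega

end Pool.Agent.Helper38.DG
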