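import Pool.Agent.Helper38.DG.CnBasic
import Pool.Agent.Helper38.DG.CnProd
import Pool.Agent.Helper38.DG.CnRel
import Pool.Agent.Helper38.DG.Amp
import Pool.Agent.Helper38.DG.Pos

/-!
# DG18: amplification and the sum over the random relations
-/

set_option autoImplicit false

namespace Pool.Agent.Helper38.DG

open FirstOrder FirstOrder.Language Pool.Agent.Helper20.Spectra
open scoped Classical

private lemma pv {k : ℕ} (i : Fin k) : Pool.Agent.Helper20.Spectra.IsPoly k (fun v => v i) :=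
  Pool.Agent.Helper20.Spectra.IsPoly.var i

private lemma pc {k : ℕ} (n : ℕ) : Pool.Agent.Helper20.Spectra.IsPoly k (fun _ => n) :=
  Pool.Agent.Helper20.Spectra.IsPoly.const n

/-- the first slice of the ternary relation, below the bound -/
private def qt : ∀ i : Option (Fin 0), SOA (addV 3 noV) → (Fin (tdAr 0 i + 1) → ℕ) → Prop
  | none => fun Y w => (show Fin 3 → ℕ from w) 0 < (show Fin 3 → ℕ from w) 2 ∧
      (show Fin 3 → ℕ from w) 1 < (show Fin 3 → ℕ from w) 2 ∧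
      Y none ![0, (show Fin 3 → ℕ from w) 0, (show Fin 3 → ℕ from w) 1]
  | some i => i.elim0

private lemma qt_rud (i : Option (Fin 0)) : RudX (addV 3 noV) (tdAr 0 i + 1) (qt i) := by
  match i with
  | none =>
    have h0 : RudX (addV 3 noV) 3 (fun _ w => w 0 < w 2) := RudX.lt (pv 0) (pv 2)
    have h1 : RudX (addV 3 noV) 3 (fun _ w => w 1 < w 2) := RudX.lt (pv 1) (pv 2)
    have h2 : RudX (addV 3 noV) 3 (fun Y w => Y none (fun j : Fin 3 => (![fun _ => 0, fun w => w 0, fun w => w 1] :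
        Fin 3 → (Fin 3 → ℕ) → ℕ) j w)) := by
      refine RudX.so' (a := addV 3 noV) (k := 3) none (t := (![fun _ => 0, fun w => w 0, fun w => w 1] : Fin 3 → (Fin 3 → ℕ) → ℕ)) ?_
      intro j
      change Fin 3 at j
      fin_cases j
      · exact pc 0
      · exact pv 0
      · exact pv 1
    refine (h0.and' (h1.and' h2)).congr fun Y w => ?_
    have h3 : (fun j : Fin 3 => (![fun _ => 0, fun w => w 0, fun w => w 1] : Fin 3 → (Fin 3 → ℕ) → ℕ) j w) =
        ![0, (show Fin 3 → ℕ from w) 0, (show Fin 3 → ℕ from w) 1] := by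
      funext j
      fin_cases j <;> rfl
    rw [h3]
    rfl
  | some i => exact i.elim0

private lemma qt_eq (n : ℕ) (Z : (Fin 3 → ℕ) → Prop) :
    (fun i w => qt i (consV Z nil) (Fin.append w (fun _ : Fin 1 => n))) = tdAs (slice n Z) Fin.elim0 := by
  funext i
  match i with
  | none =>
    funext w
    change Fin 2 → ℕ at w
    refine propext ?_
    change (w 0 < n ∧ w 1 < n ∧ Z ![0, w 0, w 1]) ↔
      ∃ x y : Fin n, w = ![(x : ℕ), (y : ℕ)] ∧ slice n Z x y = true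
    constructor
    · rintro ⟨h0, h1, h2⟩
      refine ⟨⟨w 0, h0⟩, ⟨w 1, h1⟩, ?_, ?_⟩
      · funext j
        fin_cases j <;> rfl
      · unfold slice
        exact (@decide_eq_true_iff _ (Classical.propDecidable _)).2 h2
    · rintro ⟨x, y, rfl, h⟩
      unfold slice at h
      exact ⟨x.2, y.2, (@decide_eq_true_iff _ (Classical.propDecidable _)).1 h⟩
  | some i => exact i.elim0

/-- all elements are positions -/
private lemma rud_pos : RudX (addV 3 noV) 1
    (fun Y v => ∀ w : Fin 3 → ℕ, (∀ j, w j < v 0) → Y none w → Pos (v 0) w) := by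
  have h1 : RudX (addV 3 noV) (3 + 1) (fun Y u => Y none (fun j : Fin 3 => u (Fin.castAdd 1 j)) →
      Pos (u (Fin.natAdd 3 0)) (fun i => u (Fin.castAdd 1 i))) :=
    (RudX.so' (a := addV 3 noV) (k := 3 + 1) none (t := fun (j : Fin 3) (u : Fin (3 + 1) → ℕ) => u (Fin.castAdd 1 j))
      fun j => pv (Fin.castAdd 1 (show Fin 3 from j))).imp
      (pos_rudX (t := fun u : Fin (3 + 1) → ℕ => u (Fin.natAdd 3 0)) (pv (Fin.natAdd 3 0))
        (w := fun (i : Fin 3) (u : Fin (3 + 1) → ℕ) => u (Fin.castAdd 1 i)) fun i => pv (Fin.castAdd 1 i))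
  refine (rudX_allT (e := 3) (pv (0 : Fin 1)) h1).congr fun Y v => ?_
  refine forall_congr' fun w => forall_congr' fun _ => ?_
  have h2 : (fun j : Fin 3 => (Fin.append w v : Fin (3 + 1) → ℕ) (Fin.castAdd 1 j)) = w := by
    funext j
    exact Fin.append_left w v j
  have h3 : (Fin.append w v : Fin (3 + 1) → ℕ) (Fin.natAdd 3 0) = v 0 := Fin.append_right w v 0
  rw [h2, h3]

private lemma isPoly_Lp : Pool.Agent.Helper20.Spectra.IsPoly 1 (fun v => Lp (v 0)) :=
  ((pc 2).mul ((pv 0).pow 3)).add (pc 2)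

private lemma finite_brel (e B : ℕ) : Finite (BRel e B) := by
  refine Finite.of_injective (fun (Z : BRel e B) (w : Fin e → Fin B) => Z.1 fun j => (w j : ℕ)) ?_
  intro Z Z' h
  refine Subtype.ext (funext fun w => propext ⟨fun hw => ?_, fun hw => ?_⟩)
  · have h1 := congrFun h fun j => ⟨w j, Z.2 w hw j⟩
    exact (iff_of_eq h1).1 hw
  · have h1 := congrFun h fun j => ⟨w j, Z'.2 w hw j⟩
    exact (iff_of_eq h1).2 hw

private lemma sum_card (n : ℕ) (R : ((Fin 3 → ℕ) → Prop) → Prop)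
    [dec : ∀ Z : BRel 3 n, Decidable ((∀ w, (∀ j, w j < n) → Z.1 w → Pos n w) ∧ R Z.1)] :
    ∑ᶠ Z : BRel 3 n, (if (∀ w, (∀ j, w j < n) → Z.1 w → Pos n w) ∧ R Z.1 then 1 else 0) =
      Nat.card {Z : (Fin 3 → ℕ) → Prop // (∀ w, Z w → Pos n w) ∧ R Z} := by
  have := finite_brel 3 n
  have := Fintype.ofFinite (BRel 3 n)
  rw [finsum_eq_sum_of_fintype, Finset.sum_boole, Nat.cast_id, ← Fintype.card_subtype, ← Nat.card_eq_fintype_card]
  refine Nat.card_congr ⟨fun Z => ⟨Z.1.1, fun w hw => Z.2.1 w (Z.1.2 w hw) hw, Z.2.2⟩,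
    fun Z => ⟨⟨Z.1, fun w hw j => (Z.2.1 w hw).1 j⟩, fun w _ hw => Z.2.1 w hw, Z.2.2⟩, fun Z => rfl, fun Z => rfl⟩

private lemma modEq_sum {α : Type} [Fintype α] (m : ℕ) (f g : α → ℕ) (h : ∀ i, f i ≡ g i [MOD m]) :
    ∑ i, f i ≡ ∑ i, g i [MOD m] := by
  unfold Nat.ModEq
  rw [Finset.sum_nat_mod, Finset.sum_nat_mod (f := g)]
  exact congrArg (· % m) (Finset.sum_congr rfl fun i _ => h i)

theorem toda_G {C : SOA (tdAr 0) → (Fin 1 → ℕ) → ℕ} (hC : Cn (tdAr 0) 1 C) :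
    ∃ G : SOA noV → (Fin 1 → ℕ) → ℕ, Cn noV 1 G ∧ ∀ n, 2 ≤ n → G nil (fun _ => n) ≡
      Nat.card {Z : (Fin 3 → ℕ) → Prop // (∀ w, Z w → Pos n w) ∧
        Even (C (tdAs (slice n Z) Fin.elim0) (fun _ => n))} +
      Nat.card {Z : (Fin 3 → ℕ) → Prop // (∀ w, Z w → Pos n w) ∧ ¬ Z ![0, 0, 0] ∧
        ¬ Z ![0, 0, 1]} [MOD 2 ^ Lp n] := by
  have h1 : Cn (addV 3 noV) 1 (fun Y v => C (fun i w => qt i Y (Fin.append w (fun _ : Fin 1 => v 0)))
      (fun _ => v 0)) :=
    cn_substR hC (d := 1) (Q := qt) qt_rud (σ := fun _ v => v 0) (fun _ => pv 0)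
      (τ := fun _ v => v 0) (fun _ => pv 0)
  have h2 := cn_ind rud_pos
  have h3 := cn_mul h2 (cn_pow (cn_add (cn_pow h1 isPoly_Lp) (cn_two_pow_sub isPoly_Lp)) isPoly_Lp)
  have h4 := cn_sumR 3 h3 (pv 0)
  have hso : ∀ m : ℕ, RudX (addV 3 noV) 1 (fun Y _ => ¬ Y none ![0, 0, m]) := by
    intro m
    exact (RudX.so' (a := addV 3 noV) (k := 1) none (t := fun (j : Fin 3) (_ : Fin 1 → ℕ) => (![0, 0, m] : Fin 3 → ℕ) j)
      fun j => pc _).not'
  have h5 := cn_sumR 3 (cn_ind (rud_pos.and' ((hso 0).and' (hso 1)))) (pv 0)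
  refine ⟨_, cn_add h4 h5, fun n hn => ?_⟩
  refine Nat.ModEq.add ?_ (congrArg (· % 2 ^ Lp n) ?_)
  · rw [← sum_card n fun Z => Even (C (tdAs (slice n Z) Fin.elim0) (fun _ => n))]
    have := finite_brel 3 n
    have := Fintype.ofFinite (BRel 3 n)
    rw [finsum_eq_sum_of_fintype, finsum_eq_sum_of_fintype]
    refine modEq_sum _ _ _ fun Z => ?_
    have h6 := qt_eq n Z.1
    show (if ∀ w : Fin 3 → ℕ, (∀ j, w j < n) → Z.1 w → Pos n w then 1 else 0) *
      (C (fun i w => qt i (consV Z.1 nil) (Fin.append w (fun _ : Fin 1 => n))) (fun _ => n) ^ Lp n +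
        (2 ^ Lp n - 1)) ^ Lp n ≡ _ [MOD 2 ^ Lp n]
    rw [h6]
    by_cases hp : ∀ w : Fin 3 → ℕ, (∀ j, w j < n) → Z.1 w → Pos n w
    · rw [if_pos hp, one_mul]
      by_cases he : Even (C (tdAs (slice n Z.1) Fin.elim0) (fun _ => n))
      · rw [if_pos ⟨hp, he⟩]
        refine amp_even ?_ he
        unfold Lp
        exact ⟨n ^ 3 + 1, by ring⟩
      · rw [if_neg fun h => he h.2]
        exact (Nat.modEq_zero_iff_dvd).2 (amp_odd (Nat.not_even_iff_odd.1 he))
    · rw [if_neg hp, if_neg fun h => hp h.1, zero_mul]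
  · exact sum_card n (fun Z => ¬ Z ![0, 0, 0] ∧ ¬ Z ![0, 0, 1]) (dec := fun _ => Classical.propDecidable _)

end Pool.Agent.Helper38.DG
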