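import Pool.Agent.Helper38.DG.Rep
import Pool.Agent.Helper38.DG.RepS
import Pool.Agent.Helper38.DG.Est
import Pool.Agent.Helper38.DG.TodaG
import Pool.Agent.Helper38.DG.Digit
import Pool.Agent.Helper38.DG.Models

/-!
# DG19: digits of the number of models of a sentence give the class `RudS ll`
-/

set_option autoImplicit false

namespace Pool.Agent.Helper38.DG

open FirstOrder FirstOrder.Language Pool.Agent.Helper20.Spectra
open scoped Classical

/-- every property of the class is represented modulo 2 -/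
theorem rep_of_asf {j k : ℕ} {P : ℕ → (Fin j → Set ℕ) → (Fin k → ℕ) → Prop} (h : ASF ll j k P) :
    Rep ll j k P := by
  induction h with
  | add j k x y z => exact rep_add ll j k x y z
  | mul j k x y z => exact rep_mul ll j k x y z
  | mem j k x i => exact rep_mem ll j k x i
  | not j k P _ ih => exact rep_not ll j k P ih
  | and j k P Q _ _ ih ih' => exact rep_and ll j k P Q ih ih'
  | ex j k P _ ih => exact rep_ex ll j k P ih
  | exS j k P _ ih => exact rep_exS j k P ih

/-- bit `p` of a number between `2^p` and `2^(p+1)` -/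
lemma testBit_of_le {p B : ℕ} (h1 : 2 ^ p ≤ B) (h2 : B < 2 ^ (p + 1)) : B.testBit p = true := by
  rw [Nat.testBit_eq_decide_div_mod_eq]
  have : B / 2 ^ p = 1 := by
    rw [Nat.div_eq_iff (by positivity)]
    rw [pow_succ] at h2
    omega
  rw [this]
  decide

/-- the counting step: `E` = number of positions-assignments with `C` even -/
lemma digit_iff {n : ℕ} (S : Set (Fin n → Fin n → Bool)) (Q : Prop) (E q : ℕ)
    (hE : E * 2 ^ (n * n) = 2 ^ posN n * Nat.card S) (hq : 4 * q = 2 ^ posN n)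
    (h1 : Q → ((Nat.card (Sᶜ : Set (Fin n → Fin n → Bool)) : ℕ) : ℝ) ≤ 1 / 8 * 2 ^ (n * n))
    (h2 : ¬ Q → ((Nat.card S : ℕ) : ℝ) ≤ 1 / 8 * 2 ^ (n * n)) :
    (E + q).testBit (posN n) = true ↔ Q := by
  have hcard : Nat.card S + Nat.card (Sᶜ : Set (Fin n → Fin n → Bool)) = 2 ^ (n * n) := by
    have h := Set.ncard_add_ncard_compl S
    rw [Nat.card_coe_set_eq, Nat.card_coe_set_eq, h, Nat.card_eq_fintype_card]
    simp [pow_mul]
  have hpos : (0 : ℝ) < 2 ^ (n * n) := by positivity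
  have hposN : (0 : ℝ) < 2 ^ posN n := by positivity
  have hE' : (E : ℝ) * 2 ^ (n * n) = 2 ^ posN n * (Nat.card S : ℝ) := by exact_mod_cast hE
  have hq' : 4 * (q : ℝ) = 2 ^ posN n := by exact_mod_cast hq
  have hcard' : (Nat.card S : ℝ) + (Nat.card (Sᶜ : Set (Fin n → Fin n → Bool)) : ℝ) = 2 ^ (n * n) := by
    exact_mod_cast hcard
  by_cases hQ : Q
  · refine iff_of_true ?_ hQ
    have h3 := h1 hQ
    have h4 : (7 / 8 : ℝ) * 2 ^ (n * n) ≤ Nat.card S := by linarith
    have h5 : (7 / 8 : ℝ) * 2 ^ posN n ≤ E := by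
      have : (7 / 8 : ℝ) * 2 ^ posN n * 2 ^ (n * n) ≤ E * 2 ^ (n * n) := by
        rw [hE']
        calc (7 / 8 : ℝ) * 2 ^ posN n * 2 ^ (n * n) = 2 ^ posN n * (7 / 8 * 2 ^ (n * n)) := by ring
          _ ≤ _ := mul_le_mul_of_nonneg_left h4 hposN.le
      exact le_of_mul_le_mul_right this hpos
    have h6 : (E : ℝ) ≤ 2 ^ posN n := by
      have h7 : (Nat.card S : ℝ) ≤ 2 ^ (n * n) := by
        have : (0 : ℝ) ≤ (Nat.card (Sᶜ : Set (Fin n → Fin n → Bool)) : ℝ) := Nat.cast_nonneg _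
        linarith
      have : (E : ℝ) * 2 ^ (n * n) ≤ 2 ^ posN n * 2 ^ (n * n) := by
        rw [hE']
        exact mul_le_mul_of_nonneg_left h7 hposN.le
      exact le_of_mul_le_mul_right this hpos
    refine testBit_of_le ?_ ?_
    · have : (2 : ℝ) ^ posN n ≤ ((E + q : ℕ) : ℝ) := by push_cast; linarith
      exact_mod_cast this
    · have : ((E + q : ℕ) : ℝ) < 2 ^ (posN n + 1) := by
        push_cast
        rw [pow_succ]
        linarith
      exact_mod_cast this
  · refine iff_of_false ?_ hQ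
    have h3 := h2 hQ
    have h5 : (E : ℝ) ≤ (1 / 8 : ℝ) * 2 ^ posN n := by
      have : (E : ℝ) * 2 ^ (n * n) ≤ (1 / 8 : ℝ) * 2 ^ posN n * 2 ^ (n * n) := by
        rw [hE']
        calc 2 ^ posN n * (Nat.card S : ℝ) ≤ 2 ^ posN n * (1 / 8 * 2 ^ (n * n)) :=
              mul_le_mul_of_nonneg_left h3 hposN.le
          _ = _ := by ring
      exact le_of_mul_le_mul_right this hpos
    have h6 : E + q < 2 ^ posN n := by
      have : ((E + q : ℕ) : ℝ) < 2 ^ posN n := by push_cast; linarith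
      exact_mod_cast this
    rw [Nat.testBit_eq_false_of_lt h6]
    decide

/-- `RudS ll` and digits of the number of models -/
theorem toda (A : Set ℕ) (hA : RudS ll A) :
    ∃ (L : FirstOrder.Language.{0, 0}) (_ : Finite (Σ l, L.Functions l))
      (_ : Finite (Σ l, L.Relations l)) (φ : L.Sentence) (n₀ : ℕ), ∀ n, n₀ ≤ n →
      ((numModels φ n).testBit (n ^ 3) = true ↔ n ∈ A) := by
  obtain ⟨P, hP, rfl⟩ := hA
  obtain ⟨C, e, hC, hrep⟩ := rep_not ll 0 0 P (rep_of_asf hP)
  obtain ⟨G, hG, hGn⟩ := toda_G hC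
  obtain ⟨F, hF, hFn⟩ := digit_of hG
  obtain ⟨L, i1, i2, φ, hφ⟩ := cn_models hF
  obtain ⟨n₁, hn₁⟩ := est e
  refine ⟨L, i1, i2, φ, max 2 n₁, fun n hn => ?_⟩
  have hn2 : 2 ≤ n := le_trans (le_max_left _ _) hn
  have hn1 : n₁ ≤ n := le_trans (le_max_right _ _) hn
  rw [hφ n hn2, hFn n _ (hGn n hn2)]
  have hmem : n ∈ {n | 1 ≤ n ∧ P n Fin.elim0 Fin.elim0} ↔ P n Fin.elim0 Fin.elim0 := by
    rw [Set.mem_ofPred_eq]
    exact and_iff_right (by omega)
  rw [hmem]
  have hv : (Fin.cons n (Fin.elim0 : Fin 0 → ℕ) : Fin (0 + 1) → ℕ) = fun _ => n := by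
    funext i
    have : i = 0 := Subsingleton.elim (α := Fin 1) i 0
    subst this
    rfl
  have hbd := hrep n hn2 Fin.elim0 (fun i => i.elim0) Fin.elim0 (fun i => i.elim0)
  rw [hv] at hbd
  have hbd' : (Nat.card {r : Fin n → Fin n → Bool //
        ¬ (C (tdAs r Fin.elim0) (fun _ => n) % 2 = 1 ↔ ¬ P n Fin.elim0 Fin.elim0)} : ℝ) ≤
        1 / 8 * 2 ^ (n * n) :=
    hbd.trans (mul_le_mul_of_nonneg_right (hn₁ n hn1) (by positivity))
  refine digit_iff {r | Even (C (tdAs r Fin.elim0) (fun _ => n))} _ _ _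
    (slice_card hn2 {r | Even (C (tdAs r Fin.elim0) (fun _ => n))}) (quarter_card hn2) ?_ ?_
  · intro hQ
    refine le_trans (le_of_eq ?_) hbd'
    congr 1
    refine Nat.card_congr (Equiv.subtypeEquivRight fun r => ?_)
    rw [Set.mem_compl_iff, Set.mem_ofPred_eq, Nat.not_even_iff]
    constructor
    · intro h h'
      exact (h'.1 h) hQ
    · intro h
      by_contra hne
      exact h ⟨fun h' => absurd h' hne, fun h' => absurd hQ h'⟩
  · intro hQ
    refine le_trans (le_of_eq ?_) hbd'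
    congr 1
    refine Nat.card_congr (Equiv.subtypeEquivRight fun r => ?_)
    rw [Set.mem_ofPred_eq, Nat.even_iff]
    constructor
    · intro h h'
      have := h'.2 hQ
      omega
    · intro h
      by_contra hne
      exact h ⟨fun _ => hQ, fun _ => by omega⟩

end Pool.Agent.Helper38.DG
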